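import Pool.Agent.G7.Model

/-!
# Elementary API for places
-/

open scoped IntermediateField
open Polynomial

namespace EtaleGonality

variable {F : Type} [Field F] [Algebra ℂ F]

namespace Place

variable {P : Place F}

lemma ord_inv (P : Place F) (a : F) : P.ord a⁻¹ = -P.ord a := by
  by_cases ha : a = 0
  · simp [ha, P.ord_zero]
  have h := P.ord_mul a a⁻¹ ha (inv_ne_zero ha)
  rw [mul_inv_cancel₀ ha, P.ord_one] at h
  omega

lemma ord_div (P : Place F) {a b : F} (ha : a ≠ 0) (hb : b ≠ 0) :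
    P.ord (a / b) = P.ord a - P.ord b := by
  rw [div_eq_mul_inv, P.ord_mul _ _ ha (inv_ne_zero hb), ord_inv]
  ring

lemma ord_pow (P : Place F) (a : F) (n : ℕ) : P.ord (a ^ n) = n * P.ord a := by
  by_cases ha : a = 0
  · subst ha
    rcases Nat.eq_zero_or_pos n with h | h
    · subst h; simp [P.ord_one]
    · rw [zero_pow h.ne', P.ord_zero]; simp
  induction n with
  | zero => simp [P.ord_one]
  | succ n ih => rw [pow_succ, P.ord_mul _ _ (pow_ne_zero _ ha) ha, ih]; push_cast; ring

lemma ord_sub_comm (P : Place F) (a b : F) : P.ord (a - b) = P.ord (b - a) := by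
  rw [← neg_sub, P.ord_neg]

lemma ord_smul (P : Place F) {c : ℂ} (hc : c ≠ 0) (a : F) : P.ord (c • a) = P.ord a := by
  by_cases ha : a = 0
  · simp [ha]
  rw [Algebra.smul_def, P.ord_mul _ _ (by simpa using hc) ha, P.ord_const]
  simp

lemma ord_natCast (P : Place F) (n : ℕ) : P.ord (n : F) = 0 := by
  have := P.ord_const n
  simpa using this

lemma ord_intCast (P : Place F) (n : ℤ) : P.ord (n : F) = 0 := by
  have := P.ord_const n
  simpa using this

lemma ord_ofNat (P : Place F) (n : ℕ) [n.AtLeastTwo] : P.ord (OfNat.ofNat n : F) = 0 := by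
  exact P.ord_natCast n

/-- the order of a sum is the smaller of the two if they are different -/
lemma ord_add_eq_left (P : Place F) {a b : F} (ha : a ≠ 0) (h : b = 0 ∨ P.ord a < P.ord b) :
    P.ord (a + b) = P.ord a ∧ a + b ≠ 0 := by
  by_cases hb : b = 0
  · subst hb; simpa using ha
  have hlt := h.resolve_left hb
  have hab : a + b ≠ 0 := by
    intro h0
    have : a = -b := by linear_combination h0
    rw [this, P.ord_neg] at hlt
    exact lt_irrefl _ hlt
  have h1 := P.ord_add a b ha hb hab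
  have h2 := P.ord_add (a + b) (-b) hab (neg_ne_zero.mpr hb) (by simpa using ha)
  rw [P.ord_neg, add_neg_cancel_right] at h2
  refine ⟨?_, hab⟩
  rw [min_eq_left hlt.le] at h1
  rcases min_le_iff.mp h2 with h3 | h3
  · exact le_antisymm h3 h1
  · exact absurd h3 (not_le.mpr hlt)

lemma zero_mem_L (n : ℤ) : (0 : F) ∈ P.L n := Or.inl rfl

lemma L_mono {m n : ℤ} (h : m ≤ n) : P.L n ≤ P.L m := by
  intro a ha
  rcases ha with ha | ha
  · exact Or.inl ha
  · exact Or.inr (h.trans ha)

lemma mem_L_of_ord_le {n : ℤ} {a : F} (h : n ≤ P.ord a) : a ∈ P.L n := Or.inr h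

lemma le_ord_of_mem_L {n : ℤ} {a : F} (h : a ∈ P.L n) (ha : a ≠ 0) : n ≤ P.ord a :=
  h.resolve_left ha

lemma mul_mem_L {m n : ℤ} {a b : F} (ha : a ∈ P.L m) (hb : b ∈ P.L n) : a * b ∈ P.L (m + n) := by
  by_cases ha0 : a = 0
  · left; simp [ha0]
  by_cases hb0 : b = 0
  · left; simp [hb0]
  right
  rw [P.ord_mul _ _ ha0 hb0]
  exact add_le_add (ha.resolve_left ha0) (hb.resolve_left hb0)

lemma pow_mem_L {m : ℤ} {a : F} (ha : a ∈ P.L m) (n : ℕ) : a ^ n ∈ P.L (n * m) := by
  induction n with
  | zero => right; simp [P.ord_one]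
  | succ n ih =>
    rw [pow_succ]
    have := mul_mem_L ih ha
    convert this using 2
    push_cast; ring

lemma algebraMap_mem_L (c : ℂ) : algebraMap ℂ F c ∈ P.L 0 := by
  right; rw [P.ord_const]

lemma one_mem_L : (1 : F) ∈ P.L 0 := by right; rw [P.ord_one]

lemma mul_mem_L_zero {n : ℤ} {a b : F} (ha : a ∈ P.L 0) (hb : b ∈ P.L n) : a * b ∈ P.L n := by
  simpa using mul_mem_L ha hb

/-- values at a finite place: if `t - c` vanishes at `P`, every polynomial in `t` is regular -/
lemma aeval_mem_L {t : F} (ht : t ∈ P.L 0) (p : ℂ[X]) : aeval t p ∈ P.L 0 := by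
  induction p using Polynomial.induction_on' with
  | add p q hp hq => rw [map_add]; exact Submodule.add_mem _ hp hq
  | monomial n a =>
    rw [aeval_monomial]
    refine mul_mem_L_zero (algebraMap_mem_L a) ?_
    simpa using pow_mem_L ht n

lemma t_mem_L {t : F} {c : ℂ} (h : 0 < P.ord (t - algebraMap ℂ F c)) : t ∈ P.L 0 := by
  have h1 : t - algebraMap ℂ F c ∈ P.L 0 := Or.inr h.le
  have := Submodule.add_mem _ h1 (algebraMap_mem_L c)
  simpa using this

/-- the value of `p(t)` at a place over `c` is `p(c)` -/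
lemma aeval_sub_mem_L {t : F} {c : ℂ} (h : 0 < P.ord (t - algebraMap ℂ F c)) (p : ℂ[X]) :
    aeval t p - algebraMap ℂ F (p.eval c) ∈ P.L 1 := by
  obtain ⟨q, hq⟩ : (X - C c) ∣ p - C (p.eval c) := by
    rw [dvd_iff_isRoot]; simp
  have h2 : aeval t p - algebraMap ℂ F (p.eval c) = (t - algebraMap ℂ F c) * aeval t q := by
    have := congrArg (aeval t) hq
    simpa using this
  rw [h2, mul_comm]
  exact mul_mem_L_zero (aeval_mem_L (t_mem_L h) q) (Or.inr h)

lemma ord_eq_zero_of_value {a : F} {c : ℂ} (hc : c ≠ 0) (h : a - algebraMap ℂ F c ∈ P.L 1) :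
    P.ord a = 0 ∧ a ≠ 0 := by
  have h1 : a = algebraMap ℂ F c + (a - algebraMap ℂ F c) := by ring
  have hc' : algebraMap ℂ F c ≠ 0 := by simpa using hc
  have := P.ord_add_eq_left (a := algebraMap ℂ F c) (b := a - algebraMap ℂ F c) hc' (by
    rcases h with h | h
    · exact Or.inl h
    · right; rw [P.ord_const]; omega)
  rw [← h1, P.ord_const] at this
  exact this

/-- a constant which vanishes at a place is zero -/
lemma const_eq_zero {c : ℂ} (h : algebraMap ℂ F c ∈ P.L 1) : c = 0 := by
  by_contra hc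
  rcases h with h | h
  · exact hc (by simpa using h)
  · rw [P.ord_const] at h; omega

/-- order of `p(t)` at a place over `c` -/
lemma ord_aeval {t : F} {c : ℂ} (h : 0 < P.ord (t - algebraMap ℂ F c)) {p : ℂ[X]} (hp : p ≠ 0) :
    aeval t p ≠ 0 ∧ P.ord (aeval t p) = p.rootMultiplicity c * P.ord (t - algebraMap ℂ F c) := by
  obtain ⟨q, hq, hq2⟩ := p.exists_eq_pow_rootMultiplicity_mul_and_not_dvd hp c
  have hqc : q.eval c ≠ 0 := by
    intro h0; exact hq2 (dvd_iff_isRoot.mpr h0)
  have htc : t - algebraMap ℂ F c ≠ 0 := by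
    intro h0; rw [h0, P.ord_zero] at h; exact lt_irrefl _ h
  have h1 := ord_eq_zero_of_value hqc (aeval_sub_mem_L h q)
  have h2 : aeval t p = (t - algebraMap ℂ F c) ^ (p.rootMultiplicity c) * aeval t q := by
    conv_lhs => rw [hq]
    simp
  rw [h2]
  refine ⟨mul_ne_zero (pow_ne_zero _ htc) h1.2, ?_⟩
  rw [P.ord_mul _ _ (pow_ne_zero _ htc) h1.2, P.ord_pow, h1.1, add_zero]

/-- order of `p(t)` at a pole of `t` -/
lemma ord_aeval_pole {t : F} (h : P.ord t < 0) {p : ℂ[X]} (hp : p ≠ 0) :
    aeval t p ≠ 0 ∧ P.ord (aeval t p) = p.natDegree * P.ord t := by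
  have ht0 : t ≠ 0 := by
    intro h0; rw [h0, P.ord_zero] at h; exact lt_irrefl _ h
  induction hn : p.natDegree using Nat.strong_induction_on generalizing p with
  | _ n ih =>
  have hlead : p.leadingCoeff ≠ 0 := leadingCoeff_ne_zero.mpr hp
  have h1 : aeval t p = algebraMap ℂ F p.leadingCoeff * t ^ n + aeval t p.eraseLead := by
    conv_lhs => rw [← p.eraseLead_add_C_mul_X_pow]
    simp [hn, add_comm]
  have h2 : algebraMap ℂ F p.leadingCoeff * t ^ n ≠ 0 :=
    mul_ne_zero (by simpa using hlead) (pow_ne_zero _ ht0)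
  have h3 : P.ord (algebraMap ℂ F p.leadingCoeff * t ^ n) = n * P.ord t := by
    rw [P.ord_mul _ _ (by simpa using hlead) (pow_ne_zero _ ht0), P.ord_const, P.ord_pow, zero_add]
  have h4 : aeval t p.eraseLead = 0 ∨ P.ord (algebraMap ℂ F p.leadingCoeff * t ^ n) <
      P.ord (aeval t p.eraseLead) := by
    by_cases h0 : p.eraseLead = 0
    · left; simp [h0]
    · right
      have hpos : 0 < n := by
        rcases Nat.eq_zero_or_pos n with hz | hz
        · exfalso; apply h0
          rw [hz] at hn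
          rw [Polynomial.eq_C_of_natDegree_eq_zero hn, eraseLead_C]
        · exact hz
      have hlt : p.eraseLead.natDegree < n := by
        rcases p.eraseLead_natDegree_lt_or_eraseLead_eq_zero with h5 | h5
        · rwa [hn] at h5
        · exact absurd h5 h0
      have h5 := (ih _ hlt h0 rfl).2
      rw [h5, h3]
      have : (p.eraseLead.natDegree : ℤ) < n := by exact_mod_cast hlt
      nlinarith
  have h5 := P.ord_add_eq_left h2 h4
  rw [h1]
  exact ⟨h5.2, by rw [h5.1, h3]⟩

/-- pull back of a place by an automorphism -/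
def comap (P : Place F) (e : F ≃ₐ[ℂ] F) : Place F where
  ord := fun a => P.ord (e a)
  ord_zero := by simp [P.ord_zero]
  ord_mul := fun a b ha hb => by
    rw [map_mul]
    exact P.ord_mul _ _ (by simpa using ha) (by simpa using hb)
  ord_add := fun a b ha hb hab => by
    rw [map_add]
    refine P.ord_add _ _ (by simpa using ha) (by simpa using hb) ?_
    rw [← map_add]
    exact (map_ne_zero e).mpr hab
  ord_const := fun c => by rw [AlgEquiv.commutes, P.ord_const]
  ord_surj := by
    obtain ⟨π, h0, h1⟩ := P.ord_surj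
    exact ⟨e.symm π, by simpa using h0, by simpa using h1⟩

@[simp] lemma comap_ord (P : Place F) (e : F ≃ₐ[ℂ] F) (a : F) :
    (P.comap e).ord a = P.ord (e a) := rfl

lemma mem_comap_L (P : Place F) (e : F ≃ₐ[ℂ] F) {a : F} {n : ℤ} :
    a ∈ (P.comap e).L n ↔ e a ∈ P.L n := by
  simp [mem_L]

end Place

end EtaleGonality
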