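import Pool.Agent.G7.Api

/-!
# T1: places of function fields and the trace theorem
-/

open scoped IntermediateField
open Polynomial

namespace EtaleGonality

variable {F : Type} [Field F] [Algebra ℂ F]

namespace T1

/-- a nonconstant function is transcendental -/
theorem transcendental_of_notMem {φ : F} (hφ : φ ∉ (algebraMap ℂ F).range) :
    Transcendental ℂ φ := by
  intro h
  apply hφ
  have hi : IsIntegral ℂ φ := h.isIntegral
  have hd := IsAlgClosed.degree_eq_one_of_irreducible ℂ (minpoly.irreducible hi)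
  exact minpoly.mem_range_of_degree_eq_one ℂ φ hd

end T1

/-- A nonconstant function gives a finite extension. -/
theorem finiteDimensional_adjoin (hF : IsFunctionField F) {φ : F}
    (hφ : φ ∉ (algebraMap ℂ F).range) : FiniteDimensional ℂ⟮φ⟯ F := by
  obtain ⟨t, ht, hfin⟩ := hF
  have htr := T1.transcendental_of_notMem hφ
  open scoped IntermediateField.algebraAdjoinAdjoin in
  have halg : Algebra.IsAlgebraic (Algebra.adjoin ℂ {t}) F :=
    Algebra.IsAlgebraic.trans (Algebra.adjoin ℂ {t}) ℂ⟮t⟯ F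
  have hle : Algebra.trdeg ℂ F ≤ 1 := by
    have := Algebra.IsAlgebraic.trdeg_le_cardinalMk ℂ ({t} : Set F)
    simpa using this
  have hind : AlgebraicIndependent ℂ (fun _ : Unit => φ) := by
    rw [algebraicIndependent_unique_type_iff]
    exact htr
  have hb := hind.isTranscendenceBasis_of_trdeg_le_of_finite (by simpa using hle)
  have halg2 := hb.isAlgebraic
  have hr : Set.range (fun _ : Unit => φ) = {φ} := by simp
  rw [hr] at halg2
  open scoped IntermediateField.algebraAdjoinAdjoin in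
  have halg3 : Algebra.IsAlgebraic ℂ⟮φ⟯ F :=
    Algebra.IsAlgebraic.extendScalars
      (FaithfulSMul.algebraMap_injective (Algebra.adjoin ℂ {φ}) ℂ⟮φ⟯)
  have hess1 : Algebra.EssFiniteType ℂ ℂ⟮t⟯ :=
    IntermediateField.essFiniteType_iff.mpr ⟨{t}, by simp⟩
  have hess2 : Algebra.EssFiniteType ℂ F := Algebra.EssFiniteType.comp ℂ ℂ⟮t⟯ F
  have hess3 : Algebra.EssFiniteType ℂ⟮φ⟯ F := Algebra.EssFiniteType.of_comp ℂ ℂ⟮φ⟯ F
  exact Algebra.finite_of_essFiniteType_of_isAlgebraic

namespace T1

set_option linter.overlappingInstances false in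
attribute [local instance] Ideal.Quotient.field in
/-- An integral element lying in all primes over `p` has trace divisible by `p`. -/
theorem trace_core {A B K L : Type} [CommRing A] [IsDomain A] [IsDedekindDomain A] [CommRing B]
    [IsDomain B] [IsIntegrallyClosed B] [Field K] [Field L] [Algebra A B] [Algebra A K]
    [IsFractionRing A K] [Algebra B L] [IsFractionRing B L] [Algebra K L] [Algebra A L]
    [IsScalarTower A K L] [IsScalarTower A B L] [IsIntegralClosure B A L] [FiniteDimensional K L]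
    [Module.Finite A B] [Module.IsTorsionFree A B]
    (p : A) (hp : (Ideal.span {p}).IsMaximal) (y : B)
    (h : ∀ P : Ideal B, P.IsPrime → algebraMap A B p ∈ P → y ∈ P) :
    ∃ a : A, Algebra.trace K L (algebraMap B L y) = algebraMap A K (p * a) := by
  have hrad : y ∈ (Ideal.map (algebraMap A B) (Ideal.span {p})).radical := by
    rw [Ideal.radical_eq_sInf, Ideal.mem_sInf]
    intro J hJ
    refine h J hJ.2 (hJ.1 (Ideal.mem_map_of_mem _ (Ideal.mem_span_singleton_self p)))
  obtain ⟨n, hn⟩ := hrad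
  have hnil : IsNilpotent (Ideal.Quotient.mk (Ideal.map (algebraMap A B) (Ideal.span {p})) y) :=
    ⟨n, by rw [← map_pow]; exact Ideal.Quotient.eq_zero_iff_mem.mpr hn⟩
  have h1 := Algebra.trace_quotient_eq_of_isDedekindDomain (S := B) (Ideal.span {p}) y
  have h2 := (Algebra.isNilpotent_trace_of_isNilpotent (R := A ⧸ Ideal.span {p}) hnil).eq_zero
  rw [h2] at h1
  have h3 : Algebra.intTrace A B y ∈ Ideal.span {p} := Ideal.Quotient.eq_zero_iff_mem.mp h1.symm
  obtain ⟨a, ha⟩ := Ideal.mem_span_singleton'.mp h3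
  refine ⟨a, ?_⟩
  rw [← Algebra.algebraMap_intTrace (A := A) (K := K) (L := L) (B := B) y, ← ha, mul_comm]

open IsDedekindDomain in
/-- the place defined by a maximal ideal of a Dedekind domain -/
noncomputable def placeOf {B : Type} [CommRing B] [IsDedekindDomain B]
    [Algebra ℂ B] [Algebra B F] [IsScalarTower ℂ B F] [IsFractionRing B F]
    (v : HeightOneSpectrum B) : Place F where
  ord := fun a => - WithZero.log (v.valuation F a)
  ord_zero := by simp
  ord_mul := by
    intro a b ha hb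
    rw [map_mul, WithZero.log_mul (by simpa using ha) (by simpa using hb)]
    ring
  ord_add := by
    intro a b ha hb hab
    have h := (v.valuation F).map_add a b
    rw [min_neg_neg, neg_le_neg_iff]
    have ha' : v.valuation F a ≠ 0 := by simpa using ha
    have hb' : v.valuation F b ≠ 0 := by simpa using hb
    have hab' : v.valuation F (a + b) ≠ 0 := by simpa using hab
    rcases le_max_iff.mp h with h | h
    · exact le_max_of_le_left ((WithZero.log_le_log hab' ha').mpr h)
    · exact le_max_of_le_right ((WithZero.log_le_log hab' hb').mpr h)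
  ord_const := by
    intro c
    by_cases hc : c = 0
    · simp [hc]
    have h1 : v.valuation F (algebraMap ℂ F c) ≤ 1 := by
      rw [IsScalarTower.algebraMap_apply ℂ B F]
      exact v.valuation_le_one _
    have h2 : v.valuation F (algebraMap ℂ F c⁻¹) ≤ 1 := by
      rw [IsScalarTower.algebraMap_apply ℂ B F]
      exact v.valuation_le_one _
    have h3 : v.valuation F (algebraMap ℂ F c) * v.valuation F (algebraMap ℂ F c⁻¹) = 1 := by
      rw [← map_mul, ← map_mul, mul_inv_cancel₀ hc, map_one, map_one]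
    have h4 : v.valuation F (algebraMap ℂ F c) = 1 := by
      refine le_antisymm h1 ?_
      by_contra hlt
      push Not at hlt
      have : v.valuation F (algebraMap ℂ F c) * v.valuation F (algebraMap ℂ F c⁻¹) < 1 :=
        mul_lt_one_of_lt_of_le hlt h2
      rw [h3] at this
      exact lt_irrefl _ this
    rw [h4]
    simp
  ord_surj := by
    obtain ⟨π, hπ⟩ := v.valuation_exists_uniformizer F
    refine ⟨π, ?_, ?_⟩
    · rintro rfl
      rw [map_zero] at hπ
      exact absurd hπ.symm (by simp)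
    · rw [hπ]; simp

section placeOf

open IsDedekindDomain

variable {B : Type} [CommRing B] [IsDedekindDomain B]
    [Algebra ℂ B] [Algebra B F] [IsScalarTower ℂ B F] [IsFractionRing B F]

theorem placeOf_ord (v : HeightOneSpectrum B) (a : F) :
    (placeOf (F := F) v).ord a = - WithZero.log (v.valuation F a) := rfl

theorem algebraMap_mem_L (v : HeightOneSpectrum B) (b : B) :
    algebraMap B F b ∈ (placeOf (F := F) v).L 0 := by
  by_cases hb : algebraMap B F b = 0
  · exact Or.inl hb
  right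
  rw [placeOf_ord]
  have h := v.valuation_le_one (K := F) b
  have h2 : v.valuation F (algebraMap B F b) ≠ 0 := by simpa using hb
  have := (WithZero.log_le_log h2 one_ne_zero).mpr h
  rw [WithZero.log_one] at this
  omega

theorem mem_asIdeal_iff (v : HeightOneSpectrum B) (b : B) :
    algebraMap B F b ∈ (placeOf (F := F) v).L 1 ↔ b ∈ v.asIdeal := by
  rw [← v.valuation_lt_one_iff_mem (K := F)]
  by_cases hb : algebraMap B F b = 0
  · simp only [hb, map_zero, zero_lt_one, iff_true]
    exact Or.inl rfl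
  have h2 : v.valuation F (algebraMap B F b) ≠ 0 := by simpa using hb
  rw [Place.mem_L, or_iff_right hb, placeOf_ord, ← WithZero.log_lt_log h2 one_ne_zero,
    WithZero.log_one]
  omega

theorem mem_range_of_mem_L {y : F} (h : ∀ v : HeightOneSpectrum B, y ∈ (placeOf (F := F) v).L 0) :
    ∃ b : B, algebraMap B F b = y := by
  have := HeightOneSpectrum.mem_integers_of_valuation_le_one (R := B) F y (by
    intro v
    rcases h v with h0 | h0
    · rw [h0, map_zero]; exact zero_le_one
    · by_cases hy : y = 0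
      · rw [hy, map_zero]; exact zero_le_one
      have h2 : v.valuation F y ≠ 0 := by simpa using hy
      rw [placeOf_ord] at h0
      rw [← WithZero.log_le_log h2 one_ne_zero, WithZero.log_one]
      omega)
  obtain ⟨b, hb⟩ := this
  exact ⟨b, hb⟩

end placeOf

section adjoin

variable {φ : F}

/-- the polynomial ring `ℂ[φ]` is principal -/
theorem isPrincipalIdealRing_adjoin (φ : F) :
    IsPrincipalIdealRing (Algebra.adjoin ℂ {φ}) := by
  let f : ℂ[X] →+* Algebra.adjoin ℂ {φ} :=
    ((aeval φ : ℂ[X] →ₐ[ℂ] F).codRestrict (Algebra.adjoin ℂ {φ}) (fun p => by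
      rw [Algebra.adjoin_singleton_eq_range_aeval]; exact ⟨p, rfl⟩)).toRingHom
  have hf : Function.Surjective f := by
    rintro ⟨a, ha⟩
    rw [Algebra.adjoin_singleton_eq_range_aeval] at ha
    obtain ⟨p, hp⟩ := ha
    exact ⟨p, Subtype.ext hp⟩
  exact IsPrincipalIdealRing.of_surjective f hf

theorem exists_aeval (a : Algebra.adjoin ℂ {φ}) : ∃ p : ℂ[X], aeval φ p = (a : F) := by
  obtain ⟨a, ha⟩ := a
  rw [Algebra.adjoin_singleton_eq_range_aeval] at ha
  exact ha

/-- `φ - c` as an element of `ℂ[φ]` -/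
noncomputable def pc (φ : F) (c : ℂ) : Algebra.adjoin ℂ {φ} :=
  ⟨φ, Algebra.self_mem_adjoin_singleton ℂ φ⟩ - algebraMap ℂ _ c

@[simp] theorem coe_pc (φ : F) (c : ℂ) : (pc φ c : F) = φ - algebraMap ℂ F c := rfl

theorem span_pc_isMaximal (hφ : φ ∉ (algebraMap ℂ F).range) (c : ℂ) :
    (Ideal.span {pc φ c}).IsMaximal := by
  have htr := transcendental_of_notMem hφ
  rw [Ideal.isMaximal_iff]
  constructor
  · intro h
    obtain ⟨a, ha⟩ := Ideal.mem_span_singleton'.mp h
    obtain ⟨p, hp⟩ := exists_aeval a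
    have h1 : aeval φ (p * (X - C c) - 1) = 0 := by
      have := congrArg (Subtype.val) ha
      simp only [MulMemClass.coe_mul, coe_pc, OneMemClass.coe_one] at this
      rw [map_sub, map_mul, hp, map_sub, aeval_X, aeval_C, map_one, this, sub_self]
    have h2 := (transcendental_iff.mp htr) _ h1
    have h3 := congrArg (Polynomial.eval c) h2
    simp at h3
  · intro J x hJ hx hxJ
    obtain ⟨p, hp⟩ := exists_aeval x
    obtain ⟨q, hq⟩ : (X - C c) ∣ p - C (p.eval c) := by
      rw [dvd_iff_isRoot]; simp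
    have h2 : (x : F) = (φ - algebraMap ℂ F c) * aeval φ q + algebraMap ℂ F (p.eval c) := by
      rw [← hp, ← sub_eq_iff_eq_add]
      have := congrArg (aeval φ) hq
      simpa using this
    have hqm : aeval φ q ∈ Algebra.adjoin ℂ {φ} := by
      rw [Algebra.adjoin_singleton_eq_range_aeval]; exact ⟨q, rfl⟩
    have h3 : x = pc φ c * ⟨aeval φ q, hqm⟩ + algebraMap ℂ _ (p.eval c) := Subtype.ext h2
    have h4 : pc φ c * ⟨aeval φ q, hqm⟩ ∈ Ideal.span {pc φ c} :=
      Ideal.mul_mem_right _ _ (Ideal.mem_span_singleton_self _)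
    have h5 : p.eval c ≠ 0 := by
      intro h0
      rw [h0, map_zero, add_zero] at h3
      exact hx (h3 ▸ h4)
    have h6 : algebraMap ℂ (Algebra.adjoin ℂ {φ}) (p.eval c) ∈ J := by
      have : algebraMap ℂ (Algebra.adjoin ℂ {φ}) (p.eval c) = x - pc φ c * ⟨aeval φ q, hqm⟩ := by
        rw [h3]; ring
      rw [this]
      exact J.sub_mem hxJ (hJ h4)
    have h7 := J.mul_mem_left (algebraMap ℂ _ (p.eval c)⁻¹) h6
    rwa [← map_mul, inv_mul_cancel₀ h5, map_one] at h7

theorem pc_ne_zero (hφ : φ ∉ (algebraMap ℂ F).range) (c : ℂ) : pc φ c ≠ 0 := by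
  intro h
  apply hφ
  have := congrArg Subtype.val h
  simp only [coe_pc, ZeroMemClass.coe_zero] at this
  exact ⟨c, (sub_eq_zero.mp this).symm⟩

end adjoin

section main

open IsDedekindDomain
open scoped IntermediateField.algebraAdjoinAdjoin

variable {φ : F}

theorem isDedekindDomain_adjoin (φ : F) : IsDedekindDomain (Algebra.adjoin ℂ {φ}) :=
  have := isPrincipalIdealRing_adjoin φ
  inferInstance

theorem isDedekindDomain_integralClosure (φ : F) [FiniteDimensional ℂ⟮φ⟯ F] :
    IsDedekindDomain (integralClosure (Algebra.adjoin ℂ {φ}) F) :=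
  have := isDedekindDomain_adjoin φ
  integralClosure.isDedekindDomain (Algebra.adjoin ℂ {φ}) ℂ⟮φ⟯ F

theorem algebraMap_injective (φ : F) : Function.Injective
    (algebraMap (Algebra.adjoin ℂ {φ}) (integralClosure (Algebra.adjoin ℂ {φ}) F)) := by
  intro a b hab
  have := congrArg Subtype.val hab
  exact Subtype.ext this

theorem exists_place_aux (hφ : φ ∉ (algebraMap ℂ F).range) [FiniteDimensional ℂ⟮φ⟯ F] (c : ℂ) :
    ∃ P : Place F, 0 < P.ord (φ - algebraMap ℂ F c) := by
  have hA := isDedekindDomain_adjoin φ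
  have hB := isDedekindDomain_integralClosure φ
  have hfr : IsFractionRing (integralClosure (Algebra.adjoin ℂ {φ}) F) F :=
    integralClosure.isFractionRing_of_finite_extension ℂ⟮φ⟯ F
  have hmax := span_pc_isMaximal hφ c
  obtain ⟨Q, hQ, hQ2⟩ := Ideal.exists_ideal_over_maximal_of_isIntegral
    (S := integralClosure (Algebra.adjoin ℂ {φ}) F) (Ideal.span {pc φ c})
    (by
      rw [(RingHom.injective_iff_ker_eq_bot _).mp (algebraMap_injective φ)]
      exact bot_le)
  have hmem : algebraMap (Algebra.adjoin ℂ {φ}) (integralClosure (Algebra.adjoin ℂ {φ}) F)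
      (pc φ c) ∈ Q := by
    have : pc φ c ∈ Ideal.comap (algebraMap (Algebra.adjoin ℂ {φ})
        (integralClosure (Algebra.adjoin ℂ {φ}) F)) Q := by
      rw [hQ2]; exact Ideal.mem_span_singleton_self _
    exact this
  have hne : Q ≠ ⊥ := by
    rintro rfl
    have h0 := (Ideal.mem_bot.mp hmem)
    rw [map_eq_zero_iff _ (algebraMap_injective φ)] at h0
    exact pc_ne_zero hφ c h0
  let v : HeightOneSpectrum (integralClosure (Algebra.adjoin ℂ {φ}) F) := ⟨Q, hQ.isPrime, hne⟩
  refine ⟨placeOf (F := F) v, ?_⟩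
  have h1 := (mem_asIdeal_iff (F := F) v _).mpr hmem
  have h2 : algebraMap (integralClosure (Algebra.adjoin ℂ {φ}) F) F
      (algebraMap (Algebra.adjoin ℂ {φ}) (integralClosure (Algebra.adjoin ℂ {φ}) F) (pc φ c))
      = φ - algebraMap ℂ F c := rfl
  rw [h2] at h1
  have h3 : φ - algebraMap ℂ F c ≠ 0 := by
    intro h0
    exact hφ ⟨c, (sub_eq_zero.mp h0).symm⟩
  have := h1.resolve_left h3
  omega

/-- the trace, as an element of `F` -/
noncomputable def tr (φ y : F) : F := (Algebra.trace ℂ⟮φ⟯ F y : ℂ⟮φ⟯)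

theorem tr_mul (φ y : F) {a : F} (ha : a ∈ ℂ⟮φ⟯) : tr φ (a * y) = a * tr φ y := by
  have h := (Algebra.trace ℂ⟮φ⟯ F).map_smul ⟨a, ha⟩ y
  have h2 := congrArg (Subtype.val) h
  exact h2

theorem exists_eval_ne_zero (hφ : φ ∉ (algebraMap ℂ F).range) [FiniteDimensional ℂ⟮φ⟯ F] {y : F}
    (h1 : ∀ (P : Place F) (c : ℂ), 0 < P.ord (φ - algebraMap ℂ F c) →
      (φ - algebraMap ℂ F c) * y ∈ P.L 1) (c : ℂ) :
    ∃ E : ℂ[X], E.eval c ≠ 0 ∧ ∃ p : ℂ[X], aeval φ E * tr φ y = aeval φ p := by
  have hA := isDedekindDomain_adjoin φ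
  have hB := isDedekindDomain_integralClosure φ
  have hfr : IsFractionRing (integralClosure (Algebra.adjoin ℂ {φ}) F) F :=
    integralClosure.isFractionRing_of_finite_extension ℂ⟮φ⟯ F
  have hmax := span_pc_isMaximal hφ c
  have halg : Algebra.IsAlgebraic (Algebra.adjoin ℂ {φ}) F :=
    Algebra.IsAlgebraic.trans (Algebra.adjoin ℂ {φ}) ℂ⟮φ⟯ F
  obtain ⟨d, hd0, hd⟩ := (halg.isAlgebraic y).exists_integral_multiple
  obtain ⟨D, hD⟩ := exists_aeval d
  have hD0 : D ≠ 0 := by
    rintro rfl
    rw [map_zero] at hD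
    exact hd0 (Subtype.ext hD.symm)
  obtain ⟨E, hE, hE2⟩ := D.exists_eq_pow_rootMultiplicity_mul_and_not_dvd hD0 c
  have hEc : E.eval c ≠ 0 := by
    intro h0; exact hE2 (dvd_iff_isRoot.mpr h0)
  refine ⟨E, hEc, ?_⟩
  set m := D.rootMultiplicity c
  have hφc : φ - algebraMap ℂ F c ≠ 0 := by
    intro h0
    exact hφ ⟨c, (sub_eq_zero.mp h0).symm⟩
  have hφm : ∀ v : HeightOneSpectrum (integralClosure (Algebra.adjoin ℂ {φ}) F), ∀ p : ℂ[X],
      aeval φ p ∈ (placeOf (F := F) v).L 0 := by
    intro v p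
    have hm : aeval φ p ∈ Algebra.adjoin ℂ {φ} := by
      rw [Algebra.adjoin_singleton_eq_range_aeval]; exact ⟨p, rfl⟩
    exact algebraMap_mem_L v (algebraMap (Algebra.adjoin ℂ {φ})
      (integralClosure (Algebra.adjoin ℂ {φ}) F) ⟨_, hm⟩)
  have hDy : aeval φ D * y ∈ integralClosure (Algebra.adjoin ℂ {φ}) F := by
    rw [hD]
    exact hd
  have hDy' : ∀ v : HeightOneSpectrum (integralClosure (Algebra.adjoin ℂ {φ}) F),
      aeval φ D * y ∈ (placeOf (F := F) v).L 0 :=
    fun v => algebraMap_mem_L v ⟨_, hDy⟩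
  have hD' : aeval φ D = (φ - algebraMap ℂ F c) ^ m * aeval φ E := by
    conv_lhs => rw [hE]
    simp
  -- the integral element
  have hy1 : ∀ v : HeightOneSpectrum (integralClosure (Algebra.adjoin ℂ {φ}) F),
      (0 < (placeOf (F := F) v).ord (φ - algebraMap ℂ F c) →
        (φ - algebraMap ℂ F c) * aeval φ E * y ∈ (placeOf (F := F) v).L 1) ∧
      (φ - algebraMap ℂ F c) * aeval φ E * y ∈ (placeOf (F := F) v).L 0 := by
    intro v
    have ha : 0 < (placeOf (F := F) v).ord (φ - algebraMap ℂ F c) →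
        (φ - algebraMap ℂ F c) * aeval φ E * y ∈ (placeOf (F := F) v).L 1 := by
      intro hpos
      have := Place.mul_mem_L_zero (hφm v E) (h1 _ _ hpos)
      convert this using 1
      ring
    refine ⟨ha, ?_⟩
    by_cases hpos : 0 < (placeOf (F := F) v).ord (φ - algebraMap ℂ F c)
    · exact Place.L_mono (by norm_num) (ha hpos)
    · have h0 : (placeOf (F := F) v).ord (φ - algebraMap ℂ F c) = 0 := by
        have h2 := hφm v (X - C c)
        rw [map_sub, aeval_X, aeval_C] at h2
        have := h2.resolve_left hφc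
        omega
      by_cases hEy : aeval φ E * y = 0
      · left; rw [mul_assoc, hEy, mul_zero]
      right
      have h2 := hDy' v
      rw [hD', mul_assoc] at h2
      have h3 := h2.resolve_left (mul_ne_zero (pow_ne_zero _ hφc) hEy)
      rw [Place.ord_mul _ _ _ (pow_ne_zero _ hφc) hEy, Place.ord_pow, h0] at h3
      rw [mul_assoc, Place.ord_mul _ _ _ hφc hEy, h0]
      simpa using h3
  obtain ⟨b, hb⟩ := mem_range_of_mem_L (B := integralClosure (Algebra.adjoin ℂ {φ}) F)
    (fun v => (hy1 v).2)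
  have hfin : Module.Finite (Algebra.adjoin ℂ {φ}) (integralClosure (Algebra.adjoin ℂ {φ}) F) :=
    IsIntegralClosure.finite (Algebra.adjoin ℂ {φ}) ℂ⟮φ⟯ F
      (integralClosure (Algebra.adjoin ℂ {φ}) F)
  obtain ⟨a, ha⟩ := trace_core (K := ℂ⟮φ⟯) (L := F) (pc φ c) hmax b (by
    intro Q hQ hmem
    have hne : Q ≠ ⊥ := by
      rintro rfl
      have h0 := (Ideal.mem_bot.mp hmem)
      rw [map_eq_zero_iff _ (algebraMap_injective φ)] at h0
      exact pc_ne_zero hφ c h0
    let v : HeightOneSpectrum (integralClosure (Algebra.adjoin ℂ {φ}) F) := ⟨Q, hQ, hne⟩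
    have h2 := (mem_asIdeal_iff (F := F) v _).mpr hmem
    have h3 := h2.resolve_left hφc
    have h4 := (hy1 v).1 (by
      have : 1 ≤ (placeOf (F := F) v).ord (φ - algebraMap ℂ F c) := h3
      omega)
    rw [← hb] at h4
    exact (mem_asIdeal_iff (F := F) v b).mp h4)
  obtain ⟨p, hp⟩ := exists_aeval a
  refine ⟨p, ?_⟩
  have h5 : tr φ ((φ - algebraMap ℂ F c) * aeval φ E * y) = (φ - algebraMap ℂ F c) * (a : F) := by
    rw [← hb]
    have := congrArg (Subtype.val) ha
    exact this
  have hmemK : ∀ q : ℂ[X], aeval φ q ∈ ℂ⟮φ⟯ := by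
    intro q
    have hm : aeval φ q ∈ Algebra.adjoin ℂ {φ} := by
      rw [Algebra.adjoin_singleton_eq_range_aeval]; exact ⟨q, rfl⟩
    exact IntermediateField.algebra_adjoin_le_adjoin _ _ hm
  have hmemK' : φ - algebraMap ℂ F c ∈ ℂ⟮φ⟯ := by
    have := hmemK (X - C c)
    rwa [map_sub, aeval_X, aeval_C] at this
  rw [mul_assoc, tr_mul _ _ hmemK', tr_mul _ _ (hmemK E)] at h5
  rw [hp]
  exact mul_left_cancel₀ hφc h5

theorem tr_eq_aeval (hφ : φ ∉ (algebraMap ℂ F).range) [FiniteDimensional ℂ⟮φ⟯ F] {y : F}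
    (h1 : ∀ (P : Place F) (c : ℂ), 0 < P.ord (φ - algebraMap ℂ F c) →
      (φ - algebraMap ℂ F c) * y ∈ P.L 1) :
    ∃ p : ℂ[X], tr φ y = aeval φ p := by
  let S : Ideal ℂ[X] :=
    { carrier := {E | ∃ p : ℂ[X], aeval φ E * tr φ y = aeval φ p}
      zero_mem' := ⟨0, by simp⟩
      add_mem' := by
        rintro a b ⟨p, hp⟩ ⟨q, hq⟩
        exact ⟨p + q, by rw [map_add, map_add, add_mul, hp, hq]⟩
      smul_mem' := by
        rintro a b ⟨p, hp⟩
        exact ⟨a * p, by rw [smul_eq_mul, map_mul, map_mul, mul_assoc, hp]⟩ }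
  have hS : S = ⊤ := by
    obtain ⟨s, hs⟩ := (inferInstance : S.IsPrincipal)
    have hs' : S = Ideal.span {s} := hs
    have hdeg : s.degree = 0 := by
      by_contra hne
      obtain ⟨c, hc⟩ := IsAlgClosed.exists_root s hne
      obtain ⟨E, hE, hE2⟩ := exists_eval_ne_zero hφ h1 c
      have : E ∈ S := hE2
      rw [hs', Ideal.mem_span_singleton] at this
      obtain ⟨r, hr⟩ := this
      rw [hr, eval_mul, hc, zero_mul] at hE
      exact hE rfl
    rw [hs', Ideal.span_singleton_eq_top]
    exact Polynomial.isUnit_iff_degree_eq_zero.mpr hdeg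
  have h2 : (1 : ℂ[X]) ∈ S := by rw [hS]; trivial
  obtain ⟨p, hp⟩ := h2
  exact ⟨p, by simpa using hp⟩

end main

end T1

/-- existence of places over every value (use with `φ⁻¹`, `c = 0` for poles) -/
theorem exists_place (hF : IsFunctionField F) {φ : F} (hφ : φ ∉ (algebraMap ℂ F).range) (c : ℂ) :
    ∃ P : Place F, 0 < P.ord (φ - algebraMap ℂ F c) := by
  have := finiteDimensional_adjoin hF hφ
  exact T1.exists_place_aux hφ c

/-- Trace theorem: if `y dφ` is a regular differential (stated through orders: `(φ-c) y` vanishes at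
all zeros of `φ - c`, `φ y` vanishes at all poles of `φ`), then `Tr y = 0`. -/
theorem trace_eq_zero {φ : F} (hφ : φ ∉ (algebraMap ℂ F).range) [FiniteDimensional ℂ⟮φ⟯ F] {y : F}
    (h1 : ∀ (P : Place F) (c : ℂ), 0 < P.ord (φ - algebraMap ℂ F c) →
      (φ - algebraMap ℂ F c) * y ∈ P.L 1)
    (h2 : ∀ P : Place F, P.ord φ < 0 → φ * y ∈ P.L 1) :
    Algebra.trace ℂ⟮φ⟯ F y = 0 := by
  obtain ⟨p, hp⟩ := T1.tr_eq_aeval hφ h1
  have hφ0 : φ ≠ 0 := by
    rintro rfl
    exact hφ ⟨0, map_zero _⟩
  have hψ : φ⁻¹ ∉ (algebraMap ℂ F).range := by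
    rintro ⟨c, hc⟩
    refine hφ ⟨c⁻¹, ?_⟩
    rw [map_inv₀, hc, inv_inv]
  have hK : ℂ⟮φ⁻¹⟯ = ℂ⟮φ⟯ := by
    apply le_antisymm
    · rw [IntermediateField.adjoin_simple_le_iff]
      exact inv_mem (IntermediateField.mem_adjoin_simple_self ℂ φ)
    · rw [IntermediateField.adjoin_simple_le_iff]
      have := inv_mem (IntermediateField.mem_adjoin_simple_self ℂ φ⁻¹)
      rwa [inv_inv] at this
  have hcongr : ∀ (y' : F) (K K' : IntermediateField ℂ F), K = K' →
      ((Algebra.trace K F y' : K) : F) = ((Algebra.trace K' F y' : K') : F) := by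
    rintro y' K _ rfl
    rfl
  have hfin : ∀ (K K' : IntermediateField ℂ F), K = K' → FiniteDimensional K F →
      FiniteDimensional K' F := by
    rintro K _ rfl h
    exact h
  have hfd : FiniteDimensional ℂ⟮φ⁻¹⟯ F := hfin _ _ hK.symm inferInstance
  obtain ⟨q, hq⟩ := T1.tr_eq_aeval hψ (y := φ ^ 2 * y) (by
    intro P c hP
    by_cases hc : c = 0
    · subst hc
      rw [map_zero, sub_zero] at hP ⊢
      rw [Place.ord_inv] at hP
      have := h2 P (by omega)
      convert this using 1
      field_simp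
    · have h3 : φ⁻¹ - algebraMap ℂ F c = -(algebraMap ℂ F c) * φ⁻¹ *
          (φ - algebraMap ℂ F c⁻¹) := by
        have hc' : algebraMap ℂ F c ≠ 0 := by simpa using hc
        rw [map_inv₀]
        field_simp
        ring
      have hne : φ - algebraMap ℂ F c⁻¹ ≠ 0 := by
        intro h0
        exact hφ ⟨c⁻¹, (sub_eq_zero.mp h0).symm⟩
      have hne2 : -(algebraMap ℂ F c) ≠ 0 := by
        simpa using hc
      have h4 : P.ord φ = 0 := by
        have h5 := Place.ord_eq_zero_of_value hc (Or.inr (by omega) :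
          φ⁻¹ - algebraMap ℂ F c ∈ P.L 1)
        have h6 := h5.1
        rw [Place.ord_inv] at h6
        omega
      have h5 : 0 < P.ord (φ - algebraMap ℂ F c⁻¹) := by
        rw [h3, P.ord_mul _ _ (mul_ne_zero hne2 (inv_ne_zero hφ0)) hne,
          P.ord_mul _ _ hne2 (inv_ne_zero hφ0), P.ord_neg, P.ord_const, Place.ord_inv, h4] at hP
        simpa using hP
      have h6 := h1 P _ h5
      have h7 : -(algebraMap ℂ F c) * φ ∈ P.L 0 := by
        right
        rw [P.ord_mul _ _ hne2 hφ0, P.ord_neg, P.ord_const, h4, add_zero]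
      have h8 := Place.mul_mem_L_zero h7 h6
      convert h8 using 1
      rw [h3]
      field_simp)
  have hqp : φ ^ 2 * aeval φ p = aeval φ⁻¹ q := by
    rw [← hq, ← hp]
    have h3 : T1.tr φ⁻¹ (φ ^ 2 * y) = T1.tr φ (φ ^ 2 * y) := hcongr _ _ _ hK
    rw [h3, T1.tr_mul _ _ (pow_mem (IntermediateField.mem_adjoin_simple_self ℂ φ) 2)]
  have hrev : aeval φ (X ^ (q.natDegree + 2) * p - q.reverse) = 0 := by
    have := @Polynomial.eval₂_reverse_mul_pow _ _ _ _ (algebraMap ℂ F) φ⁻¹
      (invertibleOfNonzero (inv_ne_zero hφ0)) q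
    rw [invOf_eq_inv, inv_inv] at this
    rw [map_sub, map_mul, aeval_X_pow, sub_eq_zero, pow_add, mul_assoc, hqp]
    simp only [aeval_def]
    rw [← this, mul_comm, mul_assoc, ← mul_pow, inv_mul_cancel₀ hφ0, one_pow, mul_one]
  have hpz := (transcendental_iff.mp (T1.transcendental_of_notMem hφ)) _ hrev
  have hp0 : p = 0 := by
    by_contra hne
    have h3 : (X ^ (q.natDegree + 2) * p : ℂ[X]) = q.reverse := sub_eq_zero.mp hpz
    have h4 := congrArg Polynomial.natDegree h3
    rw [Polynomial.natDegree_mul (pow_ne_zero _ X_ne_zero) hne, natDegree_X_pow] at h4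
    have h5 := Polynomial.reverse_natDegree_le q
    omega
  rw [hp0, map_zero] at hp
  exact Subtype.ext hp

end EtaleGonality
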