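import Pool.Agent.G7.Curve
import Pool.Agent.G7.Trace

/-!
# Completeness: functions with prescribed bounds are combinations of the explicit ones
-/

open scoped IntermediateField
open Polynomial

namespace EtaleGonality

variable {F : Type} [Field F] [Algebra ℂ F]

namespace Model

variable {M : Model F}

lemma τ_t (M : Model F) : M.τ (M.x * M.z) = M.x * M.z := by
  rw [map_mul, M.τ_x, M.τ_z, mul_comm]

lemma σ_t (M : Model F) : M.σ (M.x * M.z) = M.x * M.z := by
  have hζ : M.ζ ≠ 0 := M.hζ.ne_zero (by norm_num)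
  rw [map_mul, M.σ_x, M.σ_z]
  have : algebraMap ℂ F M.ζ⁻¹ * algebraMap ℂ F M.ζ = 1 := by
    rw [← map_mul, inv_mul_cancel₀ hζ, map_one]
  linear_combination (M.x * M.z) * this

lemma τ_aeval (M : Model F) (p : ℂ[X]) : M.τ (aeval (M.x * M.z) p) = aeval (M.x * M.z) p := by
  have := (aeval_algHom_apply (M.τ : F →ₐ[ℂ] F) (M.x * M.z) p).symm
  simpa [τ_t, ← map_mul, M.τ_t] using this

lemma σ_aeval (M : Model F) (p : ℂ[X]) : M.σ (aeval (M.x * M.z) p) = aeval (M.x * M.z) p := by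
  have := (aeval_algHom_apply (M.σ : F →ₐ[ℂ] F) (M.x * M.z) p).symm
  simpa [← map_mul, M.σ_t] using this

lemma τ_s (M : Model F) : M.τ M.s = -M.s := by
  simp only [s, map_sub, map_pow, M.τ_x, M.τ_z]; ring

lemma σ_s (M : Model F) : M.σ M.s = M.s := by
  have hζ : M.ζ ^ 7 = 1 := M.hζ.pow_eq_one
  simp only [s, map_sub, map_pow, M.σ_x, M.σ_z, mul_pow]
  rw [← map_pow, ← map_pow, inv_pow, hζ]
  simp

lemma τ_τ (M : Model F) (g : F) : M.τ (M.τ g) = g := by
  obtain ⟨c, a, b, hc, h⟩ := M.gen g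
  have hc' : aeval (M.x * M.z) c ≠ 0 := M.aeval_ne_zero hc
  apply mul_left_cancel₀ hc'
  have h1 := congrArg M.τ (congrArg M.τ h)
  rw [map_mul, map_mul, τ_aeval, τ_aeval] at h1
  rw [h1, h]
  simp only [map_sum, map_add, map_mul, map_pow, M.τ_x, M.τ_z]
  refine Finset.sum_congr rfl fun k _ => ?_
  have e1 := M.τ_aeval (a k)
  have e2 := M.τ_aeval (b k)
  rw [e1, e1, e2, e2]

/-- one step of clearing a denominator -/
lemma core_step {P : Place F} {c0 : ℂ} (h : 0 < P.ord (M.x * M.z - algebraMap ℂ F c0))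
    {k : ℕ} (hk : k < 7) {g : F} {a b c : ℂ[X]} (hc : c ≠ 0)
    (hP0 : c0 = 0 → P.ord M.z = 6 * P.ord M.x)
    (hg : g ∈ P.L (P.ord M.s + 1 - P.ord (M.x * M.z - algebraMap ℂ F c0)))
    (hτg : M.τ g ∈ P.L (P.ord M.s + 1 - P.ord (M.x * M.z - algebraMap ℂ F c0)))
    (heq : aeval (M.x * M.z) c * g =
      aeval (M.x * M.z) a * M.x ^ (7 - k) + aeval (M.x * M.z) b * M.z ^ k) :
    (a = 0 ∨ c.rootMultiplicity c0 ≤ a.rootMultiplicity c0) ∧
    (b = 0 ∨ c.rootMultiplicity c0 ≤ b.rootMultiplicity c0) ∧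
    (k = 0 → c0 = 0 → b = 0 ∨ c.rootMultiplicity c0 + 1 ≤ b.rootMultiplicity c0) := by
  set e := P.ord (M.x * M.z - algebraMap ℂ F c0) with he
  set mc := c.rootMultiplicity c0 with hmc
  have hx : M.x ∈ P.L 0 := Or.inr (x_nonneg (he ▸ h))
  have hz : M.z ∈ P.L 0 := Or.inr (z_nonneg (he ▸ h))
  have ht : M.x * M.z ∈ P.L 0 := Place.t_mem_L (he ▸ h)
  have hs0 : 0 ≤ P.ord M.s := ord_s_nonneg (he ▸ h)
  have hC : aeval (M.x * M.z) c ∈ P.L (mc * e) := Or.inr (Place.ord_aeval (he ▸ h) hc).2.ge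
  -- `x^k g` and `z^k τ g`
  have heqτ : aeval (M.x * M.z) c * M.τ g =
      aeval (M.x * M.z) a * M.z ^ (7 - k) + aeval (M.x * M.z) b * M.x ^ k := by
    have := congrArg M.τ heq
    rw [map_mul M.τ, map_add M.τ, map_mul M.τ, map_mul M.τ, map_pow M.τ, map_pow M.τ, M.τ_x, M.τ_z,
      M.τ_aeval, M.τ_aeval, M.τ_aeval] at this
    exact this
  have h7 : M.x ^ 7 = M.x ^ k * M.x ^ (7 - k) := by rw [← pow_add]; congr 1; omega
  have h7z : M.z ^ 7 = M.z ^ k * M.z ^ (7 - k) := by rw [← pow_add]; congr 1; omega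
  have hxk : M.x ^ k ∈ P.L 0 := by simpa using Place.pow_mem_L hx k
  have hzk : M.z ^ k ∈ P.L 0 := by simpa using Place.pow_mem_L hz k
  have e1 : aeval (M.x * M.z) c * (M.x ^ k * g) =
      aeval (M.x * M.z) a * M.x ^ 7 + aeval (M.x * M.z) b * (M.x * M.z) ^ k := by
    rw [h7, mul_pow]; linear_combination M.x ^ k * heq
  have e2 : aeval (M.x * M.z) c * (M.z ^ k * M.τ g) =
      aeval (M.x * M.z) a * M.z ^ 7 + aeval (M.x * M.z) b * (M.x * M.z) ^ k := by
    rw [h7z, mul_pow]; linear_combination M.z ^ k * heqτ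
  have e3 : aeval (M.x * M.z) a * M.s =
      aeval (M.x * M.z) c * (M.x ^ k * g - M.z ^ k * M.τ g) := by
    simp only [s]; linear_combination e2 - e1
  have hdiff : M.x ^ k * g - M.z ^ k * M.τ g ∈ P.L (P.ord M.s + 1 - e) :=
    Submodule.sub_mem _ (Place.mul_mem_L_zero hxk hg) (Place.mul_mem_L_zero hzk hτg)
  have hA : a = 0 ∨ mc ≤ a.rootMultiplicity c0 := by
    by_cases ha : a = 0
    · exact Or.inl ha
    right
    have h1 := Place.mul_mem_L hC hdiff
    rw [← e3] at h1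
    have hA := Place.ord_aeval (he ▸ h) ha
    have h2 := Place.le_ord_of_mem_L h1 (mul_ne_zero hA.1 M.s_ne_zero)
    rw [P.ord_mul _ _ hA.1 M.s_ne_zero, hA.2, ← he] at h2
    by_contra hlt
    push Not at hlt
    have h3 : (a.rootMultiplicity c0 : ℤ) + 1 ≤ mc := by exact_mod_cast hlt
    nlinarith
  have hA' : aeval (M.x * M.z) a ∈ P.L (mc * e) := by
    rcases hA with hA | hA
    · left; simp [hA]
    · by_cases ha : a = 0
      · left; simp [ha]
      right
      rw [(Place.ord_aeval (he ▸ h) ha).2, ← he]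
      have : (mc : ℤ) ≤ a.rootMultiplicity c0 := by exact_mod_cast hA
      nlinarith
  refine ⟨hA, ?_⟩
  by_cases hb : b = 0
  · exact ⟨Or.inl hb, fun _ _ => Or.inl hb⟩
  have hB := Place.ord_aeval (he ▸ h) hb
  have htne := M.t_ne_zero
  by_cases hc0 : c0 = 0
  · -- place over `0`
    have hzx := hP0 hc0
    have hx0 : 0 < P.ord M.x := by
      rcases ord_at_zero (hc0 ▸ he ▸ h) with h1 | h1 <;> omega
    have het : e = 7 * P.ord M.x := by
      rw [he, hc0, map_zero, sub_zero, ord_t]; omega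
    have hse : P.ord M.s = e := by
      rw [he, hc0]; exact ord_s_zero (hc0 ▸ he ▸ h)
    have h1 : M.z ^ k * M.τ g ∈ P.L (k * P.ord M.z + 1) := by
      refine Place.mul_mem_L (Or.inr (by rw [P.ord_pow])) ?_
      rw [hse] at hτg
      refine Place.L_mono ?_ hτg
      omega
    have h2 := Place.mul_mem_L hC h1
    rw [e2] at h2
    have hk6 : (k : ℤ) ≤ 6 := by omega
    have h3 : aeval (M.x * M.z) a * M.z ^ 7 ∈ P.L (mc * e + (k * P.ord M.z + 1)) := by
      refine Place.mul_mem_L hA' (Or.inr ?_)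
      rw [P.ord_pow, hzx]
      push_cast
      nlinarith
    have h4 := Submodule.sub_mem _ h2 h3
    have h5 : aeval (M.x * M.z) b * (M.x * M.z) ^ k ∈ P.L (mc * e + (k * P.ord M.z + 1)) := by
      have : aeval (M.x * M.z) a * M.z ^ 7 + aeval (M.x * M.z) b * (M.x * M.z) ^ k -
        aeval (M.x * M.z) a * M.z ^ 7 = aeval (M.x * M.z) b * (M.x * M.z) ^ k := by ring
      rwa [this] at h4
    have h6 := Place.le_ord_of_mem_L h5 (mul_ne_zero hB.1 (pow_ne_zero _ htne))
    rw [P.ord_mul _ _ hB.1 (pow_ne_zero _ htne), hB.2, P.ord_pow, ← he, ord_t, hzx, het] at h6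
    set ξ := P.ord M.x
    set mb := b.rootMultiplicity c0
    have h7 : (mc : ℤ) * (7 * ξ) + (k * (6 * ξ) + 1) ≤ mb * (7 * ξ) + k * (ξ + 6 * ξ) := h6
    have hmain : ∀ d : ℤ, (mb : ℤ) - mc = d → 7 * ξ * d + k * ξ ≥ 1 := by
      intro d hd
      have : 7 * ξ * ((mb : ℤ) - mc) + k * ξ ≥ 1 := by nlinarith
      rw [hd] at this; exact this
    have hm := hmain _ rfl
    constructor
    · right
      by_contra hlt
      push Not at hlt
      have h8 : (mb : ℤ) - mc ≤ -1 := by omega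
      nlinarith
    · intro hk0 _
      right
      by_contra hlt
      push Not at hlt
      have h8 : (mb : ℤ) - mc ≤ 0 := by omega
      rw [hk0] at hm
      nlinarith
  · refine ⟨Or.inr ?_, fun _ h0 => absurd h0 hc0⟩
    have ht0 : P.ord (M.x * M.z) = 0 := by
      have : M.x * M.z - algebraMap ℂ F c0 ∈ P.L 1 := Or.inr (he ▸ h)
      exact (Place.ord_eq_zero_of_value hc0 this).1
    have h1 : aeval (M.x * M.z) c * (M.x ^ k * g) ∈ P.L (mc * e + (1 - e)) := by
      refine Place.mul_mem_L hC (Place.L_mono ?_ (Place.mul_mem_L_zero hxk hg))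
      omega
    have h2 : aeval (M.x * M.z) a * M.x ^ 7 ∈ P.L (mc * e + (1 - e)) := by
      refine Place.L_mono ?_ (Place.mul_mem_L hA' (show M.x ^ 7 ∈ P.L 0 by
        simpa using Place.pow_mem_L hx 7))
      omega
    have h3 := Submodule.sub_mem _ h1 h2
    have h5 : aeval (M.x * M.z) b * (M.x * M.z) ^ k ∈ P.L (mc * e + (1 - e)) := by
      have : aeval (M.x * M.z) c * (M.x ^ k * g) - aeval (M.x * M.z) a * M.x ^ 7 =
        aeval (M.x * M.z) b * (M.x * M.z) ^ k := by rw [e1]; ring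
      rwa [this] at h3
    have h6 := Place.le_ord_of_mem_L h5 (mul_ne_zero hB.1 (pow_ne_zero _ htne))
    rw [P.ord_mul _ _ hB.1 (pow_ne_zero _ htne), hB.2, P.ord_pow, ← he, ht0] at h6
    by_contra hlt
    push Not at hlt
    have h8 : (b.rootMultiplicity c0 : ℤ) + 1 ≤ mc := by omega
    nlinarith

/-- finite conditions on `g` -/
def FinCond (M : Model F) (g : F) : Prop :=
  ∀ (P : Place F) (c0 : ℂ), 0 < P.ord (M.x * M.z - algebraMap ℂ F c0) →
    g ∈ P.L (P.ord M.s + 1 - P.ord (M.x * M.z - algebraMap ℂ F c0))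

lemma comap_τ_t (P : Place F) (c : ℂ) :
    (P.comap M.τ).ord (M.x * M.z - algebraMap ℂ F c) = P.ord (M.x * M.z - algebraMap ℂ F c) := by
  rw [Place.comap_ord, map_sub, M.τ_t, AlgEquiv.commutes]

lemma comap_τ_s (P : Place F) : (P.comap M.τ).ord M.s = P.ord M.s := by
  rw [Place.comap_ord, M.τ_s, P.ord_neg]

lemma comap_σ_t (P : Place F) (c : ℂ) :
    (P.comap M.σ).ord (M.x * M.z - algebraMap ℂ F c) = P.ord (M.x * M.z - algebraMap ℂ F c) := by
  rw [Place.comap_ord, map_sub, M.σ_t, AlgEquiv.commutes]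

lemma comap_σ_s (P : Place F) : (P.comap M.σ).ord M.s = P.ord M.s := by
  rw [Place.comap_ord, M.σ_s]

lemma FinCond.τ {g : F} (hg : FinCond M g) : FinCond M (M.τ g) := by
  intro P c h
  have := hg (P.comap M.τ) c (by rwa [comap_τ_t])
  rw [comap_τ_t, comap_τ_s, Place.mem_comap_L] at this
  exact this

lemma exists_place' (hF : IsFunctionField F) (M : Model F) (c0 : ℂ) :
    ∃ P : Place F, 0 < P.ord (M.x * M.z - algebraMap ℂ F c0) ∧
      (c0 = 0 → P.ord M.z = 6 * P.ord M.x) := by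
  obtain ⟨P, hP⟩ := exists_place hF M.t_notMem_range c0
  by_cases hc : c0 = 0
  · rcases ord_at_zero (hc ▸ hP) with h | h
    · exact ⟨P, hP, fun _ => h.2⟩
    · refine ⟨P.comap M.τ, by rwa [comap_τ_t], fun _ => ?_⟩
      rw [Place.comap_ord, Place.comap_ord, M.τ_x, M.τ_z]
      exact h.2
  · exact ⟨P, hP, fun h => absurd h hc⟩

lemma root_of_mult {a c : ℂ[X]} {c0 : ℂ} (hc : c ≠ 0) (hroot : c.IsRoot c0)
    (h : a = 0 ∨ c.rootMultiplicity c0 ≤ a.rootMultiplicity c0) : (X - C c0) ∣ a := by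
  rcases h with h | h
  · rw [h]; exact dvd_zero _
  · have h1 : 0 < c.rootMultiplicity c0 := (rootMultiplicity_pos hc).mpr hroot
    by_cases ha : a = 0
    · rw [ha]; exact dvd_zero _
    · exact dvd_iff_isRoot.mpr ((rootMultiplicity_pos ha).mp (lt_of_lt_of_le h1 h))

/-- clearing all denominators -/
lemma core (hF : IsFunctionField F) {k : ℕ} (hk : k < 7) {g : F} (hg : FinCond M g) :
    ∀ (n : ℕ) (c a b : ℂ[X]), c.natDegree = n → c ≠ 0 →
      aeval (M.x * M.z) c * g =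
        aeval (M.x * M.z) a * M.x ^ (7 - k) + aeval (M.x * M.z) b * M.z ^ k →
      ∃ α β : ℂ[X], g = aeval (M.x * M.z) α * M.x ^ (7 - k) + aeval (M.x * M.z) β * M.z ^ k := by
  intro n
  induction n with
  | zero =>
    intro c a b hn hc heq
    rw [Polynomial.eq_C_of_natDegree_eq_zero hn] at heq hc
    set u := c.coeff 0
    have hu : u ≠ 0 := by intro h0; apply hc; rw [h0, C_0]
    refine ⟨C u⁻¹ * a, C u⁻¹ * b, ?_⟩
    rw [aeval_C] at heq
    have hu' : algebraMap ℂ F u ≠ 0 := by simpa using hu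
    simp only [map_mul, aeval_C, map_inv₀]
    field_simp
    linear_combination heq
  | succ n ih =>
    intro c a b hn hc heq
    obtain ⟨c0, hroot⟩ := IsAlgClosed.exists_root c (by
      intro h0
      have : c.natDegree = 0 := natDegree_eq_zero_iff_degree_le_zero.mpr h0.le
      omega)
    obtain ⟨P, hP, hP0⟩ := exists_place' hF M c0
    have hstep := core_step hP hk hc hP0 (hg P c0 hP) (hg.τ P c0 hP) heq
    obtain ⟨a', ha'⟩ := root_of_mult hc hroot hstep.1
    obtain ⟨b', hb'⟩ := root_of_mult hc hroot hstep.2.1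
    obtain ⟨c', hc'⟩ := dvd_iff_isRoot.mpr hroot
    have hc'0 : c' ≠ 0 := by
      rintro rfl; apply hc; rw [hc', mul_zero]
    refine ih c' a' b' ?_ hc'0 ?_
    · rw [hc', natDegree_mul (X_sub_C_ne_zero c0) hc'0, natDegree_X_sub_C] at hn
      omega
    · apply mul_left_cancel₀ (M.t_sub_ne_zero c0)
      rw [ha', hb', hc'] at heq
      simp only [map_mul, map_sub, aeval_X, aeval_C] at heq
      linear_combination heq

lemma core_zero (hF : IsFunctionField F) {g : F} (hg : FinCond M g) {α β : ℂ[X]}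
    (heq : g = aeval (M.x * M.z) α * M.x ^ (7 - 0) + aeval (M.x * M.z) β * M.z ^ 0) :
    β.eval 0 = 0 := by
  obtain ⟨P, hP, hP0⟩ := exists_place' hF M 0
  have hstep := core_step hP (k := 0) (by norm_num) (c := 1) one_ne_zero hP0 (hg P 0 hP)
    (hg.τ P 0 hP) (a := α) (b := β) (by rw [map_one, one_mul]; exact heq)
  rcases hstep.2.2 rfl rfl with h | h
  · simp [h]
  · by_cases hβ : β = 0
    · simp [hβ]
    · exact (rootMultiplicity_pos hβ).mp (by omega)

lemma core_one (hF : IsFunctionField F) {k : ℕ} (hk : k < 7) {g : F} (hg : FinCond M g)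
    {α β : ℂ[X]}
    (heq : g = aeval (M.x * M.z) α * M.x ^ (7 - k) + aeval (M.x * M.z) β * M.z ^ k) :
    α.eval 1 = β.eval 1 := by
  obtain ⟨P, hP, hP0⟩ := exists_place' hF M 1
  have hg1 : g ∈ P.L 1 := by
    have := hg P 1 hP
    rw [ord_s_one hP] at this
    simpa using this
  have hx : M.x ∈ P.L 0 := Or.inr (x_nonneg hP)
  have hxk : M.x ^ k ∈ P.L 0 := by simpa using Place.pow_mem_L hx k
  have h7 : M.x ^ 7 = M.x ^ k * M.x ^ (7 - k) := by rw [← pow_add]; congr 1; omega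
  have h1 := Place.mul_mem_L_zero hxk hg1
  have ht := Place.t_mem_L hP
  have h2 := Place.mul_mem_L_zero (Place.aeval_mem_L ht α) (x7_at_one hP)
  have h3 := Place.aeval_sub_mem_L hP α
  have h4 := Place.aeval_sub_mem_L hP (β * X ^ k)
  have h5 : algebraMap ℂ F (α.eval 1 - β.eval 1) ∈ P.L 1 := by
    have h6 := Submodule.sub_mem _ (Submodule.sub_mem _ (Submodule.add_mem _ h4 h2) h1) h3
    convert h6 using 1
    rw [heq]
    simp only [map_mul, map_pow, aeval_X, eval_mul, eval_pow, eval_X, one_pow, mul_one, map_sub]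
    rw [mul_pow, h7]
    ring
  have := Place.const_eq_zero h5
  linear_combination this

lemma core_four (hF : IsFunctionField F) {k : ℕ} (hk : k < 7) {g : F}
    (hg : ∀ P : Place F, 0 < P.ord (M.x * M.z - algebraMap ℂ F 4) → g ∈ P.L 1)
    {α β : ℂ[X]}
    (heq : g = aeval (M.x * M.z) α * M.x ^ (7 - k) + aeval (M.x * M.z) β * M.z ^ k) :
    128 * α.eval 4 + 4 ^ k * β.eval 4 = 0 := by
  obtain ⟨P, hP, hP0⟩ := exists_place' hF M 4
  have hg1 : g ∈ P.L 1 := hg P hP
  have hx : M.x ∈ P.L 0 := Or.inr (x_nonneg hP)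
  have hxk : M.x ^ k ∈ P.L 0 := by simpa using Place.pow_mem_L hx k
  have h7 : M.x ^ 7 = M.x ^ k * M.x ^ (7 - k) := by rw [← pow_add]; congr 1; omega
  have h1 := Place.mul_mem_L_zero hxk hg1
  have ht := Place.t_mem_L hP
  have h2 := Place.mul_mem_L_zero (Place.aeval_mem_L ht α) (x7_at_four hP)
  have h3 := Submodule.smul_mem _ (128 : ℂ) (Place.aeval_sub_mem_L hP α)
  have h4 := Place.aeval_sub_mem_L hP (β * X ^ k)
  have h5 : algebraMap ℂ F (128 * α.eval 4 + 4 ^ k * β.eval 4) ∈ P.L 1 := by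
    have h6 := Submodule.sub_mem _ (Submodule.sub_mem _ (Submodule.sub_mem _ h1 h4) h2) h3
    convert h6 using 1
    rw [heq]
    rw [Algebra.smul_def]
    simp only [map_mul, map_pow, aeval_X, eval_mul, eval_pow, eval_X, map_add, map_ofNat]
    rw [mul_pow, h7]
    ring
  exact Place.const_eq_zero h5

/-- degree bounds from a pole of `t` -/
lemma core_pole {k : ℕ} (hk : k < 7) (r : ℕ) {g : F} {P : Place F}
    (hP : P.ord (M.x * M.z) < 0)
    (hg : g ∈ P.L (P.ord M.s + 1 - P.ord (M.x * M.z) + r * P.ord M.x))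
    (hτg : M.τ g ∈ P.L (P.ord M.s + 1 - P.ord (M.x * M.z) + r * P.ord M.x))
    {α β : ℂ[X]}
    (heq : g = aeval (M.x * M.z) α * M.x ^ (7 - k) + aeval (M.x * M.z) β * M.z ^ k) :
    (α = 0 ∨ 2 * α.natDegree + 3 ≤ k + r) ∧ (β = 0 ∨ 2 * β.natDegree + k ≤ 4 + r) := by
  obtain ⟨hx, hzx, hs⟩ := ord_at_pole hP
  have ht : P.ord (M.x * M.z) = 2 * P.ord M.x := by rw [ord_t]; omega
  have heqτ : M.τ g =
      aeval (M.x * M.z) α * M.z ^ (7 - k) + aeval (M.x * M.z) β * M.x ^ k := by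
    have := congrArg M.τ heq
    rw [map_add M.τ, map_mul M.τ, map_mul M.τ, map_pow M.τ, map_pow M.τ, M.τ_x, M.τ_z,
      M.τ_aeval, M.τ_aeval] at this
    exact this
  have h7 : M.x ^ 7 = M.x ^ k * M.x ^ (7 - k) := by rw [← pow_add]; congr 1; omega
  have h7z : M.z ^ 7 = M.z ^ k * M.z ^ (7 - k) := by rw [← pow_add]; congr 1; omega
  rw [hs, ht] at hg hτg
  set ox := P.ord M.x with hox
  have hxk : M.x ^ k ∈ P.L (k * ox) := Or.inr (by rw [P.ord_pow])
  have hzk : M.z ^ k ∈ P.L (k * ox) := Or.inr (by rw [P.ord_pow, hzx])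
  have h1 := Place.mul_mem_L hxk hg
  have h2 := Place.mul_mem_L hzk hτg
  have h3 := Submodule.sub_mem _ h1 h2
  have e3 : M.x ^ k * g - M.z ^ k * M.τ g = aeval (M.x * M.z) α * M.s := by
    rw [heqτ, heq]; simp only [s]; rw [h7, h7z]; ring
  rw [e3] at h3
  have hα : α = 0 ∨ (2 * (α.natDegree : ℤ) - (k - 2 + r)) * ox ≥ 1 := by
    by_cases h0 : α = 0
    · exact Or.inl h0
    right
    have hA := Place.ord_aeval_pole hP h0
    have h4 := Place.le_ord_of_mem_L h3 (mul_ne_zero hA.1 M.s_ne_zero)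
    rw [P.ord_mul _ _ hA.1 M.s_ne_zero, hA.2, hs, ht] at h4
    nlinarith
  have e4 : aeval (M.x * M.z) β * (M.x * M.z) ^ k =
      M.x ^ k * g - aeval (M.x * M.z) α * M.x ^ 7 := by
    rw [heq, h7, mul_pow]; ring
  have h5 : aeval (M.x * M.z) α * M.x ^ 7 ∈ P.L (k * ox + (7 * ox + 1 - 2 * ox + r * ox)) := by
    rcases hα with h0 | h0
    · left; simp [h0]
    · by_cases h00 : α = 0
      · left; simp [h00]
      have hA := Place.ord_aeval_pole hP h00
      right
      rw [P.ord_mul _ _ hA.1 (pow_ne_zero _ M.x_ne_zero), hA.2, P.ord_pow, ht]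
      push_cast
      nlinarith
  have h6 := Submodule.sub_mem _ h1 h5
  rw [← e4] at h6
  have hβ : β = 0 ∨ (2 * (β.natDegree : ℤ) + k - 5 - r) * ox ≥ 1 := by
    by_cases h0 : β = 0
    · exact Or.inl h0
    right
    have hB := Place.ord_aeval_pole hP h0
    have h4 := Place.le_ord_of_mem_L h6 (mul_ne_zero hB.1 (pow_ne_zero _ M.t_ne_zero))
    rw [P.ord_mul _ _ hB.1 (pow_ne_zero _ M.t_ne_zero), hB.2, P.ord_pow, ht] at h4
    nlinarith
  constructor
  · refine hα.imp id fun h => ?_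
    by_contra hlt
    push Not at hlt
    have : (0 : ℤ) ≤ 2 * (α.natDegree : ℤ) - (k - 2 + r) := by omega
    nlinarith
  · refine hβ.imp id fun h => ?_
    by_contra hlt
    push Not at hlt
    have : (0 : ℤ) ≤ 2 * (β.natDegree : ℤ) + k - 5 - r := by omega
    nlinarith

end Model

end EtaleGonality
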