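import Pool.Agent.G7.Defs

/-!
# The curve `x⁷ + z⁷ = 12 xz - 23 x²z² + 9 x³z³`: the data used by all modules
-/

open scoped IntermediateField
open Polynomial

namespace EtaleGonality

/-- Everything we use about the function field of the curve. `t = x z`. -/
structure Model (F : Type) [Field F] [Algebra ℂ F] where
  x : F
  z : F
  rel : x ^ 7 + z ^ 7 = 12 * (x * z) - 23 * (x * z) ^ 2 + 9 * (x * z) ^ 3
  tr : Transcendental ℂ (x * z)
  /-- every function is `(∑ a_k(t) x^(7-k) + b_k(t) z^k) / c(t)` -/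
  gen : ∀ y : F, ∃ (c : ℂ[X]) (a b : ℕ → ℂ[X]), c ≠ 0 ∧
    aeval (x * z) c * y = ∑ k ∈ Finset.range 7,
      (aeval (x * z) (a k) * x ^ (7 - k) + aeval (x * z) (b k) * z ^ k)
  ζ : ℂ
  hζ : IsPrimitiveRoot ζ 7
  σ : F ≃ₐ[ℂ] F
  σ_x : σ x = algebraMap ℂ F ζ⁻¹ * x
  σ_z : σ z = algebraMap ℂ F ζ * z
  τ : F ≃ₐ[ℂ] F
  τ_x : τ x = z
  τ_z : τ z = x

variable {F : Type} [Field F] [Algebra ℂ F]

namespace Model

variable (M : Model F)

/-- `t = x z` -/
def t : F := M.x * M.z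

/-- `q = x z - 1` -/
def q : F := M.x * M.z - 1

/-- basis of the regular differentials (as quartic adjoints); the index is the weight mod 7 -/
def w : Fin 7 → F :=
  ![M.x * M.z * (M.x * M.z - 1), M.z * (M.x * M.z - 1), M.z ^ 2 * (M.x * M.z - 1),
    M.z ^ 3 + M.x ^ 4, M.x ^ 3 + M.z ^ 4, M.x ^ 2 * (M.x * M.z - 1), M.x * (M.x * M.z - 1)]

/-- basis of the Prym differentials (quintic adjoints); `p l` has weight `l + 1` mod 7 -/
def p : Fin 6 → F :=
  ![M.z * (M.x * M.z - 1) * (M.x * M.z - 4),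
    M.z ^ 2 * (3 * (M.x * M.z) - 4) - M.x ^ 5,
    M.z ^ 3 * (M.x * M.z - 2) - M.x ^ 4,
    M.x ^ 3 * (M.x * M.z - 2) - M.z ^ 4,
    M.x ^ 2 * (3 * (M.x * M.z) - 4) - M.z ^ 5,
    M.x * (M.x * M.z - 1) * (M.x * M.z - 4)]

end Model

end EtaleGonality
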