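import Pool.Agent.G7.T4b
import Pool.Agent.G7.Model

/-! T4, part 3: existence of the model -/

open Polynomial
open scoped IntermediateField

namespace EtaleGonality.T4

theorem mem_range_of_isAlgebraic {y : FF} (hy : IsAlgebraic ℂ y) :
    ∃ c, algebraMap ℂ FF c = y := by
  have hint := hy.isIntegral
  have hd := IsAlgClosed.degree_eq_one_of_irreducible ℂ (minpoly.irreducible hint)
  exact minpoly.mem_range_of_degree_eq_one ℂ y hd

theorem t_transcendental : Transcendental ℂ (xF * zF) := by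
  intro h
  obtain ⟨c, hc⟩ := mem_range_of_isAlgebraic h
  apply x_transcendental
  refine ⟨X ^ 14 + (C (-(12 * c - 23 * c ^ 2 + 9 * c ^ 3)) * X ^ 7 + C (c ^ 7)), ?_, ?_⟩
  · apply Monic.ne_zero
    apply monic_X_pow_add
    refine lt_of_le_of_lt (degree_add_le _ _) (max_lt ?_ ?_)
    · exact lt_of_le_of_lt (degree_C_mul_X_pow_le _ _) (by norm_num)
    · exact lt_of_le_of_lt degree_C_le (by norm_num)
  · simp only [map_add, map_mul, map_pow, aeval_X, aeval_C, map_neg, map_sub, map_ofNat]
    rw [hc]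
    linear_combination xF ^ 7 * relF

theorem x_ne_zero : xF ≠ 0 := by
  intro h
  exact x_transcendental (h ▸ isAlgebraic_zero)

theorem t_mem : xF * zF ∈ ℂ⟮xF * zF⟯ := IntermediateField.mem_adjoin_simple_self ℂ _

theorem aeval_t_mem (p : ℂ[X]) : aeval (xF * zF) p ∈ ℂ⟮xF * zF⟯ :=
  IntermediateField.algebra_adjoin_le_adjoin ℂ _ (by
    rw [Algebra.adjoin_singleton_eq_range_aeval]; exact ⟨p, rfl⟩)

theorem x_integral : IsIntegral ℂ⟮xF * zF⟯ xF := by
  let t : ℂ⟮xF * zF⟯ := ⟨xF * zF, t_mem⟩
  refine ⟨X ^ 14 + (C (-(12 * t - 23 * t ^ 2 + 9 * t ^ 3)) * X ^ 7 + C (t ^ 7)), ?_, ?_⟩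
  · apply monic_X_pow_add
    refine lt_of_le_of_lt (degree_add_le _ _) (max_lt ?_ ?_)
    · exact lt_of_le_of_lt (degree_C_mul_X_pow_le _ _) (by norm_num)
    · exact lt_of_le_of_lt degree_C_le (by norm_num)
  · have ht : algebraMap ℂ⟮xF * zF⟯ FF t = xF * zF := rfl
    simp only [eval₂_add, eval₂_mul, eval₂_pow, eval₂_X, eval₂_C]
    simp only [map_neg, map_sub, map_add, map_mul, map_pow, map_ofNat]
    rw [ht]
    linear_combination xF ^ 7 * relF

theorem adjoin_A (a : A) : algebraMap A FF a ∈ IntermediateField.adjoin ℂ {xF, zF} := by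
  have hx : xF ∈ IntermediateField.adjoin ℂ {xF, zF} :=
    IntermediateField.subset_adjoin ℂ _ (by simp)
  have hz : zF ∈ IntermediateField.adjoin ℂ {xF, zF} :=
    IntermediateField.subset_adjoin ℂ _ (by simp)
  induction a using AdjoinRoot.induction_on with
  | ih p =>
    induction p using Polynomial.induction_on with
    | C a =>
      induction a using Polynomial.induction_on with
      | C c =>
        have : algebraMap A FF (AdjoinRoot.mk f (C (C c))) = algebraMap ℂ FF c := rfl
        rw [this]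
        exact IntermediateField.algebraMap_mem _ c
      | add p q hp hq => simp only [map_add]; exact add_mem hp hq
      | monomial n c h =>
        have : algebraMap A FF (AdjoinRoot.mk f (C (C c * X ^ (n + 1)))) =
          algebraMap A FF (AdjoinRoot.mk f (C (C c * X ^ n))) * xF := by
          rw [pow_succ, ← mul_assoc, C_mul, map_mul, map_mul]; rfl
        rw [this]
        exact mul_mem h hx
    | add p q hp hq => simp only [map_add]; exact add_mem hp hq
    | monomial n c h =>
      have : algebraMap A FF (AdjoinRoot.mk f (C c * X ^ (n + 1))) =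
          algebraMap A FF (AdjoinRoot.mk f (C c * X ^ n)) * zF := by
        rw [pow_succ, ← mul_assoc, map_mul, map_mul]; rfl
      rw [this]
      exact mul_mem h hz

theorem adjoin_eq_top : IntermediateField.adjoin ℂ {xF, zF} = ⊤ := by
  rw [eq_top_iff]
  intro y _
  obtain ⟨a, b, _, rfl⟩ := IsFractionRing.div_surjective A y
  exact div_mem (adjoin_A a) (adjoin_A b)

theorem adjoin_x_eq_top : ℂ⟮xF * zF⟯⟮xF⟯ = ⊤ := by
  have h1 : IntermediateField.adjoin ℂ {xF, zF} ≤
      (ℂ⟮xF * zF⟯⟮xF⟯).restrictScalars ℂ := by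
    rw [IntermediateField.adjoin_le_iff]
    have hx : xF ∈ (ℂ⟮xF * zF⟯⟮xF⟯).restrictScalars ℂ := by
      rw [IntermediateField.mem_restrictScalars]
      exact IntermediateField.mem_adjoin_simple_self _ _
    have ht : xF * zF ∈ (ℂ⟮xF * zF⟯⟮xF⟯).restrictScalars ℂ := by
      rw [IntermediateField.mem_restrictScalars]
      exact IntermediateField.algebraMap_mem _ (⟨xF * zF, t_mem⟩ : ℂ⟮xF * zF⟯)
    intro y hy
    rcases hy with rfl | hy
    · exact hx
    · rw [Set.mem_singleton_iff] at hy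
      subst hy
      have hz : (xF * zF) / xF = zF := mul_div_cancel_left₀ _ x_ne_zero
      have h3 := div_mem ht hx
      generalize (ℂ⟮xF * zF⟯⟮xF⟯).restrictScalars ℂ = S at h3 ⊢
      rw [hz] at h3
      exact h3
  rw [eq_top_iff]
  intro y _
  have := h1 (adjoin_eq_top ▸ IntermediateField.mem_top : y ∈ IntermediateField.adjoin ℂ {xF, zF})
  rwa [IntermediateField.mem_restrictScalars] at this

theorem finite_E : FiniteDimensional ℂ⟮xF * zF⟯ FF := by
  have h1 : FiniteDimensional ℂ⟮xF * zF⟯ ℂ⟮xF * zF⟯⟮xF⟯ :=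
    IntermediateField.adjoin.finiteDimensional x_integral
  rw [adjoin_x_eq_top] at h1
  exact LinearEquiv.finiteDimensional (IntermediateField.topEquiv).toLinearEquiv

/-- the property of `gen` -/
def G (y : FF) : Prop := ∃ (c : ℂ[X]) (a b : ℕ → ℂ[X]), c ≠ 0 ∧
    aeval (xF * zF) c * y = ∑ k ∈ Finset.range 7,
      (aeval (xF * zF) (a k) * xF ^ (7 - k) + aeval (xF * zF) (b k) * zF ^ k)

theorem G_one : G 1 := by
  refine ⟨1, fun _ => 0, fun k => if k = 0 then 1 else 0, one_ne_zero, ?_⟩
  simp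

theorem G_add {y y' : FF} (h : G y) (h' : G y') : G (y + y') := by
  obtain ⟨c, a, b, hc, h⟩ := h
  obtain ⟨c', a', b', hc', h'⟩ := h'
  refine ⟨c * c', fun k => c' * a k + c * a' k, fun k => c' * b k + c * b' k,
    mul_ne_zero hc hc', ?_⟩
  have : ∑ k ∈ Finset.range 7, (aeval (xF * zF) (c' * a k + c * a' k) * xF ^ (7 - k) +
      aeval (xF * zF) (c' * b k + c * b' k) * zF ^ k) =
      aeval (xF * zF) c' * ∑ k ∈ Finset.range 7,
      (aeval (xF * zF) (a k) * xF ^ (7 - k) + aeval (xF * zF) (b k) * zF ^ k) +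
      aeval (xF * zF) c * ∑ k ∈ Finset.range 7,
      (aeval (xF * zF) (a' k) * xF ^ (7 - k) + aeval (xF * zF) (b' k) * zF ^ k) := by
    rw [Finset.mul_sum, Finset.mul_sum, ← Finset.sum_add_distrib]
    apply Finset.sum_congr rfl
    intro k _
    simp only [map_add, map_mul]
    ring
  rw [this, ← h, ← h', map_mul]
  ring

theorem G_smul {y : FF} (p : ℂ[X]) (h : G y) : G (aeval (xF * zF) p * y) := by
  obtain ⟨c, a, b, hc, h⟩ := h
  refine ⟨c, fun k => p * a k, fun k => p * b k, hc, ?_⟩
  have : ∑ k ∈ Finset.range 7, (aeval (xF * zF) (p * a k) * xF ^ (7 - k) +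
      aeval (xF * zF) (p * b k) * zF ^ k) =
      aeval (xF * zF) p * ∑ k ∈ Finset.range 7,
      (aeval (xF * zF) (a k) * xF ^ (7 - k) + aeval (xF * zF) (b k) * zF ^ k) := by
    rw [Finset.mul_sum]
    apply Finset.sum_congr rfl
    intro k _
    simp only [map_mul]
    ring
  rw [this, ← h]
  ring

theorem G_div {y : FF} (p : ℂ[X]) (hp : p ≠ 0) (h : G y) : G (y / aeval (xF * zF) p) := by
  obtain ⟨c, a, b, hc, h⟩ := h
  refine ⟨c * p, a, b, mul_ne_zero hc hp, ?_⟩
  have hne : aeval (xF * zF) p ≠ 0 := by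
    intro h0
    exact hp ((transcendental_iff.mp t_transcendental) p h0)
  rw [← h, map_mul]
  field_simp

theorem G_mul_x {y : FF} (h : G y) : G (xF * y) := by
  obtain ⟨c, a, b, hc, h⟩ := h
  refine ⟨c, fun k => if k = 6 then a 0 * (12 * X - 23 * X ^ 2 + 9 * X ^ 3) + b 0 else a (k + 1),
    fun k => if k = 6 then - X * a 0 else X * b (k + 1), hc, ?_⟩
  have h2 : aeval (xF * zF) c * (xF * y) = xF * (aeval (xF * zF) c * y) := by ring
  rw [h2, h]
  simp only [Finset.sum_range_succ, Finset.sum_range_zero]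
  norm_num
  simp only [map_ofNat]
  linear_combination (aeval (xF * zF) (a 0)) * xF * relF

theorem G_E {y : FF} (e : ℂ⟮xF * zF⟯) (h : G y) : G ((e : FF) * y) := by
  obtain ⟨r, s, hrs⟩ := (IntermediateField.mem_adjoin_simple_iff ℂ (e : FF)).mp e.2
  by_cases hs : s = 0
  · rw [hrs, hs, map_zero, div_zero, zero_mul]
    have := G_smul 0 h
    simpa using this
  · rw [hrs]
    have := G_smul r (G_div s hs h)
    have h3 : aeval (xF * zF) r / aeval (xF * zF) s * y =
      aeval (xF * zF) r * (y / aeval (xF * zF) s) := by ring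
    rw [h3]; exact this

theorem G_pow (n : ℕ) : G (xF ^ n) := by
  induction n with
  | zero => simpa using G_one
  | succ n ih => rw [pow_succ, mul_comm]; exact G_mul_x ih

theorem G_all (y : FF) : G y := by
  have h1 : y ∈ ℂ⟮xF * zF⟯⟮xF⟯ := by rw [adjoin_x_eq_top]; trivial
  rw [← IntermediateField.mem_toSubalgebra,
    IntermediateField.adjoin_simple_toSubalgebra_of_isAlgebraic x_integral.isAlgebraic,
    Algebra.adjoin_singleton_eq_range_aeval] at h1
  obtain ⟨p, rfl⟩ := h1
  change G (aeval xF p)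
  induction p using Polynomial.induction_on with
  | C e =>
    rw [aeval_C]
    have := G_E e G_one
    rw [mul_one] at this
    exact this
  | add p q hp hq => rw [map_add]; exact G_add hp hq
  | monomial n e _ =>
    rw [map_mul, aeval_C, map_pow, aeval_X]
    exact G_E e (G_pow _)

/-- the primitive 7th root of unity -/
noncomputable def ζ : ℂ := Complex.exp (2 * Real.pi * Complex.I / 7)

theorem hζ : IsPrimitiveRoot ζ 7 := by
  have := Complex.isPrimitiveRoot_exp 7 (by norm_num)
  simpa [ζ] using this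

/-- the model -/
noncomputable def model : Model FF where
  x := xF
  z := zF
  rel := relF
  tr := t_transcendental
  gen := G_all
  ζ := ζ
  hζ := hζ
  σ := σF ζ hζ.pow_eq_one
  σ_x := σF_x ζ hζ.pow_eq_one
  σ_z := σF_z ζ hζ.pow_eq_one
  τ := τF
  τ_x := τF_x
  τ_z := τF_z

end EtaleGonality.T4

namespace EtaleGonality

theorem exists_model : ∃ (F : Type) (_ : Field F) (_ : Algebra ℂ F),
    IsFunctionField F ∧ Nonempty (Model F) :=
  ⟨T4.FF, inferInstance, inferInstance, ⟨T4.xF * T4.zF, T4.t_transcendental, T4.finite_E⟩,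
    ⟨T4.model⟩⟩

end EtaleGonality
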