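import Pool.Agent.G7.Api

/-!
# Orders of `x`, `z`, `s = x⁷ - z⁷` at the places of the curve
-/

open scoped IntermediateField
open Polynomial

namespace EtaleGonality

variable {F : Type} [Field F] [Algebra ℂ F]

/-- the cubic factor of the discriminant -/
noncomputable def Cub : ℂ[X] := C 4 * X ^ 3 - C 73 * X ^ 2 + C 264 * X - C 144

/-- the discriminant: `s² = -Dl(t)` -/
noncomputable def Dl : ℂ[X] := (X ^ 2 * (X - C 1) ^ 2) * Cub

lemma Cub_natDegree : Cub.natDegree = 3 := by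
  unfold Cub; compute_degree!

lemma Cub_ne_zero : Cub ≠ 0 := by
  intro h
  have := Cub_natDegree
  rw [h] at this; simp at this

lemma Dl_ne_zero : Dl ≠ 0 := by
  unfold Dl
  exact mul_ne_zero (mul_ne_zero (pow_ne_zero _ X_ne_zero) (pow_ne_zero _ (X_sub_C_ne_zero 1)))
    Cub_ne_zero

lemma Dl_natDegree : Dl.natDegree = 7 := by
  unfold Dl
  rw [natDegree_mul (mul_ne_zero (pow_ne_zero _ X_ne_zero) (pow_ne_zero _ (X_sub_C_ne_zero 1)))
    Cub_ne_zero, natDegree_mul (pow_ne_zero _ X_ne_zero) (pow_ne_zero _ (X_sub_C_ne_zero 1)),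
    Cub_natDegree, natDegree_pow, natDegree_pow, natDegree_X, natDegree_X_sub_C]

/-- `Cub` has simple roots -/
lemma Cub_simple {c : ℂ} (h1 : Cub.eval c = 0) (h2 : (derivative Cub).eval c = 0) : False := by
  have e1 : 4 * c ^ 3 - 73 * c ^ 2 + 264 * c - 144 = 0 := by
    simpa [Cub] using h1
  have e2 : 12 * c ^ 2 - 146 * c + 264 = 0 := by
    have : (derivative Cub).eval c = 4 * ((2 + 1) * c ^ 2) - 73 * ((1 + 1) * c) + 264 := by
      simp [Cub]
    rw [this] at h2
    linear_combination h2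
  have e3 : (1 : ℂ) = 0 := by
    linear_combination (10499/995328 - 2161/1824768 * c) * e1 +
      (17411/1824768 - 129577/21897216 * c + 2161/5474304 * c ^ 2) * e2
  exact one_ne_zero e3

lemma Cub_mult_le {c : ℂ} : Cub.rootMultiplicity c ≤ 1 := by
  by_contra hlt
  push Not at hlt
  have h1 : (1 : ℕ) < Cub.rootMultiplicity c := hlt
  rw [Polynomial.one_lt_rootMultiplicity_iff_isRoot Cub_ne_zero] at h1
  exact Cub_simple h1.1 h1.2

lemma Dl_mult {c : ℂ} (h0 : c ≠ 0) (h1 : c ≠ 1) :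
    Dl.rootMultiplicity c = Cub.rootMultiplicity c := by
  unfold Dl
  rw [rootMultiplicity_mul (by rw [← Dl.eq_def]; exact Dl_ne_zero)]
  rw [rootMultiplicity_eq_zero, zero_add]
  simp [IsRoot, h0, sub_eq_zero, h1]

lemma Dl_mult_le {c : ℂ} (h0 : c ≠ 0) (h1 : c ≠ 1) : Dl.rootMultiplicity c ≤ 1 := by
  rw [Dl_mult h0 h1]; exact Cub_mult_le

lemma Dl_mult_zero : Dl.rootMultiplicity 0 = 2 := by
  unfold Dl
  rw [mul_assoc, rootMultiplicity_mul (by rw [← mul_assoc, ← Dl.eq_def]; exact Dl_ne_zero)]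
  have e1 : (X ^ 2 : ℂ[X]).rootMultiplicity 0 = 2 := by
    have := rootMultiplicity_X_sub_C_pow (0 : ℂ) 2
    simpa using this
  rw [e1, rootMultiplicity_eq_zero]
  simp [IsRoot, Cub]

lemma Dl_mult_one : Dl.rootMultiplicity 1 = 2 := by
  unfold Dl
  have e0 : (X ^ 2 * (X - C 1) ^ 2 * Cub : ℂ[X]) = (X - C 1) ^ 2 * (X ^ 2 * Cub) := by ring
  rw [e0, rootMultiplicity_mul (by rw [← e0, ← Dl.eq_def]; exact Dl_ne_zero)]
  rw [rootMultiplicity_X_sub_C_pow, rootMultiplicity_eq_zero]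
  simp [IsRoot, Cub]
  norm_num

lemma Dl_mult_four : Dl.rootMultiplicity 4 = 1 := by
  rw [Dl_mult (by norm_num) (by norm_num)]
  have h1 : 0 < Cub.rootMultiplicity 4 := by
    rw [rootMultiplicity_pos Cub_ne_zero]
    simp [IsRoot, Cub]; norm_num
  have := Cub_mult_le (c := 4)
  omega

namespace Model

variable (M : Model F)

/-- `s = x⁷ - z⁷` -/
def s : F := M.x ^ 7 - M.z ^ 7

lemma s_sq : M.s ^ 2 = -aeval (M.x * M.z) Dl := by
  unfold s Dl Cub
  simp only [map_mul, map_pow, map_sub, map_add, aeval_X, map_ofNat, map_one]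
  linear_combination (M.x ^ 7 + M.z ^ 7 + (12 * (M.x * M.z) - 23 * (M.x * M.z) ^ 2 +
    9 * (M.x * M.z) ^ 3)) * M.rel

lemma aeval_ne_zero {p : ℂ[X]} (hp : p ≠ 0) : aeval (M.x * M.z) p ≠ 0 := by
  intro h
  exact M.tr ⟨p, hp, h⟩

lemma t_ne_zero : M.x * M.z ≠ 0 := by
  have := M.aeval_ne_zero X_ne_zero
  simpa using this

lemma x_ne_zero : M.x ≠ 0 := left_ne_zero_of_mul M.t_ne_zero

lemma z_ne_zero : M.z ≠ 0 := right_ne_zero_of_mul M.t_ne_zero

lemma s_ne_zero : M.s ≠ 0 := by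
  intro h
  have h1 := M.s_sq
  rw [h] at h1
  have h2 := M.aeval_ne_zero Dl_ne_zero
  apply h2
  linear_combination h1

lemma t_sub_ne_zero (c : ℂ) : M.x * M.z - algebraMap ℂ F c ≠ 0 := by
  have := M.aeval_ne_zero (X_sub_C_ne_zero c)
  simpa using this

lemma t_notMem_range : M.x * M.z ∉ (algebraMap ℂ F).range := by
  rintro ⟨c, hc⟩
  exact M.t_sub_ne_zero c (by rw [hc]; ring)

variable {M} {P : Place F}

lemma ord_t (M : Model F) (P : Place F) : P.ord (M.x * M.z) = P.ord M.x + P.ord M.z :=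
  P.ord_mul _ _ M.x_ne_zero M.z_ne_zero

lemma ord_s_sub (M : Model F) (P : Place F) : P.ord (M.z ^ 7 - M.x ^ 7) = P.ord M.s := by
  rw [P.ord_sub_comm]; rfl

/-- the right-hand side of the relation as a polynomial in `t` -/
noncomputable def _root_.EtaleGonality.Rp : ℂ[X] := C 12 * X - C 23 * X ^ 2 + C 9 * X ^ 3

lemma rel' (M : Model F) : M.x ^ 7 + M.z ^ 7 = aeval (M.x * M.z) Rp := by
  rw [M.rel]
  simp only [Rp, map_mul, map_pow, map_sub, map_add, aeval_X, map_ofNat]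

lemma Rp_natDegree : Rp.natDegree = 3 := by
  unfold Rp; compute_degree!

lemma Rp_ne_zero : Rp ≠ 0 := by
  intro h
  have := Rp_natDegree
  rw [h] at this; simp at this

/-- at a finite place `x` is regular -/
lemma x_nonneg {c : ℂ} (h : 0 < P.ord (M.x * M.z - algebraMap ℂ F c)) : 0 ≤ P.ord M.x := by
  by_contra hneg
  push Not at hneg
  have ht : M.x * M.z ∈ P.L 0 := Place.t_mem_L h
  have ht' : 0 ≤ P.ord (M.x * M.z) := Place.le_ord_of_mem_L ht M.t_ne_zero
  rw [ord_t] at ht'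
  have h1 : M.x ^ 7 ∈ P.L 0 := by
    have e : M.x ^ 7 = aeval (M.x * M.z) Rp - M.z ^ 7 := by rw [← rel']; ring
    rw [e]
    refine Submodule.sub_mem _ (Place.aeval_mem_L ht _) ?_
    right
    rw [P.ord_pow]; push_cast; omega
  have h2 := Place.le_ord_of_mem_L h1 (pow_ne_zero _ M.x_ne_zero)
  rw [P.ord_pow] at h2
  push_cast at h2; omega

lemma z_nonneg {c : ℂ} (h : 0 < P.ord (M.x * M.z - algebraMap ℂ F c)) : 0 ≤ P.ord M.z := by
  by_contra hneg
  push Not at hneg
  have ht : M.x * M.z ∈ P.L 0 := Place.t_mem_L h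
  have ht' : 0 ≤ P.ord (M.x * M.z) := Place.le_ord_of_mem_L ht M.t_ne_zero
  rw [ord_t] at ht'
  have h1 : M.z ^ 7 ∈ P.L 0 := by
    have e : M.z ^ 7 = aeval (M.x * M.z) Rp - M.x ^ 7 := by rw [← rel']; ring
    rw [e]
    refine Submodule.sub_mem _ (Place.aeval_mem_L ht _) ?_
    right
    rw [P.ord_pow]; push_cast; omega
  have h2 := Place.le_ord_of_mem_L h1 (pow_ne_zero _ M.z_ne_zero)
  rw [P.ord_pow] at h2
  push_cast at h2; omega

lemma two_ord_s {c : ℂ} (h : 0 < P.ord (M.x * M.z - algebraMap ℂ F c)) :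
    2 * P.ord M.s = Dl.rootMultiplicity c * P.ord (M.x * M.z - algebraMap ℂ F c) := by
  have h1 := congrArg P.ord M.s_sq
  rw [P.ord_neg, P.ord_pow, (Place.ord_aeval h Dl_ne_zero).2] at h1
  exact_mod_cast h1

lemma ord_s_nonneg {c : ℂ} (h : 0 < P.ord (M.x * M.z - algebraMap ℂ F c)) :
    0 ≤ P.ord M.s := by
  have h1 := two_ord_s h
  have : (0 : ℤ) ≤ Dl.rootMultiplicity c * P.ord (M.x * M.z - algebraMap ℂ F c) := by positivity
  omega

lemma ord_s_one (h : 0 < P.ord (M.x * M.z - algebraMap ℂ F 1)) :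
    P.ord M.s = P.ord (M.x * M.z - algebraMap ℂ F 1) := by
  have h1 := two_ord_s h
  rw [Dl_mult_one] at h1
  simp only [Nat.cast_ofNat] at h1; omega

lemma ord_s_zero (h : 0 < P.ord (M.x * M.z - algebraMap ℂ F 0)) :
    P.ord M.s = P.ord (M.x * M.z - algebraMap ℂ F 0) := by
  have h1 := two_ord_s h
  rw [Dl_mult_zero] at h1
  simp only [Nat.cast_ofNat] at h1; omega

lemma ord_s_four (h : 0 < P.ord (M.x * M.z - algebraMap ℂ F 4)) :
    2 * P.ord M.s = P.ord (M.x * M.z - algebraMap ℂ F 4) := by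
  have h1 := two_ord_s h
  rw [Dl_mult_four] at h1
  push_cast at h1; omega

/-- at a place over `0`, `x` and `z` have orders `ξ, 6ξ` in some order -/
lemma ord_at_zero (h : 0 < P.ord (M.x * M.z - algebraMap ℂ F 0)) :
    (0 < P.ord M.x ∧ P.ord M.z = 6 * P.ord M.x) ∨ (0 < P.ord M.z ∧ P.ord M.x = 6 * P.ord M.z) := by
  have hx := x_nonneg h
  have hz := z_nonneg h
  have ht : 0 < P.ord (M.x * M.z) := by simpa using h
  have ht2 := ht
  rw [ord_t] at ht2
  have hR : P.ord (aeval (M.x * M.z) Rp) = P.ord (M.x * M.z) := by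
    have h1 := (Place.ord_aeval h Rp_ne_zero).2
    have h2 : Rp.rootMultiplicity 0 = 1 := by
      have e : Rp = X * (C 12 - C 23 * X + C 9 * X ^ 2) := by unfold Rp; ring
      rw [e, rootMultiplicity_mul (by rw [← e]; exact Rp_ne_zero)]
      have e1 : (X : ℂ[X]).rootMultiplicity 0 = 1 := by
        have := rootMultiplicity_X_sub_C_self (x := (0 : ℂ))
        simpa using this
      rw [e1, rootMultiplicity_eq_zero]
      simp [IsRoot]
    rw [h1, h2]; simp
  have hrel := rel' M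
  have hx7 : M.x ^ 7 ≠ 0 := pow_ne_zero _ M.x_ne_zero
  have hz7 : M.z ^ 7 ≠ 0 := pow_ne_zero _ M.z_ne_zero
  rcases lt_trichotomy (P.ord M.x) (P.ord M.z) with hlt | heq | hgt
  · left
    have h1 := P.ord_add_eq_left (a := M.x ^ 7) (b := M.z ^ 7) hx7 (by
      right; rw [P.ord_pow, P.ord_pow]; push_cast; omega)
    rw [hrel, hR, P.ord_pow, ord_t] at h1
    have := h1.1
    push_cast at this
    omega
  · exfalso
    have hne : M.x ^ 7 + M.z ^ 7 ≠ 0 := by rw [hrel]; exact M.aeval_ne_zero Rp_ne_zero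
    have h1 := P.ord_add (M.x ^ 7) (M.z ^ 7) hx7 hz7 hne
    rw [hrel, hR, P.ord_pow, P.ord_pow, ord_t] at h1
    rw [heq] at h1
    simp only [min_self] at h1
    push_cast at h1
    omega
  · right
    have h1 := P.ord_add_eq_left (a := M.z ^ 7) (b := M.x ^ 7) hz7 (by
      right; rw [P.ord_pow, P.ord_pow]; push_cast; omega)
    rw [add_comm, hrel, hR, P.ord_pow, ord_t] at h1
    have := h1.1
    push_cast at this
    omega

/-- at a pole of `t`, `x` and `z` have the same (negative) order -/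
lemma ord_at_pole (h : P.ord (M.x * M.z) < 0) :
    P.ord M.x < 0 ∧ P.ord M.z = P.ord M.x ∧ P.ord M.s = 7 * P.ord M.x := by
  have ht2 := h
  rw [ord_t] at ht2
  have hR : P.ord (aeval (M.x * M.z) Rp) = 3 * P.ord (M.x * M.z) := by
    rw [(Place.ord_aeval_pole h Rp_ne_zero).2, Rp_natDegree]; norm_num
  have hrel := rel' M
  have hx7 : M.x ^ 7 ≠ 0 := pow_ne_zero _ M.x_ne_zero
  have hz7 : M.z ^ 7 ≠ 0 := pow_ne_zero _ M.z_ne_zero
  have hxz : P.ord M.z = P.ord M.x := by
    rcases lt_trichotomy (P.ord M.x) (P.ord M.z) with hlt | heq | hgt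
    · exfalso
      have h1 := P.ord_add_eq_left (a := M.x ^ 7) (b := M.z ^ 7) hx7 (by
        right; rw [P.ord_pow, P.ord_pow]; push_cast; omega)
      rw [hrel, hR, P.ord_pow, ord_t] at h1
      have := h1.1
      push_cast at this
      omega
    · exact heq.symm
    · exfalso
      have h1 := P.ord_add_eq_left (a := M.z ^ 7) (b := M.x ^ 7) hz7 (by
        right; rw [P.ord_pow, P.ord_pow]; push_cast; omega)
      rw [add_comm, hrel, hR, P.ord_pow, ord_t] at h1
      have := h1.1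
      push_cast at this
      omega
  refine ⟨by omega, hxz, ?_⟩
  have h1 := congrArg P.ord M.s_sq
  rw [P.ord_neg, P.ord_pow, (Place.ord_aeval_pole h Dl_ne_zero).2, Dl_natDegree, ord_t, hxz] at h1
  push_cast at h1
  omega

/-- value of `x^7` at places over `1` -/
lemma x7_at_one (h : 0 < P.ord (M.x * M.z - algebraMap ℂ F 1)) :
    M.x ^ 7 + 1 ∈ P.L 1 := by
  have h1 := Place.aeval_sub_mem_L h Rp
  rw [← rel'] at h1
  have h2 : Rp.eval 1 = -2 := by simp [Rp]; norm_num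
  rw [h2] at h1
  have h3 : M.s ∈ P.L 1 := by
    right; rw [ord_s_one h]; exact h
  have h4 := Submodule.smul_mem (P.L 1) ((1 : ℂ) / 2) (Submodule.add_mem _ h1 h3)
  have e : ((1 : ℂ) / 2) • (M.x ^ 7 + M.z ^ 7 - algebraMap ℂ F (-2) + M.s) = M.x ^ 7 + 1 := by
    rw [Algebra.smul_def]
    simp only [s, map_neg, map_ofNat, map_div₀, map_one]
    have : CharZero F := charZero_of_injective_algebraMap (algebraMap ℂ F).injective
    field_simp
    ring
  rwa [e] at h4

lemma z7_at_one (h : 0 < P.ord (M.x * M.z - algebraMap ℂ F 1)) :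
    M.z ^ 7 + 1 ∈ P.L 1 := by
  have h1 := x7_at_one h
  have h3 : M.s ∈ P.L 1 := by
    right; rw [ord_s_one h]; exact h
  have h4 := Submodule.sub_mem _ h1 h3
  have e : M.x ^ 7 + 1 - M.s = M.z ^ 7 + 1 := by simp only [s]; ring
  rwa [e] at h4

/-- value of `x^7` at places over `4` -/
lemma x7_at_four (h : 0 < P.ord (M.x * M.z - algebraMap ℂ F 4)) :
    M.x ^ 7 - 128 ∈ P.L 1 := by
  have h1 := Place.aeval_sub_mem_L h Rp
  rw [← rel'] at h1
  have h2 : Rp.eval 4 = 256 := by simp [Rp]; norm_num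
  rw [h2] at h1
  have h3 : M.s ∈ P.L 1 := by
    right; have := ord_s_four h; omega
  have h4 := Submodule.smul_mem (P.L 1) ((1 : ℂ) / 2) (Submodule.add_mem _ h1 h3)
  have e : ((1 : ℂ) / 2) • (M.x ^ 7 + M.z ^ 7 - algebraMap ℂ F 256 + M.s) = M.x ^ 7 - 128 := by
    rw [Algebra.smul_def]
    simp only [s, map_ofNat, map_div₀, map_one]
    have : CharZero F := charZero_of_injective_algebraMap (algebraMap ℂ F).injective
    field_simp
    ring
  rwa [e] at h4

end Model

end EtaleGonality
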