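import Mathlib

/-!
# Curves over `ℂ` through their function fields: basic definitions

A smooth projective connected curve over `ℂ` is described by its function field `F`
(a finitely generated extension of `ℂ` of transcendence degree one); its points are the
normalised discrete valuations of `F` that are trivial on `ℂ`.
-/

open scoped IntermediateField

namespace EtaleGonality

/-- `F` is a function field in one variable over `ℂ`: it is a finite extension of `ℂ(t)` for some
`t` transcendental over `ℂ`. -/
def IsFunctionField (F : Type) [Field F] [Algebra ℂ F] : Prop :=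
  ∃ t : F, Transcendental ℂ t ∧ FiniteDimensional ℂ⟮t⟯ F

/-- A point (place) of the curve with function field `F`: a normalised discrete valuation
`ord : F → ℤ` trivial on `ℂ`.  (Only the values at nonzero elements are meaningful;
`ord 0` is set to `0` so that a place is determined by its valuation.) -/
@[ext]
structure Place (F : Type) [Field F] [Algebra ℂ F] where
  /-- order of vanishing -/
  ord : F → ℤ
  ord_zero : ord 0 = 0
  ord_mul : ∀ a b, a ≠ 0 → b ≠ 0 → ord (a * b) = ord a + ord b
  ord_add : ∀ a b, a ≠ 0 → b ≠ 0 → a + b ≠ 0 → min (ord a) (ord b) ≤ ord (a + b)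
  ord_const : ∀ c : ℂ, ord (algebraMap ℂ F c) = 0
  ord_surj : ∃ π, π ≠ 0 ∧ ord π = 1

variable {F : Type} [Field F] [Algebra ℂ F]

namespace Place

variable (P : Place F)

lemma ord_one : P.ord 1 = 0 := by
  have := P.ord_const 1
  simpa using this

lemma ord_neg (a : F) : P.ord (-a) = P.ord a := by
  by_cases ha : a = 0
  · simp [ha]
  have h1 : P.ord (algebraMap ℂ F (-1) * a) = P.ord (algebraMap ℂ F (-1)) + P.ord a :=
    P.ord_mul _ _ (by simp) ha
  rw [P.ord_const] at h1
  simpa using h1

/-- The functions with order at least `n` at `P`. -/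
def L (n : ℤ) : Submodule ℂ F where
  carrier := {a | a = 0 ∨ n ≤ P.ord a}
  zero_mem' := Or.inl rfl
  add_mem' := by
    intro a b ha hb
    by_cases ha0 : a = 0
    · simpa [ha0] using hb
    by_cases hb0 : b = 0
    · simpa [hb0] using ha
    by_cases hab : a + b = 0
    · exact Or.inl hab
    have ha' := ha.resolve_left ha0
    have hb' := hb.resolve_left hb0
    exact Or.inr (le_trans (le_min ha' hb') (P.ord_add a b ha0 hb0 hab))
  smul_mem' := by
    intro c a ha
    by_cases hc : c = 0
    · left; simp [hc]
    by_cases ha0 : a = 0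
    · left; simp [ha0]
    have ha' := ha.resolve_left ha0
    right
    rw [Algebra.smul_def, P.ord_mul _ _ (by simpa using hc) ha0, P.ord_const]
    simpa using ha'

variable {P}

lemma mem_L {n : ℤ} {a : F} : a ∈ P.L n ↔ a = 0 ∨ n ≤ P.ord a := Iff.rfl

/-- The valuation ring of `P` (functions regular at `P`). -/
def ring (P : Place F) : Subring F where
  carrier := {a | 0 ≤ P.ord a}
  zero_mem' := by simp [P.ord_zero]
  one_mem' := by simp [P.ord_one]
  mul_mem' := by
    intro a b ha hb
    by_cases ha0 : a = 0
    · simp [ha0, P.ord_zero]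
    by_cases hb0 : b = 0
    · simp [hb0, P.ord_zero]
    simp only [Set.mem_ofPred_eq] at *
    rw [P.ord_mul a b ha0 hb0]
    omega
  add_mem' := by
    intro a b ha hb
    simp only [Set.mem_ofPred_eq] at *
    by_cases ha0 : a = 0
    · simpa [ha0] using hb
    by_cases hb0 : b = 0
    · simpa [hb0] using ha
    by_cases hab : a + b = 0
    · simp [hab, P.ord_zero]
    exact le_trans (le_min ha hb) (P.ord_add a b ha0 hb0 hab)
  neg_mem' := by
    intro a ha
    simp only [Set.mem_ofPred_eq] at *
    rwa [P.ord_neg]

lemma mem_ring {a : F} : a ∈ P.ring ↔ 0 ≤ P.ord a := Iff.rfl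

lemma algebraMap_mem_ring (c : ℂ) : algebraMap ℂ F c ∈ P.ring := by
  rw [mem_ring, P.ord_const]

end Place

/-- The differential `ω` of `F / ℂ` is regular at the point `P`: it lies in the submodule
`O_P · d O_P` of `Ω[F⁄ℂ]`, `O_P` being the valuation ring of `P`. -/
def IsRegularAt (P : Place F) (ω : Ω[F⁄ℂ]) : Prop :=
  ω ∈ Submodule.span P.ring ((KaehlerDifferential.D ℂ F) '' (P.ring : Set F))

variable (F) in
/-- The space of everywhere regular differentials (differentials of the first kind). -/
def regularDifferentials : Submodule ℂ (Ω[F⁄ℂ]) where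
  carrier := {ω | ∀ P : Place F, IsRegularAt P ω}
  zero_mem' := fun P => Submodule.zero_mem _
  add_mem' := fun ha hb P => Submodule.add_mem _ (ha P) (hb P)
  smul_mem' := by
    intro c ω hω P
    have h := Submodule.smul_mem _
      (⟨algebraMap ℂ F c, Place.algebraMap_mem_ring c⟩ : P.ring) (hω P)
    have h2 : ((⟨algebraMap ℂ F c, Place.algebraMap_mem_ring c⟩ : P.ring) • ω) = c • ω :=
      algebraMap_smul F c ω
    rw [h2] at h
    exact h

variable (F) in
/-- The genus of the curve: the dimension of the space of regular differentials. -/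
noncomputable def genus : ℕ := Module.finrank ℂ (regularDifferentials F)

variable (F) in
/-- `n` is the gonality of the curve: the smallest degree `[F : ℂ(φ)]` of a nonconstant
map `φ` to the projective line. -/
def HasGonality (n : ℕ) : Prop :=
  IsLeast {d : ℕ | ∃ φ : F, φ ∉ (algebraMap ℂ F).range ∧ FiniteDimensional ℂ⟮φ⟯ F ∧
    Module.finrank ℂ⟮φ⟯ F = d} n

/-- For `h : F` with even divisor, the 2-torsion class `η = ½ div h` is the class of `D - D'`
with `D, D'` effective of degree `i`. -/
def InDifference (h : F) (i : ℕ) : Prop :=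
  ∃ D D' : Place F →₀ ℕ, D.degree = i ∧ D'.degree = i ∧
    ∃ u : F, u ≠ 0 ∧ ∀ P : Place F, P.ord h + 2 * P.ord u = 2 * ((D P : ℤ) - (D' P : ℤ))

end EtaleGonality
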