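import Pool.Agent.G7.Der2

/-!
# Kaehler differentials of a function field in one variable
-/

open scoped IntermediateField TensorProduct
open Polynomial

namespace EtaleGonality

open Der

variable {F : Type} [Field F] [Algebra ℂ F]

/-- `Ω[F⁄ℂ]` is one-dimensional with basis `dt` (`t` nonconstant): `F` is formally etale over
`ℂ[X]` through `t`. -/
theorem exists_kaehler_coord (hF : IsFunctionField F) {t : F} (ht : t ∉ (algebraMap ℂ F).range) :
    ∃ e : Ω[F⁄ℂ] ≃ₗ[F] F, e (KaehlerDifferential.D ℂ F t) = 1 := by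
  let _ : Algebra ℂ[X] F := ((aeval t : ℂ[X] →ₐ[ℂ] F) : ℂ[X] →+* F).toAlgebra
  have hmap : ∀ p : ℂ[X], algebraMap ℂ[X] F p = aeval t p := fun p => rfl
  have hst : IsScalarTower ℂ ℂ[X] F := IsScalarTower.of_algebraMap_eq fun c => by
    rw [hmap, Polynomial.algebraMap_apply]
    simp
  have htr := transcendental_of_nonconst ht
  have hinj : Function.Injective (algebraMap ℂ[X] F) := transcendental_iff_injective.1 htr
  have hfaith : FaithfulSMul ℂ[X] F := (faithfulSMul_iff_algebraMap_injective _ _).2 hinj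
  have halg : Algebra.IsAlgebraic ℂ[X] F := by
    constructor
    intro y
    obtain ⟨H, h1, h2⟩ := exists_rel hF ht y
    exact ⟨H, h1, h2⟩
  let _ : Algebra (FractionRing ℂ[X]) F := FractionRing.liftAlgebra ℂ[X] F
  have hst2 : IsScalarTower ℂ[X] (FractionRing ℂ[X]) F := FractionRing.isScalarTower_liftAlgebra ..
  have halg2 : Algebra.IsAlgebraic (FractionRing ℂ[X]) F :=
    (IsFractionRing.comap_isAlgebraic_iff (K := FractionRing ℂ[X])).1 halg
  have hsep : Algebra.IsSeparable (FractionRing ℂ[X]) F := inferInstance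
  have h1 : Algebra.FormallyEtale ℂ[X] (FractionRing ℂ[X]) :=
    Algebra.FormallyEtale.of_isLocalization (nonZeroDivisors ℂ[X])
  have h2 : Algebra.FormallyEtale (FractionRing ℂ[X]) F :=
    Algebra.FormallyEtale.of_isSeparable (FractionRing ℂ[X]) F
  have h3 : Algebra.FormallyEtale ℂ[X] F :=
    Algebra.FormallyEtale.comp ℂ[X] (FractionRing ℂ[X]) F
  let E := KaehlerDifferential.tensorKaehlerEquivOfFormallyEtale ℂ ℂ[X] F
  let e1 : F ⊗[ℂ[X]] Ω[ℂ[X]⁄ℂ] ≃ₗ[F] F ⊗[ℂ[X]] ℂ[X] :=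
    (KaehlerDifferential.polynomialEquiv ℂ).baseChange ℂ[X] F _ _
  let e2 : F ⊗[ℂ[X]] ℂ[X] ≃ₗ[F] F := TensorProduct.AlgebraTensorModule.rid ℂ[X] F F
  refine ⟨E.symm ≪≫ₗ e1 ≪≫ₗ e2, ?_⟩
  have h4 : KaehlerDifferential.D ℂ F t =
      KaehlerDifferential.D ℂ F (algebraMap ℂ[X] F X) := by
    rw [hmap, aeval_X]
  have h5 : E.symm (KaehlerDifferential.D ℂ F t) = 1 ⊗ₜ KaehlerDifferential.D ℂ ℂ[X] X := by
    rw [h4]
    exact KaehlerDifferential.tensorKaehlerEquivOfFormallyEtale_symm_D_algebraMap ℂ ℂ[X] F X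
  simp only [LinearEquiv.trans_apply]
  rw [h5]
  simp [e1, e2]

/-- the derivation `φ ↦ e (dφ)` -/
noncomputable def Der.toDer (e : Ω[F⁄ℂ] ≃ₗ[F] F) : Derivation ℂ F F :=
  e.toLinearMap.compDer (KaehlerDifferential.D ℂ F)

lemma Der.toDer_apply (e : Ω[F⁄ℂ] ≃ₗ[F] F) (φ : F) :
    Der.toDer e φ = e (KaehlerDifferential.D ℂ F φ) := rfl

lemma Der.toDer_ne_zero (e : Ω[F⁄ℂ] ≃ₗ[F] F) : Der.toDer e ≠ 0 := by
  intro h
  have h1 : ∀ φ : F, KaehlerDifferential.D ℂ F φ = 0 := by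
    intro φ
    have h2 : Der.toDer e φ = 0 := by rw [h]; rfl
    rw [Der.toDer_apply] at h2
    exact e.map_eq_zero_iff.1 h2
  have h3 : (⊤ : Submodule F (Ω[F⁄ℂ])) = ⊥ := by
    rw [← KaehlerDifferential.span_range_derivation, Submodule.span_eq_bot]
    rintro _ ⟨φ, rfl⟩
    exact h1 φ
  have h4 : e.symm 1 ∈ (⊤ : Submodule F (Ω[F⁄ℂ])) := Submodule.mem_top
  rw [h3, Submodule.mem_bot] at h4
  have h5 : (1 : F) = 0 := by
    rw [← e.apply_symm_apply 1, h4, map_zero]
  exact one_ne_zero h5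

/-- regularity of `ω` in terms of the coefficient `e ω` -/
theorem regularAt_iff (hF : IsFunctionField F) (e : Ω[F⁄ℂ] ≃ₗ[F] F) (P : Place F)
    {π : F} (hπ0 : π ≠ 0) (hπ : P.ord π = 1) (ω : Ω[F⁄ℂ]) :
    IsRegularAt P ω ↔ e ω ∈ P.L (P.ord (e (KaehlerDifferential.D ℂ F π))) := by
  have hnc : π ∉ (algebraMap ℂ F).range := nonconst_of_ord P (by omega)
  have hδ := Der.toDer_ne_zero e
  have hδπ : Der.toDer e π ≠ 0 := der_ne_zero hF _ hδ hnc
  constructor
  · intro h
    unfold IsRegularAt at h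
    induction h using Submodule.span_induction with
    | mem x hx =>
      obtain ⟨b, hb, rfl⟩ := hx
      exact der_mem hF P (Der.toDer e) hδ hπ0 hπ hb
    | zero => rw [map_zero]; exact zero_mem _
    | add x y _ _ hx hy => rw [map_add]; exact add_mem hx hy
    | smul a x _ hx =>
      have h1 : e (a • x) = (a : F) * e x := by
        have : a • x = (a : F) • x := rfl
        rw [this, map_smul, smul_eq_mul]
      rw [h1]
      exact mul_mem_L' P (Or.inr a.2) hx
  · intro h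
    set d := e (KaehlerDifferential.D ℂ F π) with hd
    have hd0 : d ≠ 0 := hδπ
    have h1 : e ω * d⁻¹ ∈ P.L 0 := by
      have h2 : d⁻¹ ∈ P.L (-P.ord d) := Or.inr (ord_inv P hd0).ge
      have h3 := mul_mem_L P h h2
      rwa [add_neg_cancel] at h3
    have h2 : e ω * d⁻¹ ∈ P.ring := (mem_L_zero P).1 h1
    have h3 : ω = (⟨e ω * d⁻¹, h2⟩ : P.ring) • KaehlerDifferential.D ℂ F π := by
      apply e.injective
      have h4 : (⟨e ω * d⁻¹, h2⟩ : P.ring) • KaehlerDifferential.D ℂ F π =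
          (e ω * d⁻¹) • KaehlerDifferential.D ℂ F π := rfl
      rw [h4, map_smul, smul_eq_mul, ← hd, mul_assoc, inv_mul_cancel₀ hd0, mul_one]
    rw [h3]
    refine Submodule.smul_mem _ _ (Submodule.subset_span ⟨π, ?_, rfl⟩)
    have : 0 ≤ P.ord π := by omega
    exact this

end EtaleGonality
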