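import Pool.Agent.G7.Model

/-!
# Derivations and valuations, part 1: algebraic relations, residues
-/

open scoped IntermediateField
open Polynomial

namespace EtaleGonality

namespace Der

variable {F : Type} [Field F] [Algebra ℂ F]

/-! ### orders -/

section ords

variable (P : Place F)

lemma L_mono {m n : ℤ} (h : m ≤ n) {a : F} (ha : a ∈ P.L n) : a ∈ P.L m := by
  rcases ha with ha | ha
  · exact Or.inl ha
  · exact Or.inr (le_trans h ha)

lemma mem_L_of_le {n : ℤ} {a : F} (h : n ≤ P.ord a) : a ∈ P.L n := Or.inr h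

lemma mul_mem_L {m n : ℤ} {a b : F} (ha : a ∈ P.L m) (hb : b ∈ P.L n) : a * b ∈ P.L (m + n) := by
  by_cases ha0 : a = 0
  · left; simp [ha0]
  by_cases hb0 : b = 0
  · left; simp [hb0]
  have h1 := ha.resolve_left ha0
  have h2 := hb.resolve_left hb0
  right
  rw [P.ord_mul a b ha0 hb0]
  omega

lemma const_mem_L (c : ℂ) : algebraMap ℂ F c ∈ P.L 0 := Or.inr (by rw [P.ord_const])

lemma mem_L_zero {a : F} : a ∈ P.L 0 ↔ 0 ≤ P.ord a := by
  constructor
  · rintro (h | h)
    · rw [h, P.ord_zero]
    · exact h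
  · exact fun h => Or.inr h

lemma one_mem_L : (1 : F) ∈ P.L 0 := by
  have := const_mem_L P (1 : ℂ)
  rwa [map_one] at this

lemma pow_mem_L {m : ℤ} {a : F} (ha : a ∈ P.L m) (k : ℕ) : a ^ k ∈ P.L (k * m) := by
  induction k with
  | zero => simpa using one_mem_L P
  | succ k ih =>
    have h := mul_mem_L P ih ha
    rw [pow_succ]
    have e : ((k + 1 : ℕ) : ℤ) * m = k * m + m := by push_cast; ring
    rwa [e]

lemma natCast_mem_L (k : ℕ) : (k : F) ∈ P.L 0 := by
  have := const_mem_L P (k : ℂ)
  rwa [map_natCast] at this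

lemma ord_mul' {a b : F} (ha : a ≠ 0) (hb : b ≠ 0) : P.ord (a * b) = P.ord a + P.ord b :=
  P.ord_mul a b ha hb

lemma ord_pow {a : F} (ha : a ≠ 0) (k : ℕ) : P.ord (a ^ k) = k * P.ord a := by
  induction k with
  | zero => simp [P.ord_one]
  | succ k ih => rw [pow_succ, P.ord_mul _ _ (pow_ne_zero _ ha) ha, ih]; push_cast; ring

lemma ord_inv {a : F} (ha : a ≠ 0) : P.ord a⁻¹ = - P.ord a := by
  have h := P.ord_mul a a⁻¹ ha (inv_ne_zero ha)
  rw [mul_inv_cancel₀ ha, P.ord_one] at h
  omega

lemma ord_zpow {a : F} (ha : a ≠ 0) (k : ℤ) : P.ord (a ^ k) = k * P.ord a := by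
  cases k with
  | ofNat k => simpa using ord_pow P ha k
  | negSucc k =>
    rw [zpow_negSucc, ord_inv P (pow_ne_zero _ ha), ord_pow P ha]
    push_cast [Int.negSucc_eq]
    ring

lemma ord_div {a b : F} (ha : a ≠ 0) (hb : b ≠ 0) : P.ord (a / b) = P.ord a - P.ord b := by
  rw [div_eq_mul_inv, P.ord_mul _ _ ha (inv_ne_zero hb), ord_inv P hb]
  ring

/-- a summand of strictly larger order does not matter -/
lemma ord_add_of_mem {n : ℤ} {a b : F} (ha : a ≠ 0) (han : P.ord a = n) (hb : b ∈ P.L (n + 1)) :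
    a + b ≠ 0 ∧ P.ord (a + b) = n := by
  have hne : a + b ≠ 0 := by
    intro h
    have h1 : a = -b := by linear_combination h
    rcases hb with hb | hb
    · exact ha (by rw [h1, hb, neg_zero])
    · rw [h1, P.ord_neg] at han
      omega
  refine ⟨hne, ?_⟩
  rcases hb with hb | hb
  · rw [hb, add_zero]; exact han
  · by_cases hb0 : b = 0
    · rw [hb0, add_zero]; exact han
    apply le_antisymm
    · by_contra hcon
      push Not at hcon
      have h1 := P.ord_add (a + b) (-b) hne (neg_ne_zero.2 hb0) (by simpa using ha)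
      rw [P.ord_neg, add_neg_cancel_right, han] at h1
      have h2 : n + 1 ≤ min (P.ord (a + b)) (P.ord b) := le_min hcon hb
      omega
    · have h1 := P.ord_add a b ha hb0 hne
      have h2 : n ≤ min (P.ord a) (P.ord b) := le_min (by omega) (by omega)
      omega

lemma mul_mem_L' {n : ℤ} {a b : F} (ha : a ∈ P.L 0) (hb : b ∈ P.L n) : a * b ∈ P.L n := by
  have := mul_mem_L P ha hb
  rwa [zero_add] at this

lemma aeval_mem_L {a : F} (ha : a ∈ P.L 0) (p : ℂ[X]) : aeval a p ∈ P.L 0 := by
  induction p using Polynomial.induction_on' with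
  | add p q hp hq => rw [map_add]; exact add_mem hp hq
  | monomial n c =>
    rw [aeval_monomial]
    have h := pow_mem_L P ha n
    rw [mul_zero] at h
    exact mul_mem_L' P (const_mem_L P c) h

end ords

/-! ### algebraic relations -/

/-- nonconstant functions are transcendental -/
lemma transcendental_of_nonconst {φ : F} (hφ : φ ∉ (algebraMap ℂ F).range) :
    Transcendental ℂ φ := by
  intro halg
  apply hφ
  exact minpoly.mem_range_of_degree_eq_one ℂ φ
    (IsAlgClosed.degree_eq_one_of_irreducible ℂ (minpoly.irreducible halg.isIntegral))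

lemma isAlgebraic_adjoin (hF : IsFunctionField F) {φ : F} (hφ : φ ∉ (algebraMap ℂ F).range) :
    Algebra.IsAlgebraic (Algebra.adjoin ℂ {φ}) F := by
  obtain ⟨t, ht, hfin⟩ := hF
  open scoped IntermediateField.algebraAdjoinAdjoin in
  have h1 : Algebra.IsAlgebraic (Algebra.adjoin ℂ {t}) F :=
    (IsFractionRing.comap_isAlgebraic_iff (K := ℂ⟮t⟯)).2 inferInstance
  have h2 : Algebra.trdeg ℂ F ≤ 1 := by
    have := Algebra.IsAlgebraic.trdeg_le_cardinalMk ℂ ({t} : Set F)
    simpa using this
  have h3 : AlgebraicIndependent ℂ (fun _ : Unit => φ) :=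
    algebraicIndependent_unique_type_iff.2 (transcendental_of_nonconst hφ)
  have h4 := h3.isTranscendenceBasis_of_trdeg_le_of_finite (by simpa using h2)
  have h5 := h4.isAlgebraic
  have e : Set.range (fun _ : Unit => φ) = {φ} := by simp
  rw [e] at h5
  exact h5

/-- any two functions are algebraically dependent -/
lemma exists_rel (hF : IsFunctionField F) {φ : F} (hφ : φ ∉ (algebraMap ℂ F).range) (y : F) :
    ∃ H : ℂ[X][X], H ≠ 0 ∧ H.eval₂ ((aeval φ : ℂ[X] →ₐ[ℂ] F) : ℂ[X] →+* F) y = 0 := by
  have h := isAlgebraic_adjoin hF hφ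
  let _ : Algebra ℂ[X] F := ((aeval φ : ℂ[X] →ₐ[ℂ] F) : ℂ[X] →+* F).toAlgebra
  have h1 : IsAlgebraic ℂ[X] y := by
    let f : ℂ[X] →+* Algebra.adjoin ℂ {φ} :=
      ((aeval φ : ℂ[X] →ₐ[ℂ] F) : ℂ[X] →+* F).codRestrict (Algebra.adjoin ℂ {φ}).toSubring
        (fun p => aeval_mem_adjoin_singleton ℂ φ)
    refine IsAlgebraic.of_ringHom_of_comp_eq (R := ℂ[X]) (S := Algebra.adjoin ℂ {φ}) (A := F)
      (B := F) (h.isAlgebraic ((RingHom.id F) y)) (f := f) (g := RingHom.id F) ?_ ?_ ?_
    · rintro ⟨z, hz⟩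
      rw [Algebra.adjoin_singleton_eq_range_aeval] at hz
      obtain ⟨p, hp⟩ := hz
      exact ⟨p, Subtype.ext hp⟩
    · exact Function.injective_id
    · rfl
  obtain ⟨H, hH, hH'⟩ := h1
  exact ⟨H, hH, hH'⟩

/-! ### residues -/

lemma exists_unif (P : Place F) : ∃ π : F, π ≠ 0 ∧ P.ord π = 1 := P.ord_surj

lemma nonconst_of_ord (P : Place F) {π : F} (h : P.ord π ≠ 0) : π ∉ (algebraMap ℂ F).range := by
  rintro ⟨c, rfl⟩
  exact h (P.ord_const c)

/-- evaluation at `π` of a polynomial with nonzero constant term is a unit -/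
lemma ord_aeval_of_eval_ne (P : Place F) {π : F} (hπ : P.ord π = 1) {p : ℂ[X]}
    (hp : p.eval 0 ≠ 0) : aeval π p ≠ 0 ∧ P.ord (aeval π p) = 0 := by
  have hπ' : π ∈ P.L 1 := Or.inr hπ.ge
  have h1 : X ∣ p - C (p.eval 0) := by
    rw [X_dvd_iff]
    simp [coeff_zero_eq_eval_zero]
  obtain ⟨q, hq⟩ := h1
  have h2 : aeval π p = algebraMap ℂ F (p.eval 0) + π * aeval π q := by
    have h3 : p = C (p.eval 0) + X * q := by rw [← hq]; ring
    conv_lhs => rw [h3]
    rw [map_add, map_mul, aeval_X, aeval_C]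
  rw [h2]
  refine ord_add_of_mem P (n := 0) ?_ (P.ord_const _) ?_
  · simpa using hp
  · have h4 : aeval π q ∈ P.L 0 := aeval_mem_L P (L_mono P (by norm_num) hπ') q
    have h5 := mul_mem_L P hπ' h4
    simpa using h5

/-- the order of `p(π)` is the order of vanishing of `p` at `0` -/
lemma X_pow_dvd (P : Place F) {π : F} (hπ0 : π ≠ 0) (hπ : P.ord π = 1) {p : ℂ[X]} {n : ℕ}
    (h : aeval π p ∈ P.L n) : X ^ n ∣ p := by
  by_cases hp : p = 0
  · rw [hp]; exact dvd_zero _
  obtain ⟨q, hq, hq'⟩ := exists_eq_pow_rootMultiplicity_mul_and_not_dvd p hp (0 : ℂ)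
  rw [C_0, sub_zero] at hq hq'
  set k := rootMultiplicity 0 p with hk
  have hq0 : q.eval 0 ≠ 0 := by
    intro h0
    apply hq'
    rw [X_dvd_iff, coeff_zero_eq_eval_zero]
    exact h0
  obtain ⟨h1, h2⟩ := ord_aeval_of_eval_ne P hπ hq0
  have h3 : aeval π p = π ^ k * aeval π q := by
    conv_lhs => rw [hq]
    rw [map_mul, map_pow, aeval_X]
  have h4 : P.ord (aeval π p) = k := by
    rw [h3, P.ord_mul _ _ (pow_ne_zero _ hπ0) h1, h2, ord_pow P hπ0, hπ]
    ring
  have h5 : aeval π p ≠ 0 := by
    rw [h3]; exact mul_ne_zero (pow_ne_zero _ hπ0) h1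
  have h6 := h.resolve_left h5
  rw [h4] at h6
  have h7 : n ≤ k := by exact_mod_cast h6
  rw [hq]
  exact Dvd.dvd.mul_right (pow_dvd_pow X h7) q

/-- a product of functions lies in the maximal ideal only if a factor does -/
lemma exists_of_prod_mem (P : Place F) (s : Multiset ℂ) {y : F} (hy : y ∈ P.L 0)
    (h : (s.map fun c => y - algebraMap ℂ F c).prod ∈ P.L 1) :
    ∃ c : ℂ, y - algebraMap ℂ F c ∈ P.L 1 := by
  by_contra hcon
  push Not at hcon
  have key : ∀ s : Multiset ℂ, (s.map fun c => y - algebraMap ℂ F c).prod ≠ 0 ∧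
      P.ord (s.map fun c => y - algebraMap ℂ F c).prod = 0 := by
    intro s
    induction s using Multiset.induction_on with
    | empty => simp [P.ord_one]
    | cons c s ih =>
      rw [Multiset.map_cons, Multiset.prod_cons]
      have h1 : y - algebraMap ℂ F c ∈ P.L 0 := sub_mem hy (const_mem_L P c)
      have h2 := hcon c
      have h3 : y - algebraMap ℂ F c ≠ 0 := fun h => h2 (Or.inl h)
      have h4 : P.ord (y - algebraMap ℂ F c) = 0 := by
        have h5 := h1.resolve_left h3
        have h6 : ¬ (1 : ℤ) ≤ P.ord (y - algebraMap ℂ F c) := fun h => h2 (Or.inr h)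
        omega
      refine ⟨mul_ne_zero h3 ih.1, ?_⟩
      rw [P.ord_mul _ _ h3 ih.1, h4, ih.2]
      rfl
  obtain ⟨h1, h2⟩ := key s
  have h3 := h.resolve_left h1
  omega

/-- divide a bivariate polynomial by the largest power of the first variable -/
lemma exists_primitive (H : ℂ[X][X]) (hH : H ≠ 0) : ∃ (k : ℕ) (G : ℂ[X][X]),
    H = C (X ^ k) * G ∧ G.map (evalRingHom (0 : ℂ)) ≠ 0 := by
  -- strong induction on the degree of the content-like quantity
  have key : ∀ (n : ℕ) (H : ℂ[X][X]), H ≠ 0 → (∑ i ∈ H.support, (H.coeff i).natDegree) ≤ n →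
      ∃ (k : ℕ) (G : ℂ[X][X]), H = C (X ^ k) * G ∧ G.map (evalRingHom (0 : ℂ)) ≠ 0 := by
    intro n
    induction n with
    | zero =>
      intro H hH hn
      refine ⟨0, H, by simp, ?_⟩
      intro h0
      obtain ⟨i, hi⟩ := Polynomial.support_nonempty.2 hH
      have h1 : (H.coeff i).natDegree = 0 := by
        have h2 : (H.coeff i).natDegree ≤ ∑ i ∈ H.support, (H.coeff i).natDegree :=
          Finset.single_le_sum (f := fun i => (H.coeff i).natDegree) (fun _ _ => Nat.zero_le _) hi
        omega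
      have h2 : (H.coeff i).eval 0 = 0 := by
        have := congrArg (fun q => coeff q i) h0
        simpa using this
      rw [eq_C_of_natDegree_eq_zero h1, eval_C] at h2
      rw [mem_support_iff, eq_C_of_natDegree_eq_zero h1, h2] at hi
      exact hi C_0
    | succ n ih =>
      intro H hH hn
      by_cases h0 : H.map (evalRingHom (0 : ℂ)) = 0
      · have hdiv : C (X : ℂ[X]) ∣ H := by
          rw [C_dvd_iff_dvd_coeff]
          intro i
          rw [X_dvd_iff, coeff_zero_eq_eval_zero]
          have := congrArg (fun q => coeff q i) h0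
          simpa using this
        obtain ⟨G, hG⟩ := hdiv
        have hG0 : G ≠ 0 := by
          rintro rfl
          exact hH (by rw [hG, mul_zero])
        have hcoeff : ∀ i, H.coeff i = X * G.coeff i := by
          intro i
          rw [hG, coeff_C_mul]
        have hsupp : H.support = G.support := by
          ext i
          rw [mem_support_iff, mem_support_iff, hcoeff i]
          constructor
          · intro h1 h2
            exact h1 (by rw [h2, mul_zero])
          · intro h1
            exact mul_ne_zero X_ne_zero h1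
        have hsum : (∑ i ∈ G.support, (G.coeff i).natDegree) ≤ n := by
          have h1 : (∑ i ∈ H.support, (H.coeff i).natDegree) =
              ∑ i ∈ G.support, ((G.coeff i).natDegree + 1) := by
            rw [hsupp]
            refine Finset.sum_congr rfl fun i hi => ?_
            rw [hcoeff i, natDegree_X_mul (mem_support_iff.1 hi)]
          rw [h1, Finset.sum_add_distrib] at hn
          have h2 : 0 < ∑ i ∈ G.support, 1 := by
            rw [Finset.sum_const, smul_eq_mul, mul_one]
            exact Finset.card_pos.2 (Polynomial.support_nonempty.2 hG0)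
          omega
        obtain ⟨k, G', h1, h2⟩ := ih G hG0 hsum
        refine ⟨k + 1, G', ?_, h2⟩
        rw [hG, h1, pow_succ, C_mul]
        ring
      · exact ⟨0, H, by simp, h0⟩
  exact key _ H hH le_rfl

end Der

end EtaleGonality
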