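import Pool.Agent.G7.Der1

/-!
# Derivations and valuations, part 2: the residue field, derivations
-/

open scoped IntermediateField
open Polynomial

namespace EtaleGonality

namespace Der

/-- evaluation of a bivariate polynomial `H(X, Y)` at `(φ, y)` -/
noncomputable def ev {A : Type} [CommRing A] [Algebra ℂ A] (φ y : A) : ℂ[X][X] →+* A :=
  eval₂RingHom ((aeval φ : ℂ[X] →ₐ[ℂ] A) : ℂ[X] →+* A) y

/-- the derivative with respect to the first variable -/
noncomputable def dX : ℂ[X][X] →ₗ[ℂ] ℂ[X][X] :=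
  lsum fun n => ((monomial n : ℂ[X] →ₗ[ℂ[X]] ℂ[X][X]).restrictScalars ℂ) ∘ₗ derivative

lemma dX_monomial (n : ℕ) (a : ℂ[X]) : dX (monomial n a) = monomial n (derivative a) := by
  unfold dX
  rw [lsum_apply, sum_monomial_index]
  · rfl
  · simp

section general

variable {A : Type} [CommRing A] [Algebra ℂ A]

lemma ev_monomial (φ y : A) (n : ℕ) (a : ℂ[X]) : ev φ y (monomial n a) = aeval φ a * y ^ n := by
  simp [ev]

lemma ev_C (φ y : A) (a : ℂ[X]) : ev φ y (C a) = aeval φ a := by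
  simp [ev]

/-- chain rule -/
lemma der_ev (δ : Derivation ℂ A A) (φ y : A) (H : ℂ[X][X]) :
    δ (ev φ y H) = ev φ y (dX H) * δ φ + ev φ y (derivative H) * δ y := by
  induction H using Polynomial.induction_on' with
  | add p q hp hq =>
    rw [map_add, map_add, map_add, hp, hq, map_add, map_add, map_add]
    ring
  | monomial n a =>
    rw [dX_monomial, ev_monomial, ev_monomial, derivative_monomial, ev_monomial, δ.leibniz,
      δ.leibniz_pow, Derivation.map_aeval]
    simp only [smul_eq_mul, map_mul, map_natCast, nsmul_eq_mul]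
    ring

end general

variable {F : Type} [Field F] [Algebra ℂ F]

lemma exists_rel' (hF : IsFunctionField F) {φ : F} (hφ : φ ∉ (algebraMap ℂ F).range) (y : F) :
    ∃ H : ℂ[X][X], H ≠ 0 ∧ ev φ y H = 0 := exists_rel hF hφ y

lemma aeval_ne_zero {φ : F} (hφ : φ ∉ (algebraMap ℂ F).range) {p : ℂ[X]} (hp : p ≠ 0) :
    aeval φ p ≠ 0 := by
  intro h
  exact transcendental_of_nonconst hφ ⟨p, hp, h⟩

/-- a separable relation -/
lemma exists_min_rel (hF : IsFunctionField F) {φ : F} (hφ : φ ∉ (algebraMap ℂ F).range) (y : F) :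
    ∃ H : ℂ[X][X], ev φ y H = 0 ∧ ev φ y (derivative H) ≠ 0 := by
  classical
  have hex : ∃ n : ℕ, ∃ H : ℂ[X][X], H ≠ 0 ∧ ev φ y H = 0 ∧ H.natDegree = n := by
    obtain ⟨H, h1, h2⟩ := exists_rel' hF hφ y
    exact ⟨_, H, h1, h2, rfl⟩
  obtain ⟨H, h1, h2, h3⟩ := Nat.find_spec hex
  refine ⟨H, h2, fun h4 => ?_⟩
  have hd : H.natDegree ≠ 0 := by
    intro h0
    rw [eq_C_of_natDegree_eq_zero h0, ev_C] at h2
    have h5 : H.coeff 0 ≠ 0 := by
      intro h6
      apply h1
      rw [eq_C_of_natDegree_eq_zero h0, h6, C_0]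
    exact aeval_ne_zero hφ h5 h2
  have h5 : derivative H ≠ 0 := by
    intro h6
    exact hd (derivative_eq_zero.1 h6)
  have h6 : (derivative H).natDegree < Nat.find hex := by
    rw [← h3]
    exact natDegree_derivative_lt hd
  exact Nat.find_min hex h6 ⟨_, h5, h4, rfl⟩

end Der

open Der

variable {F : Type} [Field F] [Algebra ℂ F]

/-- the residue field of a point is `ℂ` -/
theorem exists_residue (hF : IsFunctionField F) (P : Place F) {y : F} (hy : 0 ≤ P.ord y) :
    ∃ c : ℂ, y - algebraMap ℂ F c ∈ P.L 1 := by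
  obtain ⟨π, hπ0, hπ⟩ := P.ord_surj
  have hπ' : π ∈ P.L 1 := Or.inr hπ.ge
  have hyL : y ∈ P.L 0 := Or.inr hy
  have hnc : π ∉ (algebraMap ℂ F).range := nonconst_of_ord P (by omega)
  obtain ⟨H, hH, hH0⟩ := exists_rel' hF hnc y
  obtain ⟨k, G, hG, hG0⟩ := exists_primitive H hH
  have hGy : ev π y G = 0 := by
    rw [hG, map_mul, ev_C, map_pow, aeval_X] at hH0
    exact (mul_eq_zero.1 hH0).resolve_left (pow_ne_zero _ hπ0)
  set G0 := G.map (evalRingHom (0 : ℂ)) with hG0def
  -- compare `G(π, y)` with `G0(y)`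
  have hcmp : ∀ G : ℂ[X][X], ev π y G - aeval y (G.map (evalRingHom (0 : ℂ))) ∈ P.L 1 := by
    intro G
    induction G using Polynomial.induction_on' with
    | add p q hp hq =>
      rw [map_add, Polynomial.map_add, map_add]
      have := add_mem hp hq
      convert this using 1
      ring
    | monomial n a =>
      rw [ev_monomial, map_monomial, aeval_monomial]
      obtain ⟨q, hq⟩ : X ∣ a - C (a.eval 0) := by
        rw [X_dvd_iff]
        simp [coeff_zero_eq_eval_zero]
      have h3 : a = C (a.eval 0) + X * q := by rw [← hq]; ring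
      have h2 : aeval π a = algebraMap ℂ F (a.eval 0) + π * aeval π q := by
        conv_lhs => rw [h3]
        rw [map_add, map_mul, aeval_X, aeval_C]
      rw [h2, coe_evalRingHom]
      have e : (algebraMap ℂ F (a.eval 0) + π * aeval π q) * y ^ n -
          algebraMap ℂ F (a.eval 0) * y ^ n = (aeval π q * y ^ n) * π := by ring
      rw [e]
      apply mul_mem_L' P _ hπ'
      apply mul_mem_L' P (aeval_mem_L P (L_mono P (by norm_num) hπ') q)
      simpa using pow_mem_L P hyL n
  have h1 : aeval y G0 ∈ P.L 1 := by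
    have := hcmp G
    rw [hGy, zero_sub] at this
    simpa using neg_mem this
  have hsplit := (IsAlgClosed.splits G0)
  have h2 := hsplit.eq_prod_roots
  have h3 : aeval y G0 = algebraMap ℂ F G0.leadingCoeff *
      (G0.roots.map fun c => y - algebraMap ℂ F c).prod := by
    conv_lhs => rw [h2]
    rw [map_mul, aeval_C, map_multiset_prod, Multiset.map_map]
    congr 2
    refine Multiset.map_congr rfl fun c _ => ?_
    simp
  have hlc : G0.leadingCoeff ≠ 0 := leadingCoeff_ne_zero.2 hG0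
  apply exists_of_prod_mem P G0.roots hyL
  have h4 : (G0.roots.map fun c => y - algebraMap ℂ F c).prod =
      algebraMap ℂ F (G0.leadingCoeff)⁻¹ * aeval y G0 := by
    rw [h3, ← mul_assoc, ← map_mul, inv_mul_cancel₀ hlc, map_one, one_mul]
  rw [h4]
  exact mul_mem_L' P (const_mem_L P _) h1

/-- a nonzero derivation does not kill any nonconstant function -/
theorem der_ne_zero (hF : IsFunctionField F) (δ : Derivation ℂ F F) (hδ : δ ≠ 0) {φ : F}
    (hφ : φ ∉ (algebraMap ℂ F).range) : δ φ ≠ 0 := by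
  intro h0
  apply hδ
  ext y
  obtain ⟨H, h1, h2⟩ := exists_min_rel hF hφ y
  have h3 := der_ev δ φ y H
  rw [h1, map_zero, h0, mul_zero, zero_add] at h3
  exact (mul_eq_zero.1 h3.symm).resolve_left h2

namespace Der

/-- Taylor polynomials -/
lemma exists_taylor (hF : IsFunctionField F) (P : Place F) {π : F} (hπ0 : π ≠ 0)
    (hπ : P.ord π = 1) {b : F} (hb : b ∈ P.L 0) (n : ℕ) :
    ∃ p : ℂ[X], b - aeval π p ∈ P.L n := by
  induction n with
  | zero => exact ⟨0, by simpa using hb⟩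
  | succ n ih =>
    obtain ⟨p, hp⟩ := ih
    have h1 : (b - aeval π p) * (π ^ n)⁻¹ ∈ P.L 0 := by
      have h2 : (π ^ n)⁻¹ ∈ P.L (-n) := by
        right
        rw [ord_inv P (pow_ne_zero _ hπ0), ord_pow P hπ0, hπ]
        simp
      have := mul_mem_L P hp h2
      simpa using this
    obtain ⟨c, hc⟩ := exists_residue hF P ((mem_L_zero P).1 h1)
    refine ⟨p + C c * X ^ n, ?_⟩
    have h3 : π ^ n ∈ P.L n := by
      right
      rw [ord_pow P hπ0, hπ]
      simp
    have h4 := mul_mem_L P hc h3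
    have e : b - aeval π (p + C c * X ^ n) =
        ((b - aeval π p) * (π ^ n)⁻¹ - algebraMap ℂ F c) * π ^ n := by
      rw [map_add, map_mul, map_pow, aeval_X, aeval_C, sub_mul, mul_assoc,
        inv_mul_cancel₀ (pow_ne_zero _ hπ0)]
      ring
    rw [e]
    have e2 : ((n + 1 : ℕ) : ℤ) = 1 + n := by push_cast; ring
    rw [e2]
    exact h4

lemma pow_sub_mem (P : Place F) {n : ℤ} {b c : F} (hb : b ∈ P.L 0) (hc : c ∈ P.L 0)
    (h : b - c ∈ P.L n) (k : ℕ) : b ^ k - c ^ k ∈ P.L n := by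
  induction k with
  | zero => simp
  | succ k ih =>
    have e : b ^ (k + 1) - c ^ (k + 1) = b ^ k * (b - c) + c * (b ^ k - c ^ k) := by ring
    rw [e]
    refine add_mem (mul_mem_L' P ?_ h) (mul_mem_L' P hc ih)
    simpa using pow_mem_L P hb k

lemma ev_sub_mem (P : Place F) {n : ℤ} {π b c : F} (hπ : π ∈ P.L 0) (hb : b ∈ P.L 0)
    (hc : c ∈ P.L 0) (h : b - c ∈ P.L n) (H : ℂ[X][X]) : ev π b H - ev π c H ∈ P.L n := by
  induction H using Polynomial.induction_on' with
  | add p q hp hq =>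
    rw [map_add, map_add]
    have := add_mem hp hq
    convert this using 1
    ring
  | monomial k a =>
    rw [ev_monomial, ev_monomial, ← mul_sub]
    exact mul_mem_L' P (aeval_mem_L P hπ a) (pow_sub_mem P hb hc h k)

lemma ev_mem (P : Place F) {π b : F} (hπ : π ∈ P.L 0) (hb : b ∈ P.L 0) (H : ℂ[X][X]) :
    ev π b H ∈ P.L 0 := by
  induction H using Polynomial.induction_on' with
  | add p q hp hq =>
    rw [map_add]
    exact add_mem hp hq
  | monomial k a =>
    rw [ev_monomial]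
    refine mul_mem_L' P (aeval_mem_L P hπ a) ?_
    simpa using pow_mem_L P hb k

lemma aeval_ev (π : F) (β : ℂ[X]) (H : ℂ[X][X]) :
    aeval π (ev (X : ℂ[X]) β H) = ev π (aeval π β) H := by
  induction H using Polynomial.induction_on' with
  | add p q hp hq => rw [map_add, map_add, hp, hq, map_add]
  | monomial k a =>
    rw [ev_monomial, ev_monomial, map_mul, map_pow, aeval_X_left_apply]

end Der

/-- `δ / δπ` preserves the valuation ring. -/
theorem der_mem (hF : IsFunctionField F) (P : Place F) (δ : Derivation ℂ F F) (hδ : δ ≠ 0)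
    {π : F} (hπ0 : π ≠ 0) (hπ : P.ord π = 1) {b : F} (hb : 0 ≤ P.ord b) :
    δ b ∈ P.L (P.ord (δ π)) := by
  have hbL : b ∈ P.L 0 := Or.inr hb
  have hπL1 : π ∈ P.L 1 := Or.inr hπ.ge
  have hπL : π ∈ P.L 0 := L_mono P (by norm_num) hπL1
  have hnc : π ∉ (algebraMap ℂ F).range := nonconst_of_ord P (by omega)
  obtain ⟨H, h1, h2⟩ := exists_min_rel hF hnc b
  have h3 := der_ev δ π b H
  rw [h1, map_zero] at h3
  set A := ev π b (derivative H) with hA
  have hA0 : 0 ≤ P.ord A := (ev_mem P hπL hbL (derivative H)).resolve_left h2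
  obtain ⟨K, hK⟩ : ∃ K : ℕ, P.ord A = K := ⟨(P.ord A).toNat, by rw [Int.toNat_of_nonneg hA0]⟩
  obtain ⟨β, hβ⟩ := exists_taylor hF P hπ0 hπ hbL (K + 1)
  have hβL : aeval π β ∈ P.L 0 := aeval_mem_L P hπL β
  -- the polynomial `G(X) = H(X, β(X))`
  set G : ℂ[X] := ev (X : ℂ[X]) β H with hG
  have hG1 : aeval π G ∈ P.L ((K + 1 : ℕ) : ℤ) := by
    rw [hG, aeval_ev]
    have := ev_sub_mem P hπL hbL hβL hβ H
    rw [h1, zero_sub] at this
    simpa using neg_mem this
  obtain ⟨Q, hQ⟩ := X_pow_dvd P hπ0 hπ hG1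
  have hG2 : aeval π (derivative G) ∈ P.L (K : ℤ) := by
    have e : derivative G = X ^ K * ((C ((K : ℂ) + 1)) * Q + X * derivative Q) := by
      rw [hQ, derivative_mul, derivative_X_pow]
      simp only [Nat.add_sub_cancel, Nat.cast_add, Nat.cast_one]
      ring
    rw [e, map_mul, map_pow, aeval_X]
    have h4 := mul_mem_L P (pow_mem_L P hπL1 K)
      (aeval_mem_L P hπL (C ((K : ℂ) + 1) * Q + X * derivative Q))
    simpa using h4
  have hG3 : derivative G = ev (X : ℂ[X]) β (dX H) +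
      ev (X : ℂ[X]) β (derivative H) * derivative β := by
    have := der_ev (Polynomial.derivative' (R := ℂ)) (X : ℂ[X]) β H
    simp only [derivative'] at this
    rw [hG]
    simpa using this
  have hG4 : aeval π (derivative G) = ev π (aeval π β) (dX H) +
      ev π (aeval π β) (derivative H) * aeval π (derivative β) := by
    rw [hG3, map_add, map_mul, aeval_ev, aeval_ev]
  have hβ' : b - aeval π β ∈ P.L (K : ℤ) := L_mono P (by push_cast; linarith) hβ
  have h5 : ev π (aeval π β) (derivative H) ∈ P.L (K : ℤ) := by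
    have h6 := ev_sub_mem P hπL hbL hβL hβ' (derivative H)
    have h7 : A ∈ P.L (K : ℤ) := Or.inr hK.ge
    have h8 := sub_mem h7 h6
    rw [← hA] at h8
    simpa using h8
  have h6 : ev π (aeval π β) (dX H) ∈ P.L (K : ℤ) := by
    have h7 : ev π (aeval π β) (dX H) = aeval π (derivative G) -
        aeval π (derivative β) * ev π (aeval π β) (derivative H) := by
      rw [hG4]; ring
    rw [h7]
    exact sub_mem hG2 (mul_mem_L' P (aeval_mem_L P hπL _) h5)
  have h7 : ev π b (dX H) ∈ P.L (K : ℤ) := by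
    have h8 := ev_sub_mem P hπL hbL hβL hβ' (dX H)
    have h9 := add_mem h8 h6
    simpa using h9
  have h8 : δ b = ev π b (dX H) * (-(A⁻¹ * δ π)) := by
    field_simp
    linear_combination -h3
  rw [h8]
  by_cases hδπ : δ π = 0
  · rw [hδπ]
    simp
  have h9 : -(A⁻¹ * δ π) ∈ P.L (-(K : ℤ) + P.ord (δ π)) := by
    apply neg_mem
    right
    rw [P.ord_mul _ _ (inv_ne_zero h2) hδπ, ord_inv P h2, hK]
  have h10 := mul_mem_L P h7 h9
  have e : (K : ℤ) + (-(K : ℤ) + P.ord (δ π)) = P.ord (δ π) := by ring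
  rwa [e] at h10

/-- consequence: `ord (δ φ) = n - 1 + ord (δ π)` if `ord φ = n ≠ 0` (either sign). -/
theorem ord_der (hF : IsFunctionField F) (P : Place F) (δ : Derivation ℂ F F) (hδ : δ ≠ 0)
    {π : F} (hπ0 : π ≠ 0) (hπ : P.ord π = 1) {φ : F} (hφ0 : φ ≠ 0) (hφ : P.ord φ ≠ 0) :
    P.ord (δ φ) = P.ord φ - 1 + P.ord (δ π) := by
  set n := P.ord φ with hn
  have hnc : π ∉ (algebraMap ℂ F).range := nonconst_of_ord P (by omega)
  have hδπ : δ π ≠ 0 := der_ne_zero hF δ hδ hnc
  set u := φ * π ^ (-n) with hu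
  have hu0 : u ≠ 0 := mul_ne_zero hφ0 (zpow_ne_zero _ hπ0)
  have hou : P.ord u = 0 := by
    rw [hu, P.ord_mul _ _ hφ0 (zpow_ne_zero _ hπ0), ord_zpow P hπ0, hπ, ← hn]
    ring
  have hφu : φ = π ^ n * u := by
    rw [hu, zpow_neg]
    field_simp
  have h1 : δ φ = (algebraMap ℂ F (n : ℂ) * (π ^ (n - 1) * u)) * δ π + π ^ n * δ u := by
    rw [hφu, δ.leibniz, Derivation.leibniz_zpow]
    simp only [smul_eq_mul, zsmul_eq_mul, map_intCast]
    ring
  have hnF : algebraMap ℂ F (n : ℂ) ≠ 0 := by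
    rw [Ne, FaithfulSMul.algebraMap_eq_zero_iff]
    exact_mod_cast hφ
  have hz : π ^ (n - 1) ≠ 0 := zpow_ne_zero _ hπ0
  have hcoef : algebraMap ℂ F (n : ℂ) * (π ^ (n - 1) * u) ≠ 0 :=
    mul_ne_zero hnF (mul_ne_zero hz hu0)
  have h2 : P.ord ((algebraMap ℂ F (n : ℂ) * (π ^ (n - 1) * u)) * δ π) =
      n - 1 + P.ord (δ π) := by
    rw [P.ord_mul _ _ hcoef hδπ, P.ord_mul _ _ hnF (mul_ne_zero hz hu0), P.ord_const,
      P.ord_mul _ _ hz hu0, ord_zpow P hπ0, hπ, hou]
    ring
  have h3 : π ^ n * δ u ∈ P.L (n - 1 + P.ord (δ π) + 1) := by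
    have h4 := der_mem hF P δ hδ hπ0 hπ (b := u) (by omega)
    have h5 : π ^ n ∈ P.L n := by
      right
      rw [ord_zpow P hπ0, hπ, mul_one]
    have h6 := mul_mem_L P h5 h4
    have e : n + P.ord (δ π) = n - 1 + P.ord (δ π) + 1 := by ring
    rwa [e] at h6
  rw [h1]
  exact (ord_add_of_mem P (mul_ne_zero hcoef hδπ) h2 h3).2

end EtaleGonality
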