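import Pool.Agent.G7.Api
import Pool.Agent.G7.Der

/-!
# Dimension count for vanishing conditions
-/

open scoped IntermediateField
open Polynomial Module

namespace EtaleGonality

variable {F : Type} [Field F] [Algebra ℂ F]

lemma finrank_step (hF : IsFunctionField F) (P : Place F) (m : ℤ) (U : Submodule ℂ F)
    [FiniteDimensional ℂ U] (hU : U ≤ P.L m) :
    finrank ℂ U ≤ finrank ℂ (U ⊓ P.L (m + 1) : Submodule ℂ F) + 1 := by
  by_cases hle : U ≤ P.L (m + 1)
  · rw [inf_eq_left.mpr hle]; omega
  obtain ⟨u0, hu0, hnot⟩ := SetLike.not_le_iff_exists.mp hle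
  have hu00 : u0 ≠ 0 := by
    rintro rfl; exact hnot (Submodule.zero_mem _)
  have hord : P.ord u0 = m := by
    have h1 := Place.le_ord_of_mem_L (hU hu0) hu00
    by_contra hne
    exact hnot (Or.inr (by omega))
  have hsup : U ≤ (U ⊓ P.L (m + 1)) ⊔ Submodule.span ℂ {u0} := by
    intro u hu
    by_cases h0 : u = 0
    · rw [h0]; exact Submodule.zero_mem _
    have h1 := Place.le_ord_of_mem_L (hU hu) h0
    have h2 : 0 ≤ P.ord (u / u0) := by rw [P.ord_div h0 hu00]; omega
    obtain ⟨c, hc⟩ := exists_residue hF P h2
    have h3 : u - c • u0 ∈ P.L (m + 1) := by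
      have h4 : u0 ∈ P.L m := Or.inr hord.ge
      have h5 := Place.mul_mem_L h4 hc
      have e : u0 * (u / u0 - algebraMap ℂ F c) = u - c • u0 := by
        rw [Algebra.smul_def]; field_simp
      rwa [e] at h5
    have h6 : u - c • u0 ∈ U := Submodule.sub_mem _ hu (Submodule.smul_mem _ c hu0)
    have h7 : u = (u - c • u0) + c • u0 := by ring
    rw [h7]
    exact Submodule.add_mem_sup ⟨h6, h3⟩
      (Submodule.smul_mem _ c (Submodule.mem_span_singleton_self u0))
  have hfin : FiniteDimensional ℂ (U ⊓ P.L (m + 1) : Submodule ℂ F) :=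
    Submodule.finiteDimensional_of_le inf_le_left
  have h8 := Submodule.finrank_mono hsup
  have h9 := Submodule.finrank_add_le_finrank_add_finrank (U ⊓ P.L (m + 1)) (Submodule.span ℂ {u0})
  have h10 : finrank ℂ (Submodule.span ℂ {u0}) ≤ 1 := by
    rw [finrank_span_singleton hu00]
  omega

/-- The functions of `V` with order at least `n P + D P` everywhere have codimension at most
`deg D`. -/
theorem finrank_vanish (hF : IsFunctionField F) (D : Place F →₀ ℕ) :
    ∀ (V : Submodule ℂ F) (n : Place F → ℤ), FiniteDimensional ℂ V → (∀ P : Place F, V ≤ P.L (n P)) →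
    finrank ℂ V ≤ finrank ℂ (V ⊓ ⨅ P : Place F, P.L (n P + D P) : Submodule ℂ F) + D.degree := by
  classical
  induction D using Finsupp.induction_linear with
  | zero =>
    intro V n _ hV
    have : V ⊓ ⨅ P : Place F, P.L (n P + (0 : Place F →₀ ℕ) P) = V := by
      refine inf_eq_left.mpr (le_iInf fun P => ?_)
      simpa using hV P
    rw [this]; simp
  | add D1 D2 h1 h2 =>
    intro V n hfin hV
    have a1 := h1 V n hfin hV
    have hfin1 : FiniteDimensional ℂ (V ⊓ ⨅ P : Place F, P.L (n P + D1 P) : Submodule ℂ F) :=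
      Submodule.finiteDimensional_of_le inf_le_left
    have a2 := h2 (V ⊓ ⨅ P : Place F, P.L (n P + D1 P)) (fun P => n P + D1 P) hfin1
      (fun P => inf_le_right.trans (iInf_le _ P))
    have hfin2 : FiniteDimensional ℂ (V ⊓ ⨅ P : Place F, P.L (n P + (D1 + D2) P) :
      Submodule ℂ F) := Submodule.finiteDimensional_of_le inf_le_left
    have hle : ((V ⊓ ⨅ P : Place F, P.L (n P + D1 P)) ⊓ ⨅ P : Place F, P.L (n P + D1 P + D2 P)) ≤
        V ⊓ ⨅ P : Place F, P.L (n P + (D1 + D2) P) := by
      refine le_inf (inf_le_left.trans inf_le_left) (le_iInf fun P => ?_)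
      refine inf_le_right.trans ((iInf_le _ P).trans (Place.L_mono ?_))
      simp [add_assoc]
    have a3 := Submodule.finrank_mono hle
    rw [map_add]
    omega
  | single P0 b =>
    intro V n hfin hV
    induction b generalizing V n with
    | zero =>
      have : V ⊓ ⨅ P : Place F, P.L (n P + (Finsupp.single P0 0 : Place F →₀ ℕ) P) = V := by
        refine inf_eq_left.mpr (le_iInf fun P => ?_)
        simpa using hV P
      rw [this]; simp
    | succ b ih =>
      have a1 := ih V n hfin hV
      set U := (V ⊓ ⨅ P : Place F, P.L (n P + (Finsupp.single P0 b : Place F →₀ ℕ) P) :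
        Submodule ℂ F) with hU
      have hfin1 : FiniteDimensional ℂ U := Submodule.finiteDimensional_of_le inf_le_left
      have hfin2 : FiniteDimensional ℂ (V ⊓ ⨅ P : Place F, P.L (n P +
        (Finsupp.single P0 (b + 1) : Place F →₀ ℕ) P) : Submodule ℂ F) :=
        Submodule.finiteDimensional_of_le inf_le_left
      have hUle : U ≤ P0.L (n P0 + b) := by
        refine inf_le_right.trans ((iInf_le _ P0).trans ?_)
        simp
      have a2 := finrank_step hF P0 _ U hUle
      have hle : U ⊓ P0.L (n P0 + b + 1) ≤ V ⊓ ⨅ P : Place F, P.L (n P +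
          (Finsupp.single P0 (b + 1) : Place F →₀ ℕ) P) := by
        refine le_inf (inf_le_left.trans inf_le_left) (le_iInf fun P => ?_)
        by_cases hP : P = P0
        · subst hP
          refine inf_le_right.trans (Place.L_mono ?_)
          simp [add_assoc]
        · refine inf_le_left.trans (inf_le_right.trans ((iInf_le _ P).trans (Place.L_mono ?_)))
          simp [Ne.symm hP]
      have a3 := Submodule.finrank_mono hle
      simp only [Finsupp.degree_single] at a1 ⊢
      omega

end EtaleGonality
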