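import Pool.Agent.G7.LinAlgBlocks

/-!
# Linear algebra for the genus 7 curve `x⁷ + z⁷ = 12 xz - 23 x²z² + 9 x³z³`

* `Model.indep`: the monomials `x ^ (7 - k)`, `z ^ k` (`k < 7`) are independent over `ℂ(xz)`;
* `Model.no_four`: there is no four dimensional product relation between the `w i` and `p l`;
* `Model.w_indep`, `Model.p_indep`.
-/

open scoped IntermediateField
open Polynomial

namespace EtaleGonality

variable {F : Type} [Field F] [Algebra ℂ F]

namespace T3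

/-- the polynomial with the given coefficients -/
noncomputable def poly5 (a0 a1 a2 a3 a4 : ℂ) : ℂ[X] :=
  C a0 + C a1 * X + C a2 * X ^ 2 + C a3 * X ^ 3 + C a4 * X ^ 4

theorem aeval_poly5 (t : F) (a0 a1 a2 a3 a4 : ℂ) : aeval t (poly5 a0 a1 a2 a3 a4) =
    algebraMap ℂ F a0 + algebraMap ℂ F a1 * t + algebraMap ℂ F a2 * t ^ 2 +
      algebraMap ℂ F a3 * t ^ 3 + algebraMap ℂ F a4 * t ^ 4 := by
  simp [poly5]

theorem poly5_eq_zero {a0 a1 a2 a3 a4 : ℂ} (h : poly5 a0 a1 a2 a3 a4 = 0) :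
    a0 = 0 ∧ a1 = 0 ∧ a2 = 0 ∧ a3 = 0 ∧ a4 = 0 := by
  have h0 := congrArg (fun p => coeff p 0) h
  have h1 := congrArg (fun p => coeff p 1) h
  have h2 := congrArg (fun p => coeff p 2) h
  have h3 := congrArg (fun p => coeff p 3) h
  have h4 := congrArg (fun p => coeff p 4) h
  simp [poly5, coeff_X, coeff_C, coeff_X_pow] at h0 h1 h2 h3 h4
  exact ⟨h0, h1, h2, h3, h4⟩

theorem aeval_ne_zero (M : Model F) {q : ℂ[X]} (hq : q ≠ 0) : aeval (M.x * M.z) q ≠ 0 := by
  intro h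
  exact hq ((transcendental_iff.mp M.tr) q h)

theorem x_ne (M : Model F) : M.x ≠ 0 := by
  intro h
  apply aeval_ne_zero M (q := X) X_ne_zero
  simp [h]

theorem z_ne (M : Model F) : M.z ≠ 0 := by
  intro h
  apply aeval_ne_zero M (q := X) X_ne_zero
  simp [h]

theorem ζ_ne (M : Model F) : M.ζ ≠ 0 := M.hζ.ne_zero (by norm_num)

theorem σ_t (M : Model F) : M.σ (M.x * M.z) = M.x * M.z := by
  rw [map_mul, M.σ_x, M.σ_z]
  have h : algebraMap ℂ F M.ζ⁻¹ * algebraMap ℂ F M.ζ = 1 := by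
    rw [← map_mul, inv_mul_cancel₀ (ζ_ne M), map_one]
  calc _ = (algebraMap ℂ F M.ζ⁻¹ * algebraMap ℂ F M.ζ) * (M.x * M.z) := by ring
    _ = _ := by rw [h, one_mul]

theorem σ_aeval (M : Model F) (q : ℂ[X]) :
    M.σ (aeval (M.x * M.z) q) = aeval (M.x * M.z) q := by
  have h := Polynomial.aeval_algHom_apply (M.σ : F →ₐ[ℂ] F) (M.x * M.z) q
  simp only [AlgEquiv.coe_toAlgHom] at h
  rw [← h, σ_t]

theorem τ_t (M : Model F) : M.τ (M.x * M.z) = M.x * M.z := by
  rw [map_mul, M.τ_x, M.τ_z, mul_comm]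

theorem τ_aeval (M : Model F) (q : ℂ[X]) :
    M.τ (aeval (M.x * M.z) q) = aeval (M.x * M.z) q := by
  have h := Polynomial.aeval_algHom_apply (M.τ : F →ₐ[ℂ] F) (M.x * M.z) q
  simp only [AlgEquiv.coe_toAlgHom] at h
  rw [← h, τ_t]

/-- `x⁷ ≠ z⁷` -/
theorem XZ_ne (M : Model F) : M.x ^ 7 - M.z ^ 7 ≠ 0 := by
  intro h
  have h1 : (M.x ^ 7 - M.z ^ 7) ^ 2 = aeval (M.x * M.z)
      ((12 * X - 23 * X ^ 2 + 9 * X ^ 3) ^ 2 - 4 * X ^ 7 : ℂ[X]) := by
    simp only [map_sub, map_pow, map_mul, map_add, aeval_X, map_ofNat]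
    rw [← M.rel]
    ring
  rw [h] at h1
  have h2 : ((12 * X - 23 * X ^ 2 + 9 * X ^ 3) ^ 2 - 4 * X ^ 7 : ℂ[X]) ≠ 0 := by
    intro h3
    have h4 := congrArg (fun p => eval 2 p) h3
    simp at h4
    norm_num at h4
  apply aeval_ne_zero M h2
  rw [← h1]
  ring

/-- one weight -/
theorem weight_zero (M : Model F) (a b : ℂ[X]) (k : ℕ) (hk : k < 7)
    (h : aeval (M.x * M.z) a * M.x ^ (7 - k) + aeval (M.x * M.z) b * M.z ^ k = 0) :
    a = 0 ∧ b = 0 := by
  have h1 : aeval (M.x * M.z) a * M.x ^ 7 + aeval (M.x * M.z) b * (M.x * M.z) ^ k = 0 := by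
    have : M.x ^ 7 = M.x ^ (7 - k) * M.x ^ k := by
      rw [← pow_add]; congr 1; omega
    rw [this, mul_pow]
    linear_combination M.x ^ k * h
  have h2 := congrArg M.τ h1
  simp only [map_add, map_mul, map_pow, map_zero, M.τ_x, M.τ_z] at h2
  have e : ∀ q, M.τ (aeval (M.x * M.z) q) = aeval (M.x * M.z) q := τ_aeval M
  rw [e, e] at h2
  have h3 : aeval (M.x * M.z) a * (M.x ^ 7 - M.z ^ 7) = 0 := by
    have : (M.z * M.x) ^ k = (M.x * M.z) ^ k := by rw [mul_comm]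
    rw [this] at h2
    linear_combination h1 - h2
  have h4 : aeval (M.x * M.z) a = 0 := (mul_eq_zero.mp h3).resolve_right (XZ_ne M)
  have ha : a = 0 := by
    by_contra hne
    exact aeval_ne_zero M hne h4
  refine ⟨ha, ?_⟩
  by_contra hne
  rw [h4, zero_mul, zero_add] at h
  rcases mul_eq_zero.mp h with h | h
  · exact aeval_ne_zero M hne h
  · exact pow_ne_zero k (z_ne M) h

end T3

open T3

/-- the 14 monomials are linearly independent over `ℂ(t)`. -/
theorem Model.indep (M : Model F) (a b : ℕ → ℂ[X])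
    (h : ∑ k ∈ Finset.range 7, (aeval (M.x * M.z) (a k) * M.x ^ (7 - k) +
      aeval (M.x * M.z) (b k) * M.z ^ k) = 0) : ∀ k < 7, a k = 0 ∧ b k = 0 := by
  set A : ℕ → F := fun k => aeval (M.x * M.z) (a k) * M.x ^ (7 - k) +
      aeval (M.x * M.z) (b k) * M.z ^ k with hA
  have hσ : ∀ k < 7, M.σ (A k) = algebraMap ℂ F (M.ζ ^ k) * A k := by
    intro k hk
    simp only [hA, map_add, map_mul, map_pow, M.σ_x, M.σ_z, mul_pow]
    have e : ∀ q, M.σ (aeval (M.x * M.z) q) = aeval (M.x * M.z) q := σ_aeval M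
    rw [e, e]
    have h2 : algebraMap ℂ F M.ζ⁻¹ ^ (7 - k) = algebraMap ℂ F M.ζ ^ k := by
      rw [← map_pow, ← map_pow]
      congr 1
      rw [inv_pow]
      apply inv_eq_of_mul_eq_one_right
      rw [← pow_add]
      have : 7 - k + k = 7 := by omega
      rw [this]
      exact M.hζ.pow_eq_one
    rw [h2]
    ring
  have hσj : ∀ j : ℕ, ∑ k ∈ Finset.range 7, A k * (algebraMap ℂ F (M.ζ ^ k)) ^ j = 0 := by
    intro j
    induction j with
    | zero => simpa using h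
    | succ j ih =>
      have h3 := congrArg M.σ ih
      rw [map_sum, map_zero] at h3
      rw [← h3]
      apply Finset.sum_congr rfl
      intro k hk
      rw [map_mul, hσ k (Finset.mem_range.mp hk), map_pow M.σ, AlgEquiv.commutes]
      ring
  have hz : (fun k : Fin 7 => A k) = 0 := by
    apply Matrix.eq_zero_of_forall_pow_sum_mul_pow_eq_zero
      (f := fun k : Fin 7 => algebraMap ℂ F (M.ζ ^ (k : ℕ)))
    · intro i j hij
      have := (algebraMap ℂ F).injective hij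
      exact Fin.ext (M.hζ.pow_inj i.2 j.2 this)
    · intro i
      have := hσj i
      rw [Finset.sum_range] at this
      exact this
  intro k hk
  have hk0 : A k = 0 := congrFun hz ⟨k, hk⟩
  exact weight_zero M (a k) (b k) k hk hk0

namespace T3

/-- coefficient polynomials of `x ^ (7 - m)` in `∑ d k l • (w k * p l)` -/
noncomputable def coA (d : Fin 7 → Fin 6 → ℂ) : ℕ → ℂ[X]
  | 0 => poly5 ((-1) * d 2 4 + (-1) * d 3 3 + (1) * d 4 2 + (1) * d 5 1)
      ((1) * d 2 4 + (1) * d 3 3 + (-1) * d 4 2 + (-1) * d 5 1)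
      (0)
      (0)
      (0)
  | 1 => poly5 ((-4) * d 3 4 + (-2) * d 4 3 + (1) * d 5 2 + (1) * d 6 1)
      ((4) * d 3 4 + (2) * d 4 3 + (-1) * d 5 2 + (-1) * d 6 1)
      (0)
      (0)
      (0)
  | 2 => poly5 ((4) * d 3 5 + (-4) * d 4 4 + (2) * d 5 3 + (1) * d 6 2)
      ((1) * d 0 1 + (-5) * d 3 5 + (3) * d 4 4 + (-3) * d 5 3 + (-1) * d 6 2)
      ((-1) * d 0 1 + (1) * d 3 5 + (1) * d 4 4 + (1) * d 5 3)
      (0)
      (0)
  | 3 => poly5 ((4) * d 4 5 + (4) * d 5 4 + (2) * d 6 3)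
      ((1) * d 0 2 + (1) * d 1 1 + (-5) * d 4 5 + (-7) * d 5 4 + (-3) * d 6 3)
      ((-1) * d 0 2 + (-1) * d 1 1 + (1) * d 4 5 + (3) * d 5 4 + (1) * d 6 3)
      (0)
      (0)
  | 4 => poly5 ((-4) * d 5 5 + (4) * d 6 4)
      ((2) * d 0 3 + (1) * d 1 2 + (4) * d 3 0 + (9) * d 5 5 + (-7) * d 6 4)
      ((-3) * d 0 3 + (-1) * d 1 2 + (1) * d 2 1 + (-5) * d 3 0 + (-6) * d 5 5 + (3) * d 6 4)
      ((1) * d 0 3 + (-1) * d 2 1 + (1) * d 3 0 + (1) * d 5 5)
      (0)
  | 5 => poly5 ((-4) * d 6 5)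
      ((4) * d 0 4 + (2) * d 1 3 + (-12) * d 3 1 + (4) * d 4 0 + (9) * d 6 5)
      ((-7) * d 0 4 + (-3) * d 1 3 + (1) * d 2 2 + (19) * d 3 1 + (-5) * d 4 0 + (-6) * d 6 5)
      ((3) * d 0 4 + (1) * d 1 3 + (-1) * d 2 2 + (-7) * d 3 1 + (1) * d 4 0 + (1) * d 6 5)
      (0)
  | 6 => poly5 (0)
      ((-4) * d 0 5 + (4) * d 1 4 + (-12) * d 3 2 + (-12) * d 4 1 + (-4) * d 5 0)
      ((9) * d 0 5 + (-7) * d 1 4 + (2) * d 2 3 + (23) * d 3 2 + (19) * d 4 1 + (9) * d 5 0)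
      ((-6) * d 0 5 + (3) * d 1 4 + (-3) * d 2 3 + (-12) * d 3 2 + (-6) * d 4 1 + (-6) * d 5 0)
      ((1) * d 0 5 + (1) * d 2 3 + (1) * d 3 2 + (-1) * d 4 1 + (1) * d 5 0)
  | _ => 0

/-- coefficient polynomials of `z ^ m` in `∑ d k l • (w k * p l)` -/
noncomputable def coB (d : Fin 7 → Fin 6 → ℂ) : ℕ → ℂ[X]
  | 0 => poly5 (0)
      ((-4) * d 1 5 + (12) * d 2 4 + (-12) * d 3 3 + (-24) * d 4 2 + (-4) * d 6 0)
      ((9) * d 1 5 + (-31) * d 2 4 + (23) * d 3 3 + (58) * d 4 2 + (4) * d 5 1 + (9) * d 6 0)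
      ((-6) * d 1 5 + (25) * d 2 4 + (-11) * d 3 3 + (-43) * d 4 2 + (-7) * d 5 1 + (-6) * d 6 0)
      ((1) * d 1 5 + (-6) * d 2 4 + (9) * d 4 2 + (3) * d 5 1 + (1) * d 6 0)
  | 1 => poly5 (0)
      ((-4) * d 0 0 + (-4) * d 2 5 + (-12) * d 3 4 + (-12) * d 4 3 + (4) * d 6 1)
      ((9) * d 0 0 + (9) * d 2 5 + (19) * d 3 4 + (23) * d 4 3 + (2) * d 5 2 + (-7) * d 6 1)
      ((-6) * d 0 0 + (-6) * d 2 5 + (-6) * d 3 4 + (-12) * d 4 3 + (-3) * d 5 2 + (3) * d 6 1)
      ((1) * d 0 0 + (1) * d 2 5 + (-1) * d 3 4 + (1) * d 4 3 + (1) * d 5 2)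
  | 2 => poly5 ((-4) * d 1 0)
      ((4) * d 0 1 + (9) * d 1 0 + (4) * d 3 5 + (-12) * d 4 4 + (2) * d 6 2)
      ((-7) * d 0 1 + (-6) * d 1 0 + (-5) * d 3 5 + (19) * d 4 4 + (1) * d 5 3 + (-3) * d 6 2)
      ((3) * d 0 1 + (1) * d 1 0 + (1) * d 3 5 + (-7) * d 4 4 + (-1) * d 5 3 + (1) * d 6 2)
      (0)
  | 3 => poly5 ((4) * d 1 1 + (-4) * d 2 0)
      ((2) * d 0 2 + (-7) * d 1 1 + (9) * d 2 0 + (4) * d 4 5 + (1) * d 6 3)
      ((-3) * d 0 2 + (3) * d 1 1 + (-6) * d 2 0 + (-5) * d 4 5 + (1) * d 5 4 + (-1) * d 6 3)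
      ((1) * d 0 2 + (1) * d 2 0 + (1) * d 4 5 + (-1) * d 5 4)
      (0)
  | 4 => poly5 ((2) * d 1 2 + (4) * d 2 1 + (4) * d 3 0)
      ((1) * d 0 3 + (-3) * d 1 2 + (-7) * d 2 1 + (-5) * d 3 0 + (1) * d 6 4)
      ((-1) * d 0 3 + (1) * d 1 2 + (3) * d 2 1 + (1) * d 3 0 + (-1) * d 6 4)
      (0)
      (0)
  | 5 => poly5 ((1) * d 1 3 + (2) * d 2 2 + (-4) * d 3 1 + (4) * d 4 0)
      ((1) * d 0 4 + (-1) * d 1 3 + (-3) * d 2 2 + (3) * d 3 1 + (-5) * d 4 0)
      ((-1) * d 0 4 + (1) * d 2 2 + (1) * d 3 1 + (1) * d 4 0)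
      (0)
      (0)
  | 6 => poly5 ((1) * d 1 4 + (1) * d 2 3 + (-2) * d 3 2 + (-4) * d 4 1)
      ((-1) * d 1 4 + (-1) * d 2 3 + (2) * d 3 2 + (4) * d 4 1)
      (0)
      (0)
      (0)
  | _ => 0

theorem expand (M : Model F) (d : Fin 7 → Fin 6 → ℂ) :
    ∑ k, ∑ l, d k l • (M.w k * M.p l) = ∑ m ∈ Finset.range 7,
      (aeval (M.x * M.z) (coA d m) * M.x ^ (7 - m) + aeval (M.x * M.z) (coB d m) * M.z ^ m) := by
  simp only [Finset.sum_range_succ, Finset.sum_range_zero, coA, coB, aeval_poly5, Fin.sum_univ_succ,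
    Fin.sum_univ_zero, Algebra.smul_def, Model.w, Model.p]
  simp only [map_add, map_mul, map_ofNat, map_neg, map_one, map_zero]
  generalize hD : (fun k l => algebraMap ℂ F (d k l)) = D
  have hD' : ∀ k l, algebraMap ℂ F (d k l) = D k l := fun k l => by rw [← hD]
  simp only [hD']
  simp
  linear_combination ((1) * D 2 4 * M.x ^ 0 * M.z ^ 0 + (-1) * D 2 4 * M.x ^ 1 * M.z ^ 1 + (-1) * D 3 1 * M.x ^ 2 * M.z ^ 0
      + (-1) * D 3 2 * M.x ^ 1 * M.z ^ 0 + (-1) * D 3 3 * M.x ^ 0 * M.z ^ 0 + (-1) * D 3 4 * M.x ^ 0 * M.z ^ 1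
      + (-1) * D 4 1 * M.x ^ 1 * M.z ^ 0 + (-2) * D 4 2 * M.x ^ 0 * M.z ^ 0 + (1) * D 4 2 * M.x ^ 1 * M.z ^ 1
      + (-1) * D 4 3 * M.x ^ 0 * M.z ^ 1 + (-1) * D 4 4 * M.x ^ 0 * M.z ^ 2) * M.rel

theorem rels_of_sum (M : Model F) (d : Fin 7 → Fin 6 → ℂ)
    (h : ∑ k, ∑ l, d k l • (M.w k * M.p l) = 0) : Rels d := by
  rw [expand] at h
  have hi := M.indep _ _ h
  obtain ⟨ha0, hb0⟩ := hi 0 (by norm_num)
  obtain ⟨ha1, hb1⟩ := hi 1 (by norm_num)
  obtain ⟨ha2, hb2⟩ := hi 2 (by norm_num)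
  obtain ⟨ha3, hb3⟩ := hi 3 (by norm_num)
  obtain ⟨ha4, hb4⟩ := hi 4 (by norm_num)
  obtain ⟨ha5, hb5⟩ := hi 5 (by norm_num)
  obtain ⟨ha6, hb6⟩ := hi 6 (by norm_num)
  obtain ⟨a00, a01, a02, a03, a04⟩ := poly5_eq_zero ha0
  obtain ⟨b00, b01, b02, b03, b04⟩ := poly5_eq_zero hb0
  obtain ⟨a10, a11, a12, a13, a14⟩ := poly5_eq_zero ha1
  obtain ⟨b10, b11, b12, b13, b14⟩ := poly5_eq_zero hb1
  obtain ⟨a20, a21, a22, a23, a24⟩ := poly5_eq_zero ha2
  obtain ⟨b20, b21, b22, b23, b24⟩ := poly5_eq_zero hb2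
  obtain ⟨a30, a31, a32, a33, a34⟩ := poly5_eq_zero ha3
  obtain ⟨b30, b31, b32, b33, b34⟩ := poly5_eq_zero hb3
  obtain ⟨a40, a41, a42, a43, a44⟩ := poly5_eq_zero ha4
  obtain ⟨b40, b41, b42, b43, b44⟩ := poly5_eq_zero hb4
  obtain ⟨a50, a51, a52, a53, a54⟩ := poly5_eq_zero ha5
  obtain ⟨b50, b51, b52, b53, b54⟩ := poly5_eq_zero hb5
  obtain ⟨a60, a61, a62, a63, a64⟩ := poly5_eq_zero ha6
  obtain ⟨b60, b61, b62, b63, b64⟩ := poly5_eq_zero hb6
  constructor
  · linear_combination (-1/4) * b01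
  · linear_combination (1) * a00
  · linear_combination (1) * a10 + (-1/4) * b11
  · linear_combination (1) * a10
  · linear_combination (-1/4) * b20
  · linear_combination (1) * a20 + (1) * a21
  · linear_combination (1) * a20
  · linear_combination (3/2) * a30 + (1) * a31 + (-1/4) * b30
  · linear_combination (3/2) * a30 + (1) * a31
  · linear_combination (1/2) * a30
  · linear_combination (7/4) * a40 + (1) * a41
  · linear_combination (23/4) * a40 + (5) * a41 + (4) * a42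
  · linear_combination (1/4) * a40
  · linear_combination (99/8) * a50 + (19/2) * a51 + (6) * a52
  · linear_combination (21/8) * a50 + (5/2) * a51 + (2) * a52
  · linear_combination (-1/4) * a50
  · linear_combination (19/8) * a61 + (3/2) * a62
  · linear_combination (-9/8) * a61 + (-1/2) * a62

theorem sorted_zero (c : Fin 7 → Fin 7 → Fin 7 → Fin 6 → ℂ) (H : ∀ i j, Rels (c i j))
    (A : Alt c) : ∀ i j k : Fin 7, i < j → j < k → ∀ l, c i j k l = 0 := by
  obtain ⟨h0123, h0132, h0141, h0150, h0231, h0240, h0265, h0355, h0364, h0454, h0463, h0562, h1230, h1255, h1264, h1345, h1354, h1363, h1453, h1462, h1561, h2344, h2353, h2362, h2452, h2461, h2560, h3451, h3460, h4565⟩ := block0 c H A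
  obtain ⟨h0124, h0133, h0142, h0151, h0160, h0232, h0241, h0250, h0340, h0365, h0455, h0464, h0563, h1231, h1240, h1265, h1355, h1364, h1454, h1463, h1562, h2345, h2354, h2363, h2453, h2462, h2561, h3452, h3461, h3560⟩ := block1 c H A
  obtain ⟨h0125, h0134, h0143, h0152, h0161, h0233, h0242, h0251, h0260, h0341, h0350, h0465, h0564, h1232, h1241, h1250, h1340, h1365, h1455, h1464, h1563, h2355, h2364, h2454, h2463, h2562, h3453, h3462, h3561, h4560⟩ := block2 c H A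
  obtain ⟨h0135, h0144, h0153, h0162, h0234, h0243, h0252, h0261, h0342, h0351, h0360, h0450, h0565, h1233, h1242, h1251, h1260, h1341, h1350, h1465, h1564, h2340, h2365, h2455, h2464, h2563, h3454, h3463, h3562, h4561⟩ := block3 c H A
  obtain ⟨h0120, h0145, h0154, h0163, h0235, h0244, h0253, h0262, h0343, h0352, h0361, h0451, h0460, h1234, h1243, h1252, h1261, h1342, h1351, h1360, h1450, h1565, h2341, h2350, h2465, h2564, h3455, h3464, h3563, h4562⟩ := block4 c H A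
  obtain ⟨h0121, h0130, h0155, h0164, h0245, h0254, h0263, h0344, h0353, h0362, h0452, h0461, h0560, h1235, h1244, h1253, h1262, h1343, h1352, h1361, h1451, h1460, h2342, h2351, h2360, h2450, h2565, h3465, h3564, h4563⟩ := block5 c H A
  obtain ⟨h0122, h0131, h0140, h0165, h0230, h0255, h0264, h0345, h0354, h0363, h0453, h0462, h0561, h1245, h1254, h1263, h1344, h1353, h1362, h1452, h1461, h1560, h2343, h2352, h2361, h2451, h2460, h3450, h3565, h4564⟩ := block6 c H A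
  have t012 : ∀ l, c 0 1 2 l = 0 := by
    intro l
    fin_cases l
    exacts [h0120, h0121, h0122, h0123, h0124, h0125]
  have t013 : ∀ l, c 0 1 3 l = 0 := by
    intro l
    fin_cases l
    exacts [h0130, h0131, h0132, h0133, h0134, h0135]
  have t014 : ∀ l, c 0 1 4 l = 0 := by
    intro l
    fin_cases l
    exacts [h0140, h0141, h0142, h0143, h0144, h0145]
  have t015 : ∀ l, c 0 1 5 l = 0 := by
    intro l
    fin_cases l
    exacts [h0150, h0151, h0152, h0153, h0154, h0155]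
  have t016 : ∀ l, c 0 1 6 l = 0 := by
    intro l
    fin_cases l
    exacts [h0160, h0161, h0162, h0163, h0164, h0165]
  have t023 : ∀ l, c 0 2 3 l = 0 := by
    intro l
    fin_cases l
    exacts [h0230, h0231, h0232, h0233, h0234, h0235]
  have t024 : ∀ l, c 0 2 4 l = 0 := by
    intro l
    fin_cases l
    exacts [h0240, h0241, h0242, h0243, h0244, h0245]
  have t025 : ∀ l, c 0 2 5 l = 0 := by
    intro l
    fin_cases l
    exacts [h0250, h0251, h0252, h0253, h0254, h0255]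
  have t026 : ∀ l, c 0 2 6 l = 0 := by
    intro l
    fin_cases l
    exacts [h0260, h0261, h0262, h0263, h0264, h0265]
  have t034 : ∀ l, c 0 3 4 l = 0 := by
    intro l
    fin_cases l
    exacts [h0340, h0341, h0342, h0343, h0344, h0345]
  have t035 : ∀ l, c 0 3 5 l = 0 := by
    intro l
    fin_cases l
    exacts [h0350, h0351, h0352, h0353, h0354, h0355]
  have t036 : ∀ l, c 0 3 6 l = 0 := by
    intro l
    fin_cases l
    exacts [h0360, h0361, h0362, h0363, h0364, h0365]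
  have t045 : ∀ l, c 0 4 5 l = 0 := by
    intro l
    fin_cases l
    exacts [h0450, h0451, h0452, h0453, h0454, h0455]
  have t046 : ∀ l, c 0 4 6 l = 0 := by
    intro l
    fin_cases l
    exacts [h0460, h0461, h0462, h0463, h0464, h0465]
  have t056 : ∀ l, c 0 5 6 l = 0 := by
    intro l
    fin_cases l
    exacts [h0560, h0561, h0562, h0563, h0564, h0565]
  have t123 : ∀ l, c 1 2 3 l = 0 := by
    intro l
    fin_cases l
    exacts [h1230, h1231, h1232, h1233, h1234, h1235]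
  have t124 : ∀ l, c 1 2 4 l = 0 := by
    intro l
    fin_cases l
    exacts [h1240, h1241, h1242, h1243, h1244, h1245]
  have t125 : ∀ l, c 1 2 5 l = 0 := by
    intro l
    fin_cases l
    exacts [h1250, h1251, h1252, h1253, h1254, h1255]
  have t126 : ∀ l, c 1 2 6 l = 0 := by
    intro l
    fin_cases l
    exacts [h1260, h1261, h1262, h1263, h1264, h1265]
  have t134 : ∀ l, c 1 3 4 l = 0 := by
    intro l
    fin_cases l
    exacts [h1340, h1341, h1342, h1343, h1344, h1345]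
  have t135 : ∀ l, c 1 3 5 l = 0 := by
    intro l
    fin_cases l
    exacts [h1350, h1351, h1352, h1353, h1354, h1355]
  have t136 : ∀ l, c 1 3 6 l = 0 := by
    intro l
    fin_cases l
    exacts [h1360, h1361, h1362, h1363, h1364, h1365]
  have t145 : ∀ l, c 1 4 5 l = 0 := by
    intro l
    fin_cases l
    exacts [h1450, h1451, h1452, h1453, h1454, h1455]
  have t146 : ∀ l, c 1 4 6 l = 0 := by
    intro l
    fin_cases l
    exacts [h1460, h1461, h1462, h1463, h1464, h1465]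
  have t156 : ∀ l, c 1 5 6 l = 0 := by
    intro l
    fin_cases l
    exacts [h1560, h1561, h1562, h1563, h1564, h1565]
  have t234 : ∀ l, c 2 3 4 l = 0 := by
    intro l
    fin_cases l
    exacts [h2340, h2341, h2342, h2343, h2344, h2345]
  have t235 : ∀ l, c 2 3 5 l = 0 := by
    intro l
    fin_cases l
    exacts [h2350, h2351, h2352, h2353, h2354, h2355]
  have t236 : ∀ l, c 2 3 6 l = 0 := by
    intro l
    fin_cases l
    exacts [h2360, h2361, h2362, h2363, h2364, h2365]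
  have t245 : ∀ l, c 2 4 5 l = 0 := by
    intro l
    fin_cases l
    exacts [h2450, h2451, h2452, h2453, h2454, h2455]
  have t246 : ∀ l, c 2 4 6 l = 0 := by
    intro l
    fin_cases l
    exacts [h2460, h2461, h2462, h2463, h2464, h2465]
  have t256 : ∀ l, c 2 5 6 l = 0 := by
    intro l
    fin_cases l
    exacts [h2560, h2561, h2562, h2563, h2564, h2565]
  have t345 : ∀ l, c 3 4 5 l = 0 := by
    intro l
    fin_cases l
    exacts [h3450, h3451, h3452, h3453, h3454, h3455]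
  have t346 : ∀ l, c 3 4 6 l = 0 := by
    intro l
    fin_cases l
    exacts [h3460, h3461, h3462, h3463, h3464, h3465]
  have t356 : ∀ l, c 3 5 6 l = 0 := by
    intro l
    fin_cases l
    exacts [h3560, h3561, h3562, h3563, h3564, h3565]
  have t456 : ∀ l, c 4 5 6 l = 0 := by
    intro l
    fin_cases l
    exacts [h4560, h4561, h4562, h4563, h4564, h4565]
  intro i j k hij hjk l
  fin_cases i <;> fin_cases j
  all_goals (try exact absurd hij (by decide))
  all_goals fin_cases k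
  all_goals (try exact absurd hjk (by decide))
  exacts [t012 l, t013 l, t014 l, t015 l, t016 l, t023 l, t024 l, t025 l, t026 l, t034 l, t035 l, t036 l, t045 l, t046 l, t056 l, t123 l, t124 l, t125 l, t126 l, t134 l, t135 l, t136 l, t145 l, t146 l, t156 l, t234 l, t235 l, t236 l, t245 l, t246 l, t256 l, t345 l, t346 l, t356 l, t456 l]

theorem alt_zero (c : Fin 7 → Fin 7 → Fin 7 → Fin 6 → ℂ) (H : ∀ i j, Rels (c i j))
    (A : Alt c) (i j k : Fin 7) (l : Fin 6) : c i j k l = 0 := by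
  have S := sorted_zero c H A
  rcases lt_trichotomy i j with hij | hij | hij
  · rcases lt_trichotomy j k with hjk | hjk | hjk
    · exact S i j k hij hjk l
    · rw [← hjk]; exact A.rep' i j l
    · rcases lt_trichotomy i k with hik | hik | hik
      · rw [A.swp, S i k j hik hjk l, neg_zero]
      · rw [← hik]; exact A.rep i j l
      · rw [A.cyc]; exact S k i j hik hij l
  · rw [A.cyc, hij]; exact A.rep' k j l
  · rcases lt_trichotomy i k with hik | hik | hik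
    · rw [A.cyc, A.cyc, A.swp, S j i k hij hik l, neg_zero]
    · rw [← hik]; exact A.rep i j l
    · rcases lt_trichotomy j k with hjk | hjk | hjk
      · rw [A.cyc, A.cyc]; exact S j k i hjk hik l
      · rw [← hjk]; exact A.rep' i j l
      · rw [A.cyc, A.swp, S k j i hjk hij l, neg_zero]

/-- the determinant with columns `u, v, a, b` -/
def D4 (u v a b : Fin 4 → ℂ) : ℂ :=
  (u 0 * v 1 - u 1 * v 0) * (a 2 * b 3 - a 3 * b 2)
  - (u 0 * v 2 - u 2 * v 0) * (a 1 * b 3 - a 3 * b 1)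
  + (u 0 * v 3 - u 3 * v 0) * (a 1 * b 2 - a 2 * b 1)
  + (u 1 * v 2 - u 2 * v 1) * (a 0 * b 3 - a 3 * b 0)
  - (u 1 * v 3 - u 3 * v 1) * (a 0 * b 2 - a 2 * b 0)
  + (u 2 * v 3 - u 3 * v 2) * (a 0 * b 1 - a 1 * b 0)

theorem D4_cyc (u v a b : Fin 4 → ℂ) : D4 u v a b = D4 a u v b := by
  simp only [D4]; ring

theorem D4_swap (u v a b : Fin 4 → ℂ) : D4 u v a b = - D4 v u a b := by
  simp only [D4]; ring

theorem D4_swp (u v a b : Fin 4 → ℂ) : D4 u v a b = - D4 u a v b := by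
  simp only [D4]; ring

theorem D4_rep (u v b : Fin 4 → ℂ) : D4 u v u b = 0 := by
  simp only [D4]; ring

theorem D4_rep' (u v b : Fin 4 → ℂ) : D4 u v v b = 0 := by
  simp only [D4]; ring

theorem D4_lin (α : Fin 4 → Fin 7 → ℂ) (g : Fin 7 → ℂ) (u v a b : Fin 4 → ℂ)
    (hg : ∀ r, ∑ i, g i * α r i = u r) (h : ∀ i, D4 (fun r => α r i) v a b = 0) :
    D4 u v a b = 0 := by
  have e : D4 u v a b = ∑ i, g i * D4 (fun r => α r i) v a b := by
    simp only [D4, ← hg, Finset.sum_mul, ← Finset.sum_sub_distrib,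
      ← Finset.sum_add_distrib]
    apply Finset.sum_congr rfl
    intro i _
    ring
  rw [e]
  exact Finset.sum_eq_zero fun i _ => by rw [h i, mul_zero]

theorem exists_comb (α : Fin 4 → Fin 7 → ℂ) (hα : LinearIndependent ℂ α) (u : Fin 4 → ℂ) :
    ∃ g : Fin 7 → ℂ, ∀ r, ∑ i, g i * α r i = u r := by
  have hr : (Matrix.of α).rank = 4 := by
    have : LinearIndependent ℂ (Matrix.of α).row := hα
    simpa using this.rank_matrix
  have hs : LinearMap.range (Matrix.of α).mulVecLin = ⊤ := by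
    apply Submodule.eq_top_of_finrank_eq
    rw [← Matrix.rank, hr]
    simp
  obtain ⟨g, hg⟩ := LinearMap.range_eq_top.mp hs u
  refine ⟨g, fun r => ?_⟩
  rw [← hg]
  simp [Matrix.mulVec, dotProduct, mul_comm]

theorem D4_all_zero (α : Fin 4 → Fin 7 → ℂ) (hα : LinearIndependent ℂ α) (b : Fin 4 → ℂ)
    (h : ∀ i j k, D4 (fun r => α r i) (fun r => α r j) (fun r => α r k) b = 0) : b = 0 := by
  have h1 : ∀ u j k, D4 u (fun r => α r j) (fun r => α r k) b = 0 := by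
    intro u j k
    obtain ⟨g, hg⟩ := exists_comb α hα u
    exact D4_lin α g u _ _ _ hg (fun i => h i j k)
  have h2 : ∀ u v k, D4 u v (fun r => α r k) b = 0 := by
    intro u v k
    obtain ⟨g, hg⟩ := exists_comb α hα u
    refine D4_lin α g u _ _ _ hg (fun i => ?_)
    rw [D4_swap, h1, neg_zero]
  have h3 : ∀ u v a, D4 u v a b = 0 := by
    intro u v a
    obtain ⟨g, hg⟩ := exists_comb α hα u
    refine D4_lin α g u _ _ _ hg (fun i => ?_)
    rw [← D4_cyc]
    exact h2 _ _ _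
  have e3 := h3 ![1, 0, 0, 0] ![0, 1, 0, 0] ![0, 0, 1, 0]
  have e2 := h3 ![1, 0, 0, 0] ![0, 1, 0, 0] ![0, 0, 0, 1]
  have e1 := h3 ![1, 0, 0, 0] ![0, 0, 1, 0] ![0, 0, 0, 1]
  have e0 := h3 ![0, 1, 0, 0] ![0, 0, 1, 0] ![0, 0, 0, 1]
  simp [D4] at e0 e1 e2 e3
  ext i
  fin_cases i <;> simp [e0, e1, e2, e3]

end T3

open T3

theorem Model.no_four (M : Model F) (α : Fin 4 → Fin 7 → ℂ) (β : Fin 4 → Fin 6 → ℂ)
    (hα : LinearIndependent ℂ α) (hβ : LinearIndependent ℂ β)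
    (h : ∀ r s, (∑ i, α r i • M.w i) * (∑ l, β s l • M.p l) =
      (∑ i, α s i • M.w i) * (∑ l, β r l • M.p l)) : False := by
  -- the 2 × 2 minors
  have E : ∀ r s, ∑ k, ∑ l, (α r k * β s l - α s k * β r l) • (M.w k * M.p l) = 0 := by
    intro r s
    have h1 := h r s
    rw [Finset.sum_mul_sum, Finset.sum_mul_sum, ← sub_eq_zero, ← Finset.sum_sub_distrib] at h1
    rw [← h1]
    apply Finset.sum_congr rfl
    intro k _
    rw [← Finset.sum_sub_distrib]
    apply Finset.sum_congr rfl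
    intro l _
    simp only [Algebra.smul_def, map_sub, map_mul]
    ring
  set c : Fin 7 → Fin 7 → Fin 7 → Fin 6 → ℂ := fun i j k l =>
    D4 (fun r => α r i) (fun r => α r j) (fun r => α r k) (fun r => β r l) with hc
  have A : Alt c :=
    { cyc := fun i j k l => D4_cyc _ _ _ _
      swp := fun i j k l => D4_swp _ _ _ _
      rep := fun i j l => D4_rep _ _ _
      rep' := fun i j l => D4_rep' _ _ _ }
  have H : ∀ i j, Rels (c i j) := by
    intro i j
    apply rels_of_sum M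
    have e : ∑ k, ∑ l, c i j k l • (M.w k * M.p l) =
        (α 0 i * α 1 j - α 1 i * α 0 j) •
          (∑ k, ∑ l, (α 2 k * β 3 l - α 3 k * β 2 l) • (M.w k * M.p l))
        - (α 0 i * α 2 j - α 2 i * α 0 j) •
          (∑ k, ∑ l, (α 1 k * β 3 l - α 3 k * β 1 l) • (M.w k * M.p l))
        + (α 0 i * α 3 j - α 3 i * α 0 j) •
          (∑ k, ∑ l, (α 1 k * β 2 l - α 2 k * β 1 l) • (M.w k * M.p l))
        + (α 1 i * α 2 j - α 2 i * α 1 j) •
          (∑ k, ∑ l, (α 0 k * β 3 l - α 3 k * β 0 l) • (M.w k * M.p l))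
        - (α 1 i * α 3 j - α 3 i * α 1 j) •
          (∑ k, ∑ l, (α 0 k * β 2 l - α 2 k * β 0 l) • (M.w k * M.p l))
        + (α 2 i * α 3 j - α 3 i * α 2 j) •
          (∑ k, ∑ l, (α 0 k * β 1 l - α 1 k * β 0 l) • (M.w k * M.p l)) := by
      simp only [Finset.smul_sum, ← Finset.sum_sub_distrib, ← Finset.sum_add_distrib]
      apply Finset.sum_congr rfl
      intro k _
      apply Finset.sum_congr rfl
      intro l _
      simp only [hc, D4, smul_smul, ← sub_smul, ← add_smul]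
    rw [e]
    simp only [E, smul_zero, sub_zero, add_zero]
  have Z := alt_zero c H A
  have hb : ∀ l, (fun r => β r l) = 0 := fun l => D4_all_zero α hα _ (fun i j k => Z i j k l)
  apply hβ.ne_zero 0
  ext l
  exact congrFun (hb l) 0

namespace T3

/-- coefficients of `x ^ (7 - m)` in `∑ g i • w i` -/
noncomputable def wA (g : Fin 7 → ℂ) : ℕ → ℂ[X]
  | 3 => poly5 (g 3) 0 0 0 0
  | 4 => poly5 (g 4) 0 0 0 0
  | 5 => poly5 (-g 5) (g 5) 0 0 0
  | 6 => poly5 (-g 6) (g 6) 0 0 0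
  | _ => 0

/-- coefficients of `z ^ m` in `∑ g i • w i` -/
noncomputable def wB (g : Fin 7 → ℂ) : ℕ → ℂ[X]
  | 0 => poly5 0 (-g 0) (g 0) 0 0
  | 1 => poly5 (-g 1) (g 1) 0 0 0
  | 2 => poly5 (-g 2) (g 2) 0 0 0
  | 3 => poly5 (g 3) 0 0 0 0
  | 4 => poly5 (g 4) 0 0 0 0
  | _ => 0

/-- coefficients of `x ^ (7 - m)` in `∑ g l • p l` -/
noncomputable def pA (g : Fin 6 → ℂ) : ℕ → ℂ[X]
  | 2 => poly5 (-g 1) 0 0 0 0
  | 3 => poly5 (-g 2) 0 0 0 0
  | 4 => poly5 (-2 * g 3) (g 3) 0 0 0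
  | 5 => poly5 (-4 * g 4) (3 * g 4) 0 0 0
  | 6 => poly5 (4 * g 5) (-5 * g 5) (g 5) 0 0
  | _ => 0

/-- coefficients of `z ^ m` in `∑ g l • p l` -/
noncomputable def pB (g : Fin 6 → ℂ) : ℕ → ℂ[X]
  | 1 => poly5 (4 * g 0) (-5 * g 0) (g 0) 0 0
  | 2 => poly5 (-4 * g 1) (3 * g 1) 0 0 0
  | 3 => poly5 (-2 * g 2) (g 2) 0 0 0
  | 4 => poly5 (-g 3) 0 0 0 0
  | 5 => poly5 (-g 4) 0 0 0 0
  | _ => 0

end T3

/-- the seven `w` are linearly independent over `ℂ` -/
theorem Model.w_indep (M : Model F) : LinearIndependent ℂ M.w := by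
  rw [Fintype.linearIndependent_iff]
  intro g hg
  have hexp : ∑ i, g i • M.w i = ∑ m ∈ Finset.range 7,
      (aeval (M.x * M.z) (wA g m) * M.x ^ (7 - m) + aeval (M.x * M.z) (wB g m) * M.z ^ m) := by
    simp only [Finset.sum_range_succ, Finset.sum_range_zero, wA, wB, aeval_poly5,
      Fin.sum_univ_succ, Fin.sum_univ_zero, Algebra.smul_def, Model.w, map_neg, map_zero]
    simp
    ring
  rw [hexp] at hg
  have hi := M.indep _ _ hg
  have b0 := poly5_eq_zero (hi 0 (by norm_num)).2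
  have b1 := poly5_eq_zero (hi 1 (by norm_num)).2
  have b2 := poly5_eq_zero (hi 2 (by norm_num)).2
  have b3 := poly5_eq_zero (hi 3 (by norm_num)).2
  have b4 := poly5_eq_zero (hi 4 (by norm_num)).2
  have a5 := poly5_eq_zero (hi 5 (by norm_num)).1
  have a6 := poly5_eq_zero (hi 6 (by norm_num)).1
  intro i
  fin_cases i
  exacts [b0.2.2.1, b1.2.1, b2.2.1, b3.1, b4.1, a5.2.1, a6.2.1]

/-- the six `p` are linearly independent over `ℂ` -/
theorem Model.p_indep (M : Model F) : LinearIndependent ℂ M.p := by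
  rw [Fintype.linearIndependent_iff]
  intro g hg
  have hexp : ∑ i, g i • M.p i = ∑ m ∈ Finset.range 7,
      (aeval (M.x * M.z) (pA g m) * M.x ^ (7 - m) + aeval (M.x * M.z) (pB g m) * M.z ^ m) := by
    simp only [Finset.sum_range_succ, Finset.sum_range_zero, pA, pB, aeval_poly5,
      Fin.sum_univ_succ, Fin.sum_univ_zero, Algebra.smul_def, Model.p, map_neg, map_zero,
      map_mul, map_ofNat]
    simp
    ring
  rw [hexp] at hg
  have hi := M.indep _ _ hg
  have b1 := poly5_eq_zero (hi 1 (by norm_num)).2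
  have a2 := poly5_eq_zero (hi 2 (by norm_num)).1
  have a3 := poly5_eq_zero (hi 3 (by norm_num)).1
  have a4 := poly5_eq_zero (hi 4 (by norm_num)).1
  have b4 := poly5_eq_zero (hi 4 (by norm_num)).2
  have b5 := poly5_eq_zero (hi 5 (by norm_num)).2
  have a6 := poly5_eq_zero (hi 6 (by norm_num)).1
  intro i
  fin_cases i
  exacts [b1.2.2.1, neg_eq_zero.mp a2.1, neg_eq_zero.mp a3.1, neg_eq_zero.mp b4.1,
    neg_eq_zero.mp b5.1, a6.2.2.1]

end EtaleGonality
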