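import Pool.Agent.G7.Model
import Pool.Agent.G7.LinAlg
/-! T5 (helper59): algebra of the gonality bound, gonality of the double cover -/
open scoped IntermediateField
open Polynomial
namespace EtaleGonality
namespace T5
variable {F : Type} [Field F] [Algebra ℂ F]

theorem t_ne_zero (M : Model F) : M.x * M.z ≠ 0 := fun h => by
  have := M.tr
  rw [h] at this
  exact this (isAlgebraic_zero)

theorem x_ne_zero (M : Model F) : M.x ≠ 0 := left_ne_zero_of_mul (t_ne_zero M)

theorem z_ne_zero (M : Model F) : M.z ≠ 0 := right_ne_zero_of_mul (t_ne_zero M)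

/-- An intermediate field containing `x` and `z` is everything. -/
theorem eq_top (M : Model F) (L : IntermediateField ℂ F) (hx : M.x ∈ L) (hz : M.z ∈ L) :
    L = ⊤ := by
  rw [eq_top_iff]
  intro y _
  obtain ⟨c, a, b, hc, h⟩ := M.gen y
  have ht : M.x * M.z ∈ L := mul_mem hx hz
  have hp : ∀ p : ℂ[X], aeval (M.x * M.z) p ∈ L := fun p => by
    have : aeval (M.x * M.z) p = ((aeval (⟨M.x * M.z, ht⟩ : L) p : L) : F) := by
      rw [← IntermediateField.aeval_coe]
    rw [this]
    exact Subtype.property _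
  have hc0 : aeval (M.x * M.z) c ≠ 0 := fun h0 => hc (by
    by_contra hne
    exact M.tr ⟨c, hne, h0⟩)
  have hy : y = (∑ k ∈ Finset.range 7, (aeval (M.x * M.z) (a k) * M.x ^ (7 - k) +
      aeval (M.x * M.z) (b k) * M.z ^ k)) / aeval (M.x * M.z) c := by
    rw [← h]
    field_simp
  rw [hy]
  refine div_mem (sum_mem fun k _ => add_mem (mul_mem (hp _) (pow_mem hx _))
    (mul_mem (hp _) (pow_mem hz _))) (hp c)

/-- A bound for the degree of a simple extension. -/
theorem finrank_le_of_root {E L : Type} [Field E] [Field L] [Algebra E L] (z : L)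
    (htop : E⟮z⟯ = ⊤) (P : E[X]) (hP : P ≠ 0) (hz : aeval z P = 0) :
    FiniteDimensional E L ∧ Module.finrank E L ≤ P.natDegree := by
  have halg : IsAlgebraic E z := ⟨P, hP, hz⟩
  have hint : IsIntegral E z := halg.isIntegral
  have h1 : FiniteDimensional E E⟮z⟯ := IntermediateField.adjoin.finiteDimensional hint
  have h2 : Module.finrank E E⟮z⟯ = (minpoly E z).natDegree :=
    IntermediateField.adjoin.finrank hint
  rw [htop] at h1 h2
  have e : (⊤ : IntermediateField E L) ≃ₐ[E] L := IntermediateField.topEquiv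
  refine ⟨e.toLinearEquiv.finiteDimensional, ?_⟩
  rw [← e.toLinearEquiv.finrank_eq, h2]
  exact Polynomial.natDegree_le_of_dvd (minpoly.dvd E z hz) hP

/-- `z` is not a `ℂ`-linear combination of `1` and `x`. -/
theorem z_not_lin (M : Model F) (a b : ℂ) :
    M.z ≠ algebraMap ℂ F a + algebraMap ℂ F b * M.x := by
  intro h
  have := M.indep (fun k => if k = 6 then C (-b) else 0)
    (fun k => if k = 0 then C (-a) else if k = 1 then 1 else 0) (by
      simp [Finset.sum_range_succ]
      rw [h]; ring) 1 (by norm_num)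
  simp at this

theorem x_not_const (M : Model F) (a : ℂ) : M.x ≠ algebraMap ℂ F a := by
  intro h
  have := M.indep (fun k => if k = 6 then 1 else 0)
    (fun k => if k = 0 then C (-a) else 0) (by
      simp [Finset.sum_range_succ]
      rw [h]; ring) 6 (by norm_num)
  simp at this

end T5

open T5

variable {F : Type} [Field F] [Algebra ℂ F]

theorem Model.degree_five (M : Model F) : M.x / M.z ∉ (algebraMap ℂ F).range ∧
    FiniteDimensional ℂ⟮M.x / M.z⟯ F ∧ Module.finrank ℂ⟮M.x / M.z⟯ F ≤ 5 := by
  have hx := x_ne_zero M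
  have hz := z_ne_zero M
  refine ⟨?_, ?_⟩
  · rintro ⟨c, hc⟩
    have hc0 : c ≠ 0 := by
      rintro rfl
      rw [map_zero] at hc
      exact div_ne_zero hx hz hc.symm
    refine z_not_lin M 0 c⁻¹ ?_
    have hc1 : algebraMap ℂ F c ≠ 0 := by simpa using hc0
    rw [map_zero, zero_add, map_inv₀, hc]
    field_simp
  · set φ := M.x / M.z with hφ
    have hφx : M.x = φ * M.z := by rw [hφ]; field_simp
    have hφ0 : φ ≠ 0 := div_ne_zero hx hz
    set K := ℂ⟮φ⟯ with hK
    have hφK : φ ∈ K := IntermediateField.mem_adjoin_simple_self ℂ φ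
    set f : K := ⟨φ, hφK⟩ with hf
    have hf0 : f ≠ 0 := fun h => hφ0 (congrArg Subtype.val h)
    have hfF : algebraMap K F f = φ := rfl
    have htop : K⟮M.z⟯ = ⊤ := by
      have h1 : (K⟮M.z⟯).restrictScalars ℂ = ⊤ := by
        apply eq_top M
        · rw [IntermediateField.mem_restrictScalars, hφx]
          refine mul_mem ?_ (IntermediateField.mem_adjoin_simple_self K M.z)
          rw [← hfF]
          exact IntermediateField.algebraMap_mem _ _
        · exact IntermediateField.mem_adjoin_simple_self K M.z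
      rw [eq_top_iff]
      intro y _
      have : y ∈ (K⟮M.z⟯).restrictScalars ℂ := by rw [h1]; trivial
      exact this
    let P : K[X] := C (f ^ 7 + 1) * X ^ 5 - C (9 * f ^ 3) * X ^ 4 + C (23 * f ^ 2) * X ^ 2 -
      C (12 * f)
    have hP0 : P.coeff 0 = -(12 * f) := by
      simp [P, coeff_X_pow]
    have hPne : P ≠ 0 := by
      intro h
      rw [h, coeff_zero] at hP0
      have : (12 : K) * f ≠ 0 := mul_ne_zero (by norm_num) hf0
      exact this (by linear_combination hP0)
    have hdeg : P.natDegree ≤ 5 := by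
      simp only [P]
      compute_degree
    have hroot : aeval M.z P = 0 := by
      have hrel := M.rel
      rw [hφx] at hrel
      have h1 : (φ ^ 7 + 1) * M.z ^ 5 - 9 * φ ^ 3 * M.z ^ 4 + 23 * φ ^ 2 * M.z ^ 2 - 12 * φ = 0 := by
        have h2 : M.z ^ 2 * ((φ ^ 7 + 1) * M.z ^ 5 - 9 * φ ^ 3 * M.z ^ 4 + 23 * φ ^ 2 * M.z ^ 2 -
            12 * φ) = 0 := by linear_combination hrel
        exact (mul_eq_zero.1 h2).resolve_left (pow_ne_zero 2 hz)
      simp only [P, map_sub, map_add, map_mul, map_pow, aeval_X, aeval_C, hfF, map_one, map_ofNat]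
      linear_combination h1
    obtain ⟨h1, h2⟩ := finrank_le_of_root M.z htop P hPne hroot
    exact ⟨h1, h2.trans hdeg⟩

theorem T5.eq_top_cover (M : Model F) {F' : Type} [Field F'] [Algebra ℂ F'] [Algebra F F']
    [IsScalarTower ℂ F F'] {v : F'} (htop : F⟮v⟯ = ⊤) (L : IntermediateField ℂ F')
    (hx : algebraMap F F' M.x ∈ L) (hz : algebraMap F F' M.z ∈ L) (hv : v ∈ L) : L = ⊤ := by
  have h1 : L.comap (IsScalarTower.toAlgHom ℂ F F') = ⊤ := eq_top M _ hx hz
  have h2 : ∀ y : F, algebraMap F F' y ∈ L := fun y => by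
    have : y ∈ L.comap (IsScalarTower.toAlgHom ℂ F F') := by rw [h1]; trivial
    exact this
  let L' : IntermediateField F F' := L.toSubfield.toIntermediateField h2
  have h3 : F⟮v⟯ ≤ L' := by
    rw [IntermediateField.adjoin_simple_le_iff]
    exact hv
  rw [eq_top_iff]
  intro y _
  have : y ∈ F⟮v⟯ := by rw [htop]; trivial
  exact h3 this

theorem Model.cover_degree (M : Model F) (F' : Type) [Field F'] [Algebra ℂ F'] [Algebra F F']
    [IsScalarTower ℂ F F'] (v : F') (hv : v ^ 2 = algebraMap F F' (M.x * M.z - 4))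
    (htop : F⟮v⟯ = ⊤) : ∃ φ : F', φ ∉ (algebraMap ℂ F').range ∧ FiniteDimensional ℂ⟮φ⟯ F' ∧
      Module.finrank ℂ⟮φ⟯ F' ≤ 7 := by
  set x := algebraMap F F' M.x with hxdef
  set z := algebraMap F F' M.z with hzdef
  have hx : x ≠ 0 := by simpa [hxdef] using x_ne_zero M
  have hz : z ≠ 0 := by simpa [hzdef] using z_ne_zero M
  have hv' : v ^ 2 = x * z - 4 := by rw [hv, map_sub, map_mul, map_ofNat]
  have hrel : x ^ 7 + z ^ 7 = 12 * (x * z) - 23 * (x * z) ^ 2 + 9 * (x * z) ^ 3 := by
    have := congrArg (algebraMap F F') M.rel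
    simpa only [map_add, map_sub, map_mul, map_pow, map_ofNat] using this
  set i := algebraMap ℂ F' Complex.I with hi
  have hi2 : i ^ 2 = -1 := by
    rw [hi, ← map_pow, Complex.I_sq, map_neg, map_one]
  set T := (2 + i * v) / x with hT
  set T' := (2 - i * v) / x with hT'
  have hsum : x * (T + T') = 4 := by
    rw [hT, hT']; field_simp; ring
  have hprod : x * (T * T') = z := by
    rw [hT, hT']; field_simp
    linear_combination (-v ^ 2) * hi2 + hv'
  have hs0 : T + T' ≠ 0 := by
    intro h; rw [h, mul_zero] at hsum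
    have h4 : algebraMap ℂ F' 4 ≠ 0 := by simp
    rw [map_ofNat] at h4
    exact h4 hsum.symm
  have hT0 : T ≠ 0 := by
    intro h; rw [h, zero_mul, mul_zero] at hprod
    exact hz hprod.symm
  have hxs : x = 4 / (T + T') := by field_simp; linear_combination hsum
  have hzs : z = 4 * (T * T') / (T + T') := by rw [← hprod, hxs]; ring
  refine ⟨T, ?_, ?_⟩
  · rintro ⟨c, hc⟩
    refine z_not_lin M (4 * c) (-c ^ 2) ?_
    apply (algebraMap F F').injective
    have h1 : x * T ^ 2 - 4 * T + z = 0 := by
      linear_combination T * hsum - hprod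
    rw [← hc] at h1
    simp only [map_add, map_mul, map_neg, map_pow, map_ofNat, ← IsScalarTower.algebraMap_apply,
      ← hxdef, ← hzdef]
    linear_combination h1
  · set K := ℂ⟮T⟯ with hK
    have hTK : T ∈ K := IntermediateField.mem_adjoin_simple_self ℂ T
    set f : K := ⟨T, hTK⟩ with hf
    have hfF : algebraMap K F' f = T := rfl
    have htopK : K⟮T'⟯ = ⊤ := by
      have hTm : T ∈ (K⟮T'⟯).restrictScalars ℂ := by
        rw [IntermediateField.mem_restrictScalars, ← hfF]
        exact IntermediateField.algebraMap_mem _ _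
      have hTm' : T' ∈ (K⟮T'⟯).restrictScalars ℂ :=
        IntermediateField.mem_adjoin_simple_self K T'
      have h4 : (4 : F') ∈ (K⟮T'⟯).restrictScalars ℂ := ofNat_mem _ 4
      have hxm : x ∈ (K⟮T'⟯).restrictScalars ℂ := by
        rw [hxs]; exact div_mem h4 (add_mem hTm hTm')
      have hzm : z ∈ (K⟮T'⟯).restrictScalars ℂ := by
        rw [hzs]; exact div_mem (mul_mem h4 (mul_mem hTm hTm')) (add_mem hTm hTm')
      have hvm : v ∈ (K⟮T'⟯).restrictScalars ℂ := by
        have : v = (2 - x * T) * i := by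
          rw [hT]; field_simp; linear_combination v * hi2
        rw [this]
        refine mul_mem (sub_mem (ofNat_mem _ 2) (mul_mem hxm hTm)) ?_
        rw [hi]
        exact IntermediateField.algebraMap_mem _ _
      have h1 := T5.eq_top_cover M htop _ hxm hzm hvm
      rw [eq_top_iff]
      intro y _
      have : y ∈ (K⟮T'⟯).restrictScalars ℂ := by rw [h1]; trivial
      exact this
    let P : K[X] := C 16384 + C (16384 * f ^ 7) * X ^ 7 - C (192 * f) * X * (X + C f) ^ 5 +
      C (5888 * f ^ 2) * X ^ 2 * (X + C f) ^ 3 - C (36864 * f ^ 3) * X ^ 3 * (X + C f)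
    have hP0 : P.eval 0 = 16384 := by
      simp [P]
    have hPne : P ≠ 0 := by
      intro h
      rw [h, eval_zero] at hP0
      norm_num at hP0
    have hdeg : P.natDegree ≤ 7 := by
      simp only [P]
      compute_degree
    have hroot : aeval T' P = 0 := by
      simp only [P, map_sub, map_add, map_mul, map_pow, aeval_X, aeval_C, hfF, map_ofNat]
      have h1 : (T + T') ^ 7 * (x ^ 7 + z ^ 7) = 16384 + 16384 * T ^ 7 * T' ^ 7 := by
        rw [hxs, hzs]; field_simp; ring
      have h2 : (T + T') ^ 7 * (12 * (x * z) - 23 * (x * z) ^ 2 + 9 * (x * z) ^ 3) =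
          192 * T * T' * (T + T') ^ 5 - 5888 * T ^ 2 * T' ^ 2 * (T + T') ^ 3 +
          36864 * T ^ 3 * T' ^ 3 * (T + T') := by
        rw [hxs, hzs]; field_simp; ring
      rw [hrel, h2] at h1
      linear_combination -h1
    obtain ⟨h1, h2⟩ := finrank_le_of_root T' htopK P hPne hroot
    exact ⟨h1, h2.trans hdeg⟩

end EtaleGonality
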