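import Pool.Agent.G7.Gon
/-! T5 (helper59): the algebra of the gonality bound -/
open scoped IntermediateField
open Polynomial
namespace EtaleGonality
namespace T5
variable {F : Type} [Field F] [Algebra ℂ F]

/-- Seventh roots of unity are constants. -/
theorem root_const {E : Type} [Field E] [Algebra ℂ E] {ζ : ℂ} (hζ : IsPrimitiveRoot ζ 7) {y : E}
    (hy : y ^ 7 = 1) : ∃ c : ℂ, y = algebraMap ℂ E c := by
  have h1 : IsPrimitiveRoot (algebraMap ℂ E ζ) 7 :=
    hζ.map_of_injective (algebraMap ℂ E).injective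
  obtain ⟨k, _, hk⟩ := h1.eq_pow_of_pow_eq_one hy
  exact ⟨ζ ^ k, by rw [map_pow, hk]⟩

/-- A product of linear factors that kills a nonzero vector contains a factor that kills one. -/
theorem exists_factor {E W : Type} [Field E] [AddCommGroup W] [Module E W] (A : Module.End E W) :
    ∀ (l : List E) (u : W), u ≠ 0 →
      (l.map fun ρ => A - algebraMap E (Module.End E W) ρ).prod u = 0 →
      ∃ ρ ∈ l, ∃ w : W, w ≠ 0 ∧ A w = ρ • w := by
  intro l
  induction l with
  | nil => intro u hu h; simp at h; exact absurd h hu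
  | cons a l ih =>
    intro u hu h
    rw [List.map_cons, List.prod_cons, Module.End.mul_apply] at h
    by_cases h0 : (l.map fun ρ => A - algebraMap E (Module.End E W) ρ).prod u = 0
    · obtain ⟨ρ, hρ, w, hw⟩ := ih u hu h0
      exact ⟨ρ, List.mem_cons_of_mem _ hρ, w, hw⟩
    · refine ⟨a, List.mem_cons_self .., _, h0, ?_⟩
      rw [LinearMap.sub_apply, Module.algebraMap_end_apply, sub_eq_zero] at h
      exact h

/-- If `A ^ 7 u = - u` with `u ≠ 0` then some constant `ρ` with `ρ ^ 7 = -1` is an eigenvalue. -/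
theorem exists_eigen {E W : Type} [Field E] [Algebra ℂ E] [AddCommGroup W] [Module E W]
    {ζ : ℂ} (hζ : IsPrimitiveRoot ζ 7) (A : Module.End E W) (u : W) (hu : u ≠ 0)
    (h : (A ^ 7) u = -u) : ∃ ρ : ℂ, ρ ^ 7 = -1 ∧ ∃ w : W, w ≠ 0 ∧ A w = (algebraMap ℂ E ρ) • w := by
  have hζE : IsPrimitiveRoot (algebraMap ℂ E ζ) 7 :=
    hζ.map_of_injective (algebraMap ℂ E).injective
  -- work with `-A`
  set B : Module.End E W := -A with hB
  have hBu : (B ^ 7) u = u := by
    rw [hB, Odd.neg_pow (by decide), LinearMap.neg_apply, h, neg_neg]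
  have hprod : (X ^ 7 - 1 : E[X]) = ((nthRootsFinset 7 (1 : E)).toList.map fun ρ => X - C ρ).prod := by
    rw [X_pow_sub_one_eq_prod (by norm_num) hζE, Finset.prod_map_toList]
  have h1 : ((nthRootsFinset 7 (1 : E)).toList.map
      fun ρ => B - algebraMap E (Module.End E W) ρ).prod u = 0 := by
    have e : ((nthRootsFinset 7 (1 : E)).toList.map
      fun ρ => B - algebraMap E (Module.End E W) ρ).prod = aeval B (X ^ 7 - 1 : E[X]) := by
      rw [hprod, map_list_prod, List.map_map]
      congr 1
      refine List.map_congr_left fun ρ _ => ?_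
      simp
    rw [e, map_sub, map_pow, aeval_X, map_one, LinearMap.sub_apply, hBu, Module.End.one_apply,
      sub_self]
  obtain ⟨ρ, hρ, w, hw, hw'⟩ := exists_factor B _ u hu h1
  rw [Finset.mem_toList, mem_nthRootsFinset (by norm_num)] at hρ
  obtain ⟨c, hc⟩ := root_const hζ hρ
  refine ⟨-c, ?_, w, hw, ?_⟩
  · have h2 : c ^ 7 = 1 := by
      apply (algebraMap ℂ E).injective
      rw [map_pow, ← hc, hρ, map_one]
    rw [Odd.neg_pow (by decide), h2]
  · rw [map_neg, neg_smul, ← hc, ← hw', hB, LinearMap.neg_apply, neg_neg]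

theorem pow7_apply {E W : Type} [Field E] [AddCommGroup W] [Module E W] (A : Module.End E W)
    (u : W) : (A ^ 7) u = A (A (A (A (A (A (A u)))))) := by
  simp only [pow_succ, pow_zero, one_mul, Module.End.mul_apply]

/-- The core of the argument: the case `z = α + β x`. -/
theorem core {ζ : ℂ} (hζ : IsPrimitiveRoot ζ 7) (K : IntermediateField ℂ F) (x z : F)
    (hx0 : x ≠ 0)
    (hzx : ∀ a b : ℂ, z ≠ algebraMap ℂ F a + algebraMap ℂ F b * x)
    (α β : K) (hz : z = α + β * x)
    (hxc : ∀ c : ℂ, x ≠ algebraMap ℂ F c)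
    (hspan : ∀ y : F, ∃ c : Fin 4 → K, y = ∑ i, c i • x ^ (i : ℕ))
    (lam : F →ₗ[K] K)
    (h1 : lam (z * (x * z - 1)) = 0) (h2 : lam (x * (x * z - 1)) = 0)
    (h4 : lam (x ^ 2 * (x * z - 1)) = 0) (h3 : lam (z ^ 2 * (x * z - 1)) = 0)
    (h5 : lam (z ^ 3 + x ^ 4) = 0) (h6 : lam (x ^ 3 + z ^ 4) = 0) : lam = 0 := by
  -- a criterion
  have crit : ∀ s : F, s ≠ 0 → (∀ i : Fin 4, lam (s * x ^ (i : ℕ)) = 0) → lam = 0 := by
    intro s hs h
    ext y
    rw [LinearMap.zero_apply]
    obtain ⟨c, hc⟩ := hspan (s⁻¹ * y)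
    have : y = ∑ i, c i • (s * x ^ (i : ℕ)) := by
      have e : y = s * (s⁻¹ * y) := by field_simp
      rw [e, hc, Finset.mul_sum]
      refine Finset.sum_congr rfl fun i _ => ?_
      rw [mul_smul_comm]
    rw [this, map_sum]
    simp only [map_smul, h, smul_zero, Finset.sum_const_zero, ZeroMemClass.coe_zero]
  -- `lam` is `K`-linear
  have lK : ∀ (k : K) (y : F), lam ((k : F) * y) = k * lam y := fun k y => by
    have := lam.map_smul k y
    rwa [Algebra.smul_def, smul_eq_mul] at this
  have lKa : ∀ (k : K) (y w : F), lam ((k : F) * y + w) = k * lam y + lam w := fun k y w => by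
    rw [map_add, lK]
  by_cases hα : α = 0
  · -- the case `α = 0`
    have hzβ : z = β * x := by rw [hz, hα]; simp
    have hβ7 : β ^ 7 ≠ 1 := by
      intro h
      obtain ⟨c, hc⟩ := root_const hζ h
      refine hzx 0 c ?_
      rw [map_zero, zero_add, hzβ, hc]
      rfl
    have e2 : β * lam (x ^ 3) = lam x := by
      have : x * (x * z - 1) = (β : F) * x ^ 3 - x := by rw [hzβ]; ring
      rw [this, map_sub, lK] at h2
      exact sub_eq_zero.1 h2
    have e4 : β * lam (x ^ 4) = lam (x ^ 2) := by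
      have : x ^ 2 * (x * z - 1) = (β : F) * x ^ 4 - x ^ 2 := by rw [hzβ]; ring
      rw [this, map_sub, lK] at h4
      exact sub_eq_zero.1 h4
    have e5 : β ^ 3 * lam (x ^ 3) + lam (x ^ 4) = 0 := by
      have : z ^ 3 + x ^ 4 = ((β ^ 3 : K) : F) * x ^ 3 + x ^ 4 := by rw [hzβ]; push_cast; ring
      rwa [this, map_add, lK] at h5
    have e6 : lam (x ^ 3) + β ^ 4 * lam (x ^ 4) = 0 := by
      have : x ^ 3 + z ^ 4 = x ^ 3 + ((β ^ 4 : K) : F) * x ^ 4 := by rw [hzβ]; push_cast; ring
      rwa [this, map_add, lK] at h6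
    have e3 : lam (x ^ 3) = 0 := by
      have : (1 - β ^ 7) * lam (x ^ 3) = 0 := by linear_combination e6 - β ^ 4 * e5
      exact (mul_eq_zero.1 this).resolve_left (sub_ne_zero.2 (Ne.symm hβ7))
    rw [e3, mul_zero, zero_add] at e5
    rw [e3, mul_zero] at e2
    rw [e5, mul_zero] at e4
    refine crit x hx0 fun i => ?_
    fin_cases i
    · simpa using e2.symm
    · change lam (x * x ^ 1) = 0
      rw [show x * x ^ 1 = x ^ 2 by ring]; exact e4.symm
    · change lam (x * x ^ 2) = 0
      rw [show x * x ^ 2 = x ^ 3 by ring]; exact e3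
    · change lam (x * x ^ 3) = 0
      rw [show x * x ^ 3 = x ^ 4 by ring]; exact e5
  · -- the case `α ≠ 0`
    -- `lam (q y) = 0` for `y = 1, x, x ^ 2`
    have q0 : lam (1 * (x * z - 1)) = 0 := by
      have e : z * (x * z - 1) = (α : F) * (1 * (x * z - 1)) + (β : F) * (x * (x * z - 1)) := by
        rw [hz]; ring
      rw [e, map_add, lK, lK, h2, mul_zero, add_zero] at h1
      exact (mul_eq_zero.1 h1).resolve_left hα
    have hm : ∀ y : F, lam (y * (x * z - 1)) = 0 → lam (x * z * y) = lam y := fun y hy => by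
      have : y * (x * z - 1) = x * z * y - y := by ring
      rw [this, map_sub] at hy
      exact sub_eq_zero.1 hy
    have m0 := hm 1 q0
    have m1 := hm x h2
    have m2 := hm (x ^ 2) h4
    have n1 := hm z h1
    have n2 := hm (z ^ 2) h3
    -- the recurrences
    have r2 : lam (x ^ 2) = α * lam (x ^ 3) + β * lam (x ^ 4) := by
      rw [← m2, show x * z * x ^ 2 = (α : F) * x ^ 3 + (β : F) * x ^ 4 by rw [hz]; ring, map_add,
        lK, lK]
    have r1 : lam x = α * lam (x ^ 2) + β * lam (x ^ 3) := by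
      rw [← m1, show x * z * x = (α : F) * x ^ 2 + (β : F) * x ^ 3 by rw [hz]; ring, map_add,
        lK, lK]
    have r0 : lam 1 = α * lam x + β * lam (x ^ 2) := by
      rw [← m0, show x * z * 1 = (α : F) * x + (β : F) * x ^ 2 by rw [hz]; ring, map_add,
        lK, lK]
    have s1 : lam z = α * lam 1 + β * lam x := by
      rw [show z = (α : F) * 1 + (β : F) * x by rw [hz]; ring, map_add, lK, lK]
    have s2 : lam (z ^ 2) = α * lam z + β * lam 1 := by
      rw [← m0, show z ^ 2 = (α : F) * z + (β : F) * (x * z * 1) by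
        nth_rewrite 1 [sq, hz]; ring, map_add, lK, lK]
    have s3 : lam (z ^ 3) = α * lam (z ^ 2) + β * lam z := by
      rw [← n1, show z ^ 3 = (α : F) * z ^ 2 + (β : F) * (x * z * z) by
        rw [show z ^ 3 = z * z ^ 2 by ring]; nth_rewrite 1 [hz]; ring, map_add, lK, lK]
    have s4 : lam (z ^ 4) = α * lam (z ^ 3) + β * lam (z ^ 2) := by
      rw [← n2, show z ^ 4 = (α : F) * z ^ 3 + (β : F) * (x * z * z ^ 2) by
        rw [show z ^ 4 = z * z ^ 3 by ring]; nth_rewrite 1 [hz]; ring, map_add, lK, lK]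
    rw [map_add] at h5 h6
    -- the matrix
    by_cases hu : lam (x ^ 3) = 0 ∧ lam (x ^ 4) = 0
    · obtain ⟨u3, u4⟩ := hu
      rw [u3, u4, mul_zero, mul_zero, add_zero] at r2
      rw [r2, u3, mul_zero, mul_zero, add_zero] at r1
      rw [r1, r2, mul_zero, mul_zero, add_zero] at r0
      refine crit 1 one_ne_zero fun i => ?_
      fin_cases i <;> simp [r0, r1, r2, u3]
    · let A : Module.End K (K × K) :=
        { toFun := fun p => (α * p.1 + β * p.2, p.1)
          map_add' := fun p q => by ext <;> simp; ring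
          map_smul' := fun k p => by ext <;> simp; ring }
      have hA : ∀ a b : K, A (a, b) = (α * a + β * b, a) := fun a b => rfl
      have hA7 : (A ^ 7) (lam (x ^ 3), lam (x ^ 4)) = -(lam (x ^ 3), lam (x ^ 4)) := by
        have t0 : A (lam (x ^ 3), lam (x ^ 4)) = (lam (x ^ 2), lam (x ^ 3)) := by rw [hA, ← r2]
        have t1 : A (lam (x ^ 2), lam (x ^ 3)) = (lam x, lam (x ^ 2)) := by rw [hA, ← r1]
        have t2 : A (lam x, lam (x ^ 2)) = (lam 1, lam x) := by rw [hA, ← r0]
        have t3 : A (lam 1, lam x) = (lam z, lam 1) := by rw [hA, ← s1]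
        have t4 : A (lam z, lam 1) = (lam (z ^ 2), lam z) := by rw [hA, ← s2]
        have t5 : A (lam (z ^ 2), lam z) = (lam (z ^ 3), lam (z ^ 2)) := by rw [hA, ← s3]
        have t6 : A (lam (z ^ 3), lam (z ^ 2)) = (lam (z ^ 4), lam (z ^ 3)) := by rw [hA, ← s4]
        rw [pow7_apply, t0, t1, t2, t3, t4, t5, t6, Prod.neg_mk, Prod.mk.injEq]
        exact ⟨by linear_combination h6, by linear_combination h5⟩
      obtain ⟨ρ, hρ, ⟨a, b⟩, hw, hw'⟩ := exists_eigen hζ A _ (by
        intro h
        exact hu (Prod.mk.inj h)) hA7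
      rw [hA, Prod.smul_mk, Prod.mk.injEq, smul_eq_mul, smul_eq_mul] at hw'
      obtain ⟨w1, w2⟩ := hw'
      set ρ' : K := algebraMap ℂ K ρ with hρ'
      have hb : b ≠ 0 := by
        rintro rfl
        rw [mul_zero] at w2
        exact hw (by rw [w2]; rfl)
      have hβ : β = ρ' ^ 2 - α * ρ' := by
        have : b * (β - (ρ' ^ 2 - α * ρ')) = 0 := by
          rw [w2] at w1
          linear_combination w1
        exact sub_eq_zero.1 ((mul_eq_zero.1 this).resolve_left hb)
      -- `α` is not constant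
      have hαc : ∀ c : ℂ, α ≠ algebraMap ℂ K c := by
        rintro c rfl
        refine hzx c (ρ ^ 2 - c * ρ) ?_
        rw [hz, hβ, hρ', map_sub, map_pow, map_mul]
        rfl
      have hr7 : (α - ρ') ^ 7 ≠ -1 := by
        intro h
        have : (-(α - ρ')) ^ 7 = 1 := by rw [Odd.neg_pow (by decide), h, neg_neg]
        obtain ⟨c, hc⟩ := root_const hζ this
        refine hαc (ρ - c) ?_
        rw [map_sub, ← hc, hρ']
        ring
      -- `d_i = l_i - ρ l_{i+1}`
      have d2 : lam (x ^ 2) - ρ' * lam (x ^ 3) = (α - ρ') * (lam (x ^ 3) - ρ' * lam (x ^ 4)) := by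
        rw [r2, hβ]; ring
      have d1 : lam x - ρ' * lam (x ^ 2) = (α - ρ') * (lam (x ^ 2) - ρ' * lam (x ^ 3)) := by
        rw [r1, hβ]; ring
      have d0 : lam 1 - ρ' * lam x = (α - ρ') * (lam x - ρ' * lam (x ^ 2)) := by
        rw [r0, hβ]; ring
      have c1 : lam z - ρ' * lam 1 = (α - ρ') * (lam 1 - ρ' * lam x) := by
        rw [s1, hβ]; ring
      have c2 : lam (z ^ 2) - ρ' * lam z = (α - ρ') * (lam z - ρ' * lam 1) := by
        rw [s2, hβ]; ring
      have c3 : lam (z ^ 3) - ρ' * lam (z ^ 2) = (α - ρ') * (lam (z ^ 2) - ρ' * lam z) := by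
        rw [s3, hβ]; ring
      have c4 : lam (z ^ 4) - ρ' * lam (z ^ 3) = (α - ρ') * (lam (z ^ 3) - ρ' * lam (z ^ 2)) := by
        rw [s4, hβ]; ring
      have key : ((α - ρ') ^ 7 + 1) * (lam (x ^ 3) - ρ' * lam (x ^ 4)) = 0 := by
        rw [c3, c2, c1, d0, d1, d2] at c4
        linear_combination h6 - ρ' * h5 - c4
      have d3 : lam (x ^ 3) - ρ' * lam (x ^ 4) = 0 := by
        refine (mul_eq_zero.1 key).resolve_left fun h => hr7 ?_
        linear_combination h
      rw [d3, mul_zero] at d2
      rw [d2, mul_zero] at d1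
      rw [d1, mul_zero] at d0
      have hs : (1 : F) - algebraMap ℂ F ρ * x ≠ 0 := by
        intro h
        have hρ0 : ρ ≠ 0 := by rintro rfl; norm_num at hρ
        have hρF : algebraMap ℂ F ρ ≠ 0 := by simpa using hρ0
        refine hxc ρ⁻¹ ?_
        rw [map_inv₀]
        field_simp
        linear_combination -h
      have hρF : algebraMap ℂ F ρ = ((ρ' : K) : F) := rfl
      refine crit _ hs fun i => ?_
      have e : ∀ n : ℕ, (1 - algebraMap ℂ F ρ * x) * x ^ n = x ^ n - (ρ' : F) * x ^ (n + 1) := by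
        intro n; rw [hρF]; ring
      rw [e, map_sub, lK]
      fin_cases i
      · simpa using d0
      · simpa using d1
      · simpa using d2
      · simpa using d3

/-- Small degree: powers of a generator span. -/
theorem span4 {E L : Type} [Field E] [Field L] [Algebra E L] [FiniteDimensional E L]
    (hn : Module.finrank E L ≤ 4) (x : L) (htop : E⟮x⟯ = ⊤) (y : L) :
    ∃ c : Fin 4 → E, y = ∑ i, c i • x ^ (i : ℕ) := by
  have hint : IsIntegral E x := IsIntegral.of_finite E x
  have h1 : y ∈ Algebra.adjoin E {x} := by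
    rw [← IntermediateField.adjoin_simple_toSubalgebra_of_isAlgebraic hint.isAlgebraic, htop]
    trivial
  rw [Algebra.adjoin_singleton_eq_range_aeval] at h1
  obtain ⟨p, hp⟩ := h1
  have hp' : aeval x p = y := hp
  have hmon : (minpoly E x).Monic := minpoly.monic hint
  set r := p %ₘ minpoly E x with hr
  have hr1 : aeval x r = y := by
    have := modByMonic_add_div p (minpoly E x)
    rw [← this, map_add, map_mul, minpoly.aeval, zero_mul, add_zero] at hp'
    exact hp'
  have hdeg : r.natDegree < 4 := by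
    have h2 : r.natDegree < (minpoly E x).natDegree :=
      natDegree_modByMonic_lt p hmon (minpoly.ne_one E x)
    have h3 : Module.finrank E E⟮x⟯ = (minpoly E x).natDegree :=
      IntermediateField.adjoin.finrank hint
    rw [htop, IntermediateField.finrank_top'] at h3
    omega
  refine ⟨fun i => r.coeff i, ?_⟩
  rw [← hr1, aeval_eq_sum_range' hdeg, Finset.sum_range]

/-- `1, x, z` are dependent. -/
theorem dependent (K : IntermediateField ℂ F) [FiniteDimensional K F]
    (hn : Module.finrank K F ≤ 4) (lam : F →ₗ[K] K) (hlam : lam ≠ 0) (x z q : F) (hq : q ≠ 0)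
    (h1 : lam (z * q) = 0) (h2 : lam (x * q) = 0) (h3 : lam (x * z * q) = 0)
    (h4 : lam (x ^ 2 * q) = 0) (h5 : lam (z ^ 2 * q) = 0) :
    ¬ LinearIndependent K ![1, x, z] := by
  intro hli
  let f : F →ₗ[K] K × K := (lam.comp (LinearMap.mulLeft K (x * q))).prod
    (lam.comp (LinearMap.mulLeft K (z * q)))
  have hf : ∀ y, f y = (lam (x * q * y), lam (z * q * y)) := fun y => rfl
  have hlam0 : ∀ s : F, (∀ y, lam (s * y) = 0) → s = 0 := by
    intro s hs
    by_contra hne
    apply hlam
    ext y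
    rw [LinearMap.zero_apply]
    have := hs (s⁻¹ * y)
    rw [mul_inv_cancel_left₀ hne] at this
    rw [this]
  have hsurj : LinearMap.range f = ⊤ := by
    by_contra hne
    obtain ⟨g, hg, hgf⟩ := Submodule.exists_le_ker_of_lt_top _ (lt_top_iff_ne_top.2 hne)
    have hgab : ∀ a b : K, g (a, b) = g (1, 0) * a + g (0, 1) * b := by
      intro a b
      have : ((a, b) : K × K) = a • (1, 0) + b • (0, 1) := by ext <;> simp
      rw [this, map_add, map_smul, map_smul, smul_eq_mul, smul_eq_mul]
      ring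
    have h0 : ∀ y, lam ((((g (1, 0) : K) : F) * x + ((g (0, 1) : K) : F) * z) * q * y) = 0 := by
      intro y
      have h6 : g (f y) = 0 := hgf (LinearMap.mem_range_self f y)
      rw [hf, hgab] at h6
      have e : (((g (1, 0) : K) : F) * x + ((g (0, 1) : K) : F) * z) * q * y =
          (g (1, 0) : K) • (x * q * y) + (g (0, 1) : K) • (z * q * y) := by
        rw [Algebra.smul_def, Algebra.smul_def]
        change _ = ((g (1, 0) : K) : F) * _ + ((g (0, 1) : K) : F) * _
        ring
      rw [e, map_add, map_smul, map_smul, smul_eq_mul, smul_eq_mul]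
      exact h6
    have h7 := (mul_eq_zero.1 (hlam0 _ h0)).resolve_right hq
    have h8 := Fintype.linearIndependent_iff.1 hli ![0, g (1, 0), g (0, 1)] (by
      simp only [Fin.sum_univ_three, Matrix.cons_val_zero, Matrix.cons_val_one, Matrix.cons_val_two,
        zero_smul, zero_add, Matrix.tail_cons, Matrix.head_cons]
      rw [Algebra.smul_def, Algebra.smul_def]
      exact h7)
    have g1 : g (1, 0) = 0 := h8 1
    have g2 : g (0, 1) = 0 := h8 2
    apply hg
    ext
    · simp [g1]
    · simp [g2]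
  have hr := LinearMap.finrank_range_add_finrank_ker f
  rw [hsurj, finrank_top, Module.finrank_prod, Module.finrank_self] at hr
  have hker : Module.finrank K (Submodule.span K (Set.range ![1, x, z])) ≤
      Module.finrank K (LinearMap.ker f) := by
    apply Submodule.finrank_mono
    rw [Submodule.span_le]
    rintro _ ⟨i, rfl⟩
    rw [SetLike.mem_coe, LinearMap.mem_ker, hf]
    fin_cases i
    · simp only [Fin.zero_eta, Matrix.cons_val_zero, mul_one, h2, h1, Prod.mk_zero_zero]
    · change (lam (x * q * x), lam (z * q * x)) = 0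
      rw [show x * q * x = x ^ 2 * q by ring, show z * q * x = x * z * q by ring, h4, h3]
      rfl
    · change (lam (x * q * z), lam (z * q * z)) = 0
      rw [show x * q * z = x * z * q by ring, show z * q * z = z ^ 2 * q by ring, h3, h5]
      rfl
  rw [finrank_span_eq_card hli, Fintype.card_fin] at hker
  omega

end T5

open T5

variable {F : Type} [Field F] [Algebra ℂ F]

theorem Model.no_functional (M : Model F) (K : IntermediateField ℂ F) [FiniteDimensional K F]
    (hn : Module.finrank K F ≤ 4) (lam : F →ₗ[K] K) (hlam : lam ≠ 0)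
    (h : ∀ i, lam (M.w i) = 0) : False := by
  have hx := x_ne_zero M
  have hz := z_ne_zero M
  have hq : M.x * M.z - 1 ≠ 0 := by
    intro h0
    refine M.tr ⟨X - C 1, X_sub_C_ne_zero 1, ?_⟩
    simpa using h0
  have w0 : lam (M.x * M.z * (M.x * M.z - 1)) = 0 := h 0
  have w1 : lam (M.z * (M.x * M.z - 1)) = 0 := h 1
  have w2 : lam (M.z ^ 2 * (M.x * M.z - 1)) = 0 := h 2
  have w3 : lam (M.z ^ 3 + M.x ^ 4) = 0 := h 3
  have w4 : lam (M.x ^ 3 + M.z ^ 4) = 0 := h 4
  have w5 : lam (M.x ^ 2 * (M.x * M.z - 1)) = 0 := h 5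
  have w6 : lam (M.x * (M.x * M.z - 1)) = 0 := h 6
  have hdep := dependent K hn lam hlam M.x M.z (M.x * M.z - 1) hq w1 w6 w0 w5 w2
  rw [Fintype.linearIndependent_iff] at hdep
  push Not at hdep
  obtain ⟨g, hg, i0, hi0⟩ := hdep
  rw [Fin.sum_univ_three] at hg
  have hg' : ((g 0 : K) : F) + ((g 1 : K) : F) * M.x + ((g 2 : K) : F) * M.z = 0 := by
    have e : ∀ (k : K) (y : F), k • y = (k : F) * y := fun k y => by rw [Algebra.smul_def]; rfl
    have := hg
    simp only [e] at this
    simpa using this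
  have memtop : ∀ (L : IntermediateField K F), M.x ∈ L → M.z ∈ L → L = ⊤ := by
    intro L h1 h2
    have h3 : L.restrictScalars ℂ = ⊤ := eq_top M _ h1 h2
    rw [eq_top_iff]
    intro y _
    have : y ∈ L.restrictScalars ℂ := by rw [h3]; trivial
    exact this
  have coeK : ∀ (L : IntermediateField K F) (k : K), (k : F) ∈ L := fun L k =>
    L.algebraMap_mem k
  -- not both in `K`
  have hnot : ¬ (M.x ∈ K ∧ M.z ∈ K) := by
    rintro ⟨h1, h2⟩
    have hK : K = ⊤ := eq_top M K h1 h2
    have hall : ∀ y : F, ∃ k : K, y = k := fun y => ⟨⟨y, by rw [hK]; trivial⟩, rfl⟩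
    have e : ∀ (k : K) (y : F), lam ((k : F) * y) = k * lam y := fun k y => by
      have := lam.map_smul k y
      rwa [Algebra.smul_def, smul_eq_mul] at this
    obtain ⟨k, hk⟩ := hall (M.x * (M.x * M.z - 1))
    have hk0 : k ≠ 0 := by
      rintro rfl
      exact mul_ne_zero hx hq hk
    have h1' : lam 1 = 0 := by
      have := w6
      rw [hk, ← mul_one (k : F), e] at this
      exact (mul_eq_zero.1 this).resolve_left hk0
    apply hlam
    ext y
    obtain ⟨k', hk'⟩ := hall y
    rw [hk', ← mul_one (k' : F), e, h1', mul_zero]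
    rfl
  by_cases hc2 : g 2 = 0
  · -- `x ∈ K`
    have hc1 : g 1 ≠ 0 := by
      intro hc1
      rw [hc1, hc2] at hg'
      have hc0 : g 0 = 0 := by simpa using hg'
      fin_cases i0
      · exact hi0 hc0
      · exact hi0 hc1
      · exact hi0 hc2
    have hg1F : ((g 1 : K) : F) ≠ 0 := by simpa using hc1
    have hxK : M.x = ((-(g 0) / g 1 : K) : F) := by
      rw [hc2] at hg'
      push_cast
      field_simp
      have : ((0 : K) : F) = 0 := rfl
      rw [this, zero_mul, add_zero] at hg'
      linear_combination hg'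
    have hxK' : M.x ∈ K := by rw [hxK]; exact Subtype.property _
    have htop : K⟮M.z⟯ = ⊤ := memtop _ (by rw [hxK]; exact coeK _ _)
      (IntermediateField.mem_adjoin_simple_self K M.z)
    refine hlam (core M.hζ K M.z M.x hz ?_ (-(g 0) / g 1) 0 ?_ ?_ (span4 hn M.z htop) lam
      ?_ ?_ ?_ ?_ w4 w3)
    · intro a b hab
      by_cases hb : b = 0
      · rw [hb, map_zero, zero_mul, add_zero] at hab
        exact x_not_const M a hab
      · have hbF : algebraMap ℂ F b ≠ 0 := by simpa using hb
        refine z_not_lin M (-a * b⁻¹) b⁻¹ ?_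
        rw [map_mul, map_neg, map_inv₀]
        field_simp
        linear_combination -hab
    · rw [← hxK]; simp
    · intro c hc
      refine z_not_lin M c 0 ?_
      rw [hc, map_zero, zero_mul, add_zero]
    · rw [mul_comm M.z M.x]; exact w6
    · rw [mul_comm M.z M.x]; exact w1
    · rw [mul_comm M.z M.x]; exact w2
    · rw [mul_comm M.z M.x]; exact w5
  · have hg2F : ((g 2 : K) : F) ≠ 0 := by simpa using hc2
    have hzK : M.z = ((-(g 0) / g 2 : K) : F) + ((-(g 1) / g 2 : K) : F) * M.x := by
      push_cast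
      field_simp
      linear_combination hg'
    have htop : K⟮M.x⟯ = ⊤ := memtop _ (IntermediateField.mem_adjoin_simple_self K M.x) (by
      rw [hzK]
      exact add_mem (coeK _ _) (mul_mem (coeK _ _)
        (IntermediateField.mem_adjoin_simple_self K M.x)))
    exact hlam (core M.hζ K M.x M.z hx (fun a b => z_not_lin M a b) _ _ hzK
      (fun c => x_not_const M c) (span4 hn M.x htop) lam w1 w6 w5 w2 w3 w4)

end EtaleGonality
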