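import Pool.Agent.G7.Model

/-!
# Finite linear algebra for the genus 7 curve (generated)

`Rels d` lists the linear relations satisfied by coefficients `d k l` with
`∑ d k l • (w k * p l) = 0`.  The block lemmas show that an alternating family
`c i j k l` with `Rels (c i j)` for all `i, j` vanishes.
-/

namespace EtaleGonality
namespace T3

/-- The linear relations among the coefficients of a relation `∑ d k l • (w k * p l) = 0`. -/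
structure Rels (d : Fin 7 → Fin 6 → ℂ) : Prop where
  r0 : (1) * d 1 5 + (-3) * d 2 4 + (3) * d 3 3 + (6) * d 4 2 + (1) * d 6 0 = 0
  r1 : (-1) * d 2 4 + (-1) * d 3 3 + (1) * d 4 2 + (1) * d 5 1 = 0
  r2 : (1) * d 0 0 + (1) * d 2 5 + (-1) * d 3 4 + (1) * d 4 3 + (1) * d 5 2 = 0
  r3 : (-4) * d 3 4 + (-2) * d 4 3 + (1) * d 5 2 + (1) * d 6 1 = 0
  r4 : (1) * d 1 0 = 0
  r5 : (1) * d 0 1 + (-1) * d 3 5 + (-1) * d 4 4 + (-1) * d 5 3 = 0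
  r6 : (4) * d 3 5 + (-4) * d 4 4 + (2) * d 5 3 + (1) * d 6 2 = 0
  r7 : (1) * d 0 2 + (1) * d 2 0 + (1) * d 4 5 + (-1) * d 5 4 = 0
  r8 : (1) * d 0 2 + (1) * d 1 1 + (1) * d 4 5 + (-1) * d 5 4 = 0
  r9 : (2) * d 4 5 + (2) * d 5 4 + (1) * d 6 3 = 0
  r10 : (2) * d 0 3 + (1) * d 1 2 + (4) * d 3 0 + (2) * d 5 5 = 0
  r11 : (-2) * d 0 3 + (1) * d 1 2 + (4) * d 2 1 + (-2) * d 5 5 = 0
  r12 : (-1) * d 5 5 + (1) * d 6 4 = 0
  r13 : (-4) * d 0 4 + (1) * d 1 3 + (6) * d 2 2 + (8) * d 4 0 = 0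
  r14 : (-4) * d 0 4 + (-1) * d 1 3 + (2) * d 2 2 + (8) * d 3 1 = 0
  r15 : (1) * d 6 5 = 0
  r16 : (4) * d 0 5 + (-1) * d 1 4 + (3) * d 2 3 + (6) * d 3 2 + (4) * d 5 0 = 0
  r17 : (-1) * d 1 4 + (-1) * d 2 3 + (2) * d 3 2 + (4) * d 4 1 = 0

/-- The antisymmetry properties of `c`. -/
structure Alt (c : Fin 7 → Fin 7 → Fin 7 → Fin 6 → ℂ) : Prop where
  cyc : ∀ i j k l, c i j k l = c k i j l
  swp : ∀ i j k l, c i j k l = - c i k j l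
  rep : ∀ i j l, c i j i l = 0
  rep' : ∀ i j l, c i j j l = 0

set_option maxHeartbeats 4000000 in
theorem block0 (c : Fin 7 → Fin 7 → Fin 7 → Fin 6 → ℂ) (H : ∀ i j, Rels (c i j)) (A : Alt c) :
    c 0 1 2 3 = 0 ∧ c 0 1 3 2 = 0 ∧ c 0 1 4 1 = 0 ∧ c 0 1 5 0 = 0 ∧ c 0 2 3 1 = 0 ∧
    c 0 2 4 0 = 0 ∧ c 0 2 6 5 = 0 ∧ c 0 3 5 5 = 0 ∧ c 0 3 6 4 = 0 ∧ c 0 4 5 4 = 0 ∧
    c 0 4 6 3 = 0 ∧ c 0 5 6 2 = 0 ∧ c 1 2 3 0 = 0 ∧ c 1 2 5 5 = 0 ∧ c 1 2 6 4 = 0 ∧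
    c 1 3 4 5 = 0 ∧ c 1 3 5 4 = 0 ∧ c 1 3 6 3 = 0 ∧ c 1 4 5 3 = 0 ∧ c 1 4 6 2 = 0 ∧
    c 1 5 6 1 = 0 ∧ c 2 3 4 4 = 0 ∧ c 2 3 5 3 = 0 ∧ c 2 3 6 2 = 0 ∧ c 2 4 5 2 = 0 ∧
    c 2 4 6 1 = 0 ∧ c 2 5 6 0 = 0 ∧ c 3 4 5 1 = 0 ∧ c 3 4 6 0 = 0 ∧ c 4 5 6 5 = 0 := by
  have h4565 : c 4 5 6 5 = 0 := by
    linear_combination (1) * (H 4 5).r15
  have h0265 : c 0 2 6 5 = 0 := by
    linear_combination (1) * (H 0 2).r15
  have h0150 : c 0 1 5 0 = 0 := by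
    linear_combination (-1) * (H 0 5).r4 + (1) * A.swp 0 5 1 0
  have h1230 : c 1 2 3 0 = 0 := by
    linear_combination (1) * (H 2 3).r4 + (-1) * A.cyc 2 3 1 0
  have h0123 : c 0 1 2 3 = 0 := by
    linear_combination (2/9) * (H 0 1).r16 + (-8/9) * A.rep 0 1 5 + (2/9) * A.rep' 0 1 4
        + (1/3) * (H 0 2).r14 + (4/3) * A.rep 0 2 4 + (1/3) * A.swp 0 2 1 3
        + (-2/3) * A.rep' 0 2 2 + (2/3) * (H 0 3).r10 + (-4/3) * A.rep 0 3 3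
        + (-2/3) * A.swp 0 3 1 2 + (-8/3) * A.rep' 0 3 0 + (2/3) * (H 0 3).r11
        + (4/3) * A.rep 0 3 3 + (-2/3) * A.swp 0 3 1 2 + (-8/3) * A.swp 0 3 2 1
        + (-8/9) * h0150
  have h0132 : c 0 1 3 2 = 0 := by
    linear_combination (1/18) * (H 0 1).r16 + (-2/9) * A.rep 0 1 5 + (1/18) * A.rep' 0 1 4
        + (-1/6) * (H 0 2).r14 + (-2/3) * A.rep 0 2 4 + (-1/6) * A.swp 0 2 1 3
        + (1/3) * A.rep' 0 2 2 + (-1/3) * (H 0 3).r10 + (2/3) * A.rep 0 3 3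
        + (1/3) * A.swp 0 3 1 2 + (4/3) * A.rep' 0 3 0 + (-1/3) * (H 0 3).r11
        + (-2/3) * A.rep 0 3 3 + (1/3) * A.swp 0 3 1 2 + (4/3) * A.swp 0 3 2 1
        + (-2/9) * h0150
  have h0231 : c 0 2 3 1 = 0 := by
    linear_combination (-1/36) * (H 0 1).r16 + (1/9) * A.rep 0 1 5 + (-1/36) * A.rep' 0 1 4
        + (1/12) * (H 0 2).r14 + (1/3) * A.rep 0 2 4 + (1/12) * A.swp 0 2 1 3
        + (-1/6) * A.rep' 0 2 2 + (-1/12) * (H 0 3).r10 + (1/6) * A.rep 0 3 3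
        + (1/12) * A.swp 0 3 1 2 + (1/3) * A.rep' 0 3 0 + (-1/12) * (H 0 3).r11
        + (-1/6) * A.rep 0 3 3 + (1/12) * A.swp 0 3 1 2 + (1/3) * A.swp 0 3 2 1
        + (1/9) * h0150
  have h0355 : c 0 3 5 5 = 0 := by
    linear_combination (1/36) * (H 0 1).r16 + (-1/9) * A.rep 0 1 5 + (1/36) * A.rep' 0 1 4
        + (-1/12) * (H 0 2).r14 + (-1/3) * A.rep 0 2 4 + (-1/12) * A.swp 0 2 1 3
        + (1/6) * A.rep' 0 2 2 + (1/3) * (H 0 3).r10 + (-2/3) * A.rep 0 3 3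
        + (-1/3) * A.swp 0 3 1 2 + (-4/3) * A.rep' 0 3 0 + (-1/6) * (H 0 3).r11
        + (-1/3) * A.rep 0 3 3 + (1/6) * A.swp 0 3 1 2 + (2/3) * A.swp 0 3 2 1
        + (-1/9) * h0150
  have h1255 : c 1 2 5 5 = 0 := by
    linear_combination (1/2) * (H 1 2).r10 + (-1) * A.cyc 1 2 0 3 + (-1/2) * A.rep 1 2 2
        + (-1) * h0123 + (-2) * h1230
  have h0240 : c 0 2 4 0 = 0 := by
    linear_combination (1/8) * (H 0 2).r13 + (1/2) * A.rep 0 2 4 + (-1/8) * A.swp 0 2 1 3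
        + (-3/4) * A.rep' 0 2 2 + (1/8) * h0123
  have h0141 : c 0 1 4 1 = 0 := by
    linear_combination (1/4) * (H 0 1).r17 + (1/4) * A.rep' 0 1 4 + (1/4) * h0123
        + (-1/2) * h0132
  have h0364 : c 0 3 6 4 = 0 := by
    linear_combination (1) * (H 0 3).r12 + (1) * h0355
  have h0454 : c 0 4 5 4 = 0 := by
    linear_combination (1) * (H 0 5).r5 + (-1) * A.rep 0 5 1 + (1) * A.swp 0 5 3 5
        + (1) * A.swp 0 5 4 4 + (1) * A.rep' 0 5 3 + (-1) * h0355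
  have h1264 : c 1 2 6 4 = 0 := by
    linear_combination (1) * (H 1 2).r12 + (1) * h1255
  have h0562 : c 0 5 6 2 = 0 := by
    linear_combination (1) * (H 0 5).r6 + (-4) * A.swp 0 5 3 5 + (4) * A.swp 0 5 4 4
        + (-2) * A.rep' 0 5 3 + (4) * h0355 + (-4) * h0454
  have h0463 : c 0 4 6 3 = 0 := by
    linear_combination (1) * (H 0 4).r9 + (-2) * A.rep' 0 4 5 + (-2) * h0454
  have h2560 : c 2 5 6 0 = 0 := by
    linear_combination (1) * (H 5 6).r7 + (-1) * A.cyc 5 6 0 2 + (-1) * A.cyc 5 6 2 0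
        + (-1) * A.cyc 5 6 4 5 + (1) * A.rep 5 6 4 + (-1) * h0562
        + (-1) * h4565
  have h1561 : c 1 5 6 1 = 0 := by
    linear_combination (1) * (H 5 6).r8 + (-1) * A.cyc 5 6 0 2 + (-1) * A.cyc 5 6 1 1
        + (-1) * A.cyc 5 6 4 5 + (1) * A.rep 5 6 4 + (-1) * h0562
        + (-1) * h4565
  have h2362 : c 2 3 6 2 = 0 := by
    linear_combination (-1/6) * (H 2 6).r16 + (2/3) * A.cyc 2 6 0 5 + (-1/6) * A.cyc 2 6 1 4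
        + (1/2) * A.rep 2 6 3 + (1) * A.swp 2 6 3 2 + (2/3) * A.swp 2 6 5 0
        + (2/3) * h0265 + (-1/6) * h1264 + (-2/3) * h2560
  have h2461 : c 2 4 6 1 = 0 := by
    linear_combination (-1/4) * (H 2 6).r17 + (-1/4) * A.cyc 2 6 1 4 + (-1/4) * A.rep 2 6 3
        + (1/2) * A.swp 2 6 3 2 + (1) * A.swp 2 6 4 1 + (-1/4) * h1264
        + (-1/2) * h2362
  have h1363 : c 1 3 6 3 = 0 := by
    linear_combination (-1) * (H 3 6).r14 + (-4) * A.cyc 3 6 0 4 + (-1) * A.cyc 3 6 1 3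
        + (2) * A.cyc 3 6 2 2 + (8) * A.rep 3 6 1 + (-4) * h0364
        + (2) * h2362
  have h1462 : c 1 4 6 2 = 0 := by
    linear_combination (-1/6) * (H 1 6).r0 + (1/6) * A.rep 1 6 5 + (-1/2) * A.swp 1 6 2 4
        + (1/2) * A.swp 1 6 3 3 + (1) * A.swp 1 6 4 2 + (1/6) * A.rep' 1 6 0
        + (1/2) * h1264 + (-1/2) * h1363
  have h3460 : c 3 4 6 0 = 0 := by
    linear_combination (-1/8) * (H 3 6).r13 + (-1/2) * A.cyc 3 6 0 4 + (1/8) * A.cyc 3 6 1 3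
        + (3/4) * A.cyc 3 6 2 2 + (1) * A.swp 3 6 4 0 + (-1/2) * h0364
        + (1/8) * h1363 + (3/4) * h2362
  have h1354 : c 1 3 5 4 = 0 := by
    linear_combination (1/3) * (H 1 5).r2 + (-1/3) * A.cyc 1 5 0 0 + (-1/3) * A.swp 1 5 2 5
        + (1/3) * A.swp 1 5 3 4 + (-1/3) * A.swp 1 5 4 3 + (-1/3) * A.rep' 1 5 2
        + (1/6) * (H 1 5).r3 + (2/3) * A.swp 1 5 3 4 + (1/3) * A.swp 1 5 4 3
        + (-1/6) * A.rep' 1 5 2 + (-1/3) * h0150 + (1/3) * h1255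
        + (-1/6) * h1561
  have h1453 : c 1 4 5 3 = 0 := by
    linear_combination (-2/3) * (H 1 5).r2 + (2/3) * A.cyc 1 5 0 0 + (2/3) * A.swp 1 5 2 5
        + (-2/3) * A.swp 1 5 3 4 + (2/3) * A.swp 1 5 4 3 + (2/3) * A.rep' 1 5 2
        + (1/6) * (H 1 5).r3 + (2/3) * A.swp 1 5 3 4 + (1/3) * A.swp 1 5 4 3
        + (-1/6) * A.rep' 1 5 2 + (2/3) * h0150 + (-2/3) * h1255
        + (-1/6) * h1561
  have h2344 : c 2 3 4 4 = 0 := by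
    linear_combination (-1/3) * (H 2 3).r5 + (1/3) * A.cyc 2 3 0 1 + (-1/3) * A.rep' 2 3 5
        + (-1/6) * (H 2 3).r6 + (2/3) * A.rep' 2 3 5 + (1/3) * h0231
        + (1/6) * h2362
  have h2353 : c 2 3 5 3 = 0 := by
    linear_combination (-2/3) * (H 2 3).r5 + (2/3) * A.cyc 2 3 0 1 + (-2/3) * A.rep' 2 3 5
        + (1/6) * (H 2 3).r6 + (-2/3) * A.rep' 2 3 5 + (2/3) * h0231
        + (-1/6) * h2362
  have h2452 : c 2 4 5 2 = 0 := by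
    linear_combination (1) * (H 2 4).r2 + (-1) * A.cyc 2 4 0 0 + (-1) * A.rep 2 4 5
        + (1) * A.swp 2 4 3 4 + (-1) * A.rep' 2 4 3 + (-1) * h0240
        + (-1) * h2344
  have h1345 : c 1 3 4 5 = 0 := by
    linear_combination (1) * (H 1 3).r7 + (-1) * A.cyc 1 3 0 2 + (-1) * A.swp 1 3 2 0
        + (-1) * h0132 + (1) * h1230 + (1) * h1354
  have h3451 : c 3 4 5 1 = 0 := by
    linear_combination (1) * (H 3 4).r1 + (1) * A.cyc 3 4 2 4 + (1) * A.rep 3 4 3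
        + (-1) * A.rep' 3 4 2 + (1) * h2344
  exact ⟨h0123, h0132, h0141, h0150, h0231, h0240, h0265, h0355, h0364, h0454, h0463, h0562, h1230, h1255, h1264, h1345, h1354, h1363, h1453, h1462, h1561, h2344, h2353, h2362, h2452, h2461, h2560, h3451, h3460, h4565⟩

set_option maxHeartbeats 4000000 in
theorem block1 (c : Fin 7 → Fin 7 → Fin 7 → Fin 6 → ℂ) (H : ∀ i j, Rels (c i j)) (A : Alt c) :
    c 0 1 2 4 = 0 ∧ c 0 1 3 3 = 0 ∧ c 0 1 4 2 = 0 ∧ c 0 1 5 1 = 0 ∧ c 0 1 6 0 = 0 ∧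
    c 0 2 3 2 = 0 ∧ c 0 2 4 1 = 0 ∧ c 0 2 5 0 = 0 ∧ c 0 3 4 0 = 0 ∧ c 0 3 6 5 = 0 ∧
    c 0 4 5 5 = 0 ∧ c 0 4 6 4 = 0 ∧ c 0 5 6 3 = 0 ∧ c 1 2 3 1 = 0 ∧ c 1 2 4 0 = 0 ∧
    c 1 2 6 5 = 0 ∧ c 1 3 5 5 = 0 ∧ c 1 3 6 4 = 0 ∧ c 1 4 5 4 = 0 ∧ c 1 4 6 3 = 0 ∧
    c 1 5 6 2 = 0 ∧ c 2 3 4 5 = 0 ∧ c 2 3 5 4 = 0 ∧ c 2 3 6 3 = 0 ∧ c 2 4 5 3 = 0 ∧
    c 2 4 6 2 = 0 ∧ c 2 5 6 1 = 0 ∧ c 3 4 5 2 = 0 ∧ c 3 4 6 1 = 0 ∧ c 3 5 6 0 = 0 := by
  have h1240 : c 1 2 4 0 = 0 := by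
    linear_combination (1) * (H 2 4).r4 + (-1) * A.cyc 2 4 1 0
  have h0160 : c 0 1 6 0 = 0 := by
    linear_combination (-1) * (H 0 6).r4 + (1) * A.swp 0 6 1 0
  have h1265 : c 1 2 6 5 = 0 := by
    linear_combination (1) * (H 1 2).r15
  have h0365 : c 0 3 6 5 = 0 := by
    linear_combination (1) * (H 0 3).r15
  have h0124 : c 0 1 2 4 = 0 := by
    linear_combination (-1/4) * (H 1 2).r13 + (-1) * A.cyc 1 2 0 4 + (1/4) * A.rep 1 2 3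
        + (3/2) * A.rep' 1 2 2 + (2) * h1240
  have h1231 : c 1 2 3 1 = 0 := by
    linear_combination (1/8) * (H 1 2).r14 + (1/2) * A.cyc 1 2 0 4 + (1/8) * A.rep 1 2 3
        + (-1/4) * A.rep' 1 2 2 + (1/2) * h0124
  have h0464 : c 0 4 6 4 = 0 := by
    linear_combination (1/3) * (H 0 6).r5 + (-1/3) * A.rep 0 6 1 + (1/3) * A.swp 0 6 3 5
        + (1/3) * A.swp 0 6 4 4 + (1/3) * A.swp 0 6 5 3 + (1/6) * (H 0 6).r6
        + (-2/3) * A.swp 0 6 3 5 + (2/3) * A.swp 0 6 4 4 + (-1/3) * A.swp 0 6 5 3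
        + (-1/6) * A.rep' 0 6 2 + (1/3) * h0365
  have h0563 : c 0 5 6 3 = 0 := by
    linear_combination (2/3) * (H 0 6).r5 + (-2/3) * A.rep 0 6 1 + (2/3) * A.swp 0 6 3 5
        + (2/3) * A.swp 0 6 4 4 + (2/3) * A.swp 0 6 5 3 + (-1/6) * (H 0 6).r6
        + (2/3) * A.swp 0 6 3 5 + (-2/3) * A.swp 0 6 4 4 + (1/3) * A.swp 0 6 5 3
        + (1/6) * A.rep' 0 6 2 + (-4/3) * h0365
  have h0455 : c 0 4 5 5 = 0 := by
    linear_combination (-1) * (H 0 4).r12 + (1) * h0464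
  have h0151 : c 0 1 5 1 = 0 := by
    linear_combination (-1) * (H 0 5).r8 + (1) * A.rep 0 5 2 + (1) * A.swp 0 5 1 1
        + (1) * A.swp 0 5 4 5 + (-1) * A.rep' 0 5 4 + (-1) * h0455
  have h0250 : c 0 2 5 0 = 0 := by
    linear_combination (-1) * (H 0 5).r7 + (1) * A.rep 0 5 2 + (1) * A.swp 0 5 2 0
        + (1) * A.swp 0 5 4 5 + (-1) * A.rep' 0 5 4 + (-1) * h0455
  have h0232 : c 0 2 3 2 = 0 := by
    linear_combination (1/6) * (H 0 2).r16 + (-2/3) * A.rep 0 2 5 + (1/6) * A.swp 0 2 1 4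
        + (-1/2) * A.rep' 0 2 3 + (-1/6) * h0124 + (-2/3) * h0250
  have h0241 : c 0 2 4 1 = 0 := by
    linear_combination (1/4) * (H 0 2).r17 + (1/4) * A.swp 0 2 1 4 + (1/4) * A.rep' 0 2 3
        + (-1/4) * h0124 + (-1/2) * h0232
  have h0133 : c 0 1 3 3 = 0 := by
    linear_combination (1) * (H 0 3).r14 + (4) * A.rep 0 3 4 + (1) * A.swp 0 3 1 3
        + (-2) * A.swp 0 3 2 2 + (-8) * A.rep' 0 3 1 + (2) * h0232
  have h1355 : c 1 3 5 5 = 0 := by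
    linear_combination (1/2) * (H 1 3).r10 + (-1) * A.cyc 1 3 0 3 + (-1/2) * A.rep 1 3 2
        + (-2) * A.rep' 1 3 0 + (-1) * h0133
  have h0340 : c 0 3 4 0 = 0 := by
    linear_combination (1/8) * (H 0 3).r13 + (1/2) * A.rep 0 3 4 + (-1/8) * A.swp 0 3 1 3
        + (-3/4) * A.swp 0 3 2 2 + (1/8) * h0133 + (3/4) * h0232
  have h0142 : c 0 1 4 2 = 0 := by
    linear_combination (1/6) * (H 0 1).r0 + (-1/6) * A.rep' 0 1 5 + (1/2) * h0124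
        + (-1/2) * h0133 + (-1/6) * h0160
  have h1364 : c 1 3 6 4 = 0 := by
    linear_combination (1) * (H 1 3).r12 + (1) * h1355
  have h1454 : c 1 4 5 4 = 0 := by
    linear_combination (-1) * (H 1 4).r7 + (1) * A.cyc 1 4 0 2 + (1) * A.swp 1 4 2 0
        + (1) * A.rep' 1 4 5 + (1) * h0142 + (-1) * h1240
  have h1463 : c 1 4 6 3 = 0 := by
    linear_combination (1) * (H 1 4).r9 + (-2) * A.rep' 1 4 5 + (-2) * h1454
  have h1562 : c 1 5 6 2 = 0 := by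
    linear_combination (1) * (H 1 5).r6 + (-4) * A.swp 1 5 3 5 + (4) * A.swp 1 5 4 4
        + (-2) * A.rep' 1 5 3 + (4) * h1355 + (-4) * h1454
  have h2462 : c 2 4 6 2 = 0 := by
    linear_combination (1/6) * (H 4 6).r13 + (2/3) * A.cyc 4 6 0 4 + (-1/6) * A.cyc 4 6 1 3
        + (-1) * A.cyc 4 6 2 2 + (-4/3) * A.rep 4 6 0 + (2/3) * h0464
        + (-1/6) * h1463
  have h3560 : c 3 5 6 0 = 0 := by
    linear_combination (1/4) * (H 5 6).r10 + (-1/2) * A.cyc 5 6 0 3 + (-1/4) * A.cyc 5 6 1 2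
        + (-1) * A.cyc 5 6 3 0 + (-1/2) * A.rep 5 6 5 + (-1/2) * h0563
        + (-1/4) * h1562
  have h2561 : c 2 5 6 1 = 0 := by
    linear_combination (1/4) * (H 5 6).r11 + (1/2) * A.cyc 5 6 0 3 + (-1/4) * A.cyc 5 6 1 2
        + (-1) * A.cyc 5 6 2 1 + (1/2) * A.rep 5 6 5 + (1/2) * h0563
        + (-1/4) * h1562
  have h2363 : c 2 3 6 3 = 0 := by
    linear_combination (-1/3) * (H 2 6).r0 + (1/3) * A.cyc 2 6 1 5 + (-1) * A.rep 2 6 4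
        + (1) * A.swp 2 6 3 3 + (2) * A.swp 2 6 4 2 + (1/3) * A.rep' 2 6 0
        + (1/3) * h1265 + (-2) * h2462
  have h3461 : c 3 4 6 1 = 0 := by
    linear_combination (1/8) * (H 4 6).r14 + (1/2) * A.cyc 4 6 0 4 + (1/8) * A.cyc 4 6 1 3
        + (-1/4) * A.cyc 4 6 2 2 + (-1) * A.cyc 4 6 3 1 + (1/2) * h0464
        + (1/8) * h1463 + (-1/4) * h2462
  have h3452 : c 3 4 5 2 = 0 := by
    linear_combination (1) * (H 3 4).r3 + (4) * A.rep 3 4 4 + (2) * A.rep' 3 4 3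
        + (-1) * h3461
  have h2345 : c 2 3 4 5 = 0 := by
    linear_combination (1) * (H 3 4).r2 + (-1) * A.cyc 3 4 0 0 + (-1) * A.cyc 3 4 2 5
        + (1) * A.rep 3 4 4 + (-1) * A.rep' 3 4 3 + (-1) * h0340
        + (-1) * h3452
  have h2453 : c 2 4 5 3 = 0 := by
    linear_combination (1/3) * (H 4 5).r16 + (-4/3) * A.cyc 4 5 0 5 + (1/3) * A.cyc 4 5 1 4
        + (-1) * A.cyc 4 5 2 3 + (-2) * A.cyc 4 5 3 2 + (-4/3) * A.rep' 4 5 0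
        + (-4/3) * h0455 + (1/3) * h1454 + (-2) * h3452
  have h2354 : c 2 3 5 4 = 0 := by
    linear_combination (-1/3) * (H 3 5).r0 + (1/3) * A.cyc 3 5 1 5 + (-1) * A.cyc 3 5 2 4
        + (1) * A.rep 3 5 3 + (2) * A.swp 3 5 4 2 + (1/3) * h1355
        + (-2) * h3452 + (1/3) * h3560
  exact ⟨h0124, h0133, h0142, h0151, h0160, h0232, h0241, h0250, h0340, h0365, h0455, h0464, h0563, h1231, h1240, h1265, h1355, h1364, h1454, h1463, h1562, h2345, h2354, h2363, h2453, h2462, h2561, h3452, h3461, h3560⟩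

set_option maxHeartbeats 4000000 in
theorem block2 (c : Fin 7 → Fin 7 → Fin 7 → Fin 6 → ℂ) (H : ∀ i j, Rels (c i j)) (A : Alt c) :
    c 0 1 2 5 = 0 ∧ c 0 1 3 4 = 0 ∧ c 0 1 4 3 = 0 ∧ c 0 1 5 2 = 0 ∧ c 0 1 6 1 = 0 ∧
    c 0 2 3 3 = 0 ∧ c 0 2 4 2 = 0 ∧ c 0 2 5 1 = 0 ∧ c 0 2 6 0 = 0 ∧ c 0 3 4 1 = 0 ∧
    c 0 3 5 0 = 0 ∧ c 0 4 6 5 = 0 ∧ c 0 5 6 4 = 0 ∧ c 1 2 3 2 = 0 ∧ c 1 2 4 1 = 0 ∧
    c 1 2 5 0 = 0 ∧ c 1 3 4 0 = 0 ∧ c 1 3 6 5 = 0 ∧ c 1 4 5 5 = 0 ∧ c 1 4 6 4 = 0 ∧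
    c 1 5 6 3 = 0 ∧ c 2 3 5 5 = 0 ∧ c 2 3 6 4 = 0 ∧ c 2 4 5 4 = 0 ∧ c 2 4 6 3 = 0 ∧
    c 2 5 6 2 = 0 ∧ c 3 4 5 3 = 0 ∧ c 3 4 6 2 = 0 ∧ c 3 5 6 1 = 0 ∧ c 4 5 6 0 = 0 := by
  have h0465 : c 0 4 6 5 = 0 := by
    linear_combination (1) * (H 0 4).r15
  have h0564 : c 0 5 6 4 = 0 := by
    linear_combination (1) * (H 0 5).r12 + (1) * A.rep' 0 5 5
  have h1340 : c 1 3 4 0 = 0 := by
    linear_combination (1) * (H 3 4).r4 + (-1) * A.cyc 3 4 1 0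
  have h1250 : c 1 2 5 0 = 0 := by
    linear_combination (1) * (H 2 5).r4 + (-1) * A.cyc 2 5 1 0
  have h1365 : c 1 3 6 5 = 0 := by
    linear_combination (1) * (H 1 3).r15
  have h0260 : c 0 2 6 0 = 0 := by
    linear_combination (-1) * (H 0 6).r7 + (1) * A.rep 0 6 2 + (1) * A.swp 0 6 2 0
        + (1) * A.swp 0 6 4 5 + (-1) * A.swp 0 6 5 4 + (-1) * h0465
        + (1) * h0564
  have h0161 : c 0 1 6 1 = 0 := by
    linear_combination (-1) * (H 0 6).r8 + (1) * A.rep 0 6 2 + (1) * A.swp 0 6 1 1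
        + (1) * A.swp 0 6 4 5 + (-1) * A.swp 0 6 5 4 + (-1) * h0465
        + (1) * h0564
  have h0134 : c 0 1 3 4 = 0 := by
    linear_combination (1/8) * (H 1 3).r13 + (1/2) * A.cyc 1 3 0 4 + (-1/8) * A.rep 1 3 3
        + (-3/4) * A.swp 1 3 2 2 + (-3/8) * (H 1 3).r14 + (-3/2) * A.cyc 1 3 0 4
        + (-3/8) * A.rep 1 3 3 + (3/4) * A.swp 1 3 2 2 + (3) * A.rep' 1 3 1
        + (-1) * h1340
  have h1232 : c 1 2 3 2 = 0 := by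
    linear_combination (-1/4) * (H 1 3).r13 + (-1) * A.cyc 1 3 0 4 + (1/4) * A.rep 1 3 3
        + (3/2) * A.swp 1 3 2 2 + (1/4) * (H 1 3).r14 + (1) * A.cyc 1 3 0 4
        + (1/4) * A.rep 1 3 3 + (-1/2) * A.swp 1 3 2 2 + (-2) * A.rep' 1 3 1
        + (2) * h1340
  have h1464 : c 1 4 6 4 = 0 := by
    linear_combination (1/3) * (H 1 6).r5 + (-1/3) * A.cyc 1 6 0 1 + (1/3) * A.swp 1 6 3 5
        + (1/3) * A.swp 1 6 4 4 + (1/3) * A.swp 1 6 5 3 + (1/6) * (H 1 6).r6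
        + (-2/3) * A.swp 1 6 3 5 + (2/3) * A.swp 1 6 4 4 + (-1/3) * A.swp 1 6 5 3
        + (-1/6) * A.rep' 1 6 2 + (-1/3) * h0161 + (1/3) * h1365
  have h1563 : c 1 5 6 3 = 0 := by
    linear_combination (2/3) * (H 1 6).r5 + (-2/3) * A.cyc 1 6 0 1 + (2/3) * A.swp 1 6 3 5
        + (2/3) * A.swp 1 6 4 4 + (2/3) * A.swp 1 6 5 3 + (-1/6) * (H 1 6).r6
        + (2/3) * A.swp 1 6 3 5 + (-2/3) * A.swp 1 6 4 4 + (1/3) * A.swp 1 6 5 3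
        + (1/6) * A.rep' 1 6 2 + (-2/3) * h0161 + (-4/3) * h1365
  have h1455 : c 1 4 5 5 = 0 := by
    linear_combination (-1) * (H 1 4).r12 + (1) * h1464
  have h1241 : c 1 2 4 1 = 0 := by
    linear_combination (1/4) * (H 1 2).r17 + (1/4) * A.rep 1 2 4 + (1/4) * A.rep' 1 2 3
        + (-1/2) * h1232
  have h0125 : c 0 1 2 5 = 0 := by
    linear_combination (1/4) * (H 1 2).r16 + (-1) * A.cyc 1 2 0 5 + (1/4) * A.rep 1 2 4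
        + (-3/4) * A.rep' 1 2 3 + (-3/2) * h1232 + (-1) * h1250
  have h0152 : c 0 1 5 2 = 0 := by
    linear_combination (1) * (H 1 5).r7 + (-1) * A.cyc 1 5 0 2 + (-1) * A.swp 1 5 2 0
        + (-1) * A.swp 1 5 4 5 + (1) * A.rep' 1 5 4 + (1) * h1250
        + (1) * h1455
  have h0143 : c 0 1 4 3 = 0 := by
    linear_combination (1/2) * (H 1 4).r10 + (-1) * A.cyc 1 4 0 3 + (-1/2) * A.rep 1 4 2
        + (-2) * A.swp 1 4 3 0 + (2) * h1340 + (-1) * h1455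
  have h0350 : c 0 3 5 0 = 0 := by
    linear_combination (-1/4) * (H 0 5).r10 + (1/2) * A.rep 0 5 3 + (1/4) * A.swp 0 5 1 2
        + (1) * A.swp 0 5 3 0 + (1/2) * A.rep' 0 5 5 + (-1/4) * h0152
  have h0242 : c 0 2 4 2 = 0 := by
    linear_combination (-1/6) * (H 0 4).r13 + (-2/3) * A.rep 0 4 4 + (1/6) * A.swp 0 4 1 3
        + (1) * A.swp 0 4 2 2 + (4/3) * A.rep' 0 4 0 + (-1/6) * h0143
  have h0251 : c 0 2 5 1 = 0 := by
    linear_combination (-1/4) * (H 0 5).r11 + (-1/2) * A.rep 0 5 3 + (1/4) * A.swp 0 5 1 2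
        + (1) * A.swp 0 5 2 1 + (-1/2) * A.rep' 0 5 5 + (-1/4) * h0152
  have h2454 : c 2 4 5 4 = 0 := by
    linear_combination (-1) * (H 2 4).r7 + (1) * A.cyc 2 4 0 2 + (1) * A.rep 2 4 0
        + (1) * A.rep' 2 4 5 + (1) * h0242
  have h0233 : c 0 2 3 3 = 0 := by
    linear_combination (1/3) * (H 0 2).r0 + (-1/3) * A.swp 0 2 1 5 + (1) * A.rep' 0 2 4
        + (1/3) * h0125 + (-2) * h0242 + (-1/3) * h0260
  have h0341 : c 0 3 4 1 = 0 := by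
    linear_combination (-1/8) * (H 0 4).r14 + (-1/2) * A.rep 0 4 4 + (-1/8) * A.swp 0 4 1 3
        + (1/4) * A.swp 0 4 2 2 + (1) * A.swp 0 4 3 1 + (1/8) * h0143
        + (-1/4) * h0242
  have h2355 : c 2 3 5 5 = 0 := by
    linear_combination (1/2) * (H 2 3).r10 + (-1) * A.cyc 2 3 0 3 + (-1/2) * A.cyc 2 3 1 2
        + (-2) * A.rep' 2 3 0 + (-1) * h0233 + (-1/2) * h1232
  have h3453 : c 3 4 5 3 = 0 := by
    linear_combination (-1) * (H 3 4).r5 + (1) * A.cyc 3 4 0 1 + (-1) * A.rep 3 4 5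
        + (-1) * A.rep' 3 4 4 + (1) * h0341
  have h2463 : c 2 4 6 3 = 0 := by
    linear_combination (1) * (H 2 4).r9 + (-2) * A.rep' 2 4 5 + (-2) * h2454
  have h2364 : c 2 3 6 4 = 0 := by
    linear_combination (1) * (H 2 3).r12 + (1) * h2355
  have h3462 : c 3 4 6 2 = 0 := by
    linear_combination (1) * (H 3 4).r6 + (-4) * A.rep 3 4 5 + (4) * A.rep' 3 4 4
        + (-2) * h3453
  have h3561 : c 3 5 6 1 = 0 := by
    linear_combination (1) * (H 3 5).r3 + (4) * A.rep 3 5 4 + (2) * A.swp 3 5 4 3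
        + (-1) * A.rep' 3 5 2 + (-2) * h3453
  have h2562 : c 2 5 6 2 = 0 := by
    linear_combination (1) * (H 2 5).r6 + (-4) * A.swp 2 5 3 5 + (4) * A.swp 2 5 4 4
        + (-2) * A.rep' 2 5 3 + (4) * h2355 + (-4) * h2454
  have h4560 : c 4 5 6 0 = 0 := by
    linear_combination (1) * (H 4 5).r0 + (-1) * A.cyc 4 5 1 5 + (3) * A.cyc 4 5 2 4
        + (-3) * A.cyc 4 5 3 3 + (-6) * A.rep 4 5 2 + (-1) * h1455
        + (3) * h2454 + (-3) * h3453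
  exact ⟨h0125, h0134, h0143, h0152, h0161, h0233, h0242, h0251, h0260, h0341, h0350, h0465, h0564, h1232, h1241, h1250, h1340, h1365, h1455, h1464, h1563, h2355, h2364, h2454, h2463, h2562, h3453, h3462, h3561, h4560⟩

set_option maxHeartbeats 4000000 in
theorem block3 (c : Fin 7 → Fin 7 → Fin 7 → Fin 6 → ℂ) (H : ∀ i j, Rels (c i j)) (A : Alt c) :
    c 0 1 3 5 = 0 ∧ c 0 1 4 4 = 0 ∧ c 0 1 5 3 = 0 ∧ c 0 1 6 2 = 0 ∧ c 0 2 3 4 = 0 ∧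
    c 0 2 4 3 = 0 ∧ c 0 2 5 2 = 0 ∧ c 0 2 6 1 = 0 ∧ c 0 3 4 2 = 0 ∧ c 0 3 5 1 = 0 ∧
    c 0 3 6 0 = 0 ∧ c 0 4 5 0 = 0 ∧ c 0 5 6 5 = 0 ∧ c 1 2 3 3 = 0 ∧ c 1 2 4 2 = 0 ∧
    c 1 2 5 1 = 0 ∧ c 1 2 6 0 = 0 ∧ c 1 3 4 1 = 0 ∧ c 1 3 5 0 = 0 ∧ c 1 4 6 5 = 0 ∧
    c 1 5 6 4 = 0 ∧ c 2 3 4 0 = 0 ∧ c 2 3 6 5 = 0 ∧ c 2 4 5 5 = 0 ∧ c 2 4 6 4 = 0 ∧
    c 2 5 6 3 = 0 ∧ c 3 4 5 4 = 0 ∧ c 3 4 6 3 = 0 ∧ c 3 5 6 2 = 0 ∧ c 4 5 6 1 = 0 := by
  have h0565 : c 0 5 6 5 = 0 := by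
    linear_combination (1) * (H 0 5).r15
  have h2365 : c 2 3 6 5 = 0 := by
    linear_combination (1) * (H 2 3).r15
  have h1564 : c 1 5 6 4 = 0 := by
    linear_combination (1) * (H 1 5).r12 + (1) * A.rep' 1 5 5
  have h1260 : c 1 2 6 0 = 0 := by
    linear_combination (1) * (H 2 6).r4 + (-1) * A.cyc 2 6 1 0
  have h1350 : c 1 3 5 0 = 0 := by
    linear_combination (1) * (H 3 5).r4 + (-1) * A.cyc 3 5 1 0
  have h1465 : c 1 4 6 5 = 0 := by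
    linear_combination (1) * (H 1 4).r15
  have h0153 : c 0 1 5 3 = 0 := by
    linear_combination (1/2) * (H 1 5).r10 + (-1) * A.cyc 1 5 0 3 + (-1/2) * A.rep 1 5 2
        + (-2) * A.swp 1 5 3 0 + (-1) * A.rep' 1 5 5 + (2) * h1350
  have h0162 : c 0 1 6 2 = 0 := by
    linear_combination (1) * (H 1 6).r7 + (-1) * A.cyc 1 6 0 2 + (-1) * A.swp 1 6 2 0
        + (-1) * A.swp 1 6 4 5 + (1) * A.swp 1 6 5 4 + (1) * h1260
        + (1) * h1465 + (-1) * h1564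
  have h0360 : c 0 3 6 0 = 0 := by
    linear_combination (-1/4) * (H 0 6).r10 + (1/2) * A.rep 0 6 3 + (1/4) * A.swp 0 6 1 2
        + (1) * A.swp 0 6 3 0 + (1/2) * A.swp 0 6 5 5 + (-1/4) * h0162
        + (-1/2) * h0565
  have h0261 : c 0 2 6 1 = 0 := by
    linear_combination (-1/4) * (H 0 6).r11 + (-1/2) * A.rep 0 6 3 + (1/4) * A.swp 0 6 1 2
        + (1) * A.swp 0 6 2 1 + (-1/2) * A.swp 0 6 5 5 + (-1/4) * h0162
        + (1/2) * h0565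
  have h1251 : c 1 2 5 1 = 0 := by
    linear_combination (-1/4) * (H 1 5).r11 + (-1/2) * A.cyc 1 5 0 3 + (1/4) * A.rep 1 5 2
        + (1) * A.swp 1 5 2 1 + (-1/2) * A.rep' 1 5 5 + (-1/2) * h0153
  have h0135 : c 0 1 3 5 = 0 := by
    linear_combination (-1/2) * (H 0 1).r5 + (1/2) * A.rep 0 1 1 + (1/8) * (H 0 1).r6
        + (-3/4) * h0153 + (-1/8) * h0162
  have h0144 : c 0 1 4 4 = 0 := by
    linear_combination (-1/2) * (H 0 1).r5 + (1/2) * A.rep 0 1 1 + (-1/8) * (H 0 1).r6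
        + (-1/4) * h0153 + (1/8) * h0162
  have h2464 : c 2 4 6 4 = 0 := by
    linear_combination (1/3) * (H 2 6).r5 + (-1/3) * A.cyc 2 6 0 1 + (1/3) * A.swp 2 6 3 5
        + (1/3) * A.swp 2 6 4 4 + (1/3) * A.swp 2 6 5 3 + (1/6) * (H 2 6).r6
        + (-2/3) * A.swp 2 6 3 5 + (2/3) * A.swp 2 6 4 4 + (-1/3) * A.swp 2 6 5 3
        + (-1/6) * A.rep' 2 6 2 + (-1/3) * h0261 + (1/3) * h2365
  have h2563 : c 2 5 6 3 = 0 := by
    linear_combination (2/3) * (H 2 6).r5 + (-2/3) * A.cyc 2 6 0 1 + (2/3) * A.swp 2 6 3 5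
        + (2/3) * A.swp 2 6 4 4 + (2/3) * A.swp 2 6 5 3 + (-1/6) * (H 2 6).r6
        + (2/3) * A.swp 2 6 3 5 + (-2/3) * A.swp 2 6 4 4 + (1/3) * A.swp 2 6 5 3
        + (1/6) * A.rep' 2 6 2 + (-2/3) * h0261 + (-4/3) * h2365
  have h3463 : c 3 4 6 3 = 0 := by
    linear_combination (-1/3) * (H 3 6).r2 + (1/3) * A.cyc 3 6 0 0 + (1/3) * A.cyc 3 6 2 5
        + (-1/3) * A.rep 3 6 4 + (1/3) * A.swp 3 6 4 3 + (1/3) * A.swp 3 6 5 2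
        + (1/3) * (H 3 6).r3 + (4/3) * A.rep 3 6 4 + (2/3) * A.swp 3 6 4 3
        + (-1/3) * A.swp 3 6 5 2 + (-1/3) * A.rep' 3 6 1 + (1/3) * h0360
        + (1/3) * h2365
  have h3562 : c 3 5 6 2 = 0 := by
    linear_combination (-2/3) * (H 3 6).r2 + (2/3) * A.cyc 3 6 0 0 + (2/3) * A.cyc 3 6 2 5
        + (-2/3) * A.rep 3 6 4 + (2/3) * A.swp 3 6 4 3 + (2/3) * A.swp 3 6 5 2
        + (-1/3) * (H 3 6).r3 + (-4/3) * A.rep 3 6 4 + (-2/3) * A.swp 3 6 4 3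
        + (1/3) * A.swp 3 6 5 2 + (1/3) * A.rep' 3 6 1 + (2/3) * h0360
        + (2/3) * h2365
  have h1233 : c 1 2 3 3 = 0 := by
    linear_combination (1/9) * (H 1 2).r0 + (-1/9) * A.rep 1 2 5 + (1/3) * A.rep' 1 2 4
        + (-2/3) * (H 1 2).r1 + (-2/3) * A.rep' 1 2 4 + (-1/9) * h1260
        + (2/3) * h1251
  have h1242 : c 1 2 4 2 = 0 := by
    linear_combination (1/9) * (H 1 2).r0 + (-1/9) * A.rep 1 2 5 + (1/3) * A.rep' 1 2 4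
        + (1/3) * (H 1 2).r1 + (1/3) * A.rep' 1 2 4 + (-1/9) * h1260
        + (-1/3) * h1251
  have h1341 : c 1 3 4 1 = 0 := by
    linear_combination (1/4) * (H 1 3).r17 + (1/4) * A.rep 1 3 4 + (1/4) * A.swp 1 3 2 3
        + (-1/2) * A.rep' 1 3 2 + (-1/4) * h1233
  have h4561 : c 4 5 6 1 = 0 := by
    linear_combination (-1) * (H 4 6).r1 + (-1) * A.cyc 4 6 2 4 + (-1) * A.cyc 4 6 3 3
        + (1) * A.rep 4 6 2 + (1) * A.swp 4 6 5 1 + (-1) * h2464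
        + (-1) * h3463
  have h0234 : c 0 2 3 4 = 0 := by
    linear_combination (-1/4) * (H 2 3).r14 + (-1) * A.cyc 2 3 0 4 + (-1/4) * A.cyc 2 3 1 3
        + (1/2) * A.rep 2 3 2 + (2) * A.rep' 2 3 1 + (-1/4) * h1233
  have h2455 : c 2 4 5 5 = 0 := by
    linear_combination (-1) * (H 2 4).r12 + (1) * h2464
  have h3454 : c 3 4 5 4 = 0 := by
    linear_combination (1/2) * (H 3 4).r9 + (-1) * A.rep' 3 4 5 + (-1/2) * h3463
  have h0342 : c 0 3 4 2 = 0 := by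
    linear_combination (1/6) * (H 0 3).r0 + (-1/6) * A.swp 0 3 1 5 + (1/2) * A.swp 0 3 2 4
        + (-1/2) * A.rep' 0 3 3 + (1/6) * h0135 + (-1/2) * h0234
        + (-1/6) * h0360
  have h0450 : c 0 4 5 0 = 0 := by
    linear_combination (1) * (H 4 5).r2 + (-1) * A.cyc 4 5 0 0 + (-1) * A.cyc 4 5 2 5
        + (1) * A.cyc 4 5 3 4 + (-1) * A.rep 4 5 3 + (-1) * A.rep' 4 5 2
        + (-1) * h2455 + (1) * h3454
  have h0351 : c 0 3 5 1 = 0 := by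
    linear_combination (1) * (H 3 5).r5 + (-1) * A.cyc 3 5 0 1 + (1) * A.rep 3 5 5
        + (1) * A.swp 3 5 4 4 + (1) * A.rep' 3 5 3 + (-1) * h3454
  have h0243 : c 0 2 4 3 = 0 := by
    linear_combination (-1/2) * (H 2 4).r11 + (-1) * A.cyc 2 4 0 3 + (1/2) * A.cyc 2 4 1 2
        + (2) * A.rep 2 4 1 + (1/2) * h1242 + (-1) * h2455
  have h0252 : c 0 2 5 2 = 0 := by
    linear_combination (1) * (H 2 5).r7 + (-1) * A.cyc 2 5 0 2 + (-1) * A.rep 2 5 0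
        + (-1) * A.swp 2 5 4 5 + (1) * A.rep' 2 5 4 + (1) * h2455
  have h2340 : c 2 3 4 0 = 0 := by
    linear_combination (1/8) * (H 2 3).r13 + (1/2) * A.cyc 2 3 0 4 + (-1/8) * A.cyc 2 3 1 3
        + (-3/4) * A.rep 2 3 2 + (1/2) * h0234 + (-1/8) * h1233
  exact ⟨h0135, h0144, h0153, h0162, h0234, h0243, h0252, h0261, h0342, h0351, h0360, h0450, h0565, h1233, h1242, h1251, h1260, h1341, h1350, h1465, h1564, h2340, h2365, h2455, h2464, h2563, h3454, h3463, h3562, h4561⟩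

set_option maxHeartbeats 4000000 in
theorem block4 (c : Fin 7 → Fin 7 → Fin 7 → Fin 6 → ℂ) (H : ∀ i j, Rels (c i j)) (A : Alt c) :
    c 0 1 2 0 = 0 ∧ c 0 1 4 5 = 0 ∧ c 0 1 5 4 = 0 ∧ c 0 1 6 3 = 0 ∧ c 0 2 3 5 = 0 ∧
    c 0 2 4 4 = 0 ∧ c 0 2 5 3 = 0 ∧ c 0 2 6 2 = 0 ∧ c 0 3 4 3 = 0 ∧ c 0 3 5 2 = 0 ∧
    c 0 3 6 1 = 0 ∧ c 0 4 5 1 = 0 ∧ c 0 4 6 0 = 0 ∧ c 1 2 3 4 = 0 ∧ c 1 2 4 3 = 0 ∧
    c 1 2 5 2 = 0 ∧ c 1 2 6 1 = 0 ∧ c 1 3 4 2 = 0 ∧ c 1 3 5 1 = 0 ∧ c 1 3 6 0 = 0 ∧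
    c 1 4 5 0 = 0 ∧ c 1 5 6 5 = 0 ∧ c 2 3 4 1 = 0 ∧ c 2 3 5 0 = 0 ∧ c 2 4 6 5 = 0 ∧
    c 2 5 6 4 = 0 ∧ c 3 4 5 5 = 0 ∧ c 3 4 6 4 = 0 ∧ c 3 5 6 3 = 0 ∧ c 4 5 6 2 = 0 := by
  have h1360 : c 1 3 6 0 = 0 := by
    linear_combination (1) * (H 3 6).r4 + (-1) * A.cyc 3 6 1 0
  have h2564 : c 2 5 6 4 = 0 := by
    linear_combination (1) * (H 2 5).r12 + (1) * A.rep' 2 5 5
  have h0120 : c 0 1 2 0 = 0 := by
    linear_combination (-1) * (H 0 2).r4 + (1) * A.swp 0 2 1 0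
  have h1450 : c 1 4 5 0 = 0 := by
    linear_combination (1) * (H 4 5).r4 + (-1) * A.cyc 4 5 1 0
  have h1565 : c 1 5 6 5 = 0 := by
    linear_combination (1) * (H 1 5).r15
  have h2465 : c 2 4 6 5 = 0 := by
    linear_combination (1) * (H 2 4).r15
  have h0262 : c 0 2 6 2 = 0 := by
    linear_combination (1) * (H 2 6).r7 + (-1) * A.cyc 2 6 0 2 + (-1) * A.rep 2 6 0
        + (-1) * A.swp 2 6 4 5 + (1) * A.swp 2 6 5 4 + (1) * h2465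
        + (-1) * h2564
  have h0163 : c 0 1 6 3 = 0 := by
    linear_combination (1/2) * (H 1 6).r10 + (-1) * A.cyc 1 6 0 3 + (-1/2) * A.rep 1 6 2
        + (-2) * A.swp 1 6 3 0 + (-1) * A.swp 1 6 5 5 + (2) * h1360
        + (1) * h1565
  have h0361 : c 0 3 6 1 = 0 := by
    linear_combination (-1/8) * (H 0 6).r14 + (-1/2) * A.rep 0 6 4 + (-1/8) * A.swp 0 6 1 3
        + (1/4) * A.swp 0 6 2 2 + (1) * A.swp 0 6 3 1 + (1/8) * h0163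
        + (-1/4) * h0262
  have h1261 : c 1 2 6 1 = 0 := by
    linear_combination (-1/4) * (H 1 6).r11 + (-1/2) * A.cyc 1 6 0 3 + (1/4) * A.rep 1 6 2
        + (1) * A.swp 1 6 2 1 + (-1/2) * A.swp 1 6 5 5 + (-1/2) * h0163
        + (1/2) * h1565
  have h0460 : c 0 4 6 0 = 0 := by
    linear_combination (-1/8) * (H 0 6).r13 + (-1/2) * A.rep 0 6 4 + (1/8) * A.swp 0 6 1 3
        + (3/4) * A.swp 0 6 2 2 + (1) * A.swp 0 6 4 0 + (-1/8) * h0163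
        + (-3/4) * h0262
  have h3464 : c 3 4 6 4 = 0 := by
    linear_combination (1/3) * (H 4 6).r2 + (-1/3) * A.cyc 4 6 0 0 + (-1/3) * A.cyc 4 6 2 5
        + (1/3) * A.cyc 4 6 3 4 + (-1/3) * A.rep 4 6 3 + (-1/3) * A.swp 4 6 5 2
        + (-1/3) * (H 4 6).r3 + (-4/3) * A.cyc 4 6 3 4 + (-2/3) * A.rep 4 6 3
        + (1/3) * A.swp 4 6 5 2 + (1/3) * A.rep' 4 6 1 + (-1/3) * h0460
        + (-1/3) * h2465
  have h4562 : c 4 5 6 2 = 0 := by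
    linear_combination (-4/3) * (H 4 6).r2 + (4/3) * A.cyc 4 6 0 0 + (4/3) * A.cyc 4 6 2 5
        + (-4/3) * A.cyc 4 6 3 4 + (4/3) * A.rep 4 6 3 + (4/3) * A.swp 4 6 5 2
        + (1/3) * (H 4 6).r3 + (4/3) * A.cyc 4 6 3 4 + (2/3) * A.rep 4 6 3
        + (-1/3) * A.swp 4 6 5 2 + (-1/3) * A.rep' 4 6 1 + (4/3) * h0460
        + (4/3) * h2465
  have h0145 : c 0 1 4 5 = 0 := by
    linear_combination (1/2) * (H 0 1).r7 + (-1/2) * A.rep 0 1 2 + (1/4) * (H 0 1).r9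
        + (-1/2) * h0120 + (-1/4) * h0163
  have h0154 : c 0 1 5 4 = 0 := by
    linear_combination (-1/2) * (H 0 1).r7 + (1/2) * A.rep 0 1 2 + (1/4) * (H 0 1).r9
        + (1/2) * h0120 + (-1/4) * h0163
  have h3455 : c 3 4 5 5 = 0 := by
    linear_combination (-1) * (H 3 4).r12 + (1) * h3464
  have h3563 : c 3 5 6 3 = 0 := by
    linear_combination (1) * (H 3 6).r5 + (-1) * A.cyc 3 6 0 1 + (1) * A.rep 3 6 5
        + (1) * A.swp 3 6 4 4 + (1) * A.swp 3 6 5 3 + (-1) * h0361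
        + (-1) * h3464
  have h1252 : c 1 2 5 2 = 0 := by
    linear_combination (-1/6) * (H 1 5).r13 + (-2/3) * A.cyc 1 5 0 4 + (1/6) * A.rep 1 5 3
        + (1) * A.swp 1 5 2 2 + (4/3) * A.swp 1 5 4 0 + (-2/3) * h0154
        + (-4/3) * h1450
  have h0451 : c 0 4 5 1 = 0 := by
    linear_combination (1) * (H 4 5).r5 + (-1) * A.cyc 4 5 0 1 + (1) * A.cyc 4 5 3 5
        + (1) * A.rep 4 5 4 + (1) * A.rep' 4 5 3 + (1) * h3455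
  have h0253 : c 0 2 5 3 = 0 := by
    linear_combination (-1/2) * (H 2 5).r11 + (-1) * A.cyc 2 5 0 3 + (1/2) * A.cyc 2 5 1 2
        + (2) * A.rep 2 5 1 + (-1) * A.rep' 2 5 5 + (1/2) * h1252
  have h1351 : c 1 3 5 1 = 0 := by
    linear_combination (-1/8) * (H 1 5).r14 + (-1/2) * A.cyc 1 5 0 4 + (-1/8) * A.rep 1 5 3
        + (1/4) * A.swp 1 5 2 2 + (1) * A.swp 1 5 3 1 + (-1/2) * h0154
        + (-1/4) * h1252
  have h0352 : c 0 3 5 2 = 0 := by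
    linear_combination (-1/6) * (H 0 5).r16 + (2/3) * A.rep 0 5 5 + (-1/6) * A.swp 0 5 1 4
        + (1/2) * A.swp 0 5 2 3 + (1) * A.swp 0 5 3 2 + (2/3) * A.rep' 0 5 0
        + (1/6) * h0154 + (-1/2) * h0253
  have h2350 : c 2 3 5 0 = 0 := by
    linear_combination (-1/4) * (H 2 5).r10 + (1/2) * A.cyc 2 5 0 3 + (1/4) * A.cyc 2 5 1 2
        + (1) * A.swp 2 5 3 0 + (1/2) * A.rep' 2 5 5 + (1/2) * h0253
        + (1/4) * h1252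
  have h0343 : c 0 3 4 3 = 0 := by
    linear_combination (-1/2) * (H 0 3).r3 + (-2) * A.rep' 0 3 4 + (1/2) * h0352
        + (1/2) * h0361
  have h0235 : c 0 2 3 5 = 0 := by
    linear_combination (-1) * (H 0 3).r2 + (1) * A.rep 0 3 0 + (1) * A.swp 0 3 2 5
        + (-1) * A.rep' 0 3 4 + (1) * h0343 + (1) * h0352
  have h0244 : c 0 2 4 4 = 0 := by
    linear_combination (1/3) * (H 0 4).r0 + (-1/3) * A.swp 0 4 1 5 + (1) * A.swp 0 4 2 4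
        + (-1) * A.swp 0 4 3 3 + (-2) * A.rep' 0 4 2 + (1/3) * h0145
        + (1) * h0343 + (-1/3) * h0460
  have h1342 : c 1 3 4 2 = 0 := by
    linear_combination (1) * (H 3 4).r10 + (-2) * A.cyc 3 4 0 3 + (-1) * A.cyc 3 4 1 2
        + (-4) * A.rep 3 4 0 + (-2) * h0343 + (-2) * h3455
  have h1234 : c 1 2 3 4 = 0 := by
    linear_combination (1/3) * (H 1 3).r0 + (-1/3) * A.rep 1 3 5 + (1) * A.swp 1 3 2 4
        + (-1) * A.rep' 1 3 3 + (-2) * h1342 + (-1/3) * h1360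
  have h1243 : c 1 2 4 3 = 0 := by
    linear_combination (-1/3) * (H 1 4).r16 + (4/3) * A.cyc 1 4 0 5 + (-1/3) * A.rep 1 4 4
        + (1) * A.swp 1 4 2 3 + (2) * A.swp 1 4 3 2 + (4/3) * h0145
        + (-2) * h1342 + (4/3) * h1450
  have h2341 : c 2 3 4 1 = 0 := by
    linear_combination (1/4) * (H 3 4).r11 + (1/2) * A.cyc 3 4 0 3 + (-1/4) * A.cyc 3 4 1 2
        + (-1) * A.cyc 3 4 2 1 + (1/2) * h0343 + (-1/4) * h1342
        + (1/2) * h3455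
  exact ⟨h0120, h0145, h0154, h0163, h0235, h0244, h0253, h0262, h0343, h0352, h0361, h0451, h0460, h1234, h1243, h1252, h1261, h1342, h1351, h1360, h1450, h1565, h2341, h2350, h2465, h2564, h3455, h3464, h3563, h4562⟩

set_option maxHeartbeats 4000000 in
theorem block5 (c : Fin 7 → Fin 7 → Fin 7 → Fin 6 → ℂ) (H : ∀ i j, Rels (c i j)) (A : Alt c) :
    c 0 1 2 1 = 0 ∧ c 0 1 3 0 = 0 ∧ c 0 1 5 5 = 0 ∧ c 0 1 6 4 = 0 ∧ c 0 2 4 5 = 0 ∧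
    c 0 2 5 4 = 0 ∧ c 0 2 6 3 = 0 ∧ c 0 3 4 4 = 0 ∧ c 0 3 5 3 = 0 ∧ c 0 3 6 2 = 0 ∧
    c 0 4 5 2 = 0 ∧ c 0 4 6 1 = 0 ∧ c 0 5 6 0 = 0 ∧ c 1 2 3 5 = 0 ∧ c 1 2 4 4 = 0 ∧
    c 1 2 5 3 = 0 ∧ c 1 2 6 2 = 0 ∧ c 1 3 4 3 = 0 ∧ c 1 3 5 2 = 0 ∧ c 1 3 6 1 = 0 ∧
    c 1 4 5 1 = 0 ∧ c 1 4 6 0 = 0 ∧ c 2 3 4 2 = 0 ∧ c 2 3 5 1 = 0 ∧ c 2 3 6 0 = 0 ∧
    c 2 4 5 0 = 0 ∧ c 2 5 6 5 = 0 ∧ c 3 4 6 5 = 0 ∧ c 3 5 6 4 = 0 ∧ c 4 5 6 3 = 0 := by
  have h3564 : c 3 5 6 4 = 0 := by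
    linear_combination (1) * (H 3 5).r12 + (1) * A.rep' 3 5 5
  have h1460 : c 1 4 6 0 = 0 := by
    linear_combination (1) * (H 4 6).r4 + (-1) * A.cyc 4 6 1 0
  have h2565 : c 2 5 6 5 = 0 := by
    linear_combination (1) * (H 2 5).r15
  have h0130 : c 0 1 3 0 = 0 := by
    linear_combination (-1) * (H 0 3).r4 + (1) * A.swp 0 3 1 0
  have h3465 : c 3 4 6 5 = 0 := by
    linear_combination (1) * (H 3 4).r15
  have h4563 : c 4 5 6 3 = 0 := by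
    linear_combination (1) * (H 4 5).r9 + (-2) * A.rep 4 5 5 + (-2) * A.rep' 4 5 4
  have h0155 : c 0 1 5 5 = 0 := by
    linear_combination (1/2) * (H 0 1).r10 + (-1) * A.rep 0 1 3 + (-1/2) * A.rep' 0 1 2
        + (-2) * h0130
  have h0560 : c 0 5 6 0 = 0 := by
    linear_combination (1) * (H 5 6).r2 + (-1) * A.cyc 5 6 0 0 + (-1) * A.cyc 5 6 2 5
        + (1) * A.cyc 5 6 3 4 + (-1) * A.cyc 5 6 4 3 + (-1) * A.rep 5 6 2
        + (-1) * h2565 + (1) * h3564 + (-1) * h4563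
  have h0461 : c 0 4 6 1 = 0 := by
    linear_combination (1) * (H 4 6).r5 + (-1) * A.cyc 4 6 0 1 + (1) * A.cyc 4 6 3 5
        + (1) * A.rep 4 6 4 + (1) * A.swp 4 6 5 3 + (1) * h3465
        + (-1) * h4563
  have h0121 : c 0 1 2 1 = 0 := by
    linear_combination (1/4) * (H 0 1).r11 + (1/2) * A.rep 0 1 3 + (-1/4) * A.rep' 0 1 2
        + (1/2) * h0155
  have h0164 : c 0 1 6 4 = 0 := by
    linear_combination (1) * (H 0 1).r12 + (1) * h0155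
  have h1262 : c 1 2 6 2 = 0 := by
    linear_combination (-1/6) * (H 1 6).r13 + (-2/3) * A.cyc 1 6 0 4 + (1/6) * A.rep 1 6 3
        + (1) * A.swp 1 6 2 2 + (4/3) * A.swp 1 6 4 0 + (-2/3) * h0164
        + (-4/3) * h1460
  have h0263 : c 0 2 6 3 = 0 := by
    linear_combination (-1/2) * (H 2 6).r11 + (-1) * A.cyc 2 6 0 3 + (1/2) * A.cyc 2 6 1 2
        + (2) * A.rep 2 6 1 + (-1) * A.swp 2 6 5 5 + (1/2) * h1262
        + (1) * h2565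
  have h1361 : c 1 3 6 1 = 0 := by
    linear_combination (-1/8) * (H 1 6).r14 + (-1/2) * A.cyc 1 6 0 4 + (-1/8) * A.rep 1 6 3
        + (1/4) * A.swp 1 6 2 2 + (1) * A.swp 1 6 3 1 + (-1/2) * h0164
        + (-1/4) * h1262
  have h2360 : c 2 3 6 0 = 0 := by
    linear_combination (-1/4) * (H 2 6).r10 + (1/2) * A.cyc 2 6 0 3 + (1/4) * A.cyc 2 6 1 2
        + (1) * A.swp 2 6 3 0 + (1/2) * A.swp 2 6 5 5 + (1/2) * h0263
        + (1/4) * h1262 + (-1/2) * h2565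
  have h0362 : c 0 3 6 2 = 0 := by
    linear_combination (-1/6) * (H 0 6).r16 + (2/3) * A.rep 0 6 5 + (-1/6) * A.swp 0 6 1 4
        + (1/2) * A.swp 0 6 2 3 + (1) * A.swp 0 6 3 2 + (2/3) * A.swp 0 6 5 0
        + (1/6) * h0164 + (-1/2) * h0263 + (-2/3) * h0560
  have h0344 : c 0 3 4 4 = 0 := by
    linear_combination (-1/3) * (H 0 3).r5 + (1/3) * A.rep 0 3 1 + (-1/3) * A.rep' 0 3 5
        + (-1/6) * (H 0 3).r6 + (2/3) * A.rep' 0 3 5 + (1/6) * h0362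
  have h0353 : c 0 3 5 3 = 0 := by
    linear_combination (-2/3) * (H 0 3).r5 + (2/3) * A.rep 0 3 1 + (-2/3) * A.rep' 0 3 5
        + (1/6) * (H 0 3).r6 + (-2/3) * A.rep' 0 3 5 + (-1/6) * h0362
  have h0245 : c 0 2 4 5 = 0 := by
    linear_combination (1/2) * (H 0 2).r7 + (-1/2) * A.rep 0 2 2 + (-1/2) * A.rep' 0 2 0
        + (1/4) * (H 0 2).r9 + (-1/4) * h0263
  have h0254 : c 0 2 5 4 = 0 := by
    linear_combination (-1/2) * (H 0 2).r7 + (1/2) * A.rep 0 2 2 + (1/2) * A.rep' 0 2 0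
        + (1/4) * (H 0 2).r9 + (-1/4) * h0263
  have h1352 : c 1 3 5 2 = 0 := by
    linear_combination (1) * (H 3 5).r10 + (-2) * A.cyc 3 5 0 3 + (-1) * A.cyc 3 5 1 2
        + (-4) * A.rep 3 5 0 + (-2) * A.rep' 3 5 5 + (-2) * h0353
  have h0452 : c 0 4 5 2 = 0 := by
    linear_combination (1) * (H 0 4).r2 + (-1) * A.rep 0 4 0 + (-1) * A.swp 0 4 2 5
        + (1) * A.swp 0 4 3 4 + (-1) * A.rep' 0 4 3 + (1) * h0245
        + (-1) * h0344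
  have h1253 : c 1 2 5 3 = 0 := by
    linear_combination (-1/3) * (H 1 5).r16 + (4/3) * A.cyc 1 5 0 5 + (-1/3) * A.rep 1 5 4
        + (1) * A.swp 1 5 2 3 + (2) * A.swp 1 5 3 2 + (4/3) * A.rep' 1 5 0
        + (4/3) * h0155 + (-2) * h1352
  have h2351 : c 2 3 5 1 = 0 := by
    linear_combination (1/4) * (H 3 5).r11 + (1/2) * A.cyc 3 5 0 3 + (-1/4) * A.cyc 3 5 1 2
        + (-1) * A.cyc 3 5 2 1 + (1/2) * A.rep' 3 5 5 + (1/2) * h0353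
        + (-1/4) * h1352
  have h1343 : c 1 3 4 3 = 0 := by
    linear_combination (-1/2) * (H 1 3).r3 + (-2) * A.rep' 1 3 4 + (1/2) * h1352
        + (1/2) * h1361
  have h1451 : c 1 4 5 1 = 0 := by
    linear_combination (1) * (H 4 5).r8 + (-1) * A.cyc 4 5 0 2 + (-1) * A.cyc 4 5 1 1
        + (-1) * A.rep 4 5 5 + (1) * A.rep' 4 5 4 + (-1) * h0452
  have h2450 : c 2 4 5 0 = 0 := by
    linear_combination (1) * (H 4 5).r7 + (-1) * A.cyc 4 5 0 2 + (-1) * A.cyc 4 5 2 0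
        + (-1) * A.rep 4 5 5 + (1) * A.rep' 4 5 4 + (-1) * h0452
  have h1235 : c 1 2 3 5 = 0 := by
    linear_combination (-1) * (H 1 3).r2 + (1) * A.cyc 1 3 0 0 + (1) * A.swp 1 3 2 5
        + (-1) * A.rep' 1 3 4 + (1) * h0130 + (1) * h1343
        + (1) * h1352
  have h2342 : c 2 3 4 2 = 0 := by
    linear_combination (1) * (H 2 3).r1 + (1) * A.rep 2 3 4 + (1) * A.rep' 2 3 3
        + (-1) * h2351
  have h1244 : c 1 2 4 4 = 0 := by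
    linear_combination (1/3) * (H 1 4).r0 + (-1/3) * A.rep 1 4 5 + (1) * A.swp 1 4 2 4
        + (-1) * A.swp 1 4 3 3 + (-2) * A.rep' 1 4 2 + (1) * h1343
        + (-1/3) * h1460
  exact ⟨h0121, h0130, h0155, h0164, h0245, h0254, h0263, h0344, h0353, h0362, h0452, h0461, h0560, h1235, h1244, h1253, h1262, h1343, h1352, h1361, h1451, h1460, h2342, h2351, h2360, h2450, h2565, h3465, h3564, h4563⟩

set_option maxHeartbeats 4000000 in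
theorem block6 (c : Fin 7 → Fin 7 → Fin 7 → Fin 6 → ℂ) (H : ∀ i j, Rels (c i j)) (A : Alt c) :
    c 0 1 2 2 = 0 ∧ c 0 1 3 1 = 0 ∧ c 0 1 4 0 = 0 ∧ c 0 1 6 5 = 0 ∧ c 0 2 3 0 = 0 ∧
    c 0 2 5 5 = 0 ∧ c 0 2 6 4 = 0 ∧ c 0 3 4 5 = 0 ∧ c 0 3 5 4 = 0 ∧ c 0 3 6 3 = 0 ∧
    c 0 4 5 3 = 0 ∧ c 0 4 6 2 = 0 ∧ c 0 5 6 1 = 0 ∧ c 1 2 4 5 = 0 ∧ c 1 2 5 4 = 0 ∧
    c 1 2 6 3 = 0 ∧ c 1 3 4 4 = 0 ∧ c 1 3 5 3 = 0 ∧ c 1 3 6 2 = 0 ∧ c 1 4 5 2 = 0 ∧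
    c 1 4 6 1 = 0 ∧ c 1 5 6 0 = 0 ∧ c 2 3 4 3 = 0 ∧ c 2 3 5 2 = 0 ∧ c 2 3 6 1 = 0 ∧
    c 2 4 5 1 = 0 ∧ c 2 4 6 0 = 0 ∧ c 3 4 5 0 = 0 ∧ c 3 5 6 5 = 0 ∧ c 4 5 6 4 = 0 := by
  have h0165 : c 0 1 6 5 = 0 := by
    linear_combination (1) * (H 0 1).r15
  have h1560 : c 1 5 6 0 = 0 := by
    linear_combination (1) * (H 5 6).r4 + (-1) * A.cyc 5 6 1 0
  have h3565 : c 3 5 6 5 = 0 := by
    linear_combination (1) * (H 3 5).r15
  have h0140 : c 0 1 4 0 = 0 := by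
    linear_combination (-1) * (H 0 4).r4 + (1) * A.swp 0 4 1 0
  have h4564 : c 4 5 6 4 = 0 := by
    linear_combination (1) * (H 4 5).r12 + (1) * A.rep' 4 5 5
  have h0122 : c 0 1 2 2 = 0 := by
    linear_combination (1/6) * (H 0 1).r13 + (2/3) * A.rep 0 1 4 + (-1/6) * A.rep' 0 1 3
        + (-4/3) * h0140
  have h0561 : c 0 5 6 1 = 0 := by
    linear_combination (1) * (H 5 6).r5 + (-1) * A.cyc 5 6 0 1 + (1) * A.cyc 5 6 3 5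
        + (1) * A.cyc 5 6 4 4 + (1) * A.rep 5 6 3 + (1) * h3565
        + (1) * h4564
  have h0255 : c 0 2 5 5 = 0 := by
    linear_combination (-1/2) * (H 0 2).r11 + (-1) * A.rep 0 2 3 + (1/2) * A.swp 0 2 1 2
        + (2) * A.rep' 0 2 1 + (-1/2) * h0122
  have h0131 : c 0 1 3 1 = 0 := by
    linear_combination (1/8) * (H 0 1).r14 + (1/2) * A.rep 0 1 4 + (1/8) * A.rep' 0 1 3
        + (-1/4) * h0122
  have h0230 : c 0 2 3 0 = 0 := by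
    linear_combination (1/4) * (H 0 2).r10 + (-1/2) * A.rep 0 2 3 + (-1/4) * A.swp 0 2 1 2
        + (1/4) * h0122 + (-1/2) * h0255
  have h0264 : c 0 2 6 4 = 0 := by
    linear_combination (1) * (H 0 2).r12 + (1) * h0255
  have h0354 : c 0 3 5 4 = 0 := by
    linear_combination (1/3) * (H 0 5).r2 + (-1/3) * A.rep 0 5 0 + (-1/3) * A.swp 0 5 2 5
        + (1/3) * A.swp 0 5 3 4 + (-1/3) * A.swp 0 5 4 3 + (-1/3) * A.rep' 0 5 2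
        + (1/6) * (H 0 5).r3 + (2/3) * A.swp 0 5 3 4 + (1/3) * A.swp 0 5 4 3
        + (-1/6) * A.rep' 0 5 2 + (1/3) * h0255 + (-1/6) * h0561
  have h0453 : c 0 4 5 3 = 0 := by
    linear_combination (-2/3) * (H 0 5).r2 + (2/3) * A.rep 0 5 0 + (2/3) * A.swp 0 5 2 5
        + (-2/3) * A.swp 0 5 3 4 + (2/3) * A.swp 0 5 4 3 + (2/3) * A.rep' 0 5 2
        + (1/6) * (H 0 5).r3 + (2/3) * A.swp 0 5 3 4 + (1/3) * A.swp 0 5 4 3
        + (-1/6) * A.rep' 0 5 2 + (-2/3) * h0255 + (-1/6) * h0561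
  have h0363 : c 0 3 6 3 = 0 := by
    linear_combination (-1/9) * (H 0 6).r0 + (1/9) * A.swp 0 6 1 5 + (-1/3) * A.swp 0 6 2 4
        + (1/3) * A.swp 0 6 3 3 + (2/3) * A.swp 0 6 4 2 + (1/9) * A.rep' 0 6 0
        + (2/3) * (H 0 6).r1 + (2/3) * A.swp 0 6 2 4 + (2/3) * A.swp 0 6 3 3
        + (-2/3) * A.swp 0 6 4 2 + (-2/3) * A.swp 0 6 5 1 + (-1/9) * h0165
        + (-1/3) * h0264 + (2/3) * h0561
  have h0462 : c 0 4 6 2 = 0 := by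
    linear_combination (-1/9) * (H 0 6).r0 + (1/9) * A.swp 0 6 1 5 + (-1/3) * A.swp 0 6 2 4
        + (1/3) * A.swp 0 6 3 3 + (2/3) * A.swp 0 6 4 2 + (1/9) * A.rep' 0 6 0
        + (-1/3) * (H 0 6).r1 + (-1/3) * A.swp 0 6 2 4 + (-1/3) * A.swp 0 6 3 3
        + (1/3) * A.swp 0 6 4 2 + (1/3) * A.swp 0 6 5 1 + (-1/9) * h0165
        + (2/3) * h0264 + (-1/3) * h0561
  have h0345 : c 0 3 4 5 = 0 := by
    linear_combination (1) * (H 0 3).r7 + (-1) * A.rep 0 3 2 + (-1) * A.swp 0 3 2 0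
        + (1) * h0230 + (1) * h0354
  have h1461 : c 1 4 6 1 = 0 := by
    linear_combination (1) * (H 4 6).r8 + (-1) * A.cyc 4 6 0 2 + (-1) * A.cyc 4 6 1 1
        + (-1) * A.rep 4 6 5 + (1) * A.swp 4 6 5 4 + (-1) * h0462
        + (-1) * h4564
  have h1362 : c 1 3 6 2 = 0 := by
    linear_combination (1) * (H 3 6).r10 + (-2) * A.cyc 3 6 0 3 + (-1) * A.cyc 3 6 1 2
        + (-4) * A.rep 3 6 0 + (-2) * A.swp 3 6 5 5 + (-2) * h0363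
        + (2) * h3565
  have h2460 : c 2 4 6 0 = 0 := by
    linear_combination (1) * (H 4 6).r7 + (-1) * A.cyc 4 6 0 2 + (-1) * A.cyc 4 6 2 0
        + (-1) * A.rep 4 6 5 + (1) * A.swp 4 6 5 4 + (-1) * h0462
        + (-1) * h4564
  have h1263 : c 1 2 6 3 = 0 := by
    linear_combination (-1/3) * (H 1 6).r16 + (4/3) * A.cyc 1 6 0 5 + (-1/3) * A.rep 1 6 4
        + (1) * A.swp 1 6 2 3 + (2) * A.swp 1 6 3 2 + (4/3) * A.swp 1 6 5 0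
        + (4/3) * h0165 + (-2) * h1362 + (-4/3) * h1560
  have h2361 : c 2 3 6 1 = 0 := by
    linear_combination (1/4) * (H 3 6).r11 + (1/2) * A.cyc 3 6 0 3 + (-1/4) * A.cyc 3 6 1 2
        + (-1) * A.cyc 3 6 2 1 + (1/2) * A.swp 3 6 5 5 + (1/2) * h0363
        + (-1/4) * h1362 + (-1/2) * h3565
  have h1245 : c 1 2 4 5 = 0 := by
    linear_combination (1/2) * (H 1 2).r7 + (-1/2) * A.cyc 1 2 0 2 + (-1/2) * A.rep' 1 2 0
        + (1/4) * (H 1 2).r9 + (-1/2) * h0122 + (-1/4) * h1263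
  have h1254 : c 1 2 5 4 = 0 := by
    linear_combination (-1/2) * (H 1 2).r7 + (1/2) * A.cyc 1 2 0 2 + (1/2) * A.rep' 1 2 0
        + (1/4) * (H 1 2).r9 + (1/2) * h0122 + (-1/4) * h1263
  have h1344 : c 1 3 4 4 = 0 := by
    linear_combination (-1/3) * (H 1 3).r5 + (1/3) * A.cyc 1 3 0 1 + (-1/3) * A.rep' 1 3 5
        + (-1/6) * (H 1 3).r6 + (2/3) * A.rep' 1 3 5 + (1/3) * h0131
        + (1/6) * h1362
  have h1353 : c 1 3 5 3 = 0 := by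
    linear_combination (-2/3) * (H 1 3).r5 + (2/3) * A.cyc 1 3 0 1 + (-2/3) * A.rep' 1 3 5
        + (1/6) * (H 1 3).r6 + (-2/3) * A.rep' 1 3 5 + (2/3) * h0131
        + (-1/6) * h1362
  have h2343 : c 2 3 4 3 = 0 := by
    linear_combination (1/3) * (H 2 3).r2 + (-1/3) * A.cyc 2 3 0 0 + (-1/3) * A.rep 2 3 5
        + (1/3) * A.rep' 2 3 4 + (-1/3) * (H 2 3).r3 + (-4/3) * A.rep' 2 3 4
        + (-1/3) * h0230 + (1/3) * h2361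
  have h2352 : c 2 3 5 2 = 0 := by
    linear_combination (2/3) * (H 2 3).r2 + (-2/3) * A.cyc 2 3 0 0 + (-2/3) * A.rep 2 3 5
        + (2/3) * A.rep' 2 3 4 + (1/3) * (H 2 3).r3 + (4/3) * A.rep' 2 3 4
        + (-2/3) * h0230 + (-1/3) * h2361
  have h2451 : c 2 4 5 1 = 0 := by
    linear_combination (1) * (H 2 4).r1 + (1) * A.rep 2 4 4 + (1) * A.swp 2 4 3 3
        + (-1) * A.rep' 2 4 2 + (-1) * h2343
  have h3450 : c 3 4 5 0 = 0 := by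
    linear_combination (1/4) * (H 3 4).r16 + (-1) * A.cyc 3 4 0 5 + (1/4) * A.cyc 3 4 1 4
        + (-3/4) * A.cyc 3 4 2 3 + (-3/2) * A.rep 3 4 2 + (-1) * h0345
        + (1/4) * h1344 + (-3/4) * h2343
  have h1452 : c 1 4 5 2 = 0 := by
    linear_combination (1) * (H 1 4).r2 + (-1) * A.cyc 1 4 0 0 + (-1) * A.swp 1 4 2 5
        + (1) * A.swp 1 4 3 4 + (-1) * A.rep' 1 4 3 + (-1) * h0140
        + (1) * h1245 + (-1) * h1344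
  exact ⟨h0122, h0131, h0140, h0165, h0230, h0255, h0264, h0345, h0354, h0363, h0453, h0462, h0561, h1245, h1254, h1263, h1344, h1353, h1362, h1452, h1461, h1560, h2343, h2352, h2361, h2451, h2460, h3450, h3565, h4564⟩

end T3
end EtaleGonality
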