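import Pool.Agent.G7.Regular
import Pool.Agent.G7.Dim
import Pool.Agent.G7.Gon2

/-!
# Assembly: gonality 5, `η ∉ C₃ - C₃`, gonality of the double cover at most 7
-/

open scoped IntermediateField
open Polynomial Module

namespace EtaleGonality

variable {F : Type} [Field F] [Algebra ℂ F]

namespace Model

variable {M : Model F}

/-- no map of degree at most 4 to the line -/
theorem five_le_degree (hF : IsFunctionField F) (M : Model F) {φ : F}
    (hφ : φ ∉ (algebraMap ℂ F).range) [FiniteDimensional ℂ⟮φ⟯ F] : 5 ≤ finrank ℂ⟮φ⟯ F := by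
  by_contra hlt
  push Not at hlt
  obtain ⟨e, he⟩ := exists_kaehler_coord hF M.t_notMem_range
  have hδ := coordDer_ne_zero he
  set δ := coordDer e with hδdef
  have hδφ : δ φ ≠ 0 := der_ne_zero hF δ hδ hφ
  have hu : M.s * δ φ ≠ 0 := mul_ne_zero M.s_ne_zero hδφ
  let lam : F →ₗ[ℂ⟮φ⟯] ℂ⟮φ⟯ :=
    (Algebra.trace ℂ⟮φ⟯ F) ∘ₗ (LinearMap.mulLeft ℂ⟮φ⟯ (M.s * δ φ)⁻¹)
  have hlam : ∀ y, lam y = Algebra.trace ℂ⟮φ⟯ F ((M.s * δ φ)⁻¹ * y) := fun y => rfl
  refine M.no_functional ℂ⟮φ⟯ (by omega) lam ?_ ?_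
  · intro h0
    have h1 := hlam (M.s * δ φ)
    rw [h0, inv_mul_cancel₀ hu] at h1
    have h2 : Algebra.trace ℂ⟮φ⟯ F (algebraMap ℂ⟮φ⟯ F 1) = finrank ℂ⟮φ⟯ F • (1 : ℂ⟮φ⟯) :=
      Algebra.trace_algebraMap 1
    rw [map_one, ← h1] at h2
    simp only [LinearMap.zero_apply, nsmul_eq_mul, mul_one] at h2
    have hchar : CharZero ℂ⟮φ⟯ := charZero_of_injective_algebraMap (algebraMap ℂ ℂ⟮φ⟯).injective
    have h3 : finrank ℂ⟮φ⟯ F = 0 := by exact_mod_cast h2.symm
    exact (finrank_pos (R := ℂ⟮φ⟯) (M := F)).ne' h3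
  · intro i
    rw [hlam]
    have hw := (mem_condK_iff hF he).mp (w_mem_condK (M := M) i)
    have hord : ∀ (P : Place F) (ψ : F), ψ ≠ 0 → P.ord ψ ≠ 0 → δ ψ = δ φ →
        P.ord (δ φ) = P.ord ψ - 1 + kd e P := by
      intro P ψ h0 h1 h2
      rw [← h2]
      exact ord_der hF P δ hδ P.unif_ne_zero P.ord_unif h0 h1
    have hgen : ∀ (P : Place F) (ψ : F), ψ ≠ 0 → P.ord ψ ≠ 0 → δ ψ = δ φ →
        ψ * ((M.s * δ φ)⁻¹ * M.w i) ∈ P.L 1 := by
      intro P ψ h0 h1 h2
      have h3 := hord P ψ h0 h1 h2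
      have h4 : (M.s * δ φ)⁻¹ ∈ P.L (-(P.ord M.s + (P.ord ψ - 1 + kd e P))) := by
        right
        rw [P.ord_inv, P.ord_mul _ _ M.s_ne_zero hδφ, h3]
      have h5 := Place.mul_mem_L (Or.inr le_rfl : ψ ∈ P.L (P.ord ψ)) (Place.mul_mem_L h4 (hw P))
      convert h5 using 2
      ring
    refine trace_eq_zero hφ ?_ ?_
    · intro P c hPc
      refine hgen P _ ?_ hPc.ne' ?_
      · intro h0; rw [h0, P.ord_zero] at hPc; exact lt_irrefl _ hPc
      · rw [map_sub, Derivation.map_algebraMap, sub_zero]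
    · intro P hP
      refine hgen P φ ?_ hP.ne rfl
      intro h0; rw [h0, P.ord_zero] at hP; exact lt_irrefl _ hP

/-- the curve has gonality 5 -/
theorem gonality_five (hF : IsFunctionField F) (M : Model F) : HasGonality F 5 := by
  constructor
  · obtain ⟨h1, h2, h3⟩ := M.degree_five
    refine ⟨_, h1, h2, ?_⟩
    have := five_le_degree hF M h1
    omega
  · rintro d ⟨φ, h1, h2, h3⟩
    have := five_le_degree hF M h1
    omega

/-- orders of `t - 4` -/
lemma ord_h (hF : IsFunctionField F) (M : Model F) (P : Place F) :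
    Even (P.ord (M.x * M.z - algebraMap ℂ F 4)) := by
  rcases cases_place hF M P with h | ⟨c, h⟩
  · obtain ⟨hx0, hzx, hs⟩ := ord_at_pole h
    have h1 := (Place.ord_aeval_pole h (X_sub_C_ne_zero (4 : ℂ))).2
    rw [natDegree_X_sub_C] at h1
    simp only [map_sub, aeval_X, aeval_C, Nat.cast_one, one_mul] at h1
    rw [h1, ord_t, hzx]
    exact ⟨_, rfl⟩
  · by_cases hc : c = 4
    · subst hc
      rw [← ord_s_four h]
      exact even_two_mul _
    · have h1 := (Place.ord_aeval h (X_sub_C_ne_zero (4 : ℂ))).2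
      rw [rootMultiplicity_eq_zero (by simpa [IsRoot, sub_eq_zero] using hc)] at h1
      simp only [map_sub, aeval_X, aeval_C, Nat.cast_zero, zero_mul] at h1
      rw [h1]; exact Even.zero

/-- `η` is not in `C₃ - C₃` -/
theorem not_inDifference (hF : IsFunctionField F) (M : Model F) :
    ¬ InDifference (M.x * M.z - algebraMap ℂ F 4) 3 := by
  rintro ⟨D, D', hD, hD', u, hu, hdiv⟩
  obtain ⟨e, he⟩ := exists_kaehler_coord hF M.t_notMem_range
  set V := Submodule.span ℂ (Set.range M.w) with hV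
  have hVfin : FiniteDimensional ℂ V := FiniteDimensional.span_of_finite ℂ (Set.finite_range _)
  have hVn : ∀ P : Place F, V ≤ P.L (P.ord M.s + kd e P) := by
    intro P
    rw [hV, span_w_eq hF M]
    intro g hg
    exact (mem_condK_iff hF he).mp hg P
  set A := (V ⊓ ⨅ P : Place F, P.L (P.ord M.s + kd e P + D P) : Submodule ℂ F) with hA
  have hAfin : FiniteDimensional ℂ A := Submodule.finiteDimensional_of_le inf_le_left
  have hdim := finrank_vanish hF D V (fun P => P.ord M.s + kd e P) hVfin hVn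
  rw [finrank_span_w M, hD] at hdim
  have hdim1 : 7 ≤ finrank ℂ A + 3 := hdim
  have hdim' : 4 ≤ finrank ℂ A := by omega
  -- membership
  have hmem : ∀ a ∈ A, a / u ∈ Submodule.span ℂ (Set.range M.p) := by
    intro a ha
    by_cases ha0 : a = 0
    · rw [ha0, zero_div]; exact Submodule.zero_mem _
    apply condP_le hF M
    have haP : ∀ P : Place F, P.ord M.s + kd e P + D P ≤ P.ord a := by
      intro P
      have : a ∈ P.L (P.ord M.s + kd e P + D P) := by
        have h1 := (Submodule.mem_inf.mp ha).2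
        exact (Submodule.mem_iInf _).mp h1 P
      exact Place.le_ord_of_mem_L this ha0
    have hord : ∀ P : Place F, P.ord (a / u) = P.ord a - P.ord u := fun P => P.ord_div ha0 hu
    refine ⟨⟨?_, ?_⟩, ?_⟩
    · intro P c h
      right
      have h1 := haP P
      have h2 := hdiv P
      rw [hord]
      rw [kd_fin hF he h] at h1
      by_cases hc : c = 4
      · subst hc
        have h3 := ord_s_four h
        omega
      · have h3 := (Place.ord_aeval h (X_sub_C_ne_zero (4 : ℂ))).2
        rw [rootMultiplicity_eq_zero (by simpa [IsRoot, sub_eq_zero] using hc)] at h3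
        simp only [map_sub, aeval_X, aeval_C, Nat.cast_zero, zero_mul] at h3
        omega
    · intro P h
      right
      have h1 := haP P
      have h2 := hdiv P
      rw [kd_fin hF he h] at h1
      have h3 := ord_s_four h
      rw [hord]
      omega
    · intro P h
      right
      have h1 := haP P
      have h2 := hdiv P
      rw [kd_inf hF he h] at h1
      obtain ⟨hx0, hzx, hs⟩ := ord_at_pole h
      have h3 := (Place.ord_aeval_pole h (X_sub_C_ne_zero (4 : ℂ))).2
      rw [natDegree_X_sub_C] at h3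
      simp only [map_sub, aeval_X, aeval_C, Nat.cast_one, one_mul] at h3
      have h4 := ord_t M P
      rw [hord]
      push_cast
      omega
  -- four independent vectors
  obtain ⟨v, hv⟩ := exists_linearIndependent_of_le_finrank hdim'
  have hv' : LinearIndependent ℂ (fun r => (v r : F)) :=
    hv.map' A.subtype (Submodule.ker_subtype A)
  have hα : ∀ r, ∃ α : Fin 7 → ℂ, ∑ i, α i • M.w i = (v r : F) := fun r =>
    (Submodule.mem_span_range_iff_exists_fun ℂ).mp (v r).2.1
  have hβ : ∀ r, ∃ β : Fin 6 → ℂ, ∑ l, β l • M.p l = (v r : F) / u := fun r =>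
    (Submodule.mem_span_range_iff_exists_fun ℂ).mp (hmem _ (v r).2)
  choose α hα using hα
  choose β hβ using hβ
  have hαi : LinearIndependent ℂ α := by
    rw [Fintype.linearIndependent_iff] at hv' ⊢
    intro g hg
    apply hv' g
    have : ∑ r, g r • (v r : F) = ∑ i, (∑ r, g r • α r) i • M.w i := by
      simp only [← hα, Finset.smul_sum, smul_smul, Finset.sum_apply, Pi.smul_apply, smul_eq_mul,
        Finset.sum_smul]
      rw [Finset.sum_comm]
    rw [this, hg]; simp
  have hβi : LinearIndependent ℂ β := by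
    rw [Fintype.linearIndependent_iff] at hv' ⊢
    intro g hg
    apply hv' g
    have h1 : ∑ r, g r • ((v r : F) / u) = ∑ l, (∑ r, g r • β r) l • M.p l := by
      simp only [← hβ, Finset.smul_sum, smul_smul, Finset.sum_apply, Pi.smul_apply, smul_eq_mul,
        Finset.sum_smul]
      rw [Finset.sum_comm]
    rw [hg] at h1
    have h2 : ∑ r, g r • (v r : F) = u * ∑ r, g r • ((v r : F) / u) := by
      rw [Finset.mul_sum]
      refine Finset.sum_congr rfl fun r _ => ?_
      rw [mul_smul_comm]; congr 1; field_simp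
    rw [h2, h1]; simp
  refine M.no_four α β hαi hβi fun r s => ?_
  rw [hα, hα, hβ, hβ]
  ring

end Model

end EtaleGonality
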