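import Pool.Agent.G7.Curve
import Pool.Agent.G7.LinAlg
import Pool.Agent.G7.Complete

/-!
# `t - 4` is not a square
-/

open scoped IntermediateField
open Polynomial Module

namespace EtaleGonality

variable {F : Type} [Field F] [Algebra ℂ F]

lemma mult_sq (p : ℂ[X]) (hp : p ≠ 0) (c : ℂ) :
    (p ^ 2).rootMultiplicity c = 2 * p.rootMultiplicity c := by
  rw [pow_two, rootMultiplicity_mul (mul_ne_zero hp hp)]; ring

lemma Rp_sq : Rp ^ 2 - 4 * X ^ 7 = -Dl := by
  unfold Rp Dl Cub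
  have h12 : (C 12 : ℂ[X]) = 12 := rfl
  have h23 : (C 23 : ℂ[X]) = 23 := rfl
  have h9 : (C 9 : ℂ[X]) = 9 := rfl
  have h1 : (C 1 : ℂ[X]) = 1 := C_1
  have h4 : (C 4 : ℂ[X]) = 4 := rfl
  have h73 : (C 73 : ℂ[X]) = 73 := rfl
  have h264 : (C 264 : ℂ[X]) = 264 := rfl
  have h144 : (C 144 : ℂ[X]) = 144 := rfl
  rw [h12, h23, h9, h1, h4, h73, h264, h144]
  ring

theorem Model.not_isSquare (M : Model F) : ¬ IsSquare (M.x * M.z - algebraMap ℂ F 4) := by
  rintro ⟨u, hu⟩
  have hu0 : u ≠ 0 := by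
    rintro rfl
    exact M.t_sub_ne_zero 4 (by rw [hu]; ring)
  obtain ⟨c, a, b, hc, h⟩ := M.gen u
  have hc' : aeval (M.x * M.z) c ≠ 0 := M.aeval_ne_zero hc
  have hζ0 : M.ζ ≠ 0 := M.hζ.ne_zero (by norm_num)
  have hζ7 : M.ζ ^ 7 = 1 := M.hζ.pow_eq_one
  -- the action of σ
  obtain ⟨ε, hε, hσ⟩ : ∃ ε : ℂ, (ε = 1 ∨ ε = -1) ∧ M.σ u = algebraMap ℂ F ε * u := by
    have h1 : M.σ u * M.σ u = u * u := by
      rw [← map_mul, ← hu, map_sub, M.σ_t, AlgEquiv.commutes]
    rcases mul_self_eq_mul_self_iff.mp h1 with h2 | h2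
    · exact ⟨1, Or.inl rfl, by rw [h2]; simp⟩
    · exact ⟨-1, Or.inr rfl, by rw [h2]; simp⟩
  have hz : ∀ k < 7, (M.ζ⁻¹) ^ (7 - k) = M.ζ ^ k := by
    intro k hk
    rw [inv_pow, inv_eq_iff_eq_inv, ← mul_eq_one_iff_eq_inv₀ (pow_ne_zero _ hζ0), ← pow_add]
    have : 7 - k + k = 7 := by omega
    rw [this, hζ7]
  have h2 := congrArg M.σ h
  rw [map_mul, M.σ_aeval, hσ, map_sum] at h2
  have h3 : ∑ k ∈ Finset.range 7, (aeval (M.x * M.z) ((C (M.ζ ^ k - ε)) * a k) * M.x ^ (7 - k) +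
      aeval (M.x * M.z) ((C (M.ζ ^ k - ε)) * b k) * M.z ^ k) = 0 := by
    have e1 : ∑ k ∈ Finset.range 7, (aeval (M.x * M.z) ((C (M.ζ ^ k - ε)) * a k) * M.x ^ (7 - k) +
      aeval (M.x * M.z) ((C (M.ζ ^ k - ε)) * b k) * M.z ^ k) =
      ∑ k ∈ Finset.range 7, M.σ (aeval (M.x * M.z) (a k) * M.x ^ (7 - k) +
        aeval (M.x * M.z) (b k) * M.z ^ k) - algebraMap ℂ F ε *
        ∑ k ∈ Finset.range 7, (aeval (M.x * M.z) (a k) * M.x ^ (7 - k) +
        aeval (M.x * M.z) (b k) * M.z ^ k) := by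
      rw [Finset.mul_sum, ← Finset.sum_sub_distrib]
      refine Finset.sum_congr rfl fun k hk => ?_
      rw [map_add M.σ, map_mul M.σ, map_mul M.σ, M.σ_aeval, M.σ_aeval, map_pow M.σ, map_pow M.σ,
        M.σ_x, M.σ_z, mul_pow, mul_pow, ← map_pow, ← map_pow, hz k (Finset.mem_range.mp hk)]
      simp only [map_mul, aeval_C, map_sub]
      ring
    rw [e1, ← h2, ← h]; ring
  have h4 := M.indep _ _ h3
  have hεk : ∀ k < 7, k ≠ 0 ∨ ε = -1 → M.ζ ^ k - ε ≠ 0 := by
    intro k hk hor h0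
    have h5 : M.ζ ^ k = ε := by linear_combination h0
    rcases hε with rfl | rfl
    · rcases hor with h6 | h6
      · exact h6 (M.hζ.pow_inj hk (by norm_num) (by rw [h5, pow_zero]))
      · norm_num at h6
    · have h6 : (M.ζ ^ k) ^ 7 = 1 := by rw [← pow_mul, mul_comm, pow_mul, hζ7, one_pow]
      rw [h5] at h6
      norm_num at h6
  have hzero : ∀ k < 7, k ≠ 0 ∨ ε = -1 → a k = 0 ∧ b k = 0 := by
    intro k hk hor
    have h5 := h4 k hk
    have h6 : (C (M.ζ ^ k - ε) : ℂ[X]) ≠ 0 := C_ne_zero.mpr (hεk k hk hor)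
    exact ⟨(mul_eq_zero.mp h5.1).resolve_left h6, (mul_eq_zero.mp h5.2).resolve_left h6⟩
  have hsum : aeval (M.x * M.z) c * u =
      aeval (M.x * M.z) (a 0) * M.x ^ 7 + aeval (M.x * M.z) (b 0) := by
    rw [h, Finset.sum_eq_single 0]
    · simp
    · intro k hk hk0
      have := hzero k (Finset.mem_range.mp hk) (Or.inl hk0)
      rw [this.1, this.2]; simp
    · intro h; simp at h
  by_cases hε1 : ε = -1
  · have := hzero 0 (by norm_num) (Or.inr hε1)
    rw [this.1, this.2] at hsum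
    simp only [map_zero, zero_mul, add_zero] at hsum
    exact (mul_ne_zero hc' hu0) hsum
  -- square the relation
  set A := a 0
  set B := b 0
  have hx14 : M.x ^ 14 = aeval (M.x * M.z) Rp * M.x ^ 7 - (M.x * M.z) ^ 7 := by
    rw [← rel']; ring
  have h5 : aeval (M.x * M.z) (A ^ 2 * Rp + 2 * A * B) * M.x ^ 7 +
      aeval (M.x * M.z) (B ^ 2 - A ^ 2 * X ^ 7 - c ^ 2 * (X - C 4)) = 0 := by
    have h6 : (aeval (M.x * M.z) c * u) ^ 2 = (aeval (M.x * M.z) c) ^ 2 *
        (M.x * M.z - algebraMap ℂ F 4) := by rw [hu]; ring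
    rw [hsum] at h6
    simp only [map_add, map_sub, map_mul, map_pow, aeval_X, map_ofNat]
    simp only [map_ofNat] at h6
    linear_combination h6 - (aeval (M.x * M.z) A) ^ 2 * hx14
  have h6 := M.indep (fun k => if k = 0 then A ^ 2 * Rp + 2 * A * B else 0)
    (fun k => if k = 0 then B ^ 2 - A ^ 2 * X ^ 7 - c ^ 2 * (X - C 4) else 0) (by
      rw [Finset.sum_eq_single 0]
      · simpa using h5
      · intro k _ hk0; simp [hk0]
      · intro h; simp at h) 0 (by norm_num)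
  simp only [if_true] at h6
  obtain ⟨h7, h8⟩ := h6
  have h9 : A * (A * Rp + 2 * B) = 0 := by linear_combination h7
  rcases mul_eq_zero.mp h9 with hA | hB
  · rw [hA] at h8
    have h10 : B ^ 2 = c ^ 2 * (X - C 4) := by linear_combination h8
    have hB0 : B ≠ 0 := by
      rintro hB
      rw [hB] at h10
      have : c ^ 2 * (X - C 4) ≠ 0 := mul_ne_zero (pow_ne_zero _ hc) (X_sub_C_ne_zero 4)
      exact this (by rw [← h10]; ring)
    have h11 := congrArg natDegree h10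
    rw [natDegree_mul (pow_ne_zero _ hc) (X_sub_C_ne_zero 4), natDegree_pow, natDegree_pow,
      natDegree_X_sub_C] at h11
    omega
  · have h10 : -(A ^ 2 * Dl) = 4 * c ^ 2 * (X - C 4) := by
      rw [← mul_neg, ← Rp_sq]
      linear_combination 4 * h8 + (A * Rp - 2 * B) * hB
    obtain ⟨c0, hc0⟩ := IsAlgClosed.exists_root (C 4 * X ^ 2 - C 57 * X + C 36 : ℂ[X]) (by
      have : (C 4 * X ^ 2 - C 57 * X + C 36 : ℂ[X]).natDegree = 2 := by compute_degree!
      intro h0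
      have h1 : (C 4 * X ^ 2 - C 57 * X + C 36 : ℂ[X]).natDegree = 0 :=
        natDegree_eq_zero_iff_degree_le_zero.mpr h0.le
      omega)
    have e0 : 4 * c0 ^ 2 - 57 * c0 + 36 = 0 := by simpa [IsRoot] using hc0
    have hc00 : c0 ≠ 0 := by rintro rfl; norm_num at e0
    have hc01 : c0 ≠ 1 := by rintro rfl; norm_num at e0
    have hc04 : c0 ≠ 4 := by rintro rfl; norm_num at e0
    have hmult : Dl.rootMultiplicity c0 = 1 := by
      rw [Dl_mult hc00 hc01]
      have h11 : 0 < Cub.rootMultiplicity c0 := by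
        rw [rootMultiplicity_pos Cub_ne_zero]
        have : Cub.eval c0 = 0 := by
          simp only [Cub, eval_add, eval_sub, eval_mul, eval_C, eval_pow, eval_X]
          linear_combination (c0 - 4) * e0
        exact this
      have := Cub_mult_le (c := c0)
      omega
    have hA0 : A ≠ 0 := by
      intro hA
      rw [hA] at h10
      have : 4 * c ^ 2 * (X - C 4) ≠ 0 :=
        mul_ne_zero (mul_ne_zero (C_ne_zero.mpr (by norm_num : (4 : ℂ) ≠ 0)) (pow_ne_zero _ hc))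
          (X_sub_C_ne_zero 4)
      exact this (by rw [← h10]; ring)
    have h11 : A ^ 2 * Dl = (C (-4) * c ^ 2) * (X - C 4) := by
      have : (C (-4) : ℂ[X]) = -4 := by rw [C_neg]; rfl
      rw [this]; linear_combination -h10
    have h12 := congrArg (rootMultiplicity c0) h11
    have hne : (C (-4 : ℂ) * c ^ 2 : ℂ[X]) ≠ 0 :=
      mul_ne_zero (C_ne_zero.mpr (by norm_num)) (pow_ne_zero _ hc)
    rw [rootMultiplicity_mul (mul_ne_zero (pow_ne_zero _ hA0) Dl_ne_zero), mult_sq A hA0, hmult,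
      rootMultiplicity_mul (mul_ne_zero hne (X_sub_C_ne_zero 4)), rootMultiplicity_mul hne,
      mult_sq c hc, rootMultiplicity_C,
      rootMultiplicity_eq_zero (p := X - C 4) (by simpa [IsRoot, sub_eq_zero] using hc04)] at h12
    omega

end EtaleGonality
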