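import Pool.Agent.G7.Spaces
import Pool.Agent.G7.Der
import Pool.Agent.G7.LinAlg

/-!
# Regular differentials of the curve; the genus is 7
-/

open scoped IntermediateField
open Polynomial Module

namespace EtaleGonality

variable {F : Type} [Field F] [Algebra ℂ F]

/-- a uniformizer -/
noncomputable def Place.unif (P : Place F) : F := P.ord_surj.choose

lemma Place.unif_ne_zero (P : Place F) : P.unif ≠ 0 := P.ord_surj.choose_spec.1

lemma Place.ord_unif (P : Place F) : P.ord P.unif = 1 := P.ord_surj.choose_spec.2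

/-- the derivation attached to a coordinate on `Ω` -/
noncomputable def coordDer (e : Ω[F⁄ℂ] ≃ₗ[F] F) : Derivation ℂ F F :=
  (e : Ω[F⁄ℂ] →ₗ[F] F).compDer (KaehlerDifferential.D ℂ F)

lemma coordDer_apply (e : Ω[F⁄ℂ] ≃ₗ[F] F) (a : F) :
    coordDer e a = e (KaehlerDifferential.D ℂ F a) := rfl

/-- the order of `dπ` -/
noncomputable def kd (e : Ω[F⁄ℂ] ≃ₗ[F] F) (P : Place F) : ℤ := P.ord (coordDer e P.unif)

namespace Model

variable {M : Model F} {e : Ω[F⁄ℂ] ≃ₗ[F] F}

lemma coordDer_ne_zero (he : e (KaehlerDifferential.D ℂ F (M.x * M.z)) = 1) : coordDer e ≠ 0 := by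
  intro h
  have h1 : coordDer e (M.x * M.z) = 1 := he
  rw [h] at h1
  simp at h1

lemma kd_fin (hF : IsFunctionField F) (he : e (KaehlerDifferential.D ℂ F (M.x * M.z)) = 1)
    {P : Place F} {c : ℂ} (h : 0 < P.ord (M.x * M.z - algebraMap ℂ F c)) :
    kd e P = 1 - P.ord (M.x * M.z - algebraMap ℂ F c) := by
  have h1 := ord_der hF P (coordDer e) (coordDer_ne_zero he) P.unif_ne_zero P.ord_unif
    (M.t_sub_ne_zero c) h.ne'
  have h2 : coordDer e (M.x * M.z - algebraMap ℂ F c) = 1 := by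
    rw [map_sub, Derivation.map_algebraMap, sub_zero]; exact he
  rw [h2, P.ord_one] at h1
  unfold kd; omega

lemma kd_inf (hF : IsFunctionField F) (he : e (KaehlerDifferential.D ℂ F (M.x * M.z)) = 1)
    {P : Place F} (h : P.ord (M.x * M.z) < 0) :
    kd e P = 1 - P.ord (M.x * M.z) := by
  have h1 := ord_der hF P (coordDer e) (coordDer_ne_zero he) P.unif_ne_zero P.ord_unif
    M.t_ne_zero h.ne
  have h2 : coordDer e (M.x * M.z) = 1 := he
  rw [h2, P.ord_one] at h1
  unfold kd; omega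

lemma cases_place (hF : IsFunctionField F) (M : Model F) (P : Place F) :
    P.ord (M.x * M.z) < 0 ∨ ∃ c : ℂ, 0 < P.ord (M.x * M.z - algebraMap ℂ F c) := by
  by_cases h : P.ord (M.x * M.z) < 0
  · exact Or.inl h
  right
  push Not at h
  obtain ⟨c, hc⟩ := exists_residue hF P h
  exact ⟨c, by have := Place.le_ord_of_mem_L hc (M.t_sub_ne_zero c); omega⟩

lemma mem_condK_iff (hF : IsFunctionField F)
    (he : e (KaehlerDifferential.D ℂ F (M.x * M.z)) = 1) {g : F} :
    g ∈ condK M ↔ ∀ P : Place F, g ∈ P.L (P.ord M.s + kd e P) := by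
  constructor
  · rintro ⟨h1, h2⟩ P
    rcases cases_place hF M P with h | ⟨c, h⟩
    · have := h2 P h
      rw [kd_inf hF he h]
      convert this using 2
      push_cast; ring
    · have := h1 P c h
      rw [kd_fin hF he h]
      convert this using 2
      ring
  · intro H
    refine ⟨fun P c h => ?_, fun P h => ?_⟩
    · have := H P
      rw [kd_fin hF he h] at this
      convert this using 2
      ring
    · have := H P
      rw [kd_inf hF he h] at this
      convert this using 2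
      push_cast; ring

lemma w_mem_zero {P : Place F} {c : ℂ} (h : 0 < P.ord (M.x * M.z - algebraMap ℂ F c)) (i : Fin 7) :
    M.w i ∈ P.L 0 := by
  have hx : M.x ∈ P.L 0 := Or.inr (x_nonneg h)
  have hz : M.z ∈ P.L 0 := Or.inr (z_nonneg h)
  have hx' : ∀ n : ℕ, M.x ^ n ∈ P.L 0 := fun n => by simpa using Place.pow_mem_L hx n
  have hz' : ∀ n : ℕ, M.z ^ n ∈ P.L 0 := fun n => by simpa using Place.pow_mem_L hz n
  have ht := Place.mul_mem_L_zero hx hz
  have hq : M.x * M.z - 1 ∈ P.L 0 := Submodule.sub_mem _ ht Place.one_mem_L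
  fin_cases i
  · exact Place.mul_mem_L_zero ht hq
  · exact Place.mul_mem_L_zero hz hq
  · exact Place.mul_mem_L_zero (hz' 2) hq
  · exact Submodule.add_mem _ (hz' 3) (hx' 4)
  · exact Submodule.add_mem _ (hx' 3) (hz' 4)
  · exact Place.mul_mem_L_zero (hx' 2) hq
  · exact Place.mul_mem_L_zero hx hq

lemma w_mem_one_of_zero {P : Place F} (h : 0 < P.ord (M.x * M.z - algebraMap ℂ F 0)) (i : Fin 7) :
    M.w i ∈ P.L 1 := by
  have hx0 : 0 < P.ord M.x ∧ 0 < P.ord M.z := by
    rcases ord_at_zero h with h1 | h1 <;> omega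
  have hx1 : M.x ∈ P.L 1 := Or.inr hx0.1
  have hz1 : M.z ∈ P.L 1 := Or.inr hx0.2
  have hx : M.x ∈ P.L 0 := Or.inr hx0.1.le
  have hz : M.z ∈ P.L 0 := Or.inr hx0.2.le
  have hx' : ∀ n : ℕ, M.x ^ n ∈ P.L 0 := fun n => by simpa using Place.pow_mem_L hx n
  have hz' : ∀ n : ℕ, M.z ^ n ∈ P.L 0 := fun n => by simpa using Place.pow_mem_L hz n
  have ht := Place.mul_mem_L_zero hx hz
  have hq : M.x * M.z - 1 ∈ P.L 0 := Submodule.sub_mem _ ht Place.one_mem_L
  have hxp : ∀ n : ℕ, M.x ^ (n + 1) ∈ P.L 1 := fun n => by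
    rw [pow_succ]; exact Place.mul_mem_L_zero (hx' n) hx1
  have hzp : ∀ n : ℕ, M.z ^ (n + 1) ∈ P.L 1 := fun n => by
    rw [pow_succ]; exact Place.mul_mem_L_zero (hz' n) hz1
  have hm : ∀ {a b : F}, a ∈ P.L 1 → b ∈ P.L 0 → a * b ∈ P.L 1 := fun ha hb => by
    rw [mul_comm]; exact Place.mul_mem_L_zero hb ha
  fin_cases i
  · exact hm (hm hx1 hz) hq
  · exact hm hz1 hq
  · exact hm (hzp 1) hq
  · exact Submodule.add_mem _ (hzp 2) (hxp 3)
  · exact Submodule.add_mem _ (hxp 2) (hzp 3)
  · exact hm (hxp 1) hq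
  · exact hm hx1 hq

lemma w_mem_one_of_one {P : Place F} (h : 0 < P.ord (M.x * M.z - algebraMap ℂ F 1)) (i : Fin 7) :
    M.w i ∈ P.L 1 := by
  have hx : M.x ∈ P.L 0 := Or.inr (x_nonneg h)
  have hz : M.z ∈ P.L 0 := Or.inr (z_nonneg h)
  have hx' : ∀ n : ℕ, M.x ^ n ∈ P.L 0 := fun n => by simpa using Place.pow_mem_L hx n
  have hz' : ∀ n : ℕ, M.z ^ n ∈ P.L 0 := fun n => by simpa using Place.pow_mem_L hz n
  have ht := Place.mul_mem_L_zero hx hz
  have hq : M.x * M.z - 1 ∈ P.L 1 := by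
    have : M.x * M.z - algebraMap ℂ F 1 ∈ P.L 1 := Or.inr h
    simpa using this
  have hpx := x7_at_one h
  have hpz := z7_at_one h
  have ordx : P.ord M.x = 0 := by
    have h1 : M.x ^ 7 - algebraMap ℂ F (-1) ∈ P.L 1 := by simpa using hpx
    have h2 := (Place.ord_eq_zero_of_value (by norm_num) h1).1
    rw [P.ord_pow] at h2
    push_cast at h2; omega
  have ordz : P.ord M.z = 0 := by
    have h1 : M.z ^ 7 - algebraMap ℂ F (-1) ∈ P.L 1 := by simpa using hpz
    have h2 := (Place.ord_eq_zero_of_value (by norm_num) h1).1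
    rw [P.ord_pow] at h2
    push_cast at h2; omega
  have hcancel : ∀ {a b : F}, a ≠ 0 → P.ord a = 0 → a * b ∈ P.L 1 → b ∈ P.L 1 := by
    intro a b ha ha0 hab
    by_cases hb : b = 0
    · left; exact hb
    right
    have := Place.le_ord_of_mem_L hab (mul_ne_zero ha hb)
    rw [P.ord_mul _ _ ha hb, ha0] at this
    omega
  have ht3 : (M.x * M.z) ^ 3 - 1 ∈ P.L 1 := by
    have e : (M.x * M.z) ^ 3 - 1 = ((M.x * M.z) * (M.x * M.z) + M.x * M.z + 1) * (M.x * M.z - 1) := by
      ring
    rw [e]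
    exact Place.mul_mem_L_zero (Submodule.add_mem _ (Submodule.add_mem _
      (Place.mul_mem_L_zero ht ht) ht) Place.one_mem_L) hq
  fin_cases i
  · exact Place.mul_mem_L_zero ht hq
  · exact Place.mul_mem_L_zero hz hq
  · exact Place.mul_mem_L_zero (hz' 2) hq
  · refine hcancel (a := M.x ^ 3) (pow_ne_zero _ M.x_ne_zero) (by rw [P.ord_pow, ordx]; simp) ?_
    show M.x ^ 3 * (M.z ^ 3 + M.x ^ 4) ∈ P.L 1
    have e : M.x ^ 3 * (M.z ^ 3 + M.x ^ 4) = ((M.x * M.z) ^ 3 - 1) + (M.x ^ 7 + 1) := by ring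
    rw [e]; exact Submodule.add_mem _ ht3 hpx
  · refine hcancel (a := M.z ^ 3) (pow_ne_zero _ M.z_ne_zero) (by rw [P.ord_pow, ordz]; simp) ?_
    show M.z ^ 3 * (M.x ^ 3 + M.z ^ 4) ∈ P.L 1
    have e : M.z ^ 3 * (M.x ^ 3 + M.z ^ 4) = ((M.x * M.z) ^ 3 - 1) + (M.z ^ 7 + 1) := by ring
    rw [e]; exact Submodule.add_mem _ ht3 hpz
  · exact Place.mul_mem_L_zero (hx' 2) hq
  · exact Place.mul_mem_L_zero hx hq

lemma w_mem_pole {P : Place F} (h : P.ord (M.x * M.z) < 0) (i : Fin 7) :
    M.w i ∈ P.L (4 * P.ord M.x) := by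
  obtain ⟨hx0, hzx, -⟩ := ord_at_pole h
  set o := P.ord M.x with ho
  have hx : M.x ∈ P.L o := Or.inr ho.ge
  have hz : M.z ∈ P.L o := Or.inr hzx.ge
  have hxn : ∀ n : ℕ, M.x ^ n ∈ P.L (n * o) := fun n => Place.pow_mem_L hx n
  have hzn : ∀ n : ℕ, M.z ^ n ∈ P.L (n * o) := fun n => Place.pow_mem_L hz n
  have ht : M.x * M.z ∈ P.L (2 * o) := by
    have := Place.mul_mem_L hx hz
    convert this using 2; ring
  have hq : M.x * M.z - 1 ∈ P.L (2 * o) :=
    Submodule.sub_mem _ ht (Place.L_mono (by omega) Place.one_mem_L)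
  fin_cases i
  · have := Place.mul_mem_L ht hq
    exact Place.L_mono (by omega) this
  · have := Place.mul_mem_L hz hq
    exact Place.L_mono (by omega) this
  · have := Place.mul_mem_L (hzn 2) hq
    exact Place.L_mono (by push_cast; omega) this
  · exact Submodule.add_mem _ (Place.L_mono (by push_cast; omega) (hzn 3))
      (Place.L_mono (by push_cast; omega) (hxn 4))
  · exact Submodule.add_mem _ (Place.L_mono (by push_cast; omega) (hxn 3))
      (Place.L_mono (by push_cast; omega) (hzn 4))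
  · have := Place.mul_mem_L (hxn 2) hq
    exact Place.L_mono (by push_cast; omega) this
  · have := Place.mul_mem_L hx hq
    exact Place.L_mono (by omega) this

lemma w_mem_condK (i : Fin 7) : M.w i ∈ condK M := by
  constructor
  · intro P c h
    have hs := two_ord_s h
    by_cases h0 : c = 0
    · subst h0
      have := w_mem_one_of_zero h i
      rw [ord_s_zero h]
      convert this using 2; ring
    by_cases h1 : c = 1
    · subst h1
      have := w_mem_one_of_one h i
      rw [ord_s_one h]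
      convert this using 2; ring
    have hle := Dl_mult_le h0 h1
    refine Place.L_mono ?_ (w_mem_zero h i)
    interval_cases hm : Dl.rootMultiplicity c
    · simp only [Nat.cast_zero, zero_mul] at hs; omega
    · simp only [Nat.cast_one, one_mul] at hs; omega
  · intro P h
    obtain ⟨hx0, hzx, hs⟩ := ord_at_pole h
    refine Place.L_mono ?_ (w_mem_pole h i)
    rw [hs, ord_t, hzx]
    push_cast; omega

theorem span_w_eq (hF : IsFunctionField F) (M : Model F) :
    Submodule.span ℂ (Set.range M.w) = condK M := by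
  refine le_antisymm (Submodule.span_le.mpr ?_) (condK_le hF M)
  rintro _ ⟨i, rfl⟩
  exact w_mem_condK i

theorem finrank_span_w (M : Model F) : finrank ℂ (Submodule.span ℂ (Set.range M.w)) = 7 := by
  rw [finrank_span_eq_card M.w_indep]; simp

/-- the genus is 7 -/
theorem genus_eq (hF : IsFunctionField F) (M : Model F) : genus F = 7 := by
  obtain ⟨e, he⟩ := exists_kaehler_coord hF M.t_notMem_range
  let f : Ω[F⁄ℂ] →ₗ[ℂ] F := ((LinearMap.mulLeft F M.s) ∘ₗ (e : Ω[F⁄ℂ] →ₗ[F] F)).restrictScalars ℂ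
  have hf : ∀ ω, f ω = M.s * e ω := fun ω => rfl
  have hinj : Function.Injective f := by
    intro a b hab
    rw [hf, hf] at hab
    exact e.injective (mul_left_cancel₀ M.s_ne_zero hab)
  have hmap : (regularDifferentials F).map f = Submodule.span ℂ (Set.range M.w) := by
    rw [span_w_eq hF M]
    have hreg : ∀ (ω : Ω[F⁄ℂ]), ω ∈ regularDifferentials F ↔ M.s * e ω ∈ condK M := by
      intro ω
      rw [mem_condK_iff hF he]
      show (∀ P : Place F, IsRegularAt P ω) ↔ _
      refine forall_congr' fun P => ?_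
      rw [regularAt_iff hF e P P.unif_ne_zero P.ord_unif]
      show e ω ∈ P.L (kd e P) ↔ _
      constructor
      · intro h
        exact Place.mul_mem_L (Or.inr le_rfl) h
      · intro h
        by_cases h0 : e ω = 0
        · left; exact h0
        right
        have := Place.le_ord_of_mem_L h (mul_ne_zero M.s_ne_zero h0)
        rw [P.ord_mul _ _ M.s_ne_zero h0] at this
        omega
    ext g
    rw [Submodule.mem_map]
    constructor
    · rintro ⟨ω, hω, rfl⟩
      exact (hreg ω).mp hω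
    · intro hg
      refine ⟨e.symm (M.s⁻¹ * g), ?_, ?_⟩
      · rw [hreg, LinearEquiv.apply_symm_apply, ← mul_assoc, mul_inv_cancel₀ M.s_ne_zero, one_mul]
        exact hg
      · rw [hf, LinearEquiv.apply_symm_apply, ← mul_assoc, mul_inv_cancel₀ M.s_ne_zero, one_mul]
  unfold genus
  rw [← finrank_span_w M, ← hmap]
  exact (LinearEquiv.finrank_eq (Submodule.equivMapOfInjective f hinj _))

end Model

end EtaleGonality
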