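import Pool.Agent.G7.Complete

/-!
# The spaces of regular and of Prym differentials
-/

open scoped IntermediateField
open Polynomial

namespace EtaleGonality

variable {F : Type} [Field F] [Algebra ℂ F]

namespace Model

variable {M : Model F}

/-- condition at the poles of `t` -/
def PoleCond (M : Model F) (r : ℕ) (g : F) : Prop :=
  ∀ P : Place F, P.ord (M.x * M.z) < 0 →
    g ∈ P.L (P.ord M.s + 1 - P.ord (M.x * M.z) + r * P.ord M.x)

/-- condition at the places over `t = 4` -/
def FourCond (M : Model F) (g : F) : Prop :=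
  ∀ P : Place F, 0 < P.ord (M.x * M.z - algebraMap ℂ F 4) → g ∈ P.L 1

lemma comap_τ_t0 (P : Place F) : (P.comap M.τ).ord (M.x * M.z) = P.ord (M.x * M.z) := by
  rw [Place.comap_ord, M.τ_t]

lemma comap_σ_t0 (P : Place F) : (P.comap M.σ).ord (M.x * M.z) = P.ord (M.x * M.z) := by
  rw [Place.comap_ord, M.σ_t]

lemma ord_σ_x (P : Place F) : P.ord (M.σ M.x) = P.ord M.x := by
  have hζ : M.ζ ≠ 0 := M.hζ.ne_zero (by norm_num)
  rw [M.σ_x, P.ord_mul _ _ (by simpa using hζ) M.x_ne_zero, P.ord_const, zero_add]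

lemma PoleCond.τ {r : ℕ} {g : F} (hg : PoleCond M r g) : PoleCond M r (M.τ g) := by
  intro P h
  have := hg (P.comap M.τ) (by rwa [comap_τ_t0])
  rw [comap_τ_t0, comap_τ_s, Place.mem_comap_L, Place.comap_ord, M.τ_x, (ord_at_pole h).2.1] at this
  exact this

lemma PoleCond.σ {r : ℕ} {g : F} (hg : PoleCond M r g) : PoleCond M r (M.σ g) := by
  intro P h
  have := hg (P.comap M.σ) (by rwa [comap_σ_t0])
  rw [comap_σ_t0, comap_σ_s, Place.mem_comap_L, Place.comap_ord, ord_σ_x] at this
  exact this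

lemma FourCond.σ {g : F} (hg : FourCond M g) : FourCond M (M.σ g) := by
  intro P h
  have := hg (P.comap M.σ) (by rwa [comap_σ_t])
  rwa [Place.mem_comap_L] at this

lemma FinCond.σ {g : F} (hg : FinCond M g) : FinCond M (M.σ g) := by
  intro P c h
  have := hg (P.comap M.σ) c (by rwa [comap_σ_t])
  rw [comap_σ_t, comap_σ_s, Place.mem_comap_L] at this
  exact this

variable (M) in
/-- regular differentials (as coefficients of `dt / s`) -/
def condK : Submodule ℂ F where
  carrier := {g | FinCond M g ∧ PoleCond M 0 g}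
  zero_mem' := ⟨fun _ _ _ => Submodule.zero_mem _, fun _ _ => Submodule.zero_mem _⟩
  add_mem' := fun ha hb => ⟨fun P c h => Submodule.add_mem _ (ha.1 P c h) (hb.1 P c h),
    fun P h => Submodule.add_mem _ (ha.2 P h) (hb.2 P h)⟩
  smul_mem' := fun u _ ha => ⟨fun P c h => Submodule.smul_mem _ u (ha.1 P c h),
    fun P h => Submodule.smul_mem _ u (ha.2 P h)⟩

variable (M) in
/-- Prym differentials -/
def condP : Submodule ℂ F where
  carrier := {g | (FinCond M g ∧ FourCond M g) ∧ PoleCond M 1 g}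
  zero_mem' := ⟨⟨fun _ _ _ => Submodule.zero_mem _, fun _ _ => Submodule.zero_mem _⟩,
    fun _ _ => Submodule.zero_mem _⟩
  add_mem' := fun ha hb => ⟨⟨fun P c h => Submodule.add_mem _ (ha.1.1 P c h) (hb.1.1 P c h),
    fun P h => Submodule.add_mem _ (ha.1.2 P h) (hb.1.2 P h)⟩,
    fun P h => Submodule.add_mem _ (ha.2 P h) (hb.2 P h)⟩
  smul_mem' := fun u _ ha => ⟨⟨fun P c h => Submodule.smul_mem _ u (ha.1.1 P c h),
    fun P h => Submodule.smul_mem _ u (ha.1.2 P h)⟩,
    fun P h => Submodule.smul_mem _ u (ha.2 P h)⟩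

/-- weight components -/
lemma weight_component (V : Submodule ℂ F) (hV : ∀ g ∈ V, M.σ g ∈ V) {G : ℕ → F}
    (hσ : ∀ k < 7, M.σ (G k) = (M.ζ ^ k) • G k) (hg : ∑ k ∈ Finset.range 7, G k ∈ V) :
    ∀ k < 7, G k ∈ V := by
  intro k hk
  have hζ0 : M.ζ ≠ 0 := M.hζ.ne_zero (by norm_num)
  set g := ∑ k ∈ Finset.range 7, G k with hgdef
  have hiter : ∀ j : ℕ, (M.σ ^ j) g ∈ V := by
    intro j
    induction j with
    | zero => simpa using hg
    | succ j ih => rw [pow_succ', AlgEquiv.mul_apply]; exact hV _ ih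
  have hG : ∀ j : ℕ, ∀ l < 7, (M.σ ^ j) (G l) = ((M.ζ ^ l) ^ j) • G l := by
    intro j l hl
    induction j with
    | zero => simp
    | succ j ih => rw [pow_succ', AlgEquiv.mul_apply, ih, map_smul, hσ l hl, smul_smul, pow_succ]
  have hsum : ∀ j : ℕ, (M.σ ^ j) g = ∑ l ∈ Finset.range 7, ((M.ζ ^ l) ^ j) • G l := by
    intro j
    rw [hgdef, map_sum]
    exact Finset.sum_congr rfl fun l hl => hG j l (Finset.mem_range.mp hl)
  have horth : ∀ l < 7, ∑ j ∈ Finset.range 7, ((M.ζ ^ k)⁻¹) ^ j * (M.ζ ^ l) ^ j =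
      if l = k then (7 : ℂ) else 0 := by
    intro l hl
    have e : ∀ j : ℕ, ((M.ζ ^ k)⁻¹) ^ j * (M.ζ ^ l) ^ j = (M.ζ ^ l * (M.ζ ^ k)⁻¹) ^ j := by
      intro j; rw [mul_pow]; ring
    simp only [e]
    split_ifs with hlk
    · rw [hlk, mul_inv_cancel₀ (pow_ne_zero _ hζ0)]; simp
    · set ρ := M.ζ ^ l * (M.ζ ^ k)⁻¹ with hρ
      have hρ1 : ρ ≠ 1 := by
        intro h1
        have h2 : M.ζ ^ l = M.ζ ^ k := by
          rw [hρ, mul_inv_eq_one₀ (pow_ne_zero _ hζ0)] at h1; exact h1
        exact hlk (M.hζ.pow_inj hl hk h2)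
      have hρ7 : ρ ^ 7 = 1 := by
        have h1 := M.hζ.pow_eq_one
        rw [hρ, mul_pow, inv_pow, ← pow_mul, ← pow_mul, mul_comm l, mul_comm k, pow_mul, pow_mul, h1]
        simp
      have h3 := mul_geom_sum ρ 7
      rw [hρ7, sub_self] at h3
      exact (mul_eq_zero.mp h3).resolve_left (sub_ne_zero.mpr hρ1)
  have hkey : ∑ j ∈ Finset.range 7, (((M.ζ ^ k)⁻¹) ^ j) • (M.σ ^ j) g = (7 : ℂ) • G k := by
    simp only [hsum, Finset.smul_sum, smul_smul]
    rw [Finset.sum_comm]
    simp only [← Finset.sum_smul]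
    rw [Finset.sum_eq_single k]
    · rw [horth k hk, if_pos rfl]
    · intro l hl hlk
      rw [horth l (Finset.mem_range.mp hl), if_neg hlk, zero_smul]
    · intro h; exact absurd (Finset.mem_range.mpr hk) h
  have h7 : (7 : ℂ) • G k ∈ V := by
    rw [← hkey]
    exact Submodule.sum_mem _ fun j _ => Submodule.smul_mem _ _ (hiter j)
  have := Submodule.smul_mem V ((7 : ℂ)⁻¹) h7
  rwa [smul_smul, inv_mul_cancel₀ (by norm_num), one_smul] at this

/-- decomposition of a function into weight components -/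
lemma exists_components (M : Model F) (g : F) : ∃ (c : ℂ[X]) (a b : ℕ → ℂ[X]) (G : ℕ → F), c ≠ 0 ∧
    g = ∑ k ∈ Finset.range 7, G k ∧ (∀ k < 7, M.σ (G k) = (M.ζ ^ k) • G k) ∧
    ∀ k, aeval (M.x * M.z) c * G k =
      aeval (M.x * M.z) (a k) * M.x ^ (7 - k) + aeval (M.x * M.z) (b k) * M.z ^ k := by
  obtain ⟨c, a, b, hc, h⟩ := M.gen g
  have hc' : aeval (M.x * M.z) c ≠ 0 := M.aeval_ne_zero hc
  have hζ0 : M.ζ ≠ 0 := M.hζ.ne_zero (by norm_num)
  refine ⟨c, a, b, fun k => (aeval (M.x * M.z) c)⁻¹ * (aeval (M.x * M.z) (a k) * M.x ^ (7 - k) +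
    aeval (M.x * M.z) (b k) * M.z ^ k), hc, ?_, ?_, ?_⟩
  · rw [← Finset.mul_sum, ← h, ← mul_assoc, inv_mul_cancel₀ hc', one_mul]
  · intro k hk
    have h7 : M.ζ ^ 7 = 1 := M.hζ.pow_eq_one
    have hz : (M.ζ⁻¹) ^ (7 - k) = M.ζ ^ k := by
      rw [inv_pow, inv_eq_iff_eq_inv, ← mul_eq_one_iff_eq_inv₀ (pow_ne_zero _ hζ0), ← pow_add]
      have : 7 - k + k = 7 := by omega
      rw [this, h7]
    rw [map_mul, map_inv₀, M.σ_aeval, map_add, map_mul, map_mul, M.σ_aeval, M.σ_aeval, map_pow,
      map_pow, M.σ_x, M.σ_z, mul_pow, mul_pow, ← map_pow, ← map_pow, hz, Algebra.smul_def]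
    ring
  · intro k
    rw [← mul_assoc, mul_inv_cancel₀ hc', one_mul]

lemma exists_pole (hF : IsFunctionField F) (M : Model F) :
    ∃ P : Place F, P.ord (M.x * M.z) < 0 := by
  have h : (M.x * M.z)⁻¹ ∉ (algebraMap ℂ F).range := by
    rintro ⟨c, hc⟩
    apply M.t_notMem_range
    exact ⟨c⁻¹, by rw [map_inv₀, hc, inv_inv]⟩
  obtain ⟨P, hP⟩ := exists_place hF h 0
  rw [map_zero, sub_zero, P.ord_inv] at hP
  exact ⟨P, by omega⟩

lemma comp_K (hF : IsFunctionField F) {k : ℕ} (hk : k < 7) {G : F} (hG : G ∈ condK M)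
    {c a b : ℂ[X]} (hc : c ≠ 0) (heq : aeval (M.x * M.z) c * G =
      aeval (M.x * M.z) a * M.x ^ (7 - k) + aeval (M.x * M.z) b * M.z ^ k) :
    G ∈ Submodule.span ℂ (Set.range M.w) := by
  obtain ⟨α, β, h⟩ := core hF hk hG.1 _ c a b rfl hc heq
  have h1 := core_one hF hk hG.1 h
  obtain ⟨P, hP⟩ := exists_pole hF M
  have hd := core_pole hk 0 hP (hG.2 P hP) (hG.2.τ P hP) h
  have key : ∀ (i : Fin 7) (u : ℂ), G = u • M.w i → G ∈ Submodule.span ℂ (Set.range M.w) := by
    intro i u hu
    rw [hu]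
    exact Submodule.smul_mem _ _ (Submodule.subset_span ⟨i, rfl⟩)
  have hzero : G = 0 → G ∈ Submodule.span ℂ (Set.range M.w) := by
    intro h0; rw [h0]; exact Submodule.zero_mem _
  interval_cases k
  · -- k = 0
    have hα : α = 0 := hd.1.resolve_right (by omega)
    have h0 := core_zero hF hG.1 h
    have hβ : β.natDegree ≤ 2 := by
      rcases hd.2 with h2 | h2
      · simp [h2]
      · omega
    have hq := Polynomial.eq_quadratic_of_degree_le_two (natDegree_le_iff_degree_le.mp hβ)
    set b2 := β.coeff 2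
    set b1 := β.coeff 1
    set b0 := β.coeff 0
    rw [hq, hα] at h1
    rw [hq] at h0
    simp at h0 h1
    refine key 0 b2 ?_
    have hb1 : b1 = -b2 := by linear_combination -h1 - h0
    rw [h, hα, hq, h0, hb1, Algebra.smul_def]
    simp [w]
    ring
  · -- k = 1
    have hα : α = 0 := hd.1.resolve_right (by omega)
    have hβ : β.natDegree ≤ 1 := by
      rcases hd.2 with h2 | h2
      · simp [h2]
      · omega
    have hq := Polynomial.eq_X_add_C_of_natDegree_le_one hβ
    set b1 := β.coeff 1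
    set b0 := β.coeff 0
    rw [hq, hα] at h1
    simp at h1
    refine key 1 b1 ?_
    have hb0 : b0 = -b1 := by linear_combination -h1
    rw [h, hα, hq, hb0, Algebra.smul_def]
    simp [w]
    ring
  · -- k = 2
    have hα : α = 0 := hd.1.resolve_right (by omega)
    have hβ : β.natDegree ≤ 1 := by
      rcases hd.2 with h2 | h2
      · simp [h2]
      · omega
    have hq := Polynomial.eq_X_add_C_of_natDegree_le_one hβ
    set b1 := β.coeff 1
    set b0 := β.coeff 0
    rw [hq, hα] at h1
    simp at h1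
    refine key 2 b1 ?_
    have hb0 : b0 = -b1 := by linear_combination -h1
    rw [h, hα, hq, hb0, Algebra.smul_def]
    simp [w]
    ring
  · -- k = 3
    have hα : α.natDegree = 0 := by
      rcases hd.1 with h2 | h2
      · simp [h2]
      · omega
    have hβ : β.natDegree = 0 := by
      rcases hd.2 with h2 | h2
      · simp [h2]
      · omega
    have hqa := Polynomial.eq_C_of_natDegree_eq_zero hα
    have hqb := Polynomial.eq_C_of_natDegree_eq_zero hβ
    set a0 := α.coeff 0
    set b0 := β.coeff 0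
    rw [hqa, hqb] at h1
    simp at h1
    refine key 3 a0 ?_
    rw [h, hqa, hqb, ← h1, Algebra.smul_def]
    simp [w]
    ring
  · -- k = 4
    have hα : α.natDegree = 0 := by
      rcases hd.1 with h2 | h2
      · simp [h2]
      · omega
    have hβ : β.natDegree = 0 := by
      rcases hd.2 with h2 | h2
      · simp [h2]
      · omega
    have hqa := Polynomial.eq_C_of_natDegree_eq_zero hα
    have hqb := Polynomial.eq_C_of_natDegree_eq_zero hβ
    set a0 := α.coeff 0
    set b0 := β.coeff 0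
    rw [hqa, hqb] at h1
    simp at h1
    refine key 4 a0 ?_
    rw [h, hqa, hqb, ← h1, Algebra.smul_def]
    simp [w]
    ring
  · -- k = 5
    have hβ : β = 0 := hd.2.resolve_right (by omega)
    have hα : α.natDegree ≤ 1 := by
      rcases hd.1 with h2 | h2
      · simp [h2]
      · omega
    have hq := Polynomial.eq_X_add_C_of_natDegree_le_one hα
    set a1 := α.coeff 1
    set a0 := α.coeff 0
    rw [hq, hβ] at h1
    simp at h1
    refine key 5 a1 ?_
    have ha0 : a0 = -a1 := by linear_combination h1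
    rw [h, hβ, hq, ha0, Algebra.smul_def]
    simp [w]
    ring
  · -- k = 6
    have hβ : β = 0 := hd.2.resolve_right (by omega)
    have hα : α.natDegree ≤ 1 := by
      rcases hd.1 with h2 | h2
      · simp [h2]
      · omega
    have hq := Polynomial.eq_X_add_C_of_natDegree_le_one hα
    set a1 := α.coeff 1
    set a0 := α.coeff 0
    rw [hq, hβ] at h1
    simp at h1
    refine key 6 a1 ?_
    have ha0 : a0 = -a1 := by linear_combination h1
    rw [h, hβ, hq, ha0, Algebra.smul_def]
    simp [w]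
    ring

theorem condK_le (hF : IsFunctionField F) (M : Model F) :
    condK M ≤ Submodule.span ℂ (Set.range M.w) := by
  intro g hg
  obtain ⟨c, a, b, G, hc, hsum, hσ, hG⟩ := exists_components M g
  have hmem := weight_component (condK M) (fun g h => ⟨h.1.σ, h.2.σ⟩) hσ (hsum ▸ hg)
  rw [hsum]
  exact Submodule.sum_mem _ fun k hk =>
    comp_K hF (Finset.mem_range.mp hk) (hmem k (Finset.mem_range.mp hk)) hc (hG k)

lemma comp_P (hF : IsFunctionField F) {k : ℕ} (hk : k < 7) {G : F} (hG : G ∈ condP M)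
    {c a b : ℂ[X]} (hc : c ≠ 0) (heq : aeval (M.x * M.z) c * G =
      aeval (M.x * M.z) a * M.x ^ (7 - k) + aeval (M.x * M.z) b * M.z ^ k) :
    G ∈ Submodule.span ℂ (Set.range M.p) := by
  obtain ⟨α, β, h⟩ := core hF hk hG.1.1 _ c a b rfl hc heq
  have h1 := core_one hF hk hG.1.1 h
  have h4 := core_four hF hk hG.1.2 h
  obtain ⟨P, hP⟩ := exists_pole hF M
  have hd := core_pole hk 1 hP (hG.2 P hP) (hG.2.τ P hP) h
  have key : ∀ (i : Fin 6) (u : ℂ), G = u • M.p i → G ∈ Submodule.span ℂ (Set.range M.p) := by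
    intro i u hu
    rw [hu]
    exact Submodule.smul_mem _ _ (Submodule.subset_span ⟨i, rfl⟩)
  have hzero : G = 0 → G ∈ Submodule.span ℂ (Set.range M.p) := by
    intro h0; rw [h0]; exact Submodule.zero_mem _
  interval_cases k
  · -- k = 0
    have hα : α = 0 := hd.1.resolve_right (by omega)
    have h0 := core_zero hF hG.1.1 h
    have hβ : β.natDegree ≤ 2 := by
      rcases hd.2 with h2 | h2
      · simp [h2]
      · omega
    have hq := Polynomial.eq_quadratic_of_degree_le_two (natDegree_le_iff_degree_le.mp hβ)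
    set b2 := β.coeff 2
    set b1 := β.coeff 1
    set b0 := β.coeff 0
    rw [hq, hα] at h1 h4
    rw [hq] at h0
    simp at h0 h1 h4
    apply hzero
    have hb2 : b2 = 0 := by linear_combination (1/12) * h4 + (1/3) * h1 + (1/4) * h0
    have hb1 : b1 = 0 := by linear_combination -h1 - h0 - hb2
    rw [h, hα, hq, h0, hb1, hb2]
    simp
  · -- k = 1
    have hα : α = 0 := hd.1.resolve_right (by omega)
    have hβ : β.natDegree ≤ 2 := by
      rcases hd.2 with h2 | h2
      · simp [h2]
      · omega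
    have hq := Polynomial.eq_quadratic_of_degree_le_two (natDegree_le_iff_degree_le.mp hβ)
    set b2 := β.coeff 2
    set b1 := β.coeff 1
    set b0 := β.coeff 0
    rw [hq, hα] at h1 h4
    simp at h1 h4
    refine key 0 b2 ?_
    have hb1 : b1 = -5 * b2 := by linear_combination (1/3) * h4 + (1/3) * h1
    have hb0 : b0 = 4 * b2 := by linear_combination -h1 - hb1
    rw [h, hα, hq, hb0, hb1, Algebra.smul_def]
    simp [p]
    simp only [map_ofNat]
    ring
  · -- k = 2
    have hα : α.natDegree = 0 := by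
      rcases hd.1 with h2 | h2
      · simp [h2]
      · omega
    have hβ : β.natDegree ≤ 1 := by
      rcases hd.2 with h2 | h2
      · simp [h2]
      · omega
    have hqa := Polynomial.eq_C_of_natDegree_eq_zero hα
    have hq := Polynomial.eq_X_add_C_of_natDegree_le_one hβ
    set a0 := α.coeff 0
    set b1 := β.coeff 1
    set b0 := β.coeff 0
    rw [hqa, hq] at h1 h4
    simp at h1 h4
    refine key 1 (-a0) ?_
    have hb1 : b1 = -3 * a0 := by linear_combination (1/48) * h4 + (1/3) * h1
    have hb0 : b0 = 4 * a0 := by linear_combination -h1 - hb1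
    rw [h, hqa, hq, hb0, hb1, Algebra.smul_def]
    simp [p]
    simp only [map_ofNat]
    ring
  · -- k = 3
    have hα : α.natDegree = 0 := by
      rcases hd.1 with h2 | h2
      · simp [h2]
      · omega
    have hβ : β.natDegree ≤ 1 := by
      rcases hd.2 with h2 | h2
      · simp [h2]
      · omega
    have hqa := Polynomial.eq_C_of_natDegree_eq_zero hα
    have hq := Polynomial.eq_X_add_C_of_natDegree_le_one hβ
    set a0 := α.coeff 0
    set b1 := β.coeff 1
    set b0 := β.coeff 0
    rw [hqa, hq] at h1 h4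
    simp at h1 h4
    refine key 2 (-a0) ?_
    have hb1 : b1 = -a0 := by linear_combination (1/192) * h4 + (1/3) * h1
    have hb0 : b0 = 2 * a0 := by linear_combination -h1 - hb1
    rw [h, hqa, hq, hb0, hb1, Algebra.smul_def]
    simp [p]
    simp only [map_ofNat]
    ring
  · -- k = 4
    have hβ : β.natDegree = 0 := by
      rcases hd.2 with h2 | h2
      · simp [h2]
      · omega
    have hα : α.natDegree ≤ 1 := by
      rcases hd.1 with h2 | h2
      · simp [h2]
      · omega
    have hqb := Polynomial.eq_C_of_natDegree_eq_zero hβ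
    have hq := Polynomial.eq_X_add_C_of_natDegree_le_one hα
    set b0 := β.coeff 0
    set a1 := α.coeff 1
    set a0 := α.coeff 0
    rw [hqb, hq] at h1 h4
    simp at h1 h4
    refine key 3 (-b0) ?_
    have ha1 : a1 = -b0 := by linear_combination (1/384) * h4 - (1/3) * h1
    have ha0 : a0 = 2 * b0 := by linear_combination h1 - ha1
    rw [h, hqb, hq, ha0, ha1, Algebra.smul_def]
    simp [p]
    simp only [map_ofNat]
    ring
  · -- k = 5
    have hβ : β.natDegree = 0 := by
      rcases hd.2 with h2 | h2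
      · simp [h2]
      · omega
    have hα : α.natDegree ≤ 1 := by
      rcases hd.1 with h2 | h2
      · simp [h2]
      · omega
    have hqb := Polynomial.eq_C_of_natDegree_eq_zero hβ
    have hq := Polynomial.eq_X_add_C_of_natDegree_le_one hα
    set b0 := β.coeff 0
    set a1 := α.coeff 1
    set a0 := α.coeff 0
    rw [hqb, hq] at h1 h4
    simp at h1 h4
    refine key 4 (-b0) ?_
    have ha1 : a1 = -3 * b0 := by linear_combination (1/384) * h4 - (1/3) * h1
    have ha0 : a0 = 4 * b0 := by linear_combination h1 - ha1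
    rw [h, hqb, hq, ha0, ha1, Algebra.smul_def]
    simp [p]
    simp only [map_ofNat]
    ring
  · -- k = 6
    have hβ : β = 0 := hd.2.resolve_right (by omega)
    have hα : α.natDegree ≤ 2 := by
      rcases hd.1 with h2 | h2
      · simp [h2]
      · omega
    have hq := Polynomial.eq_quadratic_of_degree_le_two (natDegree_le_iff_degree_le.mp hα)
    set a2 := α.coeff 2
    set a1 := α.coeff 1
    set a0 := α.coeff 0
    rw [hq, hβ] at h1 h4
    simp at h1 h4
    refine key 5 a2 ?_
    have ha1 : a1 = -5 * a2 := by linear_combination (1/3) * h4 - (1/3) * h1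
    have ha0 : a0 = 4 * a2 := by linear_combination h1 - ha1
    rw [h, hβ, hq, ha0, ha1, Algebra.smul_def]
    simp [p]
    simp only [map_ofNat]
    ring

theorem condP_le (hF : IsFunctionField F) (M : Model F) :
    condP M ≤ Submodule.span ℂ (Set.range M.p) := by
  intro g hg
  obtain ⟨c, a, b, G, hc, hsum, hσ, hG⟩ := exists_components M g
  have hmem := weight_component (condP M) (fun g h => ⟨⟨h.1.1.σ, h.1.2.σ⟩, h.2.σ⟩) hσ (hsum ▸ hg)
  rw [hsum]
  exact Submodule.sum_mem _ fun k hk =>
    comp_P hF (Finset.mem_range.mp hk) (hmem k (Finset.mem_range.mp hk)) hc (hG k)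

end Model

end EtaleGonality
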