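import Mathlib

/-! T4, part 1: irreducibility of the defining polynomial -/

open Polynomial

namespace EtaleGonality.T4

/-- the defining polynomial `Z^7 - 9 x^3 Z^3 + 23 x^2 Z^2 - 12 x Z + x^7` -/
noncomputable def f : ℂ[X][X] :=
  X ^ 7 + (C (-9 * X ^ 3) * X ^ 3 + C (23 * X ^ 2) * X ^ 2 + C (-12 * X) * X + C (X ^ 7))

theorem f_natDegree_lt : (C (-9 * X ^ 3 : ℂ[X]) * X ^ 3 + C (23 * X ^ 2) * X ^ 2 + C (-12 * X) * X +
    C (X ^ 7) : ℂ[X][X]).degree < 7 := by
  have h1 : (C (-9 * X ^ 3 : ℂ[X]) * X ^ 3 : ℂ[X][X]).degree ≤ 3 := degree_C_mul_X_pow_le _ _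
  have h2 : (C (23 * X ^ 2 : ℂ[X]) * X ^ 2 : ℂ[X][X]).degree ≤ 2 := degree_C_mul_X_pow_le _ _
  have h3 : (C (-12 * X : ℂ[X]) * X : ℂ[X][X]).degree ≤ 1 := degree_C_mul_X_le _
  have h4 : (C (X ^ 7 : ℂ[X]) : ℂ[X][X]).degree ≤ 0 := degree_C_le
  refine lt_of_le_of_lt (degree_add_le _ _) (max_lt (lt_of_le_of_lt (degree_add_le _ _)
    (max_lt (lt_of_le_of_lt (degree_add_le _ _) (max_lt ?_ ?_)) ?_)) ?_)
  · exact lt_of_le_of_lt h1 (by norm_num)
  · exact lt_of_le_of_lt h2 (by norm_num)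
  · exact lt_of_le_of_lt h3 (by norm_num)
  · exact lt_of_le_of_lt h4 (by norm_num)

theorem f_monic : f.Monic := monic_X_pow_add f_natDegree_lt

theorem f_natDegree : f.natDegree = 7 := by
  unfold f
  rw [natDegree_add_eq_left_of_degree_lt]
  · simp
  · rw [degree_X_pow]; exact f_natDegree_lt

theorem f_map : f.map (evalRingHom (0 : ℂ)) = X ^ 7 := by
  unfold f
  simp [Polynomial.map_add, Polynomial.map_mul, Polynomial.map_pow]

theorem f_coeff_one : f.coeff 1 = -12 * X := by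
  unfold f
  simp only [coeff_add, coeff_X_pow, coeff_C_mul, coeff_X_one, coeff_C]
  norm_num

/-- a monic divisor of `X^7` is a power of `X` -/
theorem eq_X_pow_of_dvd {g h : ℂ[X]} (hg : g.Monic) (h1 : g * h = X ^ 7) :
    g = X ^ g.natDegree := by
  have hdvd : g ∣ X ^ 7 := ⟨h, h1.symm⟩
  obtain ⟨i, hi, hass⟩ := (dvd_prime_pow prime_X 7).1 hdvd
  have : g = X ^ i := eq_of_monic_of_associated hg (monic_X_pow i) hass
  rw [this, natDegree_X_pow]

theorem dvd_coeff {g h : ℂ[X][X]} (hg : g.Monic) (h1 : g * h = f) {j : ℕ}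
    (hj : j < g.natDegree) : X ∣ g.coeff j := by
  have h2 : g.map (evalRingHom (0 : ℂ)) * h.map (evalRingHom (0 : ℂ)) = X ^ 7 := by
    rw [← Polynomial.map_mul, h1, f_map]
  have h3 := eq_X_pow_of_dvd (hg.map _) h2
  rw [hg.natDegree_map] at h3
  have h4 : (g.map (evalRingHom (0 : ℂ))).coeff j = 0 := by
    rw [h3, coeff_X_pow]
    simp [hj.ne]
  rw [coeff_map] at h4
  rw [X_dvd_iff, coeff_zero_eq_eval_zero]
  exact h4

theorem no_root (α : ℂ[X]) (hα : X ∣ α) : f.eval α ≠ 0 := by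
  intro h
  obtain ⟨β, rfl⟩ := hα
  unfold f at h
  simp only [eval_add, eval_mul, eval_pow, eval_X, eval_C] at h
  have h2 : X ^ 2 * (X ^ 5 * β ^ 7 - 9 * X ^ 4 * β ^ 3 + 23 * X ^ 2 * β ^ 2 - 12 * β + X ^ 5) =
      (0 : ℂ[X]) := by
    linear_combination h
  have h3 : X ^ 5 * β ^ 7 - 9 * X ^ 4 * β ^ 3 + 23 * X ^ 2 * β ^ 2 - 12 * β + X ^ 5 = (0 : ℂ[X]) := by
    rcases mul_eq_zero.mp h2 with h3 | h3
    · exact absurd h3 (pow_ne_zero _ X_ne_zero)
    · exact h3
  have hβ0 : β ≠ 0 := by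
    rintro rfl
    simp at h3
  have hdeg : (X ^ 5 * β ^ 7 : ℂ[X]).natDegree = 5 + 7 * β.natDegree := by
    rw [natDegree_mul (pow_ne_zero _ X_ne_zero) (pow_ne_zero _ hβ0), natDegree_X_pow,
      natDegree_pow]
  by_cases hm : β.natDegree = 0
  · rw [natDegree_eq_zero] at hm
    obtain ⟨c, rfl⟩ := hm
    have h4 := congrArg (fun p => p.eval 0) h3
    have hc : c = 0 := by
      simpa using h4
    exact hβ0 (by rw [hc, map_zero])
  · have h4 : X ^ 5 * β ^ 7 = 9 * X ^ 4 * β ^ 3 - 23 * X ^ 2 * β ^ 2 + 12 * β - X ^ 5 := by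
      linear_combination h3
    have h5 : (9 * X ^ 4 * β ^ 3 - 23 * X ^ 2 * β ^ 2 + 12 * β - X ^ 5 : ℂ[X]).natDegree ≤
        4 + 3 * β.natDegree := by
      have a1 : (9 * X ^ 4 * β ^ 3 : ℂ[X]).natDegree ≤ 4 + 3 * β.natDegree := by
        have : (9 * X ^ 4 * β ^ 3 : ℂ[X]) = C 9 * (X ^ 4 * β ^ 3) := by
          have : (9 : ℂ[X]) = C 9 := rfl
          rw [this]; ring
        rw [this]
        refine (natDegree_C_mul_le _ _).trans (natDegree_mul_le.trans ?_)
        rw [natDegree_X_pow, natDegree_pow]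
      have a2 : (23 * X ^ 2 * β ^ 2 : ℂ[X]).natDegree ≤ 4 + 3 * β.natDegree := by
        have : (23 * X ^ 2 * β ^ 2 : ℂ[X]) = C 23 * (X ^ 2 * β ^ 2) := by
          have : (23 : ℂ[X]) = C 23 := rfl
          rw [this]; ring
        rw [this]
        refine (natDegree_C_mul_le _ _).trans (natDegree_mul_le.trans ?_)
        rw [natDegree_X_pow, natDegree_pow]
        omega
      have a3 : (12 * β : ℂ[X]).natDegree ≤ 4 + 3 * β.natDegree := by
        have : (12 * β : ℂ[X]) = C 12 * β := rfl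
        rw [this]
        refine (natDegree_C_mul_le _ _).trans ?_
        omega
      have a4 : (X ^ 5 : ℂ[X]).natDegree ≤ 4 + 3 * β.natDegree := by
        rw [natDegree_X_pow]; omega
      refine (natDegree_sub_le _ _).trans (max_le ((natDegree_add_le _ _).trans (max_le
        ((natDegree_sub_le _ _).trans (max_le a1 a2)) a3)) a4)
    rw [← h4, hdeg] at h5
    omega

theorem f_irreducible : Irreducible f := by
  rw [f_monic.irreducible_iff_natDegree']
  refine ⟨?_, ?_⟩
  · intro h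
    have := f_natDegree
    rw [h] at this
    simp at this
  · intro g h hg hh hgh hmem
    rw [f_natDegree, Finset.mem_Ioc] at hmem
    have hdeg : g.natDegree + h.natDegree = 7 := by
      rw [← hg.natDegree_mul hh, hgh, f_natDegree]
    by_cases h1 : h.natDegree = 1
    · -- `h = Z - α`
      have hh1 : h = X + C (h.coeff 0) := by
        have := hh.eq_X_add_C h1
        exact this
      have hroot : f.eval (-(h.coeff 0)) = 0 := by
        rw [← hgh, eval_mul]
        have : h.eval (-(h.coeff 0)) = 0 := by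
          conv_lhs => rw [hh1]
          simp
        rw [this, mul_zero]
      have hdvd : X ∣ h.coeff 0 := dvd_coeff hh (by rw [mul_comm]; exact hgh) (by omega)
      exact no_root _ ((dvd_neg).mpr hdvd) hroot
    · have h2 : 2 ≤ h.natDegree := by omega
      have h3 : 2 ≤ g.natDegree := by omega
      obtain ⟨g0, hg0⟩ := dvd_coeff hg hgh (j := 0) (by omega)
      obtain ⟨g1, hg1⟩ := dvd_coeff hg hgh (j := 1) (by omega)
      obtain ⟨h0, hh0⟩ := dvd_coeff hh (by rw [mul_comm]; exact hgh) (j := 0) (by omega)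
      obtain ⟨h1, hh1⟩ := dvd_coeff hh (by rw [mul_comm]; exact hgh) (j := 1) (by omega)
      have hc : f.coeff 1 = g.coeff 0 * h.coeff 1 + g.coeff 1 * h.coeff 0 := by
        rw [← hgh, coeff_mul]
        rw [Finset.Nat.antidiagonal_succ]
        simp
      rw [f_coeff_one, hg0, hg1, hh0, hh1] at hc
      have hc2 : X * (-12 - X * (g0 * h1 + g1 * h0)) = (0 : ℂ[X]) := by linear_combination hc
      have hc3 : (-12 : ℂ[X]) - X * (g0 * h1 + g1 * h0) = 0 := by
        rcases mul_eq_zero.mp hc2 with h | h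
        · exact absurd h X_ne_zero
        · exact h
      have hc4 := congrArg (fun p => p.eval 0) hc3
      simp at hc4

theorem f_prime : Prime f := f_irreducible.prime

end EtaleGonality.T4
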