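import Pool.Agent.G7.T4a

/-! T4, part 2: the ring `A = ℂ[x,z]/(f)`, its fraction field and the automorphisms -/

open Polynomial

namespace EtaleGonality.T4

/-- the coordinate ring -/
abbrev A : Type := AdjoinRoot f

noncomputable instance : IsDomain A := AdjoinRoot.isDomain_of_prime f_prime

/-- coordinate functions -/
noncomputable def xA : A := AdjoinRoot.of f X
/-- coordinate functions -/
noncomputable def zA : A := AdjoinRoot.root f

theorem eval₂_f {T : Type*} [CommRing T] [Algebra ℂ T] (i : ℂ[X] →ₐ[ℂ] T) (y : T) :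
    f.eval₂ (i : ℂ[X] →+* T) y =
      y ^ 7 - 9 * (i X) ^ 3 * y ^ 3 + 23 * (i X) ^ 2 * y ^ 2 - 12 * (i X) * y + (i X) ^ 7 := by
  unfold f
  simp only [eval₂_add, eval₂_mul, eval₂_pow, eval₂_X, eval₂_C]
  simp only [RingHom.coe_coe, map_mul, map_pow, map_neg, map_ofNat]
  ring

theorem relA : zA ^ 7 - 9 * xA ^ 3 * zA ^ 3 + 23 * xA ^ 2 * zA ^ 2 - 12 * xA * zA + xA ^ 7 = 0 := by
  have h := AdjoinRoot.eval₂_root f
  have h2 := eval₂_f (AdjoinRoot.ofAlgHom ℂ f) (AdjoinRoot.root f)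
  rw [AdjoinRoot.toRingHom_ofAlgHom, h] at h2
  exact h2.symm

theorem aux_σ (c : ℂ) (hc : c ^ 7 = 1) :
    f.eval₂ ((aeval (algebraMap ℂ A c⁻¹ * xA) : ℂ[X] →ₐ[ℂ] A) : ℂ[X] →+* A)
      (algebraMap ℂ A c * zA) = 0 := by
  rw [eval₂_f, aeval_X]
  have hc0 : c ≠ 0 := by rintro rfl; norm_num at hc
  have h1 : algebraMap ℂ A c * algebraMap ℂ A c⁻¹ = 1 := by
    rw [← map_mul, mul_inv_cancel₀ hc0, map_one]
  have h7 : (algebraMap ℂ A c) ^ 7 = 1 := by rw [← map_pow, hc, map_one]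
  have h7' : (algebraMap ℂ A c⁻¹) ^ 7 = 1 := by rw [← map_pow, inv_pow, hc, inv_one, map_one]
  generalize algebraMap ℂ A c = a at *
  generalize algebraMap ℂ A c⁻¹ = b at *
  have h2 : (a * b) ^ 2 = 1 := by rw [h1]; ring
  have h3 : (a * b) ^ 3 = 1 := by rw [h1]; ring
  linear_combination relA + zA ^ 7 * h7 + xA ^ 7 * h7' - 9 * xA ^ 3 * zA ^ 3 * h3 +
    23 * xA ^ 2 * zA ^ 2 * h2 - 12 * xA * zA * h1

/-- `x ↦ c⁻¹ x`, `z ↦ c z` -/
noncomputable def σHom (c : ℂ) (hc : c ^ 7 = 1) : A →ₐ[ℂ] A :=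
  AdjoinRoot.liftAlgHom f (aeval (algebraMap ℂ A c⁻¹ * xA)) (algebraMap ℂ A c * zA) (aux_σ c hc)

theorem σHom_x (c : ℂ) (hc : c ^ 7 = 1) : σHom c hc xA = algebraMap ℂ A c⁻¹ * xA := by
  exact (AdjoinRoot.liftAlgHom_of f (aeval (algebraMap ℂ A c⁻¹ * xA)) (algebraMap ℂ A c * zA)
    (aux_σ c hc) X).trans (aeval_X _)

theorem σHom_z (c : ℂ) (hc : c ^ 7 = 1) : σHom c hc zA = algebraMap ℂ A c * zA := by
  unfold σHom
  exact AdjoinRoot.liftAlgHom_root _ _ _ _

theorem hom_ext {g h : A →ₐ[ℂ] A} (hx : g xA = h xA) (hz : g zA = h zA) : g = h := by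
  apply AdjoinRoot.algHom_ext'
  · apply Polynomial.algHom_ext
    exact hx
  · exact hz

/-- the automorphism of order 7 on the coordinate ring -/
noncomputable def σA (c : ℂ) (hc : c ^ 7 = 1) : A ≃ₐ[ℂ] A :=
  AlgEquiv.ofAlgHom (σHom c hc) (σHom c⁻¹ (by rw [inv_pow, hc, inv_one]))
    (by
      have hc0 : c ≠ 0 := by rintro rfl; norm_num at hc
      apply hom_ext
      · simp only [AlgHom.comp_apply, σHom_x, map_mul, AlgHom.commutes, AlgHom.id_apply]
        rw [← mul_assoc, ← map_mul, inv_inv, mul_inv_cancel₀ hc0, map_one, one_mul]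
      · simp only [AlgHom.comp_apply, σHom_z, map_mul, AlgHom.commutes, AlgHom.id_apply]
        rw [← mul_assoc, ← map_mul, inv_mul_cancel₀ hc0, map_one, one_mul])
    (by
      have hc0 : c ≠ 0 := by rintro rfl; norm_num at hc
      apply hom_ext
      · simp only [AlgHom.comp_apply, σHom_x, map_mul, AlgHom.commutes, AlgHom.id_apply]
        rw [← mul_assoc, ← map_mul, inv_inv, inv_mul_cancel₀ hc0, map_one, one_mul]
      · simp only [AlgHom.comp_apply, σHom_z, map_mul, AlgHom.commutes, AlgHom.id_apply]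
        rw [← mul_assoc, ← map_mul, mul_inv_cancel₀ hc0, map_one, one_mul])

theorem aux_τ : f.eval₂ ((aeval zA : ℂ[X] →ₐ[ℂ] A) : ℂ[X] →+* A) xA = 0 := by
  rw [eval₂_f, aeval_X]
  linear_combination relA

/-- the swap -/
noncomputable def τHom : A →ₐ[ℂ] A := AdjoinRoot.liftAlgHom f (aeval zA) xA aux_τ

theorem τHom_x : τHom xA = zA := by
  exact (AdjoinRoot.liftAlgHom_of f (aeval zA) xA aux_τ X).trans (aeval_X _)

theorem τHom_z : τHom zA = xA := by
  unfold τHom
  exact AdjoinRoot.liftAlgHom_root _ _ _ _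

/-- the swap as an automorphism -/
noncomputable def τA : A ≃ₐ[ℂ] A :=
  AlgEquiv.ofAlgHom τHom τHom
    (by apply hom_ext <;> simp [τHom_x, τHom_z])
    (by apply hom_ext <;> simp [τHom_x, τHom_z])

/-- the function field -/
abbrev FF : Type := FractionRing A

noncomputable def xF : FF := algebraMap A FF xA
noncomputable def zF : FF := algebraMap A FF zA

theorem relF : xF ^ 7 + zF ^ 7 = 12 * (xF * zF) - 23 * (xF * zF) ^ 2 + 9 * (xF * zF) ^ 3 := by
  have h := congrArg (algebraMap A FF) relA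
  simp only [map_add, map_sub, map_mul, map_pow, map_ofNat, map_zero] at h
  change zF ^ 7 - 9 * xF ^ 3 * zF ^ 3 + 23 * xF ^ 2 * zF ^ 2 - 12 * xF * zF + xF ^ 7 = 0 at h
  linear_combination h

theorem x_transcendental : Transcendental ℂ xF := by
  have hinj : Function.Injective (AdjoinRoot.of f) :=
    AdjoinRoot.of.injective_of_degree_ne_zero (by
      rw [Polynomial.degree_eq_natDegree f_monic.ne_zero, f_natDegree]; norm_num)
  intro ⟨p, hp0, hp⟩
  apply hp0
  have h1 : aeval xF p = algebraMap A FF (AdjoinRoot.of f p) := by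
    have h2 : aeval xF p = algebraMap A FF (aeval xA p) := by
      unfold xF
      rw [aeval_algebraMap_apply]
    rw [h2]
    congr 1
    have h3 : (aeval xA : ℂ[X] →ₐ[ℂ] A) = AdjoinRoot.ofAlgHom ℂ f := by
      apply Polynomial.algHom_ext
      rw [aeval_X]; rfl
    rw [h3]; rfl
  rw [h1] at hp
  have h4 : AdjoinRoot.of f p = 0 := by
    apply (IsFractionRing.injective A FF)
    rw [hp, map_zero]
  exact hinj (by rw [h4, map_zero])

/-- automorphisms of the function field -/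
noncomputable def σF (c : ℂ) (hc : c ^ 7 = 1) : FF ≃ₐ[ℂ] FF :=
  IsFractionRing.algEquivOfAlgEquiv (σA c hc)

noncomputable def τF : FF ≃ₐ[ℂ] FF := IsFractionRing.algEquivOfAlgEquiv τA

theorem σF_x (c : ℂ) (hc : c ^ 7 = 1) : σF c hc xF = algebraMap ℂ FF c⁻¹ * xF := by
  unfold σF xF
  rw [IsFractionRing.algEquivOfAlgEquiv_algebraMap]
  have : σA c hc xA = algebraMap ℂ A c⁻¹ * xA := σHom_x c hc
  rw [this, map_mul]
  rfl

theorem σF_z (c : ℂ) (hc : c ^ 7 = 1) : σF c hc zF = algebraMap ℂ FF c * zF := by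
  unfold σF zF
  rw [IsFractionRing.algEquivOfAlgEquiv_algebraMap]
  have : σA c hc zA = algebraMap ℂ A c * zA := σHom_z c hc
  rw [this, map_mul]
  rfl

theorem τF_x : τF xF = zF := by
  unfold τF xF
  rw [IsFractionRing.algEquivOfAlgEquiv_algebraMap]
  have : τA xA = zA := τHom_x
  rw [this]; rfl

theorem τF_z : τF zF = xF := by
  unfold τF zF
  rw [IsFractionRing.algEquivOfAlgEquiv_algebraMap]
  have : τA zA = xA := τHom_z
  rw [this]; rfl

end EtaleGonality.T4
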